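import Pool.Agent.MP_249f74_an.H17.Api

/-!
A calculus of derivations and one-forms on a field.
-/

open Set IntermediateField

namespace Pool.Agent.MP_249f74_an.H96

open H17 (Der Two Kr St mem_Kr mem_St kill_cl stab_cl cl_le cl_mono mem_cl_iff)
open H88 (rk cl subset_cl coe_cl mem_cl)

variable {C Ω : Type} [Field C] [Field Ω] [Algebra C Ω]

/-- `θ` vanishes on `S`. -/
def Kil (S : Set Ω) (θ : Der C Ω) : Prop := ∀ f ∈ S, θ f = 0

/-- `θ` and `φ` agree on `S`. -/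
def Agr (S : Set Ω) (θ φ : Der C Ω) : Prop := ∀ f ∈ S, θ f = φ f

/-- `θ` maps `M` to itself. -/
def Pres (M : IntermediateField C Ω) (θ : Der C Ω) : Prop := ∀ f ∈ M, θ f ∈ M

variable (C) in
/-- `X` and `K` are independent over `K0`. -/
def Ind (X K K0 : Set Ω) : Prop := ∀ θ : Der C Ω, Kil K0 θ → ∃ φ : Der C Ω, Kil X φ ∧ Agr K φ θ

/-- One-forms. -/
abbrev Fm (C Ω : Type) [Field C] [Field Ω] [Algebra C Ω] := Der C Ω →ₗ[Ω] Ω

/-- The exterior derivative. -/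
def dd (ω : Fm C Ω) (θ φ : Der C Ω) : Ω := θ (ω φ) - φ (ω θ) - ω ⁅θ, φ⁆

/-- Closed forms. -/
def Cls (ω : Fm C Ω) : Prop := ∀ θ φ, dd ω θ φ = 0

/-- The form only depends on the restriction to `S`. -/
def Van (ω : Fm C Ω) (S : Set Ω) : Prop := ∀ θ, Kil S θ → ω θ = 0

/-- Infinite transcendence degree. -/
def Big (C Ω : Type) [Field C] [Field Ω] [Algebra C Ω] : Prop := rk C (univ : Set Ω) = ⊤

/-- The differential of an element. -/
def dif (f : Ω) : Fm C Ω where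
  toFun θ := θ f
  map_add' _ _ := rfl
  map_smul' _ _ := rfl

@[simp] lemma dif_apply (f : Ω) (θ : Der C Ω) : dif f θ = θ f := rfl

lemma br_apply (θ φ : Der C Ω) (f : Ω) : ⁅θ, φ⁆ f = θ (φ f) - φ (θ f) :=
  Derivation.commutator_apply f

lemma sum_apply {ι : Type} (s : Finset ι) (θ : ι → Der C Ω) (f : Ω) :
    (∑ i ∈ s, θ i) f = ∑ i ∈ s, θ i f := map_sum (dif f) θ s

section Basic

variable {S T X K K0 : Set Ω} {θ φ ψ : Der C Ω}

lemma Kil.mono (h : Kil T θ) (hS : S ⊆ T) : Kil S θ := fun f hf => h f (hS hf)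

lemma Agr.mono (h : Agr T θ φ) (hS : S ⊆ T) : Agr S θ φ := fun f hf => h f (hS hf)

lemma Agr.symm (h : Agr S θ φ) : Agr S φ θ := fun f hf => (h f hf).symm

lemma Agr.trans (h : Agr S θ φ) (h' : Agr S φ ψ) : Agr S θ ψ := fun f hf =>
  (h f hf).trans (h' f hf)

lemma agr_iff : Agr S θ φ ↔ Kil S (θ - φ) := by
  simp only [Agr, Kil, Derivation.sub_apply, sub_eq_zero]

lemma Kil.union (h : Kil S θ) (h' : Kil T θ) : Kil (S ∪ T) θ := fun f hf =>
  hf.elim (h f) (h' f)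

lemma Agr.union (h : Agr S θ φ) (h' : Agr T θ φ) : Agr (S ∪ T) θ φ := fun f hf =>
  hf.elim (h f) (h' f)

lemma Kil.of_agr (h : Kil S φ) (h' : Agr S θ φ) : Kil S θ := fun f hf =>
  (h' f hf).trans (h f hf)

lemma Kil.cl [CharZero Ω] (h : Kil S θ) : Kil (cl C S : Set Ω) θ := fun _ hf => kill_cl h hf

lemma Agr.cl [CharZero Ω] (h : Agr S θ φ) : Agr (cl C S : Set Ω) θ φ :=
  agr_iff.2 (agr_iff.1 h).cl

lemma Kil.br (h : Kil S θ) (h' : Kil S φ) : Kil S ⁅θ, φ⁆ := fun f hf => by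
  rw [br_apply, h f hf, h' f hf, map_zero, map_zero, sub_self]

lemma Pres.br {M : IntermediateField C Ω} (h : Pres M θ) (h' : Pres M φ) : Pres M ⁅θ, φ⁆ :=
  fun f hf => by rw [br_apply]; exact sub_mem (h _ (h' f hf)) (h' _ (h f hf))

lemma pres_cl [CharZero Ω] (h : ∀ s ∈ S, θ s ∈ cl C S) : Pres (cl C S) θ := fun _ hf =>
  stab_cl h hf

lemma cl_cl (S : Set Ω) : cl C (cl C S : Set Ω) = cl C S :=
  le_antisymm (cl_le subset_rfl) (subset_cl _)

lemma cl_Kr [CharZero Ω] (δ : Der C Ω) : cl C (Kr δ : Set Ω) = Kr δ :=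
  le_antisymm (fun _ hx => kill_cl (fun _ h => h) hx) (subset_cl _)

lemma Van.agr {ω : Fm C Ω} (h : Van ω S) (h' : Agr S θ φ) : ω θ = ω φ := by
  rw [← sub_eq_zero, ← map_sub]; exact h _ (agr_iff.1 h')

lemma Van.mono {ω : Fm C Ω} (h : Van ω S) (hS : S ⊆ T) : Van ω T := fun θ hθ =>
  h θ (hθ.mono hS)

lemma Van.of_cl [CharZero Ω] {ω : Fm C Ω} (h : Van ω (cl C S : Set Ω)) : Van ω S := fun θ hθ =>
  h θ hθ.cl

lemma Ind.symm (h : Ind C X K K0) : Ind C K X K0 := fun θ hθ => by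
  obtain ⟨φ, h1, h2⟩ := h θ hθ
  exact ⟨θ - φ, agr_iff.1 h2.symm, fun f hf => by simp [h1 f hf]⟩

lemma Ind.mono {X' K' : Set Ω} (h : Ind C X K K0) (hX : X' ⊆ X) (hK : K' ⊆ K) :
    Ind C X' K' K0 := fun θ hθ => by
  obtain ⟨φ, h1, h2⟩ := h θ hθ
  exact ⟨φ, h1.mono hX, h2.mono hK⟩

lemma Ind.base [CharZero Ω] {K1 : Set Ω} (h : Ind C X K K0) (hK : K0 ⊆ cl C K1) :
    Ind C X K K1 := fun θ hθ => h θ (hθ.cl.mono hK)

lemma Ind.cl [CharZero Ω] (h : Ind C X K K0) : Ind C (cl C X : Set Ω) (cl C K : Set Ω) K0 :=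
  fun θ hθ => by
    obtain ⟨φ, h1, h2⟩ := h θ hθ
    exact ⟨φ, h1.cl, h2.cl⟩

/-- Gluing. -/
lemma Ind.glue (h : Ind C X K K0) {θ1 θ2 : Der C Ω} (h0 : Agr K0 θ1 θ2) :
    ∃ θ : Der C Ω, Agr K θ θ1 ∧ Agr X θ θ2 := by
  obtain ⟨φ, h1, h2⟩ := h _ (agr_iff.1 h0)
  exact ⟨θ2 + φ, fun f hf => by simp [h2 f hf], fun f hf => by simp [h1 f hf]⟩

end Basic

section Ext

variable [CharZero Ω]

/-- Prescribing values on elements independent over a subfield. -/
lemma ext_indep (K : IntermediateField C Ω) {ι : Type} {v : ι → Ω} (hv : AlgebraicIndependent K v)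
    (θ : Der C Ω) (a : ι → Ω) : ∃ φ : Der C Ω, Agr K φ θ ∧ ∀ i, φ (v i) = a i := by
  have : CharZero K := algebraRat.charZero _
  obtain ⟨ψ, hψ⟩ := H97.der_exists_of_indep hv fun i => a i - θ (v i)
  exact ⟨θ + ψ.restrictScalars C, fun f hf => by
    have : ψ f = 0 := ψ.map_algebraMap ⟨f, hf⟩
    simp [this], fun i => by simp [hψ]⟩

omit [CharZero Ω] in
lemma indep_one {S : Set Ω} {x : Ω} (h : x ∉ cl C S) :
    AlgebraicIndependent (cl C S) fun _ : Unit => x :=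
  algebraicIndependent_unique_type_iff.2 fun h' => h (cl_cl (C := C) S ▸ mem_cl_iff.2 h')

/-- Prescribing the value on one new element. -/
lemma ext_one {S : Set Ω} {x : Ω} (h : x ∉ cl C S) (θ : Der C Ω) (a : Ω) :
    ∃ φ : Der C Ω, Agr (cl C S : Set Ω) φ θ ∧ φ x = a := by
  obtain ⟨φ, h1, h2⟩ := ext_indep _ (indep_one h) θ fun _ => a
  exact ⟨φ, h1, h2 ()⟩

lemma sep {S : Set Ω} {x : Ω} (h : x ∉ cl C S) : ∃ θ : Der C Ω, Kil S θ ∧ θ x = 1 := by
  obtain ⟨φ, h1, h2⟩ := ext_one h 0 1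
  exact ⟨φ, fun f hf => h1 f (subset_cl _ hf), h2⟩

lemma mem_cl_of_kil {S : Set Ω} {x : Ω} (h : ∀ θ : Der C Ω, Kil S θ → θ x = 0) : x ∈ cl C S := by
  by_contra hn
  obtain ⟨θ, h1, h2⟩ := sep hn
  exact one_ne_zero (h2.symm.trans (h θ h1))

/-- Exchange in terms of a derivation. -/
lemma mem_cl_of_der {S : Set Ω} {x t : Ω} {δ : Der C Ω} (h : x ∈ cl C (insert t S)) (hS : Kil S δ)
    (hx : δ x = 0) (ht : δ t ≠ 0) : x ∈ cl C S :=
  mem_cl_of_kil fun θ hθ => by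
    have h1 : Kil (insert t S) (θ - (θ t / δ t) • δ) := by
      rintro f (rfl | hf)
      · simp [ht]
      · simp [hθ f hf, hS f hf]
    simpa [hx] using h1.cl x h

lemma not_mem_cl {S : Set Ω} {x : Ω} {δ : Der C Ω} (hS : Kil S δ) (hx : δ x ≠ 0) : x ∉ cl C S :=
  fun h => hx (hS.cl x h)

omit [CharZero Ω] in
lemma mem_cl_tower (K : IntermediateField C Ω) {S : Set Ω} {x : Ω} :
    x ∈ cl K S ↔ x ∈ cl C ((K : Set Ω) ∪ S) := by
  have e : (adjoin C ((K : Set Ω) ∪ S) : Set Ω) = (adjoin K S : Set Ω) := by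
    rw [← IntermediateField.restrictScalars_adjoin]; rfl
  rw [← H17.cl_adjoin, ← H17.cl_adjoin (C := C), mem_cl_iff, mem_cl_iff,
    ← IntermediateField.restrictScalars_adjoin]
  rfl

omit [CharZero Ω] in
/-- A basis over a subfield that extends a given independent family. -/
lemma exists_basis (K : IntermediateField C Ω) {ι : Type} {v : ι → Ω} (hv : AlgebraicIndependent K v)
    {T : Set Ω} (hT : ∀ i, v i ∈ T) :
    ∃ I : Set Ω, range v ⊆ I ∧ I ⊆ T ∧ AlgebraicIndependent K (fun a : I => (a : Ω)) ∧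
      T ⊆ cl C ((K : Set Ω) ∪ I) := by
  have h0 : (AlgebraicIndependent.matroid K Ω).Indep (range v) := hv.to_subtype_range
  obtain ⟨I, hI, h1⟩ := h0.subset_isBasis_of_subset (X := T) (range_subset_iff.2 hT) (by simp)
  refine ⟨I, h1, hI.subset, hI.indep, fun x hx => (mem_cl_tower K).1 ?_⟩
  rw [← SetLike.mem_coe, coe_cl]
  exact hI.subset_closure hx

/-- Derivations preserving an algebraically closed subfield. -/
lemma ext_pres {M : IntermediateField C Ω} (hM : cl C (M : Set Ω) = M) (K : IntermediateField C Ω)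
    (hK : K ≤ M) {ι : Type} {v : ι → Ω} (hv : AlgebraicIndependent K v) (hvM : ∀ i, v i ∈ M)
    {θ : Der C Ω} (hθ : ∀ f ∈ K, θ f ∈ M) {a : ι → Ω} (ha : ∀ i, a i ∈ M) :
    ∃ φ : Der C Ω, Pres M φ ∧ Agr K φ θ ∧ ∀ i, φ (v i) = a i := by
  classical
  obtain ⟨I, h1, h2, h3, h4⟩ := exists_basis K hv (T := M) hvM
  obtain ⟨φ, p1, p2⟩ := ext_indep K h3 θ fun x => if h : ∃ i, v i = x.1 then a h.choose else 0
  have e : cl C ((K : Set Ω) ∪ I) = M :=
    le_antisymm (hM ▸ cl_mono (union_subset hK h2)) h4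
  refine ⟨φ, e ▸ pres_cl ?_, p1, fun i => ?_⟩
  · rw [e]
    rintro f (hf | hf)
    · rw [p1 f hf]; exact hθ f hf
    · rw [p2 ⟨f, hf⟩]; split_ifs
      · exact ha _
      · exact zero_mem _
  · have h : ∃ j, v j = v i := ⟨i, rfl⟩
    have := p2 ⟨v i, h1 ⟨i, rfl⟩⟩
    simp only [dif_pos h] at this
    rw [this, hv.injective h.choose_spec]

lemma sep_pres {M : IntermediateField C Ω} (hM : cl C (M : Set Ω) = M) {S : Set Ω} (hS : S ⊆ M)
    {x : Ω} (hx : x ∈ M) (h : x ∉ cl C S) : ∃ θ : Der C Ω, Pres M θ ∧ Kil S θ ∧ θ x = 1 := by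
  obtain ⟨φ, h1, h2, h3⟩ := ext_pres hM (cl C S) (hM ▸ cl_mono hS) (indep_one h) (fun _ => hx)
    (θ := 0) (fun _ _ => zero_mem _) (a := fun _ => 1) fun _ => one_mem _
  exact ⟨φ, h1, fun f hf => h2 f (subset_cl _ hf), h3 ()⟩

omit [CharZero Ω] in
lemma indep_bot {ι : Type} {v : ι → Ω} (hv : AlgebraicIndependent C v) :
    AlgebraicIndependent (⊥ : IntermediateField C Ω) v :=
  hv.of_ringHom_of_comp_eq (f := (botEquiv C Ω).toRingEquiv.toRingHom) (g := RingHom.id Ω)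
    (botEquiv C Ω).injective (by
      ext x; obtain ⟨c, rfl⟩ := (botEquiv C Ω).symm.surjective x; simp)

/-- A stable field is independent of the constants over its own constants. -/
lemma ind_of_der {δ : Der C Ω} {F : IntermediateField C Ω} (hF : Pres F δ) {K0 : Set Ω}
    (hc : ∀ f ∈ F, δ f = 0 → f ∈ cl C K0) : Ind C (Kr δ : Set Ω) F K0 := by
  intro θ hθ
  let k : IntermediateField C Ω := F ⊓ Kr δ
  let δ' : Der k Ω := H17.toDer (δ.restrictScalars ℤ) fun c => c.2.2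
  let F' : IntermediateField k Ω := IntermediateField.extendScalars (F := k) (E := F) inf_le_left
  obtain ⟨I, -, h2, h3, h4⟩ := exists_basis k (v := fun e : Empty => e.elim)
    (algebraicIndependent_empty_type) (T := F) fun e => e.elim
  have h5 : AlgebraicIndependent (Kr δ') fun a : I => (a : Ω) :=
    H17.indep_Kr (δ := δ') (F := F') hF (fun f hf h0 => ⟨⟨f, hf, h0⟩, rfl⟩) (fun _ h => h)
      (fun a => h2 a.2) h3
  obtain ⟨φ, p1, p2⟩ := ext_indep (Kr δ) (v := fun a : I => (a : Ω)) h5 0 fun a => θ a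
  refine ⟨φ, p1, Agr.mono (Agr.cl (S := (k : Set Ω) ∪ I) ?_) h4⟩
  rintro f (hf | hf)
  · rw [p1 f hf.2, hθ.cl f (hc f hf.1 hf.2)]; rfl
  · exact p2 ⟨f, hf⟩

/-- Constants in a compositum. -/
lemma Ind.mem_cl {X K K0 S : Set Ω} (h : Ind C X K K0) (hS : S ⊆ X) {u : Ω} (hu : u ∈ X)
    (h1 : u ∈ H88.cl C (K ∪ S)) : u ∈ H88.cl C (K0 ∪ S) :=
  mem_cl_of_kil fun θ hθ => by
    obtain ⟨φ, p1, p2⟩ := h.symm θ (hθ.mono subset_union_left)
    rw [← p2 u hu]
    exact (p1.union ((hθ.mono subset_union_right).of_agr (p2.mono hS))).cl u h1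

omit [CharZero Ω] in
/-- A polynomial relation of a transcendental element is trivial. -/
lemma coef_zero {F : IntermediateField C Ω} {t : Ω} (ht : t ∉ cl C (F : Set Ω)) {n : ℕ}
    (a : Fin n → Ω) (ha : ∀ i, a i ∈ F) (h : ∑ i, a i * t ^ (i : ℕ) = 0) (i : Fin n) : a i = 0 := by
  have h1 : Transcendental F t := fun h' => ht (mem_cl_iff.2 h')
  have h2 := transcendental_iff.1 h1 (∑ j : Fin n, Polynomial.monomial j (⟨a j, ha j⟩ : F)) (by
    simpa [Polynomial.aeval_monomial] using h)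
  have h3 := congrArg (Polynomial.coeff · i) h2
  simp only [Polynomial.finsetSum_coeff, Polynomial.coeff_monomial, Fin.val_inj,
    Finset.sum_ite_eq', Finset.mem_univ, if_true, Polynomial.coeff_zero] at h3
  exact congrArg Subtype.val h3

end Ext

section Forms

lemma dd_swap (ω : Fm C Ω) (θ φ : Der C Ω) : dd ω θ φ = -dd ω φ θ := by
  rw [dd, dd, ← lie_skew θ φ, map_neg]; ring

lemma dd_add_left (ω : Fm C Ω) (θ θ' φ : Der C Ω) :
    dd ω (θ + θ') φ = dd ω θ φ + dd ω θ' φ := by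
  simp only [dd, add_lie, map_add, Derivation.add_apply]; ring

lemma dd_add_right (ω : Fm C Ω) (θ φ φ' : Der C Ω) :
    dd ω θ (φ + φ') = dd ω θ φ + dd ω θ φ' := by
  simp only [dd, lie_add, map_add, Derivation.add_apply]; ring

lemma br_smul_left (a : Ω) (θ φ : Der C Ω) : ⁅a • θ, φ⁆ = a • ⁅θ, φ⁆ - φ a • θ := by
  ext f; simp [br_apply]; ring

lemma dd_smul_left (ω : Fm C Ω) (a : Ω) (θ φ : Der C Ω) : dd ω (a • θ) φ = a * dd ω θ φ := by
  simp only [dd, br_smul_left, map_sub, map_smul, Derivation.smul_apply, smul_eq_mul,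
    Derivation.leibniz]
  ring

lemma dd_smul_right (ω : Fm C Ω) (a : Ω) (θ φ : Der C Ω) : dd ω θ (a • φ) = a * dd ω θ φ := by
  rw [dd_swap, dd_smul_left, dd_swap ω θ]; ring

lemma dd_add (ω ω' : Fm C Ω) (θ φ : Der C Ω) : dd (ω + ω') θ φ = dd ω θ φ + dd ω' θ φ := by
  simp only [dd, LinearMap.add_apply, map_add]; ring

lemma dd_neg (ω : Fm C Ω) (θ φ : Der C Ω) : dd (-ω) θ φ = -dd ω θ φ := by
  simp only [dd, LinearMap.neg_apply, map_neg]; ring

lemma dd_sum {ι : Type} (s : Finset ι) (ω : ι → Fm C Ω) (θ φ : Der C Ω) :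
    dd (∑ i ∈ s, ω i) θ φ = ∑ i ∈ s, dd (ω i) θ φ := by
  simp only [dd, LinearMap.sum_apply, map_sum, Finset.sum_sub_distrib]

/-- The exterior derivative of `∑ a db`. -/
lemma dd_rep {ι : Type} [Fintype ι] {ω : Fm C Ω} {a b : ι → Ω} (h : ∀ θ, ω θ = ∑ i, a i * θ (b i))
    (θ φ : Der C Ω) : dd ω θ φ = ∑ i, (θ (a i) * φ (b i) - φ (a i) * θ (b i)) := by
  simp only [dd, h, map_sum, Derivation.leibniz, smul_eq_mul, br_apply, ← Finset.sum_sub_distrib]
  exact Finset.sum_congr rfl fun i _ => by ring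

variable [CharZero Ω]

/-- Dual derivations of a finite basis over a subfield. -/
lemma exists_dual {M : IntermediateField C Ω} (hM : cl C (M : Set Ω) = M) (K : IntermediateField C Ω)
    (hK : K ≤ M) {T : Set Ω} (hT : T.Finite) (hTM : T ⊆ M) :
    ∃ (n : ℕ) (b : Fin n → Ω) (e : Fin n → Der C Ω), (∀ i, b i ∈ T) ∧ AlgebraicIndependent K b ∧
      (∀ i, Pres M (e i) ∧ Kil K (e i)) ∧ (∀ i j, e i (b j) = if i = j then 1 else 0) ∧
      ∀ θ : Der C Ω, Kil K θ → Agr (cl C ((K : Set Ω) ∪ T) : Set Ω) θ (∑ i, θ (b i) • e i) := by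
  classical
  obtain ⟨I, -, h2, h3, h4⟩ := exists_basis K (v := fun e : Empty => e.elim)
    (algebraicIndependent_empty_type) (T := T) fun e => e.elim
  have := (hT.subset h2).fintype
  let q := (Fintype.equivFin I).symm
  have h5 := h3.comp q q.injective
  choose e e1 e2 e3 using fun i => ext_pres hM K hK h5 (fun j => hTM (h2 (q j).2)) (θ := 0)
    (fun _ _ => zero_mem _) (a := fun j => if i = j then 1 else 0) fun j => by
      split_ifs
      · exact one_mem _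
      · exact zero_mem _
  refine ⟨_, _, e, fun i => h2 (q i).2, h5, fun i => ⟨e1 i, e2 i⟩, e3, fun θ hθ => ?_⟩
  refine (Agr.cl (S := (K : Set Ω) ∪ I) ?_).mono
    (cl_le (union_subset (subset_union_left.trans (subset_cl _)) h4))
  rintro f (hf | hf)
  · simp [hθ f hf, sum_apply, show ∀ i, e i f = 0 from fun i => e2 i f hf]
  · obtain ⟨j, hj⟩ := q.surjective ⟨f, hf⟩
    obtain rfl : f = ((fun a : I => (a : Ω)) ∘ q) j := (congrArg Subtype.val hj).symm
    simp only [sum_apply, Derivation.smul_apply, e3, smul_eq_mul,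
      mul_ite, mul_one, mul_zero, Finset.sum_ite_eq', Finset.mem_univ, if_true]
    rfl

/-- Representation of a form. -/
lemma Van.rep {ω : Fm C Ω} {S : Set Ω} (h : Van ω S) (hS : S.Finite) :
    ∃ (n : ℕ) (a b : Fin n → Ω), (∀ i, b i ∈ S) ∧ (∀ θ, ω θ = ∑ i, a i * θ (b i)) ∧
      ∀ φ, Kil S φ → (∀ θ, dd ω φ θ = 0) → ∀ i, φ (a i) = 0 := by
  obtain ⟨n, b, e, h1, -, -, h4, h5⟩ := exists_dual (C := C) (M := ⊤) (top_le_iff.1 (subset_cl _)) ⊥ bot_le
    hS (subset_univ _)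
  have h6 : ∀ θ, ω θ = ∑ i, ω (e i) * θ (b i) := fun θ => by
    rw [h.agr ((h5 θ (by rintro _ ⟨c, rfl⟩; exact θ.map_algebraMap c)).mono
      (subset_union_right.trans (subset_cl _))), map_sum]
    simp [mul_comm]
  refine ⟨n, _, b, h1, h6, fun φ hφ h0 i => ?_⟩
  have := h0 (e i)
  rw [dd_rep h6] at this
  simpa [h4, hφ _ (h1 _)] using this

/-- A closed form has its coefficients in the closure of a set of definition. -/
lemma Van.coef {ω : Fm C Ω} {S : Set Ω} (h : Van ω S) (hS : S.Finite) (hc : Cls ω) :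
    ∃ (n : ℕ) (a b : Fin n → Ω), (∀ i, a i ∈ cl C S) ∧ (∀ i, b i ∈ S) ∧
      ∀ θ, ω θ = ∑ i, a i * θ (b i) := by
  obtain ⟨n, a, b, h1, h2, h3⟩ := h.rep hS
  exact ⟨n, a, b, fun i => mem_cl_of_kil fun φ hφ => h3 φ hφ (hc φ) i, h1, h2⟩

end Forms

end Pool.Agent.MP_249f74_an.H96
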