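import Pool.Agent.MP_249f74_an.H96.Spec

/-!
Adjoining a fundamental solution of a linear system and infinitely many independent elements.
-/

open Set IntermediateField

namespace Pool.Agent.MP_249f74_an.H96

open H17 (Der Two Kr St mem_Kr mem_St kill_cl stab_cl cl_le cl_mono mem_cl_iff toDer toDer_apply)
open H88 (rk cl subset_cl coe_cl mem_cl)

namespace Pv

/-- An algebraically closed extension with a prescribed transcendence basis. -/
lemma exists_ext (Ω σ : Type) [Field Ω] :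
    ∃ (Ω' : Type) (_ : Field Ω') (_ : IsAlgClosed Ω') (_ : Algebra Ω Ω') (v : σ → Ω'),
      IsTranscendenceBasis Ω v := by
  let R := MvPolynomial σ Ω
  have : Algebra.IsAlgebraic R (FractionRing R) := IsLocalization.isAlgebraic _ (nonZeroDivisors R)
  have h := ((IsTranscendenceBasis.mvPolynomial σ Ω).algebraMap_comp
    (A := FractionRing R)).algebraMap_comp (A := AlgebraicClosure (FractionRing R))
  exact ⟨AlgebraicClosure (FractionRing R), inferInstance, inferInstance, inferInstance, _, h⟩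

/-- A generic matrix is invertible. -/
lemma det_ne {Ω Ω' ι : Type} [Field Ω] [Field Ω'] [Algebra Ω Ω'] [Fintype ι] [DecidableEq ι]
    {v : ι × ι → Ω'} (hv : AlgebraicIndependent Ω v) :
    Matrix.det (Matrix.of fun k j => v (k, j)) ≠ 0 := by
  intro h
  have h1 : MvPolynomial.aeval (R := Ω) v (Matrix.mvPolynomialX ι ι Ω).det = 0 := by
    rw [AlgHom.map_det, ← h]
    congr 1
    ext k j
    simp
  exact Matrix.det_mvPolynomialX_ne_zero ι Ω (hv (h1.trans (map_zero _).symm))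

variable {C Ω : Type} [Field C] [Field Ω] [CharZero Ω] [Algebra C Ω]

/-- The common constants of two derivations form an algebraically closed field. -/
lemma closed [IsAlgClosed Ω] (φ ψ : Der C Ω) : IsAlgClosed ↥(Kr φ ⊓ Kr ψ) :=
  IsAlgClosed.of_exists_root _ fun p hm hi => by
    obtain ⟨z, hz⟩ := IsAlgClosed.exists_root (p.map (algebraMap ↥(Kr φ ⊓ Kr ψ) Ω)) (by
      rw [Polynomial.degree_map]; exact (Polynomial.degree_pos_of_irreducible hi).ne')
    have h : z ∈ cl C ((Kr φ ⊓ Kr ψ : IntermediateField C Ω) : Set Ω) :=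
      H88.mem_cl_of_root (hm.map _).ne_zero
        (fun i => by rw [Polynomial.coeff_map]; exact subset_cl _ (p.coeff i).2) hz
    refine ⟨⟨z, kill_cl (δ := φ) (fun _ h => h.1) h, kill_cl (δ := ψ) (fun _ h => h.2) h⟩, ?_⟩
    apply (algebraMap ↥(Kr φ ⊓ Kr ψ) Ω).injective
    rw [map_zero, ← Polynomial.eval₂_at_apply, ← Polynomial.eval_map]
    exact hz

/-- A differentially transcendental element stays so over the constants. -/
lemma shift {t : ℕ → Ω} (ht : AlgebraicIndependent C t) {Z : Der C Ω} (hZ : ∀ n, Z (t n) = t (n + 1))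
    (n : ℕ) : ∃ φ : Der C Ω, Kil (Kr Z : Set Ω) φ ∧ (∀ m < n, φ (t m) = 0) ∧ φ (t n) = 1 := by
  have hd : ∀ n : ℕ, ∃ θ : Der C Ω, ∀ m, θ (t m) = if m = n then 1 else 0 := fun n => by
    obtain ⟨θ, -, h⟩ := ext_indep ⊥ (indep_bot ht) 0 fun m => if m = n then 1 else 0
    exact ⟨θ, h⟩
  have hF : Pres (cl C (range t)) Z := pres_cl (by
    rintro _ ⟨m, rfl⟩
    rw [hZ]
    exact subset_cl _ ⟨_, rfl⟩)
  have hc : ∀ N : ℕ, ∀ f ∈ cl C (t '' Iio N), Z f = 0 → f ∈ cl C (∅ : Set Ω) := fun N => by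
    induction N with
    | zero => intro f hf _; simpa using hf
    | succ N ih =>
      intro f hf h0
      obtain ⟨W, hW⟩ := hd (N + 1)
      have e : t '' Iio (N + 1) = insert (t N) (t '' Iio N) := by
        rw [← image_insert_eq]
        congr 1
        ext m
        simp only [mem_Iio, mem_insert_iff]
        omega
      have h1 : W f = 0 := kill_cl (by
        rintro _ ⟨m, hm, rfl⟩
        rw [hW, if_neg (mem_Iio.1 hm).ne]) hf
      refine ih f (mem_cl_of_der (δ := ⁅W, Z⁆) (e ▸ hf) ?_ ?_ ?_) h0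
      · rintro _ ⟨m, hm, rfl⟩
        have : m < N := hm
        rw [br_apply, hZ, hW, hW, if_neg (by omega), if_neg (by omega), map_zero, sub_zero]
      · rw [br_apply, h0, h1, map_zero, map_zero, sub_zero]
      · rw [br_apply, hZ, hW, hW, if_pos rfl, if_neg (by omega), map_zero, sub_zero]
        exact one_ne_zero
  have hI := ind_of_der hF (K0 := ∅) fun f hf h0 => by
    obtain ⟨T, h1, h2, h3⟩ := H17.exists_finite_cl hf
    obtain ⟨s, hs, h4⟩ := finite_subset_iUnion h2 (t := fun m => {t m}) (by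
      rwa [iUnion_singleton_eq_range])
    obtain ⟨N, hN⟩ := hs.bddAbove
    refine hc (N + 1) f (cl_mono (fun x hx => ?_) h3) h0
    obtain ⟨m, hm, h5⟩ := mem_iUnion₂.1 (h4 hx)
    exact ⟨m, Nat.lt_succ_of_le (hN hm), h5.symm⟩
  obtain ⟨θ, hθ⟩ := hd n
  obtain ⟨φ, h1, h2⟩ := hI θ fun _ h => h.elim
  have h3 : ∀ m, φ (t m) = θ (t m) := fun m => h2 _ (subset_cl _ ⟨m, rfl⟩)
  exact ⟨φ, h1, fun m hm => by rw [h3, hθ, if_neg hm.ne], by rw [h3, hθ, if_pos rfl]⟩

/-- Infinite rank from a triangular family of derivations. -/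
lemma big {t : ℕ → Ω} (h : ∀ n, ∃ φ : Der C Ω, (∀ m < n, φ (t m) = 0) ∧ φ (t n) = 1) :
    Big C Ω := by
  have h1 : ∀ n : ℕ, rk C (t '' Iio n) = n := fun n => by
    induction n with
    | zero => simpa using H17.rk_empty
    | succ n ih =>
      obtain ⟨φ, p1, p2⟩ := h n
      have e : t '' Iio (n + 1) = insert (t n) (t '' Iio n) := by
        rw [← image_insert_eq]
        congr 1
        ext m
        simp only [mem_Iio, mem_insert_iff]
        omega
      rw [e, H88.rk_insert (not_mem_cl (δ := φ) (by rintro _ ⟨m, hm, rfl⟩; exact p1 m hm)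
        (p2 ▸ one_ne_zero)), ih]
      rfl
  exact ENat.eq_top_iff_forall_ge.2 fun n => h1 n ▸ H17.rk_mono (subset_univ _)

/-- Extension of a derivation with prescribed values on a transcendence basis. -/
lemma extend {Ω' σ : Type} [Field Ω'] [CharZero Ω'] [Algebra Ω Ω'] [Algebra C Ω']
    [IsScalarTower C Ω Ω'] {v : σ → Ω'} (hv : IsTranscendenceBasis Ω v) (δ : Der C Ω) (a : σ → Ω') :
    ∃ φ : Der C Ω', (∀ f, φ (algebraMap Ω Ω' f) = algebraMap Ω Ω' (δ f)) ∧ ∀ j, φ (v j) = a j := by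
  obtain ⟨δ', h⟩ := H17.ext_der (IsScalarTower.toAlgHom C Ω Ω')
    ((algebraMap Ω Ω').toAddMonoidHom.comp δ.toLinearMap.toAddMonoidHom)
    (fun a b => by simp) (fun a ha => by
      have : a = 0 := (algebraMap Ω Ω').injective (by simpa using ha)
      simp [this]) fun c => by simp
  obtain ⟨E, hE⟩ := H97.der_exists hv fun j => a j - δ' (v j)
  refine ⟨δ' + E.restrictScalars C, fun f => ?_, fun j => by simp [hE]⟩
  have := h f
  simpa using this

omit [CharZero Ω] [Algebra C Ω] in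
/-- Uniqueness of the extension. -/
lemma eq_zero {Ω' σ : Type} [Field Ω'] [CharZero Ω'] [Algebra Ω Ω'] [Algebra C Ω']
    {v : σ → Ω'} (hv : IsTranscendenceBasis Ω v) {φ : Der C Ω'}
    (h1 : ∀ f, φ (algebraMap Ω Ω' f) = 0) (h2 : ∀ j, φ (v j) = 0) (x : Ω') : φ x = 0 :=
  kill_cl (δ := toDer (C := Ω) (φ.restrictScalars ℤ) h1) (S := range v)
    (by rintro _ ⟨j, rfl⟩; exact h2 j) (mem_cl.2 (hv.isAlgebraic.isAlgebraic x))

end Pv

theorem pv : StmtPV := by
  intro C Ω _ _ _ _ d y ι _ _ A hd hy hA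
  obtain ⟨Ω', _, _, _, v, hv⟩ := Pv.exists_ext Ω ((ι × ι) ⊕ ℕ)
  have : CharZero Ω' := charZero_of_injective_algebraMap (algebraMap Ω Ω').injective
  let _ : Algebra C Ω' := ((algebraMap Ω Ω').comp (algebraMap C Ω)).toAlgebra
  have : IsScalarTower C Ω Ω' := .of_algebraMap_eq fun _ => rfl
  let i := algebraMap Ω Ω'
  let p : (ι × ι) ⊕ ℕ → Ω' := Sum.elim (fun q => -∑ r, v (.inl (q.1, r)) * i (A r q.2))
    fun n => v (.inr (n + 1))
  obtain ⟨φ0, a0, b0⟩ := Pv.extend hv d.d0 fun j => i (d.d0 y) * p j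
  obtain ⟨φ1, a1, b1⟩ := Pv.extend hv d.d1 fun j => i (d.d1 y) * p j
  have hp : ∀ j, i (d.d1 y) * φ0 (p j) = i (d.d0 y) * φ1 (p j) := by
    rintro (⟨k, j⟩ | n)
    · simp only [p, Sum.elim_inl, map_neg, map_sum, Derivation.leibniz, smul_eq_mul, mul_neg,
        Finset.mul_sum, neg_inj]
      refine Finset.sum_congr rfl fun r _ => ?_
      have := congrArg i (hA r j)
      simp only [Two.J, map_sub, map_mul, map_zero] at this
      rw [a0, a1, b0, b1]
      linear_combination (-v (.inl (k, r))) * this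
    · simp only [p, Sum.elim_inr]
      rw [b0, b1]
      ring
  have hcomm : ∀ f, φ0 (φ1 f) = φ1 (φ0 f) := fun f => by
    rw [← sub_eq_zero, ← br_apply]
    refine Pv.eq_zero hv (fun g => ?_) (fun j => ?_) f
    · rw [br_apply, a1, a0, a0, a1, hd.comm, sub_self]
    · rw [br_apply, b0, b1, Derivation.leibniz, Derivation.leibniz, a0, a1, hd.comm]
      simp only [smul_eq_mul]
      linear_combination hp j
  obtain ⟨Z, z1, z2⟩ : ∃ Z : Der C Ω', (∀ n, Z (v (.inr n)) = v (.inr (n + 1))) ∧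
      ∀ f, φ0 f = 0 → φ1 f = 0 → Z f = 0 := by
    rcases hy with h | h
    · have h' : i (d.d0 y) ≠ 0 := (map_ne_zero i).2 h
      exact ⟨(i (d.d0 y))⁻¹ • φ0, fun n => by simp [b0, p, h'], fun f h0 _ => by simp [h0]⟩
    · have h' : i (d.d1 y) ≠ 0 := (map_ne_zero i).2 h
      exact ⟨(i (d.d1 y))⁻¹ • φ1, fun n => by simp [b1, p, h'], fun f _ h0 => by simp [h0]⟩
  have ht : AlgebraicIndependent C fun n => v (.inr n) :=
    (hv.1.comp Sum.inr Sum.inr_injective).restrictScalars (algebraMap C Ω).injective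
  refine ⟨↥(Kr φ0 ⊓ Kr φ1), Ω', inferInstance, Pv.closed φ0 φ1, inferInstance, inferInstance,
    inferInstance, inferInstance, inferInstance, inferInstance, inferInstance,
    ⟨toDer (φ0.restrictScalars ℤ) fun c => c.2.1, toDer (φ1.restrictScalars ℤ) fun c => c.2.2⟩,
    IsScalarTower.toAlgHom C Ω Ω', Matrix.of fun k j => v (.inl (k, j)),
    ⟨hcomm, fun f h0 h1 => ⟨⟨f, h0, h1⟩, rfl⟩⟩, Pv.big (t := fun n => v (.inr n)) fun n => ?_,
    a0, a1, Pv.det_ne (v := fun q => v (.inl q)) (hv.1.comp Sum.inl Sum.inl_injective),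
    fun k j => ⟨(b0 _).trans (congrArg (· * _) (a0 y).symm),
      (b1 _).trans (congrArg (· * _) (a1 y).symm)⟩⟩
  obtain ⟨φ, h1, h2, h3⟩ := Pv.shift ht z1 n
  exact ⟨toDer (φ.restrictScalars ℤ) fun c => h1 _ (z2 _ c.2.1 c.2.2), h2, h3⟩

end Pool.Agent.MP_249f74_an.H96
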