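import Pool.Agent.MP_249f74_an.H96.Spec

/-!
Automorphisms that move independent families, and independent copies.
-/

open Set IntermediateField

namespace Pool.Agent.MP_249f74_an.H96

open H17 (Der cl_le cl_mono)
open H88 (rk cl subset_cl)

theorem aut : StmtAUT := by
  intro C Ω _ _ _ _ M ι v v' hv hv' e
  obtain ⟨τ, hτ⟩ := H17.ext_aut (adjoin M (range v))
    ((hv.aevalEquivField.symm.trans hv'.aevalEquivField).trans (equivOfEq e.symm))
  refine ⟨τ.restrictScalars C, fun a ha => τ.commutes ⟨a, ha⟩, fun i => ?_⟩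
  have h1 : hv.aevalEquivField (algebraMap (MvPolynomial ι M) _ (MvPolynomial.X i)) =
      ⟨v i, subset_adjoin _ _ ⟨i, rfl⟩⟩ := Subtype.ext (by simp)
  have h2 := hτ ⟨v i, subset_adjoin _ _ ⟨i, rfl⟩⟩
  rw [AlgEquiv.trans_apply, AlgEquiv.trans_apply, ← h1, AlgEquiv.symm_apply_apply, h1] at h2
  simpa using h2

theorem copy : StmtCOPY := by
  intro C Ω _ _ _ _ _ S T hB hS hT
  obtain ⟨J, -, j2, j3, j4⟩ := exists_basis (cl C T) (v := fun e : Empty => e.elim)
    algebraicIndependent_empty_type (T := S) fun e => e.elim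
  have hJ := hS.subset j2
  obtain ⟨I, i1, -, i3, i4⟩ := exists_basis (cl C T) j3 (T := univ) fun _ => mem_univ _
  rw [Subtype.range_coe] at i1
  have hI : I.Infinite := fun h => H17.rk_finite (C := C) (hT.union h) (top_le_iff.1 (by
    rw [← hB]
    exact H88.rk_le (i4.trans (cl_le (union_subset (cl_mono subset_union_left)
      (subset_union_right.trans (subset_cl _)))))))
  have := hJ.to_subtype
  have := (hI.sdiff hJ).to_subtype
  obtain ⟨e⟩ : Nonempty (J ↪ ↥(I \ J)) := by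
    have := Fintype.ofFinite J
    exact ⟨((Fintype.equivFin J).toEmbedding.trans Fin.valEmbedding).trans
      (Infinite.natEmbedding _)⟩
  let f : J ⊕ J → I := Sum.elim (fun a => ⟨a, i1 a.2⟩) fun a => ⟨e a, (e a).2.1⟩
  have hf : Function.Injective f := by
    rintro (a | a) (b | b) h <;> have h' := congrArg Subtype.val h
    · exact congrArg _ (Subtype.ext h')
    · exact ((e b).2.2 (show (e b : Ω) ∈ J from h' ▸ a.2)).elim
    · exact ((e a).2.2 (show (e a : Ω) ∈ J from h'.symm ▸ b.2)).elim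
    · exact congrArg _ (e.injective (Subtype.ext h'))
  have hv := i3.comp f hf
  obtain ⟨σ, s1, s2⟩ := aut C Ω (cl C T) _ _ _ hv (hv.comp Sum.swap Sum.swap_leftInverse.injective)
    (by rw [Sum.swap_rightInverse.surjective.range_comp])
  refine ⟨σ, s1, fun θ hθ => ?_⟩
  obtain ⟨φ, p1, p2⟩ := ext_indep _ hv θ (Sum.elim (fun a => θ a) 0)
  refine ⟨φ, ?_, (Agr.cl (S := (cl C T : Set Ω) ∪ J) (p1.union fun a ha => p2 (.inl ⟨a, ha⟩))).mono
    (union_subset j4 ((subset_cl _).trans (subset_union_left.trans (subset_cl _))))⟩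
  rintro _ ⟨x, hx, rfl⟩
  refine Kil.cl ?_ _ (mem_cl_image.2 (j4 hx))
  rintro _ ⟨a, ha | ha, rfl⟩
  · rw [s1 a ha, p1 a ha, hθ.cl a ha]
  · exact (congrArg φ (s2 (.inl ⟨a, ha⟩))).trans (p2 (.inr ⟨a, ha⟩))

end Pool.Agent.MP_249f74_an.H96
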