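import Pool.Agent.MP_249f74_an.H96.Chn

/-!
Twisted periodic families with algebraic mirrors that avoid the circular points.
-/

open Set IntermediateField

namespace Pool.Agent.MP_249f74_an.H96

open H17 (Der Two Kr)
open H88 (cl subset_cl)

namespace Alg

variable {C Ω : Type} [Field C] [Field Ω] [Algebra C Ω]

section NC

variable (C) in
/-- The span of the lower monomials. -/
def W (x y : Ω) (N : ℕ) : Submodule C Ω :=
  Submodule.span C {f : Ω | ∃ i j : ℕ, i + j ≤ N ∧ j < N ∧ f = x ^ i * y ^ j}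

lemma mon (x y : Ω) {N i j : ℕ} (h : i + j ≤ N) (h' : j < N) : x ^ i * y ^ j ∈ W C x y N :=
  Submodule.subset_span ⟨i, j, h, h', rfl⟩

lemma expand (x y : Ω) (α a β b : C) {N i j : ℕ} (h : i + j ≤ N) (h' : j < N) :
    (algebraMap C Ω α * x + algebraMap C Ω a) ^ i * (algebraMap C Ω β * y + algebraMap C Ω b) ^ j ∈
      W C x y N := by
  rw [add_pow, add_pow, Finset.sum_mul_sum]
  refine sum_mem fun k hk => sum_mem fun l hl => ?_
  rw [Finset.mem_range] at hk hl
  have := Submodule.smul_mem _ (α ^ k * a ^ (i - k) * i.choose k * (β ^ l * b ^ (j - l) * j.choose l))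
    (mon (C := C) x y (N := N) (i := k) (j := l) (by omega) (by omega))
  rw [Algebra.smul_def] at this
  simp only [map_mul, map_pow, map_natCast] at this
  exact (congrArg (· ∈ W C x y N) (by ring)).mp this

lemma aff {x y : Ω} (h : NC1 C x y) {α β : C} (hα : α ≠ 0) (hβ : β ≠ 0) (a b : C) :
    NC1 C (algebraMap C Ω α * x + algebraMap C Ω a) (algebraMap C Ω β * y + algebraMap C Ω b) := by
  obtain ⟨N, hN⟩ := h
  have e : ∀ (α a : C) (x : Ω), α ≠ 0 → x = algebraMap C Ω α⁻¹ *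
      (algebraMap C Ω α * x + algebraMap C Ω a) + algebraMap C Ω (-(α⁻¹ * a)) := fun α a x h => by
    have : algebraMap C Ω α ≠ 0 := (_root_.map_ne_zero _).2 h
    simp only [map_neg, map_mul, map_inv₀]
    field_simp
    ring
  have h1 : W C x y N ≤ W C (algebraMap C Ω α * x + algebraMap C Ω a)
      (algebraMap C Ω β * y + algebraMap C Ω b) N := Submodule.span_le.2 (by
    rintro _ ⟨i, j, h, h', rfl⟩
    have := expand (algebraMap C Ω α * x + algebraMap C Ω a)
      (algebraMap C Ω β * y + algebraMap C Ω b) α⁻¹ (-(α⁻¹ * a)) β⁻¹ (-(β⁻¹ * b)) h h'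
    rwa [← e α a x hα, ← e β b y hβ] at this)
  refine ⟨N, h1 ?_⟩
  rw [add_pow]
  refine sum_mem fun k hk => ?_
  have h2 : y ^ k ∈ W C x y N := by
    obtain rfl | h := eq_or_ne k N
    · exact hN
    · rw [Finset.mem_range] at hk
      simpa using mon (C := C) x y (N := N) (i := 0) (j := k) (by omega) (by omega)
  have := Submodule.smul_mem _ (β ^ k * b ^ (N - k) * N.choose k) h2
  rw [Algebra.smul_def] at this
  simp only [map_mul, map_pow, map_natCast] at this
  exact (congrArg (· ∈ W C x y N) (by ring)).mp this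

lemma ext {C' Ω' : Type} [Field C'] [Field Ω'] [Algebra C' Ω'] [Algebra C C'] [Algebra C Ω']
    [IsScalarTower C C' Ω'] (i : Ω →ₐ[C] Ω') {x y : Ω} (h : NC1 C x y) : NC1 C' (i x) (i y) := by
  obtain ⟨N, hN⟩ := h
  refine ⟨N, ?_⟩
  rw [← map_pow]
  refine Submodule.span_induction (p := fun f _ => i f ∈ W C' (i x) (i y) N) ?_ ?_ ?_ ?_ hN
  · rintro _ ⟨a, b, h, h', rfl⟩
    rw [map_mul, map_pow, map_pow]
    exact mon _ _ h h'
  · rw [map_zero]; exact zero_mem _
  · intro f g _ _ hf hg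
    rw [map_add]; exact add_mem hf hg
  · intro c f _ hf
    rw [map_smul, ← algebraMap_smul C']
    exact Submodule.smul_mem _ _ hf

lemma res {Ω' : Type} [Field Ω'] [Algebra C Ω'] (i : Ω →ₐ[C] Ω') {x y : Ω}
    (h : NC1 C (i x) (i y)) : NC1 C x y := by
  obtain ⟨N, hN⟩ := h
  obtain ⟨f, h1, h2⟩ : ∃ f ∈ W C x y N, i f = i y ^ N := by
    refine Submodule.span_induction (p := fun g _ => ∃ f ∈ W C x y N, i f = g) ?_ ?_ ?_ ?_ hN
    · rintro _ ⟨a, b, h, h', rfl⟩
      exact ⟨_, mon _ _ h h', by rw [map_mul, map_pow, map_pow]⟩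
    · exact ⟨0, zero_mem _, map_zero _⟩
    · rintro _ _ _ _ ⟨f, hf, rfl⟩ ⟨g, hg, rfl⟩
      exact ⟨_, add_mem hf hg, map_add _ _ _⟩
    · rintro c _ _ ⟨f, hf, rfl⟩
      exact ⟨_, Submodule.smul_mem _ c hf, map_smul _ _ _⟩
  rw [← map_pow] at h2
  exact ⟨N, i.toRingHom.injective h2 ▸ h1⟩

end NC

section Val

variable {Γ : Type} [LinearOrderedCommGroupWithZero Γ] {v : Valuation Ω Γ}

variable (C) in
/-- The residue of `x` is not a constant. -/
def G (v : Valuation Ω Γ) (x : Ω) : Prop := ∀ a : C, v (x - algebraMap C Ω a) = 1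

lemma G.one {x : Ω} (h : G C v x) : v x = 1 := by simpa using h 0

lemma G.near {x c : Ω} (h : G C v c) (h' : v (x - c) < 1) : G C v x := fun a => by
  rw [show x - algebraMap C Ω a = c - algebraMap C Ω a + (x - c) by ring,
    v.map_add_eq_of_lt_left (by rwa [h a]), h a]

lemma unit {K : IntermediateField C Ω} (h : ∀ f ∈ K, v f ≤ 1) {f : Ω} (hf : f ∈ K) (h0 : f ≠ 0) :
    v f = 1 := by
  refine le_antisymm (h f hf) ?_
  have := h _ (inv_mem hf)
  rwa [map_inv₀, inv_le_one₀ ((v.pos_iff).2 h0)] at this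

lemma gen {K : IntermediateField C Ω} (h : ∀ f ∈ K, v f ≤ 1) {f : Ω} (hf : f ∈ K)
    (h0 : f ∉ (⊥ : IntermediateField C Ω)) : G C v f := fun a =>
  unit h (sub_mem hf (K.algebraMap_mem a)) fun e => h0 ⟨a, (sub_eq_zero.1 e).symm⟩

variable (hC : ∀ a : C, v (algebraMap C Ω a) ≤ 1)
include hC

lemma G.le [IsAlgClosed C] [CharZero Ω] {x : Ω} (h : G C v x) : ∀ f ∈ cl C {x}, v f ≤ 1 := by
  have h0 : ∀ a : C, a ≠ 0 → v (algebraMap C Ω a) = 1 := fun a ha =>
    unit (K := ⊥) (by rintro _ ⟨b, rfl⟩; exact hC b) ⟨a, rfl⟩ ((_root_.map_ne_zero _).2 ha)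
  have h1 : ∀ p : Polynomial C, p ≠ 0 → v (Polynomial.aeval x p) = 1 := fun p hp => by
    rw [(IsAlgClosed.splits p).eq_prod_roots, map_mul, map_mul, Polynomial.aeval_C,
      h0 _ (Polynomial.leadingCoeff_ne_zero.2 hp), one_mul, map_multiset_prod, map_multiset_prod]
    refine Multiset.prod_eq_one ?_
    simp only [Multiset.mem_map]
    rintro _ ⟨_, ⟨_, ⟨a, -, rfl⟩, rfl⟩, rfl⟩
    simpa using h a
  have h2 : ∀ f ∈ C⟮x⟯, v f ≤ 1 := fun f hf => by
    obtain ⟨p, q, rfl⟩ := (mem_adjoin_simple_iff C f).1 hf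
    obtain rfl | hp := eq_or_ne p 0
    · simp
    obtain rfl | hq := eq_or_ne q 0
    · simp
    rw [map_div₀, h1 p hp, h1 q hq, div_one]
  intro f hf
  obtain ⟨p, p0, p1, p2, -⟩ := H17.exists_simple (E := C⟮x⟯) (H17.cl_adjoin (C := C) {x} ▸ hf)
  by_contra hn
  rw [not_le] at hn
  rw [p0.as_sum, Polynomial.eval_add, Polynomial.eval_finsetSum] at p2
  have h3 : v (∑ i ∈ Finset.range p.natDegree,
      (Polynomial.C (p.coeff i) * Polynomial.X ^ i).eval f) < v f ^ p.natDegree :=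
    v.map_sum_lt' (pow_pos (zero_lt_one.trans hn) _) fun i hi => by
      rw [Polynomial.eval_mul, Polynomial.eval_C, Polynomial.eval_pow, Polynomial.eval_X, map_mul,
        map_pow]
      exact (mul_le_of_le_one_left' (h2 _ (p1 i))).trans_lt
        (pow_lt_pow_right₀ hn (Finset.mem_range.1 hi))
  rw [eq_neg_of_add_eq_zero_right p2, v.map_neg, Polynomial.eval_pow, Polynomial.eval_X,
    map_pow] at h3
  exact h3.false

/-- The points of a curve on a line that tends to a generic isotropic line. -/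
lemma point {x y s : Ω} (hc : G C v (x - s * y)) (hs : v s < 1) (h : NC1 C x y) : G C v x := by
  have hy : v y ≤ 1 := by
    by_contra hn
    rw [not_le] at hn
    have h0 : 0 < v y := zero_lt_one.trans hn
    have hx : v x < v y := by
      rw [show x = x - s * y + s * y by ring]
      refine v.map_add_lt (by rwa [hc.one]) ?_
      rw [map_mul]
      exact mul_lt_of_lt_one_left h0 hs
    obtain ⟨N, hN⟩ := h
    have : v (y ^ N) < v y ^ N := by
      refine Submodule.span_induction (p := fun f _ => v f < v y ^ N) ?_ ?_ ?_ ?_ hN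
      · rintro _ ⟨i, j, h, h', rfl⟩
        rw [map_mul, map_pow, map_pow]
        obtain rfl | hi := eq_or_ne i 0
        · simpa using pow_lt_pow_right₀ hn h'
        · exact (mul_lt_mul_of_pos_right (pow_lt_pow_left₀ hx zero_le hi) (pow_pos h0 j)).trans_le
            (by rw [← pow_add]; exact pow_le_pow_right₀ hn.le h)
      · rw [map_zero]; exact pow_pos h0 N
      · exact fun f g _ _ => v.map_add_lt
      · intro c f _ hf
        rw [Algebra.smul_def, map_mul]
        exact (mul_le_of_le_one_left' (hC c)).trans_lt hf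
    exact this.ne (map_pow _ _ _)
  refine hc.near ?_
  rw [sub_sub_cancel, map_mul]
  exact (mul_le_of_le_one_right' hy).trans_lt hs

variable [IsAlgClosed C] [CharZero Ω] {d : Two C Ω}

lemma good {m : Pt d} (hd : Amb d) (hm : ¬m.Tr) (h : G C v m.x ∨ G C v m.y) :
    G C v m.x ∧ G C v m.y ∧ v m.w = 1 := by
  obtain ⟨Z, hZ, Zy⟩ := m.exists_one
  have hb : ∀ f : Ω, Z f ≠ 0 → f ∉ (⊥ : IntermediateField C Ω) := by
    rintro _ h ⟨a, rfl⟩
    exact h (Z.map_algebraMap a)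
  have hx : m.x ∈ cl C {m.y} := not_not.1 hm
  have Zx : Z m.x = m.w := by rw [m.dx hZ, Zy, one_mul]
  have hy : G C v m.y := h.elim (fun h => gen (h.le hC) (mem_cl_of_kil fun θ hθ => by
    have := Kil.cl (S := {m.y}) (θ := θ - θ m.y • Z) (by simp [Kil, Zy]) _ hx
    simpa [hθ m.x rfl, Zx, m.w0] using this) (hb _ (Zy ▸ one_ne_zero))) id
  exact ⟨gen (hy.le hC) hx (hb _ (Zx ▸ m.w0)), hy,
    unit (hy.le hC) (m.H_alg hm ▸ m.wH hd) m.w0⟩

lemma edge {m m' : Pt d} {z l : Ω} (hd : Amb d) (e : Edge m m' z l) (hm : ¬m'.Tr)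
    (hp : NC C Ω m'.x m'.y) (hx : G C v m.x) (hy : G C v m.y) (hz : v z < 1 ∨ v z⁻¹ < 1) :
    (G C v m'.x ∧ G C v m'.y ∧ v m'.w = 1) ∧ v l < 1 := by
  have z0 := e.z0
  have k : ∀ x y s : Ω, G C v x → G C v y → v s < 1 → v (s ^ 2) < 1 ∧ G C v (x - s ^ 2 * y) :=
    fun x y s hx hy hs => by
      have : v (s ^ 2) < 1 := by rw [map_pow]; exact pow_lt_one₀ zero_le hs two_ne_zero
      exact ⟨this, hx.near (by rwa [sub_sub_cancel_left, v.map_neg, map_mul, hy.one, mul_one])⟩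
  obtain hz | hz := hz
  · obtain ⟨h1, h2⟩ := k _ _ z hx hy hz
    have h3 := good hC hd hm (Or.inl (point hC (e.line ▸ h2) h1 hp.1))
    refine ⟨h3, ?_⟩
    rw [← e.ey, map_mul]
    exact (mul_le_of_le_one_left' (v.map_sub_le h3.2.1.one.le hy.one.le)).trans_lt hz
  · obtain ⟨h1, h2⟩ := k _ _ z⁻¹ hy hx hz
    have h4 : m'.y - z⁻¹ ^ 2 * m'.x = m.y - z⁻¹ ^ 2 * m.x := by
      field_simp
      linear_combination -e.line
    have h3 := good hC hd hm (Or.inr (point hC (h4 ▸ h2) h1 hp.2))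
    refine ⟨h3, ?_⟩
    rw [show l = (m'.x - m.x) * z⁻¹ by rw [e.ex]; field_simp, map_mul]
    exact (mul_le_of_le_one_left' (v.map_sub_le h3.1.one.le hx.one.le)).trans_lt hz

end Val

lemma exists_val {S : Set Ω} {z : Ω} (h : z ∉ cl C S) :
    ∃ V : ValuationSubring Ω, (∀ f ∈ cl C S, V.valuation f ≤ 1) ∧ V.valuation z < 1 := by
  have : IsIntegrallyClosedIn (cl C S).toSubring Ω :=
    Subring.isIntegrallyClosedIn_iff.2 fun x hx =>
      cl_cl (C := C) S ▸ H17.mem_cl_iff.2 (IsIntegral.isAlgebraic (R := cl C S) hx)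
  obtain ⟨V, h1, h2⟩ := Subring.exists_le_valuationSubring_of_isIntegrallyClosedIn
    (R := (cl C S).toSubring) (x := z⁻¹) fun h' => h (inv_mem_iff.1 (show z⁻¹ ∈ cl C S from h'))
  exact ⟨V, fun f hf => (V.valuation_le_one_iff f).2 (h1 hf),
    V.mem_nonunits_iff.1 (V.mem_nonunits_iff_or.2 (Or.inr h2))⟩

end Alg

open Alg

theorem nc_ok : NC.Ok where
  iso C Ω _ _ _ g x y h := by
    have h1 := g.hβ
    have h2 := inv_ne_zero h1
    unfold Iso.px Iso.py
    rw [← map_inv₀]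
    cases g.e
    · exact ⟨aff h.1 h1 h2 _ _, aff h.2 h2 h1 _ _⟩
    · exact ⟨aff h.2 h1 h2 _ _, aff h.1 h2 h1 _ _⟩
  ext _ _ _ _ _ _ _ _ _ _ _ _ _ _ _ i _ _ _ _ h := ⟨ext i h.1, ext i h.2⟩
  res _ _ _ _ _ _ _ _ i _ _ h := ⟨res i h.1, res i h.2⟩

theorem alg : StmtA NC := by
  intro C Ω _ _ _ _ _ _ d g m z l n P hd ht ha hm
  have e := ht.ch.e
  have hJ := (e 0 n.succ_pos).Jsc
  obtain ⟨Z, -, Z1, Z2⟩ := exists_tn hJ 1 0
  obtain ⟨Z', -, -, Z3⟩ := exists_tn hJ 0 1
  obtain ⟨V, h1, h2⟩ := exists_val (not_mem_cl (S := {(m 0).x - z 0 ^ 2 * (m 0).y}) (x := z 0)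
    (δ := Z) (by simpa [Kil] using Z2) fun h => by simp [Derivation.leibniz_pow, h] at Z1)
  have hC : ∀ a : C, V.valuation (algebraMap C Ω a) ≤ 1 := fun a => h1 _ (IntermediateField.algebraMap_mem _ a)
  have h3 : G C V.valuation ((m 0).x - z 0 ^ 2 * (m 0).y) := gen h1 (subset_cl _ rfl) (by
    rintro ⟨a, h⟩
    rw [← h] at Z3
    exact zero_ne_one ((Z'.map_algebraMap a).symm.trans Z3))
  have hp := fun i hi => ha.hp i hi (hm i hi)
  have key : ∀ i ≤ n, (G C V.valuation (m i).x ∧ G C V.valuation (m i).y) ∧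
      (V.valuation (z i) < 1 ∨ V.valuation (z i)⁻¹ < 1) := fun i hi => by
    induction i with
    | zero =>
      have := good hC hd (hm 0 (by omega)) (Or.inl (point hC h3 (by
        rw [map_pow]; exact pow_lt_one₀ zero_le h2 two_ne_zero) (hp 0 (by omega)).1))
      exact ⟨⟨this.1, this.2.1⟩, Or.inl h2⟩
    | succ i ih =>
      obtain ⟨⟨k1, k2⟩, k3⟩ := ih (by omega)
      obtain ⟨⟨k4, k5, k6⟩, -⟩ := edge hC hd (e i (by omega)) (hm _ (by omega)) (hp _ (by omega))
        k1 k2 k3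
      rw [← ht.ch.r i (by omega), map_mul] at k6
      refine ⟨⟨k4, k5⟩, ?_⟩
      rw [map_inv₀] at k3 ⊢
      rw [eq_inv_of_mul_eq_one_right k6, inv_inv]
      exact k3.symm
  have h4 : V.valuation (∑ i ∈ Finset.range (n + 1), l i) < 1 :=
    V.valuation.map_sum_lt one_ne_zero fun i hi => by
      rw [Finset.mem_range] at hi
      obtain ⟨⟨k1, k2⟩, k3⟩ := key i (by omega)
      exact (edge hC hd (e i hi) (hm _ (by omega)) (hp _ (by omega)) k1 k2 k3).2
  exact h4.ne (unit h1 (bot_le (a := cl C _) (ht.len hd)) fun h =>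
    ha.pos.ne (h ▸ ha.pos.sum ha.hl))

end Pool.Agent.MP_249f74_an.H96
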