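import Pool.Agent.MP_249f74_an.H96.Spec

/-!
Normalization: commuting derivations on the field generated by a closed family.
-/

open Set IntermediateField

namespace Pool.Agent.MP_249f74_an.H96

open H17 (Der Two Kr Mir kill_cl mem_cl_iff)
open H88 (rk cl subset_cl)

namespace Norm

variable {C Ω : Type} [Field C] [Field Ω] [CharZero Ω] [Algebra C Ω] {d : Two C Ω}

/-- Going round the chain. -/
lemma round {m : ℕ → Mir d} {z l : ℕ → Ω} (he : ∀ i, H17.Edge (m i) (m (i + 1)) (z i) (l i))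
    (hr : ∀ i, z i * z (i + 1) = (m (i + 1)).w) {K : IntermediateField C Ω}
    (hF : ∀ i, (m i).F ≤ K) (hz : ∀ i, z i ∈ K) {Q : Ω → Prop}
    (hadd : ∀ a b, Q a → Q b → Q (a + b)) (hmul : ∀ k ∈ K, ∀ a, Q a → Q (k * a)) {θ : Der C Ω}
    (hθ : ∀ i, ∀ f ∈ (m i).F, ∀ g ∈ (m i).F, d.Sl (m i).y f g → θ f = θ (m i).y * g)
    (hs : Q (θ (z 0 ^ 2))) (hc : Q (θ ((m 0).x - z 0 ^ 2 * (m 0).y))) :
    ∀ f ∈ (⋃ i, ((m i).F : Set Ω)) ∪ range z, Q (θ f) := by
  have hx : ∀ i, θ (m i).x = θ (m i).y * (m i).w := fun i =>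
    hθ i _ (m i).xF _ (m i).wF (m i).tan
  have h1 : ∀ i, Q (θ (m i).y) → ∀ f ∈ (m i).F, Q (θ f) := fun i h f hf => by
    obtain ⟨g, g1, g2⟩ := (m i).stab f hf
    rw [hθ i f hf g g1 g2, mul_comm]
    exact hmul g (hF i g1) _ h
  have hk : ∀ i j, ((m i).w - z j ^ 2)⁻¹ ∈ K := fun i j =>
    inv_mem (sub_mem (hF i (m i).wF) (pow_mem (hz j) 2))
  have h2 : ∀ i, Q (θ (m i).y) ∧ Q (θ (z i)) := fun i => by
    induction i with
    | zero =>
      have e0 := sub_ne_zero.2 (he 0).g0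
      have e1 := (he 0).z0
      constructor
      · have := hmul _ (hk 0 0) _ (hadd _ _ hc (hmul _ (hF 0 (m 0).yF) _ hs))
        convert this using 1
        rw [map_sub, Derivation.leibniz, hx]
        simp only [smul_eq_mul]
        field_simp
        ring
      · have := hmul _ (inv_mem (add_mem (hz 0) (hz 0))) _ hs
        convert this using 1
        rw [pow_two, Derivation.leibniz, ← two_mul, smul_eq_mul]
        field_simp
        ring
    | succ i ih =>
      have e0 := sub_ne_zero.2 (he i).g1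
      have e1 := (he i).z0
      have h3 : Q (θ (m (i + 1)).y) := by
        have := hmul _ (hk (i + 1) i) _ (hadd _ _
          (hmul _ (sub_mem (hF i (m i).wF) (pow_mem (hz i) 2)) _ ih.1)
          (hmul _ (mul_mem (sub_mem (hF _ (m (i + 1)).yF) (hF i (m i).yF))
            (add_mem (hz i) (hz i))) _ ih.2))
        convert this using 1
        have h4 := congrArg θ (he i).line
        rw [map_sub, θ.leibniz, map_sub, hx, hx, pow_two, θ.leibniz] at h4
        simp only [smul_eq_mul] at h4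
        rw [eq_inv_mul_iff_mul_eq₀ e0]
        linear_combination h4
      refine ⟨h3, ?_⟩
      have := hmul _ (inv_mem (hz i)) _ (hadd _ _ (h1 _ h3 _ (m (i + 1)).wF)
        (hmul _ (neg_mem (hz (i + 1))) _ ih.2))
      convert this using 1
      have h4 := congrArg θ (hr i)
      rw [θ.leibniz] at h4
      simp only [smul_eq_mul] at h4
      rw [eq_inv_mul_iff_mul_eq₀ e1]
      linear_combination h4
  rintro f (hf | ⟨i, rfl⟩)
  · obtain ⟨i, hi⟩ := mem_iUnion.1 hf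
    exact h1 i (h2 i).1 f hi
  · exact (h2 i).2

omit [CharZero Ω] in
/-- A bracket of tangent derivations acts on the jets of a mirror as a tangent derivation. -/
lemma br_sl (m : Mir d) {Z Z' : Der C Ω} (h : d.Tn Z) (h' : d.Tn Z') {f g : Ω} (hg : g ∈ m.F)
    (hs : d.Sl m.y f g) : ⁅Z, Z'⁆ f = ⁅Z, Z'⁆ m.y * g := by
  obtain ⟨g', -, h1⟩ := m.stab g hg
  simp only [br_apply, h.sl hs, h'.sl hs, Derivation.leibniz, smul_eq_mul, h.sl h1, h'.sl h1]
  ring

omit [CharZero Ω] in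
/-- Expansion in the dual basis. -/
lemma expand {s c : Ω} (hJ : d.J s c ≠ 0) {Z : Der C Ω} (h : d.Tn Z) (f : Ω) :
    Z f = Z s * d.nb c s f + Z c * d.nb s c f := by
  have := (h.sub (((Two.tn_nb c s).smul (Z s)).add ((Two.tn_nb s c).smul (Z c)))).eq_zero hJ
    (by simp [Two.nb_self, Two.nb_one (Two.J_ne_symm hJ)]) (by simp [Two.nb_self, Two.nb_one hJ]) f
  simpa [sub_eq_zero] using this

/-- Restriction of a derivation to a stable subfield. -/
def res {K : IntermediateField C Ω} (θ : Der C Ω) (h : Pres K θ) : Der C K :=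
  Derivation.mk'
    { toFun := fun f => ⟨θ f, h f f.2⟩
      map_add' := fun a b => Subtype.ext (by simp)
      map_smul' := fun a b => Subtype.ext (by simp) } fun a b => Subtype.ext (by simp)

omit [CharZero Ω] in
@[simp] lemma res_apply {K : IntermediateField C Ω} (θ : Der C Ω) (h : Pres K θ) (f : K) :
    (res θ h f : Ω) = θ f := rfl

omit [CharZero Ω] in
lemma isAlgClosed_cl [IsAlgClosed Ω] (S : Set Ω) : IsAlgClosed (cl C S) :=
  IsAlgClosed.of_exists_root _ fun p _ hp => by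
    obtain ⟨x, hx⟩ := IsAlgClosed.exists_aeval_eq_zero Ω p (Polynomial.degree_pos_of_irreducible hp).ne'
    have h1 : x ∈ cl C S := cl_cl (C := C) S ▸ mem_cl_iff.2 ⟨p, hp.ne_zero, hx⟩
    refine ⟨⟨x, h1⟩, (algebraMap (cl C S) Ω).injective ?_⟩
    rw [map_zero, ← hx, ← Polynomial.coe_aeval_eq_eval, ← Polynomial.aeval_algebraMap_apply]
    rfl

lemma main {p : Prp} (hp : p.Ok) {n : ℕ} (hS : StmtS p n) [IsAlgClosed C] [IsAlgClosed Ω]
    {m : ℕ → Mir d} {z l : ℕ → Ω} {P : Set Ω}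
    (hc : ∀ f, d.d0 f = 0 → d.d1 f = 0 → f ∈ (⊥ : IntermediateField C Ω))
    (he : ∀ i, H17.Edge (m i) (m (i + 1)) (z i) (l i)) (hr : ∀ i, z i * z (i + 1) = (m (i + 1)).w)
    (hm : m (n + 1) = m 0) (hz0 : z (n + 1) = z 0) (hP : Pos P) (hl : ∀ i, l i ∈ P)
    (ha : ∀ i, (m i).x ∈ cl C {(m i).y} → p C Ω (m i).x (m i).y) : False := by
  let K : IntermediateField C Ω := cl C ((⋃ i, ((m i).F : Set Ω)) ∪ range z)
  have hF : ∀ i, (m i).F ≤ K := fun i f hf => subset_cl _ (Or.inl (mem_iUnion.2 ⟨i, hf⟩))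
  have hz : ∀ i, z i ∈ K := fun i => subset_cl _ (Or.inr ⟨i, rfl⟩)
  have hlK : ∀ i, l i ∈ K := fun i =>
    (he i).ey ▸ mul_mem (sub_mem (hF _ (m (i + 1)).yF) (hF _ (m i).yF)) (hz i)
  have hJ := (he 0).Jsc
  set s := z 0 ^ 2 with hs
  set c := (m 0).x - s * (m 0).y with hc'
  have t1 := Two.tn_nb (d := d) c s
  have t2 := Two.tn_nb (d := d) s c
  have e11 := Two.nb_one (Two.J_ne_symm hJ)
  have e12 := Two.nb_self (d := d) c s
  have e21 := Two.nb_self (d := d) s c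
  have e22 := Two.nb_one hJ
  have hpres : ∀ Z : Der C Ω, d.Tn Z → Z s ∈ K → Z c ∈ K → Pres K Z := fun Z hZ h1 h2 =>
    pres_cl (round he hr hF hz (Q := (· ∈ K)) (fun _ _ => add_mem) (fun _ hk _ => mul_mem hk)
      (fun _ _ _ _ _ h => hZ.sl h) h1 h2)
  have p1 := hpres _ t1 (e11 ▸ one_mem _) (e12 ▸ zero_mem _)
  have p2 := hpres _ t2 (e21 ▸ zero_mem _) (e22 ▸ one_mem _)
  have hb : ∀ f ∈ K, ⁅d.nb c s, d.nb s c⁆ f = 0 := fun f hf => kill_cl
    (round he hr hF hz (Q := (· = 0)) (fun _ _ h h' => by rw [h, h', add_zero])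
      (fun _ _ _ h => by rw [h, mul_zero]) (fun i _ _ _ hg h => br_sl (m i) t1 t2 hg h)
      (by rw [br_apply, ← hs, e11, e21]; simp) (by rw [br_apply, ← hs, ← hc', e12, e22]; simp)) hf
  have x0 := expand hJ tn_d0
  have x1 := expand hJ tn_d1
  generalize d.nb c s = ds at *
  generalize d.nb s c = dc at *
  have : CharZero K := algebraRat.charZero _
  have : IsAlgClosed K := isAlgClosed_cl _
  let d' : Two C K := ⟨res ds p1, res dc p2⟩
  have hz2 : ∀ f : K, d'.d0 f = 0 → d'.d1 f = 0 → d.d0 f = 0 ∧ d.d1 f = 0 := fun f h0 h1 => by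
    have h0 : ds f = 0 := congrArg Subtype.val h0
    have h1 : dc f = 0 := congrArg Subtype.val h1
    rw [x0, x1, h0, h1]; simp
  have hJ' : ∀ f g : K, d.J f g ≠ 0 → d'.J f g ≠ 0 := fun f g h h0 => h (by
    have h0 : ds f * dc g - dc f * ds g = 0 := congrArg Subtype.val h0
    rw [Two.J, x0 f, x0 g, x1 f, x1 g]
    linear_combination (d.d0 s * d.d1 c - d.d1 s * d.d0 c) * h0)
  let m' : ℕ → Pt d' := fun i =>
    { x := ⟨(m i).x, hF i (m i).xF⟩
      y := ⟨(m i).y, hF i (m i).yF⟩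
      w := ⟨(m i).w, hF i (m i).wF⟩
      w0 := fun h => (m i).w0 (congrArg Subtype.val h)
      ny := by
        by_contra h
        push Not at h
        have := hz2 _ h.1 h.2
        exact (m i).ny.elim (· this.1) (· this.2)
      tan := ⟨Subtype.ext (t1.sl (m i).tan), Subtype.ext (t2.sl (m i).tan)⟩ }
  refine hS C K d' ⟨false, 1, 0, 0, one_ne_zero⟩ m' (fun i => ⟨z i, hz i⟩) (fun i => ⟨l i, hlK i⟩)
    (Subtype.val ⁻¹' P) ⟨fun f => Subtype.ext ?_, fun f h0 h1 => ?_⟩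
    ⟨⟨fun i _ => ?_, fun i _ => Subtype.ext (hr i)⟩, Subtype.ext ?_, Subtype.ext ?_, Subtype.ext ?_⟩
    ⟨⟨fun a h b h' => hP.add _ h _ h', hP.ne⟩, fun i _ => hl i, fun i _ h => ?_⟩
  · have := hb f f.2
    rwa [br_apply, sub_eq_zero] at this
  · obtain ⟨a, h⟩ := IntermediateField.mem_bot.1 (hc f (hz2 f h0 h1).1 (hz2 f h0 h1).2)
    exact IntermediateField.mem_bot.2 ⟨a, Subtype.ext h⟩
  · exact ⟨Subtype.ext (he i).ex, Subtype.ext (he i).ey, fun h => (he i).z0 (congrArg Subtype.val h),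
      fun h => (he i).l0 (congrArg Subtype.val h), fun h => (he i).g0 (congrArg Subtype.val h),
      fun h => (he i).g1 (congrArg Subtype.val h), hJ' _ _ (he i).nd⟩
  · simp [Iso.px, m', hm]
  · simp [Iso.py, m', hm]
  · simpa [Iso.pz, m', hz0] using hr n
  · refine hp.res C K Ω K.val _ _ (ha i ?_)
    have := H17.map_mem_cl K.val (not_not.1 h)
    rwa [image_singleton] at this

end Norm

theorem norm (p : Prp) : p.Ok → (∀ n, StmtS p n) → ∀ n, StmtQ p n := by
  intro hp hS n C Ω _ _ _ _ _ _ _ d m z l P hc he hr hP hl ha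
  have h1 : ∀ i, Fin.ofNat (n + 1) (i + 1) = Fin.ofNat (n + 1) i + 1 := fun i =>
    Fin.ext (by simp [Fin.val_add])
  have h2 : Fin.ofNat (n + 1) (n + 1) = Fin.ofNat (n + 1) 0 := Fin.ext (by simp)
  exact Norm.main hp (hS n) (m := fun i => m (Fin.ofNat (n + 1) i))
    (z := fun i => z (Fin.ofNat (n + 1) i)) (l := fun i => l (Fin.ofNat (n + 1) i)) hc
    (fun i => by rw [h1]; exact he _) (fun i => by rw [h1]; exact hr _) (by rw [h2]) (by rw [h2])
    hP (fun _ => hl _) fun _ => ha _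

end Pool.Agent.MP_249f74_an.H96
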