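import Pool.Agent.MP_249f74_an.H96.Spec

/-!
Doubling: a constant combination of the middle forms splits.
-/

open Set IntermediateField

namespace Pool.Agent.MP_249f74_an.H96

open H17 (Der Two Kr St mem_Kr mem_St kill_cl stab_cl cl_le cl_mono mem_cl_iff)
open H88 (rk cl subset_cl coe_cl mem_cl)

namespace Dbl

variable {C Ω : Type} [Field C] [Field Ω] [Algebra C Ω] [CharZero Ω] {σ : Ω ≃ₐ[C] Ω}
  {S T X K0 : Set Ω}

omit [CharZero Ω] in
lemma push_ind (hσ : ∀ a ∈ cl C T, σ a = a) (h : Ind C X T K0) (hK : K0 ⊆ cl C T) :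
    Ind C (σ '' X) T K0 := by
  have e : ∀ A : Set Ω, A ⊆ cl C T → σ '' A = A := fun A hA =>
    (image_congr fun a ha => hσ a (hA ha)).trans (image_id' A)
  have := h.push σ
  rwa [e T (subset_cl _), e K0 hK] at this

lemma lift (hσ : ∀ a ∈ cl C T, σ a = a) (hI : Ind C (σ '' S) (S ∪ T) T) (hX : X ⊆ S)
    (h : Ind C X T K0) (hK : K0 ⊆ cl C T) {θ : Der C Ω} (hθ : Kil K0 θ) :
    ∃ φ : Der C Ω, Agr (cl C T : Set Ω) φ θ ∧ Kil (cl C (X ∪ σ '' X) : Set Ω) φ := by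
  obtain ⟨φ1, a1, a2⟩ := h θ hθ
  obtain ⟨φ2, b1, b2⟩ := push_ind hσ h hK θ hθ
  obtain ⟨φ, c1, c2⟩ := hI.glue (a2.trans b2.symm)
  exact ⟨φ, ((c1.mono subset_union_right).trans a2).cl,
    ((a1.of_agr (c1.mono (hX.trans subset_union_left))).union
      (b1.of_agr (c2.mono (image_mono hX)))).cl⟩

lemma kil_pair {s c : Ω} {θ : Der C Ω} (h1 : θ s = 0) (h2 : θ c = 0) :
    Kil (cl C {s, c} : Set Ω) θ :=
  Kil.cl (by rintro _ (rfl | rfl) <;> assumption)

/-- the two copies of the last mirror are independent -/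
lemma ind {SL : Set Ω} {s c t e x y : Ω} (hσ : ∀ a ∈ cl C T, σ a = a)
    (hI : Ind C (σ '' S) (S ∪ T) T) (hS : SL ⊆ S) (hsc : ({s, c} : Set Ω) ⊆ cl C T)
    (ht : t ∈ cl C {s, c}) (he : e ∈ cl C {s, c}) (hs : s ∈ cl C {t, e}) (hc : c ∈ cl C {t, e})
    (hx : x ∈ cl C SL) (hy : y ∈ cl C SL) (hxy : x = e + t * y) (htL : t ∉ cl C SL)
    (hyT : y ∉ cl C T) (hL : Ind C SL T {s, c}) : Ind C (σ '' SL) SL ∅ := by
  intro θ _
  have hσt := hσ t (cl_le hsc ht)
  have hσe := hσ e (cl_le hsc he)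
  have hx' : σ x ∈ cl C (σ '' SL) := mem_cl_image.2 hx
  have hy' : σ y ∈ cl C (σ '' SL) := mem_cl_image.2 hy
  have hne : y - σ y ≠ 0 := by
    obtain ⟨θ0, a1, a2⟩ := sep hyT
    obtain ⟨φ, b1, b2⟩ := hI θ0 a1
    have c1 : φ y = 1 := ((b2.mono (hS.trans subset_union_left)).cl y hy).trans a2
    have c2 : φ (σ y) = 0 := (b1.mono (image_mono hS)).cl _ hy'
    intro h
    rw [← sub_eq_zero.1 h, c1] at c2
    exact one_ne_zero c2
  obtain ⟨a, ha⟩ : ∃ a, a * (y - σ y) = θ x - t * θ y := ⟨_, div_mul_cancel₀ _ hne⟩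
  obtain ⟨ψ1, p1, p2⟩ := ext_one htL θ a
  obtain ⟨ψ2, q1, q2⟩ := ext_one (S := σ '' SL) (x := t)
    (fun h => htL (mem_cl_image.1 (hσt.symm ▸ h))) 0 a
  have e1 : ψ1 e = -(σ y * a) := by
    have h1 := congrArg ψ1 hxy
    rw [map_add, Derivation.leibniz, p2, p1 x hx, p1 y hy, smul_eq_mul, smul_eq_mul] at h1
    linear_combination -h1 - ha
  have e2 : ψ2 e = -(σ y * a) := by
    have h0 := congrArg σ hxy
    rw [map_add, map_mul, hσt, hσe] at h0
    have h1 := congrArg ψ2 h0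
    rw [map_add, Derivation.leibniz, q2, q1 _ hx', q1 _ hy', smul_eq_mul, smul_eq_mul] at h1
    simp only [Derivation.zero_apply] at h1
    linear_combination -h1
  have k1 : Kil (cl C {t, e} : Set Ω) (ψ1 - ψ2) :=
    kil_pair (by simp [p2, q2]) (by simp [e1, e2])
  obtain ⟨χ, r1, r2⟩ := push_ind hσ hL hsc (ψ1 - ψ2) (by
    rintro _ (rfl | rfl)
    · exact k1 _ hs
    · exact k1 _ hc)
  obtain ⟨φ, c1, c2⟩ := hI.glue (θ1 := ψ1) (θ2 := ψ2 + χ) fun f hf => by simp [r2 f hf]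
  refine ⟨φ, fun f hf => ?_, (c1.mono (hS.trans subset_union_left)).trans
    (p1.mono (subset_cl _))⟩
  rw [c2 f (image_mono hS hf), Derivation.add_apply, r1 f hf, q1 f (subset_cl _ hf)]
  simp

end Dbl

open Dbl

theorem dbl : StmtCOPY → StmtCH → StmtLIE → StmtDBL := by
  intro hCOPY hCH hLIE C Ω _ _ _ _ _ _ T SA SL s0 c0 s c t e x y Z ι _ ν ω γ hB hT hSA hSL hs0 hc0
    hs hc ht he hs' hc' hx hy hxy hZL hZy hZx hZc htL hyT hν hγ hsum hνL hωA hγT hνZ hker hIA hIL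
    hne
  obtain ⟨σ, hσ, hI⟩ := hCOPY C Ω (SA ∪ SL) T hB (hSA.union hSL) hT
  have hsc : ({s, c} : Set Ω) ⊆ cl C T := by rintro _ (rfl | rfl) <;> assumption
  have hsc0 : ({s0, c0} : Set Ω) ⊆ cl C T := by rintro _ (rfl | rfl) <;> assumption
  have hsum' : ∀ k θ, ν k θ + ω k θ + γ k θ = 0 := fun k θ => LinearMap.congr_fun (hsum k) θ
  set U : Set Ω := ((cl C (SA ∪ σ '' SA) ⊓ cl C (SL ∪ σ '' SL) : IntermediateField C Ω) : Set Ω)
    with hU
  have hUA : U ⊆ cl C (SA ∪ σ '' SA) := fun _ h => h.1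
  have hUL : U ⊆ cl C (SL ∪ σ '' SL) := fun _ h => h.2
  have hμ : ∀ k, Van (ν k + -push σ (ν k)) U := fun k => by
    refine hCH C Ω _ _ _ hB (fun θ φ => ?_) (hSA.union (hSA.image _)) (hSL.union (hSL.image _))
      (fun θ hθ => ?_) fun θ hθ => ?_
    · rw [dd_add, dd_neg, hν k, (hν k).push σ, neg_zero, add_zero]
    · have h1 := hsum' k θ
      have h2 := congrArg σ (hsum' k (cj σ.symm θ))
      have h3 := LinearMap.congr_fun ((hγT k).push_eq hT (hγ k) hσ) θ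
      have h4 := (hωA k).push σ θ (hθ.mono subset_union_right)
      rw [hωA k θ (hθ.mono subset_union_left)] at h1
      rw [push_apply] at h3 h4
      rw [map_add, map_add, h3, h4, map_zero] at h2
      simp only [LinearMap.add_apply, LinearMap.neg_apply, push_apply]
      linear_combination h1 - h2
    · simp only [LinearMap.add_apply, LinearMap.neg_apply]
      rw [hνL k θ (hθ.mono subset_union_left), (hνL k).push σ θ (hθ.mono subset_union_right),
        neg_zero, add_zero]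
  have hμ' : ∀ k θ, Kil U θ → ν k θ = push σ (ν k) θ := fun k θ hθ => by
    have := hμ k θ hθ
    rwa [LinearMap.add_apply, LinearMap.neg_apply, add_neg_eq_zero] at this
  rcases hLIE C Ω (cl C T) s c {θ | Kil U θ ∧ Pres (cl C T) θ ∧ ∀ k, ν k θ ∈ cl C T} ι ν hs hc
    ⟨fun _ _ => rfl, fun _ _ => zero_mem _, fun k => by simp⟩
    (fun θ hθ φ hφ => ⟨fun f hf => by simp [hθ.1 f hf, hφ.1 f hf],
      fun f hf => add_mem (hθ.2.1 f hf) (hφ.2.1 f hf),
      fun k => by rw [map_add]; exact add_mem (hθ.2.2 k) (hφ.2.2 k)⟩)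
    (fun a ha θ hθ => ⟨fun f hf => by simp [hθ.1 f hf], fun f hf => mul_mem ha (hθ.2.1 f hf),
      fun k => by rw [map_smul]; exact mul_mem ha (hθ.2.2 k)⟩)
    (fun θ hθ φ hφ => ⟨hθ.1.br hφ.1, hθ.2.1.br hφ.2.1, fun k => by
      rw [← sub_eq_zero.1 (hν k θ φ)]
      exact sub_mem (hθ.2.1 _ (hφ.2.2 k)) (hφ.2.1 _ (hθ.2.2 k))⟩)
    (fun θ hθ => hθ.2.1) hν (fun k θ hθ => hθ.2.2 k)
    (by
      intro f hf hn
      obtain ⟨θ0, a1, a2, a3⟩ := sep_pres (cl_cl T) hsc hf hn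
      obtain ⟨φ, b1, b2⟩ := lift hσ hI subset_union_right hIL hsc a2
      have b3 : ∀ k, ν k φ = 0 := fun k =>
        hνL k φ (b2.mono (subset_union_left.trans (subset_cl _)))
      refine ⟨φ, ⟨b2.mono hUL, fun g hg => b1 g hg ▸ a1 g hg, fun k => b3 k ▸ zero_mem _⟩,
        (b1 s hs).trans (a2 s (by simp)), (b1 c hc).trans (a2 c (by simp)), b3, ?_⟩
      rw [b1 f hf, a3]
      exact one_ne_zero) with
    ⟨⟨θ1, g1, g1s, g1c, g1ν⟩, θ2, g2, g2s, g2c, g2ν⟩ | ⟨κ1, hκ1, κ2, hκ2, lam, hn, hrel⟩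
  · exfalso
    have hind := ind hσ hI subset_union_right hsc ht he hs' hc' hx hy hxy htL hyT hIL
    obtain ⟨θs, a1, a2⟩ := hind Z fun _ h => h.elim
    have key : ∀ ψ : Der C Ω, ψ s = 0 → ψ c = 0 → (∀ k, ν k ψ = 0) → Kil SL ψ := by
      intro ψ h1 h2 h3
      have h4 := hker ψ h3
      have h5 := h4.cl x hx
      have h6 := congrArg ψ hxy
      rw [map_add, Derivation.leibniz, kil_pair h1 h2 e he, kil_pair h1 h2 t ht, h5] at h6
      simp only [Derivation.smul_apply, smul_eq_mul] at h6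
      have h7 : ψ y * (Z x - t) = 0 := by linear_combination h6
      have h8 : ψ y = 0 := (mul_eq_zero.1 h7).resolve_right (sub_ne_zero.2 hZx)
      intro f hf
      simp [h4 f hf, h8]
    set θ := θs s • θ1 + θs c • θ2 with hθ
    have b1 : Kil U θ := fun f hf => by simp [hθ, g1.1 f hf, g2.1 f hf]
    have b2 : ∀ k, ν k θ = 0 := fun k => by simp [hθ, g1ν, g2ν]
    have b3 : (θ - θs) s = 0 := by simp [hθ, g1s, g2s]
    have b4 : (θ - θs) c = 0 := by simp [hθ, g1c, g2c]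
    have b5 : Kil SL (θ - θs) := key _ b3 b4 fun k => by
      rw [map_sub, b2, (hνL k).agr a2, hνZ, sub_zero]
    have b6 : Kil (σ '' SL) (θ - θs) := by
      refine kil_cj'.1 (key _ ?_ ?_ fun k => σ.injective ?_)
      · rw [cj_apply, AlgEquiv.symm_symm, hσ s hs, b3, map_zero]
      · rw [cj_apply, AlgEquiv.symm_symm, hσ c hc, b4, map_zero]
      · rw [← push_apply, map_sub, ← hμ' k θ b1, b2, (hνL k).push σ θs a1, sub_zero, map_zero]
    have b7 : Kil U θs := fun f hf => by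
      have := (b5.union b6).cl f (hUL hf)
      rw [Derivation.sub_apply, b1 f hf, zero_sub, neg_eq_zero] at this
      exact this
    have b8 : Ind C (Kr θs : Set Ω) (cl C SL) ∅ :=
      ind_of_der (fun f hf => a2.cl f hf ▸ hZL f hf) fun f hf h0 =>
        (bot_le : ⊥ ≤ cl C ∅) (hZc f hf (a2.cl f hf ▸ h0))
    have b9 : U ⊆ cl C (σ '' SL) := fun u hu => by
      have := b8.mem_cl (S := σ '' SL) a1 (b7 u hu)
        (cl_mono (union_subset_union_left _ (subset_cl _)) (hUL hu))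
      rwa [empty_union] at this
    obtain ⟨k, θ0, h0⟩ := hne
    obtain ⟨φ, c1, c2⟩ := hind θ0 fun _ h => h.elim
    refine h0 ?_
    rw [← (hνL k).agr c2, hμ' k φ (c1.cl.mono b9), (hνL k).push σ φ c1]
  · refine ⟨κ1, hκ1, κ2, hκ2, lam, hn, fun θ h1 h2 => ?_⟩
    obtain ⟨n, b, ε, -, -, a1, -, a2⟩ := exists_dual (cl_cl T) (cl C {s0, c0}) (cl_le hsc0) hT
      (subset_cl _)
    let Λ : Fm C Ω := κ1 • dif s + κ2 • dif c - ∑ k, algebraMap C Ω (lam k) • γ k
    have hΛ : ∀ φ, Λ φ = κ1 * φ s + κ2 * φ c - ∑ k, algebraMap C Ω (lam k) * γ k φ := fun φ => by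
      simp only [Λ, LinearMap.sub_apply, LinearMap.add_apply, LinearMap.smul_apply, dif_apply,
        LinearMap.sum_apply, smul_eq_mul]
    have hV : Van Λ T := fun φ hφ => by
      simp [hΛ, hφ.cl s hs, hφ.cl c hc, fun k => hγT k φ hφ]
    have hε : ∀ i, Λ (ε i) = 0 := fun i => by
      obtain ⟨φ, b1, b2⟩ := lift hσ hI subset_union_left hIA hsc0 ((a1 i).2.mono (subset_cl _))
      have b3 : ∀ k, ν k φ = -γ k φ := fun k => by
        have := hsum' k φ
        rw [hωA k φ (b2.mono (subset_union_left.trans (subset_cl _)))] at this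
        linear_combination this
      have b4 : Pres (cl C T) φ := fun g hg => b1 g hg ▸ (a1 i).1 g hg
      have := hrel φ ⟨b2.mono hUA, b4, fun k => by
        obtain ⟨m, p, q, c1, c2, c3⟩ := (hγT k).coef hT (hγ k)
        rw [b3, c3]
        exact neg_mem (sum_mem fun j _ => mul_mem (c1 j) (b4 _ (subset_cl _ (c2 j))))⟩
      rw [← hV.agr (b1.mono (subset_cl _)), hΛ, ← this]
      simp [b3, sub_eq_add_neg]
    rw [← sub_eq_zero, ← hΛ, hV.agr ((a2 θ (kil_pair h1 h2)).mono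
      (subset_union_right.trans (subset_cl _))), map_sum]
    simp [hε]

end Pool.Agent.MP_249f74_an.H96
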