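import Pool.Agent.MP_249f74_an.H96.Spec

/-!
Functions that are rational along a generic line, and free deformations of a transcendental point.
-/

open Set IntermediateField

namespace Pool.Agent.MP_249f74_an.H96

open H17 (Der Two Kr St mem_Kr stab_sup cl_le cl_mono)
open H88 (rk cl subset_cl)

namespace Free

variable {C Ω : Type} [Field C] [Field Ω] [Algebra C Ω]

lemma sup_le_cl (K : IntermediateField C Ω) (y : Ω) : K ⊔ C⟮y⟯ ≤ cl C ((K : Set Ω) ∪ {y}) :=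
  sup_le (fun _ h => subset_cl _ (Or.inl h)) (adjoin_simple_le_iff.2 (subset_cl _ (Or.inr rfl)))

lemma pres_sup {k : IntermediateField C Ω} {s : Ω} {P : Der C Ω} (h : Pres k P) (hs : P s = 0) :
    Pres (k ⊔ C⟮s⟯) P :=
  stab_sup (fun a ha => SetLike.le_def.1 le_sup_left (h a ha)) fun a ha => by
    rw [mem_Kr.1 (adjoin_simple_le_iff.2 (mem_Kr.2 hs) ha)]; exact zero_mem _

variable [CharZero Ω]

/-- The common constants of two commuting derivations after adjoining a constant. -/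
lemma const_sup {k : IntermediateField C Ω} {s : Ω} {P Q : Der C Ω} (hP : Pres k P) (hQ : Pres k Q)
    (hc : ∀ f ∈ k, P (Q f) = Q (P f)) (ps : P s = 0) (qs : Q s = 0)
    (h0 : ∀ f ∈ k, P f = 0 → Q f = 0 → f ∈ (⊥ : IntermediateField C Ω)) {f : Ω} (hf : f ∈ k ⊔ C⟮s⟯)
    (pf : P f = 0) (qf : Q f = 0) : f ∈ cl C {s} := by
  have h1 := (ind_of_der hP (K0 := (k ⊓ Kr P : IntermediateField C Ω))
    fun g hg e => subset_cl _ ⟨hg, e⟩).mem_cl (S := {s}) (singleton_subset_iff.2 ps) pf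
    (sup_le_cl k s hf)
  have h2 := (ind_of_der (δ := Q) (F := k ⊓ Kr P) (K0 := ∅)
    (fun g hg => ⟨hQ g hg.1, show P (Q g) = 0 by rw [hc g hg.1, mem_Kr.1 hg.2, map_zero]⟩)
    fun g hg e => (bot_le : ⊥ ≤ cl C (∅ : Set Ω)) (h0 g hg.1 hg.2 e)).mem_cl (S := {s})
    (singleton_subset_iff.2 qs) qf h1
  rwa [empty_union] at h2

/-- Translation of the slope. -/
lemma shift [IsAlgClosed Ω] (hA : StmtAUT) {k : IntermediateField C Ω} {s : Ω} {D : Der C Ω}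
    (hk : Kil k D) (hs : D s = 1) : ∃ τ : Ω ≃ₐ[C] Ω, (∀ a ∈ k, τ a = a) ∧ τ s = s + 1 := by
  obtain ⟨τ, h1, h2⟩ := hA C Ω (cl C (k : Set Ω)) Unit (fun _ => s) (fun _ => s + 1)
    (indep_one (not_mem_cl hk (hs ▸ one_ne_zero))) (indep_one (not_mem_cl hk (by simp [hs]))) (by
      rw [range_const, range_const]
      refine le_antisymm (adjoin_simple_le_iff.2 ?_) (adjoin_simple_le_iff.2 ?_)
      · simpa using sub_mem (mem_adjoin_simple_self (cl C (k : Set Ω)) (s + 1)) (one_mem _)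
      · exact add_mem (mem_adjoin_simple_self _ s) (one_mem _))
  exact ⟨τ, fun a ha => h1 a (subset_cl _ ha), h2 ()⟩

lemma core [IsAlgClosed Ω] (hA : StmtAUT) {k : IntermediateField C Ω} {s x y r : Ω}
    {D P Q : Der C Ω} (hk : Kil k D) (hs : D s = 1) (hP : Pres k P) (hQ : Pres k Q)
    (hc : ∀ f ∈ k ⊔ C⟮s⟯, P (Q f) = Q (P f)) (ps : P s = 0) (qs : Q s = 0) (py : P y = 0)
    (qy : Q y = 1) (px : P x = 1) (qx : Q x = 0) (hx : x ∈ k) (hy : y ∈ k) (hr : r ∈ k)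
    (h0 : ∀ f ∈ k, P f = 0 → Q f = 0 → f ∈ (⊥ : IntermediateField C Ω))
    (h1 : r ∈ cl C ((Kr (Q + s • P) : Set Ω) ∪ {y})) : r ∈ cl C {x, y} := by
  have l1 : k ≤ k ⊔ C⟮s⟯ := le_sup_left
  have s1 : s ∈ k ⊔ C⟮s⟯ := SetLike.le_def.1 le_sup_right (mem_adjoin_simple_self C s)
  have P1 := pres_sup hP ps
  have Q1 := pres_sup hQ qs
  have eX : ∀ f, (Q + s • P) f = Q f + s * P f := fun _ => rfl
  generalize Q + s • P = X at h1 eX
  have X1 : Pres (k ⊔ C⟮s⟯) X := fun f hf => eX f ▸ add_mem (Q1 f hf) (mul_mem s1 (P1 f hf))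
  have h2 := (ind_of_der X1 (K0 := ((k ⊔ C⟮s⟯) ⊓ Kr X : IntermediateField C Ω))
    fun g hg e => subset_cl _ ⟨hg, e⟩).symm.mem_cl (S := {y}) (singleton_subset_iff.2 (l1 hy))
    (l1 hr) h1
  obtain ⟨τ, t1, t2⟩ := shift hA hk hs
  have t3 : ∀ f ∈ k ⊔ C⟮s⟯, τ f ∈ k ⊔ C⟮s⟯ := fun f hf =>
    (sup_le (fun a ha => show τ a ∈ k ⊔ C⟮s⟯ from (t1 a ha).symm ▸ l1 ha)
      (adjoin_simple_le_iff.2 (show τ s ∈ k ⊔ C⟮s⟯ from t2.symm ▸ add_mem s1 (one_mem _))) :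
        k ⊔ C⟮s⟯ ≤ (k ⊔ C⟮s⟯).comap (τ : Ω →ₐ[C] Ω)) hf
  have t4 : Agr ((k : Set Ω) ∪ {s}) (cj τ.symm (X + P)) X := by
    rintro f (hf | rfl)
    · rw [cj_apply, AlgEquiv.symm_symm, t1 f hf, AlgEquiv.symm_apply_eq, eX, map_add, map_mul,
        t1 _ (hP f hf), t1 _ (hQ f hf), t2, Derivation.add_apply, eX]
      ring
    · simp [t2, eX, ps, qs]
  have h3 : r ∈ cl C ((((k ⊔ C⟮s⟯) ⊓ Kr (X + P) : IntermediateField C Ω) : Set Ω) ∪ {y}) := by
    rw [← t1 r hr]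
    refine cl_mono ?_ (mem_cl_image.2 h2)
    rintro _ ⟨f, hf | rfl, rfl⟩
    · refine Or.inl ⟨t3 f hf.1, ?_⟩
      have := t4.cl f (sup_le_cl k s hf.1)
      rw [mem_Kr.1 hf.2, cj_apply, AlgEquiv.symm_symm] at this
      exact (map_eq_zero_iff _ τ.symm.injective).1 this
    · exact Or.inr (t1 _ hy)
  have hI := (ind_of_der (δ := X) (F := (k ⊔ C⟮s⟯) ⊓ Kr (X + P)) (K0 := {s})
    (fun f hf => ⟨X1 f hf.1, by
      have e := congrArg X (mem_Kr.1 hf.2)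
      have e2 : P (X f) = X (P f) := by
        rw [eX, eX, map_add, hc f hf.1, Derivation.leibniz, ps, smul_zero, add_zero, smul_eq_mul]
      rw [Derivation.add_apply, map_add, map_zero, ← e2] at e
      exact e⟩)
    fun f hf e => by
      have e1 : X f + P f = 0 := hf.2
      rw [e, zero_add] at e1
      rw [eX, e1, mul_zero, add_zero] at e
      exact const_sup hP hQ (fun g hg => hc g (l1 hg)) ps qs h0 hf.1 e1 e).symm
  refine mem_cl_of_der (t := s) (δ := D) (mem_cl_of_kil fun θ hθ => ?_) ?_ (hk r hr)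
    (hs ▸ one_ne_zero)
  · have θs := hθ s (Or.inl rfl)
    have θx := hθ x (Or.inr (Or.inl rfl))
    have θy := hθ y (Or.inr (Or.inr rfl))
    obtain ⟨φ, f1, f2⟩ := hI θ (by rintro _ rfl; exact θs)
    have f3 := f2 (x - s * y) (by simp [eX, ps, qs, px, qx, py, qy])
    have f4 := f1 (x - s * y - y) ⟨sub_mem (sub_mem (l1 hx) (mul_mem s1 (l1 hy))) (l1 hy), by
      simp [eX, ps, qs, px, qx, py, qy, add_sub_cancel_left, sub_add_eq_add_sub]⟩
    rw [map_sub, f3] at f4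
    have f5 : φ y = 0 := by simpa [θs, θx, θy] using f4
    rw [← (f2.union (T := {y}) (by rintro _ rfl; rw [f5, θy])).cl r h1]
    exact (f1.union (T := {y}) (by rintro _ rfl; exact f5)).cl r h3
  · rintro _ (rfl | rfl)
    · exact hk _ hx
    · exact hk _ hy

omit [CharZero Ω] in
lemma pen_s {d : Two C Ω} {K : IntermediateField C Ω} {s c y : Ω} {ds dc : Der C Ω}
    (h : Pen d K s c y ds dc) : (ds - y • dc) s = 1 := by simp [h.e11, h.e21]

omit [CharZero Ω] in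
lemma pen_x {d : Two C Ω} {K : IntermediateField C Ω} {s c y : Ω} {ds dc : Der C Ω}
    (h : Pen d K s c y ds dc) : (ds - y • dc) (c + s * y) = s * (ds - y • dc) y := by
  rw [map_add, Derivation.leibniz, pen_s h]
  simp [h.e12, h.e22]

end Free

theorem free : StmtAUT → StmtPEN → StmtFREE := by
  intro hA hPen C Ω _ _ _ _ _ d K s c y ds dc hd hp hy r hr h0
  obtain ⟨-, P, Q, h1, -, -, h2, h3, h4, h5, h6, h7, h8, h9, h10, h11⟩ :=
    hPen C Ω d K s c y ds dc hd hp hy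
  have l1 : K ≤ K ⊔ C⟮y⟯ := le_sup_left
  have y1 : y ∈ K ⊔ C⟮y⟯ := SetLike.le_def.1 le_sup_right (mem_adjoin_simple_self C y)
  exact Free.core hA (k := (K ⊔ C⟮y⟯) ⊓ Kr (ds - y • dc)) (fun f hf => hf.2) (Free.pen_s hp) h2 h3
    (fun f hf => h4 f ((sup_le inf_le_left (adjoin_simple_le_iff.2 (l1 hp.hs)) : _ ≤ K ⊔ C⟮y⟯) hf))
    h5 h6 h7 h8 h9 h10
    ⟨add_mem (l1 hp.hc) (mul_mem (l1 hp.hs) y1), by rw [SetLike.mem_coe, mem_Kr, Free.pen_x hp, hy,
      mul_zero]⟩ ⟨y1, hy⟩ ⟨hr, h0⟩ h11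
    (cl_mono (union_subset_union_left _ h1) (Free.sup_le_cl K y hr))

theorem step : StmtPEN → StmtFREE → StmtSTEP := by
  intro hPen hF C Ω _ _ _ _ _ d K s c ds dc m hd hp hx hw θ t
  by_cases ht : m.Tr
  swap
  · exact ⟨θ, fun _ _ => rfl, m.tan_alg ht _⟩
  have hw' := sub_ne_zero.2 hw
  have tD : d.Tn (ds - m.y • dc) := hp.t1.sub (hp.t2.smul _)
  have hy : (ds - m.y • dc) m.y = 0 := by
    have := Free.pen_x hp
    rw [← hx, m.dx tD] at this
    exact (mul_eq_zero.1 (show _ * (m.w - s) = 0 by linear_combination this)).resolve_right hw'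
  obtain ⟨Z, z1, z2⟩ := m.exists_one
  obtain ⟨μ, hμ⟩ : ∃ μ, μ * (m.w - s) = θ c + m.y * θ s + s * t m.y - t m.x :=
    ⟨_, div_mul_cancel₀ _ hw'⟩
  obtain ⟨φ, f1, f2⟩ := ext_one hp.hy θ (t m.y + μ)
  obtain ⟨ψ, g1, g2⟩ := (ind_of_der (hPen C Ω d K s c m.y ds dc hd hp hy).1
    (hF C Ω d K s c m.y ds dc hd hp hy)).glue (θ1 := φ) (θ2 := t + μ • Z) (by
      rintro _ (rfl | rfl)
      · rw [map_add, Derivation.leibniz, f1 c (subset_cl _ hp.hc), f1 s (subset_cl _ hp.hs), f2,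
          ← hx, Derivation.add_apply, Derivation.smul_apply, m.dx z1, z2]
        simp only [smul_eq_mul]
        linear_combination -hμ
      · simp [f2, z2])
  refine ⟨ψ, fun f hf => (g1 f (SetLike.le_def.1 le_sup_left hf)).trans (f1 f (subset_cl _ hf)),
    μ • Z, z1.smul _, fun f hf => ?_⟩
  rw [Derivation.sub_apply, g2 f ((m.J_eq_zero_iff tD hy
    (Free.pen_s hp ▸ one_ne_zero)).1 (m.J_H hf))]
  simp

end Pool.Agent.MP_249f74_an.H96
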