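import Pool.Agent.MP_249f74_an.H96.Spec

/-!
Coordinate derivations on the constants of a pencil, and perfect focusing.
-/

open Set IntermediateField

namespace Pool.Agent.MP_249f74_an.H96

open H17 (Der Two Kr St mem_Kr mem_St)
open H88 (rk cl subset_cl)

namespace PenAux

variable {C Ω : Type} [Field C] [Field Ω] [Algebra C Ω] {K : IntermediateField C Ω} {y : Ω}
  {θ : Der C Ω}

lemma kl (h : ∀ f ∈ K, θ f = 0) (hy : θ y = 0) : ∀ f ∈ K ⊔ C⟮y⟯, θ f = 0 := fun _ hf =>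
  (sup_le h (adjoin_simple_le_iff.2 hy) : K ⊔ C⟮y⟯ ≤ Kr θ) hf

lemma inl {f : Ω} (h : f ∈ K) : f ∈ K ⊔ C⟮y⟯ := (le_sup_left : K ≤ K ⊔ C⟮y⟯) h

lemma inr : y ∈ K ⊔ C⟮y⟯ := (le_sup_right : C⟮y⟯ ≤ K ⊔ C⟮y⟯) (mem_adjoin_simple_self C y)

lemma pr (h : ∀ f ∈ K, θ f ∈ K ⊔ C⟮y⟯) (hy : θ y ∈ K ⊔ C⟮y⟯) : Pres (K ⊔ C⟮y⟯) θ := fun _ hf =>
  ((sup_le (fun f hf => ⟨inl hf, h f hf⟩) (adjoin_simple_le_iff.2 ⟨inr, hy⟩) :
    K ⊔ C⟮y⟯ ≤ St θ (K ⊔ C⟮y⟯)) hf).2

/-- Integration of a diagonal Jacobian matrix of determinant one. -/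
lemma diag {k : IntermediateField C Ω} {P Q : Der C Ω} {x y u v : Ω} (hP : Pres k P)
    (hc : ∀ f ∈ k, P (Q f) = Q (P f))
    (h0 : ∀ f ∈ k, P f = 0 → Q f = 0 → f ∈ (⊥ : IntermediateField C Ω)) (hx : x ∈ k) (hy : y ∈ k)
    (hu : u ∈ k) (hv : v ∈ k) (px : P x = 1) (py : P y = 0) (qx : Q x = 0) (qy : Q y = 1)
    (qu : Q u = 0) (pv : P v = 0) (e : P u * Q v = 1) :
    ∃ b a a' : C, b ≠ 0 ∧ P u = algebraMap C Ω b ∧ u = algebraMap C Ω b * x + algebraMap C Ω a ∧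
      v = (algebraMap C Ω b)⁻¹ * y + algebraMap C Ω a' := by
  have n0 : P u ≠ 0 := left_ne_zero_of_mul_eq_one e
  have e1 : Q v = (P u)⁻¹ := eq_inv_of_mul_eq_one_right e
  have q1 : Q (P u) = 0 := by rw [← hc u hu, qu, map_zero]
  have q2 : P (P u) = 0 := by
    have h1 := congrArg P e
    rw [Derivation.leibniz, hc v hv, pv, map_zero, e1] at h1
    simpa [n0] using h1
  obtain ⟨b, hb⟩ := mem_bot.1 (h0 _ (hP u hu) q2 q1)
  have hk : algebraMap C Ω b ∈ k := k.algebraMap_mem b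
  obtain ⟨a, ha⟩ := mem_bot.1 (h0 (u - algebraMap C Ω b * x) (sub_mem hu (mul_mem hk hx))
    (by simp [px, hb, q2]) (by simp [qx, qu]))
  obtain ⟨a', ha'⟩ := mem_bot.1 (h0 (v - (algebraMap C Ω b)⁻¹ * y)
    (sub_mem hv (mul_mem (inv_mem hk) hy)) (by simp [py, pv, Derivation.leibniz_inv])
    (by simp [qy, e1, hb, q1, Derivation.leibniz_inv]))
  refine ⟨b, a, a', fun h => n0 (by rw [← hb, h, map_zero]), hb.symm, ?_, ?_⟩
  · rw [ha]; ring
  · rw [ha']; ring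

end PenAux

open PenAux

theorem pen : StmtPEN := by
  intro C Ω _ _ _ _ d K s c y ds dc hd h hD
  have hJ : d.J s c ≠ 0 := J_ne_of_dual h.t1 h.t2 (by simp [h.e11, h.e12, h.e21, h.e22])
  have cm : ∀ f, ds (dc f) = dc (ds f) := fun f => by
    rw [← sub_eq_zero, ← br_apply]
    exact (tn_br hd h.t1 h.t2).eq_zero hJ (by simp [br_apply, h.e11, h.e21])
      (by simp [br_apply, h.e12, h.e22]) f
  obtain ⟨P, p1, p2⟩ := ext_one h.hy dc 0
  obtain ⟨X, x1, x2⟩ := ext_one h.hy 0 1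
  have pK : ∀ f ∈ K, P f = dc f := fun f hf => p1 f (subset_cl _ hf)
  have xK : ∀ f ∈ K, X f = 0 := fun f hf => x1 f (subset_cl _ hf)
  obtain ⟨D, eD⟩ : ∃ D, D = ds - y • dc := ⟨_, rfl⟩
  have dD : ∀ f, D f = ds f - y * dc f := fun f => by simp [eD]
  rw [← eD] at hD ⊢
  have sP : Pres (K ⊔ C⟮y⟯) P := pr (fun f hf => pK f hf ▸ inl (h.p2 f hf)) (p2 ▸ zero_mem _)
  have sX : Pres (K ⊔ C⟮y⟯) X := pr (fun f hf => xK f hf ▸ zero_mem _) (x2 ▸ one_mem _)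
  have sQ : Pres (K ⊔ C⟮y⟯) (X - s • P) := fun f hf =>
    sub_mem (sX f hf) (mul_mem (inl h.hs) (sP f hf))
  have b1 := kl (K := K) (y := y) (θ := ⁅D, P⁆) (fun f hf => by
    simp [br_apply, dD, pK f hf, pK _ (h.p1 f hf), pK _ (h.p2 f hf), p2, cm])
    (by simp [br_apply, hD, p2])
  have b2 := kl (K := K) (y := y) (θ := ⁅D, X⁆ - P) (fun f hf => by
    simp [br_apply, dD, pK f hf, xK f hf, xK _ (h.p1 f hf), xK _ (h.p2 f hf), x2])
    (by simp [br_apply, hD, p2, x2])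
  have b3 := kl (K := K) (y := y) (θ := ⁅P, X⁆) (fun f hf => by
    simp [br_apply, pK f hf, xK f hf, xK _ (h.p2 f hf)]) (by simp [br_apply, p2, x2])
  simp only [br_apply, Derivation.sub_apply] at b1 b2 b3
  have ps : P s = 0 := (pK s h.hs).trans h.e21
  have pc : P c = 1 := (pK c h.hc).trans h.e22
  have Ds : D s = 1 := by simp [dD, h.e11, h.e21]
  have k1 : ∀ f ∈ K ⊔ C⟮y⟯, D f = 0 → D (P f) = 0 := fun f hf h0 => by simpa [h0] using b1 f hf
  refine ⟨pr (fun f hf => dD f ▸ sub_mem (inl (h.p1 f hf)) (mul_mem inr (inl (h.p2 f hf))))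
    (hD ▸ zero_mem _), P, X - s • P, fun f hf => by simp [xK f hf], sP, sQ,
    fun f hf => ⟨sP f hf.1, k1 f hf.1 hf.2⟩, fun f hf => ⟨sQ f hf.1, ?_⟩, fun f hf => ?_, ps,
    by simp [ps, xK s h.hs], p2, by simp [p2, x2], by simp [ps, pc, p2],
    by simp [ps, pc, p2, x2, xK s h.hs, xK c h.hc], fun f hf h1 h2 => ?_⟩
  · have h0 : D f = 0 := hf.2
    simpa [h0, Ds, k1 f hf.1 h0] using b2 f hf.1
  · simpa [ps, sub_eq_zero] using b3 f hf
  · have h3 : f ∈ cl C (K : Set Ω) := mem_cl_of_der (t := y) (δ := X)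
      ((sup_le (fun g hg => subset_cl _ (Or.inr hg)) (adjoin_simple_le_iff.2
        (subset_cl _ (Or.inl rfl))) : K ⊔ C⟮y⟯ ≤ cl C (insert y (K : Set Ω))) hf.1) xK
      (by simpa [h1] using h2) (x2 ▸ one_ne_zero)
    have h4 : dc f = 0 := (p1 f h3).symm.trans h1
    have h5 : ds f = 0 := by simpa [dD, h4] using (show D f = 0 from hf.2)
    have h6 := h.t1.cyc s c f
    have h7 := h.t2.cyc s c f
    simp only [h4, h5, h.e11, h.e12, h.e21, h.e22, mul_zero, mul_one, zero_add, add_zero] at h6 h7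
    have h8 : ∀ Z, d.Tn Z → Z f = 0 := fun Z hZ => by simpa [h6, h7, hJ] using hZ.cyc s c f
    exact hd.const f (h8 _ tn_d0) (h8 _ tn_d1)

theorem foc : StmtPEN → StmtFOC := by
  intro H C Ω _ _ _ _ d K z c y z' c' κ x' y' ds dc hd h hD hz hz' hc' hκ ex hJ h1 h2 h3
  obtain ⟨sD, P, Q, hX, -, -, sP, sQ, cm, ps, qs, py, qy, px, qx, h0⟩ := H C Ω d K _ c y ds dc hd h hD
  have tD := h.t1.sub (h.t2.smul y)
  have Ds : (ds - y • dc) (z ^ 2) = 1 := by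
    rw [Derivation.sub_apply, Derivation.smul_apply, h.e11, h.e21, smul_zero, sub_zero]
  have Dc : (ds - y • dc) c = -y := by simp [h.e12, h.e22]
  generalize ds - y • dc = D at *
  have e1 : D c' + y' * D (z' ^ 2) = 0 := by
    rw [ex, map_add, Derivation.leibniz, h2] at h1
    simpa using h1
  have n1 : D (z' ^ 2) ≠ 0 := fun e => one_ne_zero
    (Ds.symm.trans (tD.eq_zero hJ e (by simpa only [e, mul_zero, add_zero] using e1) _))
  have my : y' ∈ K ⊔ C⟮y⟯ := by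
    rw [show y' = -D c' / D (z' ^ 2) by field_simp; linear_combination e1]
    exact div_mem (neg_mem (sD _ (inl hc'))) (sD _ (inl (pow_mem hz' 2)))
  have ky' : y' ∈ (K ⊔ C⟮y⟯) ⊓ Kr D := ⟨my, h2⟩
  have kx' : x' ∈ (K ⊔ C⟮y⟯) ⊓ Kr D :=
    ⟨ex ▸ add_mem (inl hc') (mul_mem (inl (pow_mem hz' 2)) my), h1⟩
  have kL : κ - z * y + z' * y' ∈ (K ⊔ C⟮y⟯) ⊓ Kr D :=
    ⟨add_mem (sub_mem (inl hκ) (mul_mem (inl hz) inr)) (mul_mem (inl hz') my), h3⟩
  have ky : y ∈ (K ⊔ C⟮y⟯) ⊓ Kr D := ⟨inr, hD⟩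
  have kx : c + z ^ 2 * y ∈ (K ⊔ C⟮y⟯) ⊓ Kr D :=
    ⟨add_mem (inl h.hc) (mul_mem (inl h.hs) inr), show D _ = 0 by
      rw [map_add, Derivation.leibniz, Ds, Dc, hD]; simp⟩
  have n2 : D z ≠ 0 := fun e => by simp [Derivation.leibniz_pow, e] at Ds
  have z0 : z ≠ 0 := fun e => n2 (by rw [e, map_zero])
  have r1 : Q x' + z ^ 2 * P x' = z' ^ 2 * (Q y' + z ^ 2 * P y') := by
    change (Q + z ^ 2 • P) x' = z' ^ 2 * (Q + z ^ 2 • P) y'
    rw [ex, map_add, Derivation.leibniz, hX _ hc', hX _ (pow_mem hz' 2)]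
    simp
  have r2 : Q (κ - z * y + z' * y') + z ^ 2 * P (κ - z * y + z' * y') =
      -z + z' * (Q y' + z ^ 2 * P y') := by
    change (Q + z ^ 2 • P) _ = -z + z' * (Q + z ^ 2 • P) y'
    rw [map_add, map_sub, Derivation.leibniz, Derivation.leibniz, hX _ hκ, hX _ hz, hX _ hz']
    simp [py, qy]
  have m1 := sQ _ kL
  have m2 := sP _ kL
  have m3 := sQ _ kx'
  have m4 := sP _ kx'
  have m5 := sQ _ ky'
  have m6 := sP _ ky'
  generalize Q (κ - z * y + z' * y') = L1 at *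
  generalize P (κ - z * y + z' * y') = L2 at *
  have cz := coef_zero (F := (K ⊔ C⟮y⟯) ⊓ Kr D) (not_mem_cl (δ := D) (fun f hf => hf.2) n2)
    ![L1 * L1 - Q x' * Q y', L1 + L1, 1 + (L1 + L1) * L2 - Q x' * P y' - P x' * Q y', L2 + L2,
      L2 * L2 - P x' * P y'] (by
      intro i
      fin_cases i
      · exact sub_mem (mul_mem m1 m1) (mul_mem m3 m5)
      · exact add_mem m1 m1
      · exact sub_mem (sub_mem (add_mem (one_mem _) (mul_mem (add_mem m1 m1) m2)) (mul_mem m3 m6))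
          (mul_mem m4 m5)
      · exact add_mem m2 m2
      · exact sub_mem (mul_mem m2 m2) (mul_mem m4 m6)) (by
      simp [Fin.sum_univ_succ]
      linear_combination (L1 + z ^ 2 * L2 + z + z' * (Q y' + z ^ 2 * P y')) * r2 -
        (Q y' + z ^ 2 * P y') * r1)
  have c0 : L1 * L1 - Q x' * Q y' = 0 := cz 0
  have c1 : L1 = 0 := add_self_eq_zero.1 (cz 1)
  have c2 : 1 + (L1 + L1) * L2 - Q x' * P y' - P x' * Q y' = 0 := cz 2
  have c3 : L2 = 0 := add_self_eq_zero.1 (cz 3)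
  have c4 : L2 * L2 - P x' * P y' = 0 := cz 4
  subst c1 c3
  by_cases e : P y' = 0
  · have e2 : P x' * Q y' = 1 := by linear_combination -c2 - Q x' * e
    have e3 : Q x' = 0 := (mul_eq_zero.1 (by linear_combination -c0)).resolve_right
      (right_ne_zero_of_mul_eq_one e2)
    obtain ⟨b, a, a', b0, f1, f2, f3⟩ := diag sP (fun f hf => cm f hf.1) h0 kx ky kx' ky' px py qx
      qy e3 e e2
    refine ⟨⟨false, b, a, a', b0⟩, f2, f3, ?_⟩
    change z' = algebraMap C Ω b * z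
    linear_combination -z' * e2 - P x' * r2 - P x' * z' * z ^ 2 * e + z * f1
  · have e1 : P x' = 0 := (mul_eq_zero.1 (by linear_combination -c4)).resolve_right e
    have e2 : Q x' * P y' = 1 := by linear_combination -c2 - Q y' * e1
    have e3 : Q y' = 0 := (mul_eq_zero.1 (by linear_combination -c0)).resolve_left
      (left_ne_zero_of_mul_eq_one e2)
    obtain ⟨b, a, a', b0, f1, f2, f3⟩ := diag sQ (fun f hf => (cm f hf.1).symm)
      (fun f hf u v => h0 f hf v u) ky kx kx' ky' qy qx py px e1 e3 e2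
    refine ⟨⟨true, b, a, a', b0⟩, f2, f3, ?_⟩
    change z' = algebraMap C Ω b * z⁻¹
    rw [← f1, ← div_eq_mul_inv, eq_div_iff z0]
    refine mul_left_cancel₀ z0 ?_
    linear_combination -z' * z ^ 2 * e2 - Q x' * r2 - Q x' * z' * e3

end Pool.Agent.MP_249f74_an.H96
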