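import Pool.Agent.MP_249f74_an.H96.Irr
import Pool.Agent.MP_249f74_an.H17.Anal

/-!
From a smooth billiard without circular jets to a differential field.
-/

open Set IntermediateField Module

namespace Pool.Agent.MP_249f74_an.H96

open H17 (Der Two Mir toDer_apply)
open H88 (cl)
open H17.Anal

namespace An

section Alg

variable {C Ω : Type} [Field C] [Field Ω] [Algebra C Ω] {d : Two C Ω}

/-- A differential system of linear equations has enough constant solutions. -/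
lemma descend {ι : Type} (s : Finset ι) (e : ℕ → ι → Ω) (l0 l1 : Ω)
    (h0 : ∀ n i, d.d0 (e n i) = l0 * e (n + 1) i) (h1 : ∀ n i, d.d1 (e n i) = l1 * e (n + 1) i)
    (hc : ∀ f, d.d0 f = 0 → d.d1 f = 0 → f ∈ (⊥ : IntermediateField C Ω)) (t : ι → C)
    (c : ι → Ω) (hs : ∀ n, ∑ i ∈ s, c i * e n i = 0)
    (ht : ∑ i ∈ s, c i * algebraMap C Ω (t i) ≠ 0) :
    ∃ c' : ι → C, ∑ i ∈ s, c' i • e 0 i = 0 ∧ ∑ i ∈ s, c' i * t i ≠ 0 := by
  classical
  obtain ⟨c, ⟨c1, c2⟩, hmin⟩ :=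
    (InvImage.wf (fun c : ι → Ω => (s.filter fun i => c i ≠ 0).card) wellFounded_lt).has_min
    {c | (∀ n, ∑ i ∈ s, c i * e n i = 0) ∧ ∑ i ∈ s, c i * algebraMap C Ω (t i) = 1}
    ⟨fun i => (∑ i ∈ s, c i * algebraMap C Ω (t i))⁻¹ * c i, fun n => by
      simp only [mul_assoc, ← Finset.mul_sum, hs, mul_zero], by
      simp only [mul_assoc, ← Finset.mul_sum]; exact inv_mul_cancel₀ ht⟩
  have key : ∀ (δ : Der C Ω) (l : Ω), (∀ n i, δ (e n i) = l * e (n + 1) i) →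
      ∀ i ∈ s, δ (c i) = 0 := fun δ l h i hi => by
    by_contra hne
    have a1 : ∀ n, ∑ j ∈ s, δ (c j) * e n j = 0 := fun n => by
      have := congrArg δ (c1 n)
      simp only [map_sum, Derivation.leibniz, smul_eq_mul, h, map_zero, Finset.sum_add_distrib]
        at this
      have h2 : ∑ j ∈ s, c j * (l * e (n + 1) j) = l * ∑ j ∈ s, c j * e (n + 1) j := by
        rw [Finset.mul_sum]; exact Finset.sum_congr rfl fun j _ => by ring
      rw [h2, c1, mul_zero, zero_add] at this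
      simpa only [mul_comm] using this
    have a2 : ∑ j ∈ s, δ (c j) * algebraMap C Ω (t j) = 0 := by
      have := congrArg δ c2
      simpa [map_sum, Derivation.leibniz, mul_comm] using this
    refine hmin (fun j => c j - c i / δ (c i) * δ (c j)) ⟨fun n => ?_, ?_⟩ ?_
    · simp only [sub_mul, Finset.sum_sub_distrib, mul_assoc, ← Finset.mul_sum, c1, a1, mul_zero,
        sub_zero]
    · simp only [sub_mul, Finset.sum_sub_distrib, mul_assoc, ← Finset.mul_sum, c2, a2, mul_zero,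
        sub_zero]
    · refine Finset.card_lt_card ⟨fun j hj => ?_, fun hj => ?_⟩
      · rw [Finset.mem_filter] at hj ⊢
        exact ⟨hj.1, fun e0 => hj.2 (by simp [e0])⟩
      · have := hj (Finset.mem_filter.2 ⟨hi, fun e0 => hne (by simp [e0])⟩)
        exact (Finset.mem_filter.1 this).2 (by simp [hne])
  have : ∀ i, ∃ a : C, i ∈ s → algebraMap C Ω a = c i := fun i => by
    by_cases hi : i ∈ s
    · obtain ⟨a, ha⟩ := mem_bot.1 (hc _ (key _ _ h0 i hi) (key _ _ h1 i hi))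
      exact ⟨a, fun _ => ha⟩
    · exact ⟨0, fun h => (hi h).elim⟩
  choose c' hc' using this
  refine ⟨c', (Finset.sum_congr rfl fun i hi => ?_).trans (c1 0), fun h => ?_⟩
  · rw [Algebra.smul_def, hc' i hi]
  · have := congrArg (algebraMap C Ω) h
    rw [map_sum, map_zero, Finset.sum_congr rfl fun i hi => by rw [map_mul, hc' i hi], c2] at this
    exact one_ne_zero this

variable (C) in
/-- Polynomials of degree at most `N` without the term `y ^ N`. -/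
def U (x y : Ω) (N : ℕ) : Submodule C Ω :=
  Submodule.span C {f : Ω | ∃ i j : ℕ, i + j ≤ N ∧ j < N ∧ f = x ^ i * y ^ j}

variable {x y : Ω}

lemma U_mono {m N : ℕ} (h : m ≤ N) : U C x y m ≤ U C x y N :=
  Submodule.span_mono fun _ ⟨i, j, h1, h2, h3⟩ => ⟨i, j, by omega, by omega, h3⟩

lemma U_step {m : ℕ} {g : Ω} {κ : C} (a b : C) (h : g - κ • y ^ m ∈ U C x y m) :
    (a • x + b • y) * g - (b * κ) • y ^ (m + 1) ∈ U C x y (m + 1) := by
  have h1 : U C x y m ≤ (U C x y (m + 1)).comap (LinearMap.mulLeft C x) :=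
    Submodule.span_le.2 fun _ ⟨i, j, h1, h2, h3⟩ => Submodule.subset_span
      ⟨i + 1, j, by omega, by omega, by rw [h3, LinearMap.mulLeft_apply]; ring⟩
  have h2 : U C x y m ≤ (U C x y (m + 1)).comap (LinearMap.mulLeft C y) :=
    Submodule.span_le.2 fun _ ⟨i, j, h1, h2, h3⟩ => Submodule.subset_span
      ⟨i, j + 1, by omega, by omega, by rw [h3, LinearMap.mulLeft_apply]; ring⟩
  have h3 : x * y ^ m ∈ U C x y (m + 1) :=
    Submodule.subset_span ⟨1, m, by omega, by omega, by rw [pow_one]⟩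
  have h4 : x * (g - κ • y ^ m) ∈ U C x y (m + 1) := h1 h
  have h5 : y * (g - κ • y ^ m) ∈ U C x y (m + 1) := h2 h
  have := add_mem (add_mem (Submodule.smul_mem _ a h4) (Submodule.smul_mem _ b h5))
    (Submodule.smul_mem _ (a * κ) h3)
  rwa [show a • (x * (g - κ • y ^ m)) + b • (y * (g - κ • y ^ m)) + (a * κ) • (x * y ^ m) =
    (a • x + b • y) * g - (b * κ) • y ^ (m + 1) by
      simp only [Algebra.smul_def, map_mul]; ring] at this

lemma U_mon (a b a' b' : C) (i j : ℕ) :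
    (a • x + b • y) ^ i * (a' • x + b' • y) ^ j - (b ^ i * b' ^ j) • y ^ (i + j) ∈
      U C x y (i + j) := by
  induction i with
  | zero =>
    induction j with
    | zero => simp
    | succ j ih =>
      have := U_step a' b' ih
      simp only [pow_zero, one_mul, zero_add] at this ⊢
      rwa [← pow_succ', ← pow_succ'] at this
  | succ i ih =>
    have := U_step a b ih
    rwa [← mul_assoc, ← mul_assoc, ← pow_succ', ← pow_succ', show i + j + 1 = i + 1 + j by omega]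
      at this

/-- A relation whose top form does not vanish in the direction of the `y` axis. -/
lemma nc1 {ι : Type} (s : Finset ι) (i j : ι → ℕ) (N : ℕ) (hN : ∀ α ∈ s, i α + j α ≤ N)
    (a b a' b' : C) (c : ι → C)
    (h : ∑ α ∈ s, c α • ((a • x + b • y) ^ i α * (a' • x + b' • y) ^ j α) = 0)
    (ht : ∑ α ∈ s, c α * (if i α + j α = N then b ^ i α * b' ^ j α else 0) ≠ 0) : NC1 C x y := by
  have h1 : ∀ α ∈ s, (a • x + b • y) ^ i α * (a' • x + b' • y) ^ j α -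
      (if i α + j α = N then b ^ i α * b' ^ j α else 0) • y ^ N ∈ U C x y N := fun α hα => by
    have := U_mon (x := x) (y := y) a b a' b' (i α) (j α)
    split_ifs with e
    · rwa [e] at this
    · have h2 : y ^ (i α + j α) ∈ U C x y N := Submodule.subset_span
        ⟨0, i α + j α, by have := hN α hα; omega, by have := hN α hα; omega, by simp⟩
      simpa using add_mem (U_mono (hN α hα) this) (Submodule.smul_mem _ (b ^ i α * b' ^ j α) h2)
  have h2 := Submodule.sum_mem _ fun α hα => Submodule.smul_mem _ (c α) (h1 α hα)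
  simp only [smul_sub, Finset.sum_sub_distrib, h, zero_sub, smul_smul, ← Finset.sum_smul,
    neg_mem_iff] at h2
  refine ⟨N, ?_⟩
  have := Submodule.smul_mem _ (∑ α ∈ s, c α *
    (if i α + j α = N then b ^ i α * b' ^ j α else 0))⁻¹ h2
  rwa [smul_smul, inv_mul_cancel₀ ht, one_smul] at this

/-- The abstract closed configuration. -/
lemma cfg {n : ℕ} (x y w z l : Fin (n + 1) → Ω) (G : Fin (n + 1) → IntermediateField C Ω)
    (hx : ∀ k, x k ∈ G k) (hy : ∀ k, y k ∈ G k) (hw : ∀ k, w k ∈ G k)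
    (hG : ∀ k, ∀ f ∈ G k, ∃ g ∈ G k, d.Sl (y k) f g) (tan : ∀ k, d.Sl (y k) (x k) (w k))
    (hc : ∀ f, d.d0 f = 0 → d.d1 f = 0 → f ∈ (⊥ : IntermediateField C Ω))
    (real : ∀ k, y k ∈ C⟮x k⟯ ↔ x k ∈ C⟮y k⟯)
    (ex : ∀ k, x (k + 1) - x k = l k * z k) (ey : ∀ k, (y (k + 1) - y k) * z k = l k)
    (z0 : ∀ k, z k ≠ 0) (l0 : ∀ k, l k ≠ 0) (g0 : ∀ k, w k ≠ z k ^ 2)
    (r : ∀ k, z k * z (k + 1) = w (k + 1))
    (ind : ∀ a b : Ω, (∀ k, a * d.d0 (x k) + b * d.d1 (x k) = 0 ∧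
      a * d.d0 (y k) + b * d.d1 (y k) = 0 ∧ a * d.d0 (z k) + b * d.d1 (z k) = 0 ∧
      a * d.d0 (l k) + b * d.d1 (l k) = 0) → a = 0 ∧ b = 0) :
    ∃ m : Fin (n + 1) → Mir d, (∀ k, (m k).x = x k) ∧ (∀ k, (m k).y = y k) ∧
      (∀ i, H17.Edge (m i) (m (i + 1)) (z i) (l i)) ∧ ∀ i, z i * z (i + 1) = (m (i + 1)).w := by
  have g1 : ∀ k, w (k + 1) ≠ z k ^ 2 := fun k h => by
    have e : z (k + 1) = z k := mul_left_cancel₀ (z0 k) (by rw [r, h, sq])
    exact g0 (k + 1) (by rw [h, e])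
  have w0 : ∀ k, w k ≠ 0 := fun k => by
    rw [← sub_add_cancel k 1, ← r]; exact mul_ne_zero (z0 _) (z0 _)
  have nd : ∀ k, d.J (y k) (z k) ≠ 0 := fun k h => by
    obtain ⟨a, b, hab, h1, h2⟩ := H17.Anal.exists_tn h
    obtain ⟨Z, hZ⟩ : ∃ Z : Der C Ω, ∀ f, Z f = a * d.d0 f + b * d.d1 f :=
      ⟨a • d.d0 + b • d.d1, fun f => by simp⟩
    have hT : d.Tn Z := ⟨a, b, hZ⟩
    have step : ∀ j, Z (y j) = 0 ∧ Z (z j) = 0 → Z (y (j + 1)) = 0 ∧ Z (z (j + 1)) = 0 := by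
      rintro j ⟨e1, e2⟩
      have a1 := congrArg Z (ex j)
      have a2 := congrArg Z (ey j)
      have a3 := congrArg Z (r j)
      obtain ⟨g, -, hg⟩ := hG _ _ (hw (j + 1))
      simp only [map_sub, Derivation.leibniz, smul_eq_mul, hT.sl (tan _), hT.sl hg, e1, e2,
        mul_zero, zero_mul, sub_zero, zero_add, add_zero] at a1 a2 a3
      have a4 : Z (y (j + 1)) = 0 := (mul_eq_zero.1 (show Z (y (j + 1)) * (w (j + 1) - z j ^ 2) = 0
        by linear_combination a1 - z j * a2)).resolve_right (sub_ne_zero.2 (g1 j))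
      rw [a4, zero_mul] at a3
      exact ⟨a4, (mul_eq_zero.1 a3).resolve_left (z0 j)⟩
    have all : ∀ j, Z (y j) = 0 ∧ Z (z j) = 0 := fun j => by
      have : ∀ m, Z (y (k + m)) = 0 ∧ Z (z (k + m)) = 0 := fun m => by
        induction m using Fin.induction with
        | zero => simpa [hZ] using ⟨h1, h2⟩
        | succ m ih => rw [← Fin.coeSucc_eq_succ, ← add_assoc]; exact step _ ih
      simpa using this (j - k)
    refine hab (ind a b fun j => ?_)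
    simp only [← hZ]
    simp [hT.sl (tan j), ← ey j, (all _).1, (all _).2]
  have ny : ∀ k, d.d0 (y k) ≠ 0 ∨ d.d1 (y k) ≠ 0 := fun k => by
    by_contra h
    push Not at h
    exact nd k (by simp [Two.J, h.1, h.2])
  choose m m1 m2 m3 using fun k => mkMir (hx k) (hy k) (hG k) (w0 k) (ny k) (tan k) hc (real k)
  exact ⟨m, m1, m2, fun k => ⟨by rw [m1, m1, ex], by rw [m2, m2, ey], z0 k, l0 k,
    by rw [m3]; exact g0 k, by rw [m3]; exact g1 k, by rw [m2]; exact nd k⟩,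
    fun k => by rw [m3, r]⟩

end Alg

section Circ

open MvPolynomial Complex

lemma dvd_mon (b : ℕ) : ∀ a : ℕ, (X 0 ^ 2 + X 1 ^ 2 : MvPolynomial (Fin 2) ℝ) ∣
    X 0 ^ a * X 1 ^ b - (C (I ^ b).re * X 0 ^ (a + b) + C (I ^ b).im * (X 0 ^ (a + b - 1) * X 1)) := by
  induction b using Nat.twoStepInduction with
  | zero => intro a; simp
  | one => intro a; simp
  | more b ih _ =>
    intro a
    have h := ih (a + 2)
    rw [show a + 2 + b = a + (b + 2) by omega] at h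
    have e : I ^ (b + 2) = -I ^ b := by rw [pow_add, I_sq]; ring
    rw [e, neg_re, neg_im, map_neg, map_neg]
    have := (dvd_mul_right (X 0 ^ 2 + X 1 ^ 2 : MvPolynomial (Fin 2) ℝ) (X 0 ^ a * X 1 ^ b)).sub h
    exact this.trans (dvd_of_eq (by ring))

/-- A real form vanishing at a circular point is divisible by `x ^ 2 + y ^ 2`. -/
lemma circ {Q : MvPolynomial (Fin 2) ℝ} (h : ∑ α ∈ Q.support, ((coeff α Q : ℝ) : ℂ) *
    (if α 0 + α 1 = Q.totalDegree then I ^ α 1 else 0) = 0) : Circ Q := by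
  have h1 := congrArg re h
  have h2 := congrArg im h
  simp only [re_sum, im_sum, re_ofReal_mul, im_ofReal_mul, zero_re, zero_im] at h1 h2
  have h3 : homogeneousComponent Q.totalDegree Q = ∑ α ∈ Q.support, C (coeff α Q) *
      (if α 0 + α 1 = Q.totalDegree then X 0 ^ α 0 * X 1 ^ α 1 - (C (I ^ α 1).re *
        X 0 ^ (α 0 + α 1) + C (I ^ α 1).im * (X 0 ^ (α 0 + α 1 - 1) * X 1)) else 0) +
      C (∑ α ∈ Q.support, coeff α Q * (if α 0 + α 1 = Q.totalDegree then I ^ α 1 else 0).re) *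
        X 0 ^ Q.totalDegree +
      C (∑ α ∈ Q.support, coeff α Q * (if α 0 + α 1 = Q.totalDegree then I ^ α 1 else 0).im) *
        (X 0 ^ (Q.totalDegree - 1) * X 1) := by
    rw [homogeneousComponent_apply, Finset.sum_filter, map_sum, map_sum, Finset.sum_mul,
      Finset.sum_mul, ← Finset.sum_add_distrib, ← Finset.sum_add_distrib]
    refine Finset.sum_congr rfl fun α _ => ?_
    rw [Finsupp.degree_eq_sum, Fin.sum_univ_two]
    split_ifs with e
    · rw [monomial_eq, Finsupp.prod_fintype _ _ (by simp), Fin.prod_univ_two, e, map_mul, map_mul]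
      ring
    · simp
  rw [Circ, h3, h1, h2, map_zero, zero_mul, zero_mul, add_zero, add_zero]
  refine Finset.dvd_sum fun α _ => Dvd.dvd.mul_left ?_ _
  split_ifs
  · exact dvd_mon _ _
  · exact dvd_zero _

lemma top_ne {Q : MvPolynomial (Fin 2) ℝ} (h : ¬Circ Q) {j : ℂ} (hj : j = I ∨ j = -I) :
    ∑ α ∈ Q.support, ((coeff α Q : ℝ) : ℂ) *
      (if α 0 + α 1 = Q.totalDegree then 2⁻¹ ^ α 0 * (2⁻¹ * j) ^ α 1 else 0) ≠ 0 := fun h0 => by
  have h1 : (2⁻¹ : ℂ) ^ Q.totalDegree * ∑ α ∈ Q.support, ((coeff α Q : ℝ) : ℂ) *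
      (if α 0 + α 1 = Q.totalDegree then j ^ α 1 else 0) = 0 := by
    rw [Finset.mul_sum]
    refine (Finset.sum_congr rfl fun α _ => ?_).trans h0
    split_ifs with e
    · rw [← e]; ring
    · simp
  have h2 := (mul_eq_zero.1 h1).resolve_left (by simp)
  rcases hj with rfl | rfl
  · exact h (circ h2)
  · refine h (circ ?_)
    simpa [apply_ite (starRingEnd ℂ)] using congrArg (starRingEnd ℂ) h2

lemma ev_sum (ev : MvPolynomial (Fin 2) ℝ →ₗ[ℝ] ℝ) (s : Finset (Fin 2 →₀ ℕ))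
    (r : (Fin 2 →₀ ℕ) → ℝ) :
    ev (∑ α ∈ s, monomial α (r α)) = ∑ α ∈ s, r α * ev (monomial α 1) := by
  rw [map_sum]
  exact Finset.sum_congr rfl fun α _ => by rw [← smul_eq_mul, ← map_smul, smul_monomial]; simp

/-- An algebraic mirror with non circular jets. -/
lemma nc (δ0 δ1 : Derivation ℤ ℝ ℝ) (p0 p1 l0 l1 : ℝ) (ev : ℕ → MvPolynomial (Fin 2) ℝ →ₗ[ℝ] ℝ)
    (h0 : ∀ n α, δ0 (ev n (monomial α 1)) = l0 * ev (n + 1) (monomial α 1))
    (h1 : ∀ n α, δ1 (ev n (monomial α 1)) = l1 * ev (n + 1) (monomial α 1))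
    (he : ∀ α, ev 0 (monomial α 1) = p0 ^ α 0 * p1 ^ α 1) (hl : l0 ≠ 0 ∨ l1 ≠ 0)
    (hT : ∀ P ≠ 0, (∀ n, ev n P = 0) → ∃ Q, (∀ n, ev n Q = 0) ∧ ¬Circ Q)
    (hx : (p0 + p1 * I : ℂ) ∈ cl (Cst δ0 δ1) {(p0 - p1 * I : ℂ)}) :
    NC (Cst δ0 δ1) ℂ (p0 + p1 * I) (p0 - p1 * I) := by
  classical
  let iC : Cst δ0 δ1 := ⟨I, cx_I δ0, cx_I δ1⟩
  have hi : algebraMap (Cst δ0 δ1) ℂ iC = I := rfl
  let e : ℕ → (Fin 2 →₀ ℕ) → ℂ := fun n α => ev n (monomial α 1)
  have e0 : ∀ n α, (two δ0 δ1).d0 (e n α) = l0 * e (n + 1) α := fun n α => by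
    simp only [two, toDer_apply, e, cx_ofReal, h0, ofReal_mul]
  have e1 : ∀ n α, (two δ0 δ1).d1 (e n α) = l1 * e (n + 1) α := fun n α => by
    simp only [two, toDer_apply, e, cx_ofReal, h1, ofReal_mul]
  have hdep : ¬AlgebraicIndependent (Cst δ0 δ1) ![(p0 : ℂ), p1] := fun h => by
    obtain ⟨θ, -, hθ⟩ := ext_indep ⊥ (indep_bot h) 0 ![I, 1]
    have a0 : θ p0 = I := hθ 0
    have a1 : θ p1 = 1 := hθ 1
    have aI : θ I = 0 := θ.map_algebraMap iC
    have := H17.kill_cl (δ := θ) (by rintro _ rfl; simp [a0, a1, aI]) hx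
    simp [a0, a1, aI] at this
  rw [algebraicIndependent_iff] at hdep
  push Not at hdep
  obtain ⟨R, hR, R0⟩ := hdep
  have hall : ∀ n, ∑ α ∈ R.support, algebraMap (Cst δ0 δ1) ℂ (coeff α R) * e n α = 0 := fun n => by
    induction n with
    | zero =>
      rw [aeval_def, eval₂_eq'] at hR
      simpa [e, he, Fin.prod_univ_two] using hR
    | succ n ih =>
      have key : ∀ (δ : Der (Cst δ0 δ1) ℂ) (l : ℝ), (∀ α, δ (e n α) = l * e (n + 1) α) → l ≠ 0 →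
          ∑ α ∈ R.support, algebraMap (Cst δ0 δ1) ℂ (coeff α R) * e (n + 1) α = 0 :=
        fun δ l h hl => by
          refine mul_left_cancel₀ (ofReal_ne_zero.2 hl) ?_
          rw [mul_zero, ← map_zero δ, ← ih, map_sum, Finset.mul_sum]
          refine Finset.sum_congr rfl fun α _ => ?_
          rw [Derivation.leibniz, Derivation.map_algebraMap, h, smul_zero, add_zero, smul_eq_mul]
          ring
      exact hl.elim (key _ _ (e0 n)) (key _ _ (e1 n))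
  obtain ⟨α0, hα⟩ := ne_zero_iff.1 R0
  have hex : ∃ g : ℂ →ₗ[ℝ] ℝ, g (algebraMap (Cst δ0 δ1) ℂ (coeff α0 R)) ≠ 0 := by
    by_contra hn
    push Not at hn
    exact hα (Subtype.ext (Complex.ext (hn reLm) (hn imLm)))
  obtain ⟨g, hg⟩ := hex
  obtain ⟨Q, Q1, Q2⟩ := hT (∑ α ∈ R.support, monomial α (g (algebraMap (Cst δ0 δ1) ℂ (coeff α R))))
    (fun h => hg (by
      have := congrArg (coeff α0) h
      simpa [coeff_sum, coeff_monomial, hα] using this))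
    fun n => by
      rw [ev_sum, ← map_zero g, ← hall n, map_sum]
      exact Finset.sum_congr rfl fun α _ => by
        rw [mul_comm, ← smul_eq_mul, ← map_smul, mul_comm]; rfl
  have Q3 : ∀ n, ∑ α ∈ Q.support, ((coeff α Q : ℝ) : ℂ) * e n α = 0 := fun n => by
    have := Q1 n
    rw [Q.as_sum, ev_sum] at this
    simp only [e]
    exact_mod_cast this
  have key : ∀ (x y : ℂ) (j : Cst δ0 δ1), (j = iC ∨ j = -iC) →
      (p0 : ℂ) = (2⁻¹ : Cst δ0 δ1) • x + (2⁻¹ : Cst δ0 δ1) • y →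
      (p1 : ℂ) = (-(2⁻¹ * j)) • x + (2⁻¹ * j) • y → NC1 (Cst δ0 δ1) x y := fun x y j hj a0 a1 => by
    obtain ⟨c, c1, c2⟩ := descend (d := two δ0 δ1) Q.support e l0 l1 e0 e1
      (fun f h0 h1 => mem_bot.2 ⟨⟨f, h0, h1⟩, rfl⟩)
      (fun α => if α 0 + α 1 = Q.totalDegree then 2⁻¹ ^ α 0 * (2⁻¹ * j) ^ α 1 else 0) _ Q3 (by
        simpa only [apply_ite (algebraMap (Cst δ0 δ1) ℂ), map_mul, map_pow, map_inv₀, map_ofNat,
          map_zero] using top_ne Q2 (j := algebraMap (Cst δ0 δ1) ℂ j)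
            (hj.imp (fun h => by rw [h, hi]) fun h => by rw [h, map_neg, hi]))
    refine nc1 Q.support (fun α => α 0) (fun α => α 1) Q.totalDegree (fun α hα => ?_) 2⁻¹ 2⁻¹
      (-(2⁻¹ * j)) (2⁻¹ * j) c ?_ c2
    · simpa [Finsupp.sum_fintype, Fin.sum_univ_two] using le_totalDegree hα
    · simpa only [e, he, ofReal_mul, ofReal_pow, ← a0, ← a1] using c1
  refine ⟨key _ _ iC (.inl rfl) ?_ ?_, key _ _ (-iC) (.inr rfl) ?_ ?_⟩ <;>
    simp only [Algebra.smul_def, map_neg, map_mul, map_inv₀, map_ofNat, hi]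
  · ring
  · linear_combination (p1 : ℂ) * I_sq
  · ring
  · linear_combination (p1 : ℂ) * I_sq

lemma rcfg (δ0 δ1 : Derivation ℤ ℝ ℝ) {n : ℕ} (hP : StmtQ NC n) (p0 p1 u0 u1 t : Fin (n + 1) → ℝ)
    (J : Fin (n + 1) → List (Fin 2) → ℝ)
    (c0 : ∀ k l, δ0 (J k l) = J k (0 :: l) * δ0 (p0 k) + J k (1 :: l) * δ0 (p1 k))
    (c1 : ∀ k l, δ1 (J k l) = J k (0 :: l) * δ1 (p0 k) + J k (1 :: l) * δ1 (p1 k))
    (hJ : ∀ k, J k [] = 0) (hu : ∀ k, u0 k ^ 2 + u1 k ^ 2 = 1)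
    (hn : ∀ k, u0 k * J k [0] + u1 k * J k [1] ≠ 0) (ht : ∀ k, 0 < t k)
    (e0 : ∀ k, p0 (k + 1) = p0 k + t k * u0 k) (e1 : ∀ k, p1 (k + 1) = p1 k + t k * u1 k)
    (r0 : ∀ k, u0 (k + 1) = u0 k - 2 * (u0 k * J (k + 1) [0] + u1 k * J (k + 1) [1]) /
      (J (k + 1) [0] ^ 2 + J (k + 1) [1] ^ 2) * J (k + 1) [0])
    (r1 : ∀ k, u1 (k + 1) = u1 k - 2 * (u0 k * J (k + 1) [0] + u1 k * J (k + 1) [1]) /
      (J (k + 1) [0] ^ 2 + J (k + 1) [1] ^ 2) * J (k + 1) [1])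
    (ind : ∀ a b : ℝ, (∀ k, a * δ0 (p0 k) + b * δ1 (p0 k) = 0 ∧ a * δ0 (p1 k) + b * δ1 (p1 k) = 0 ∧
      a * δ0 (u0 k) + b * δ1 (u0 k) = 0 ∧ a * δ0 (u1 k) + b * δ1 (u1 k) = 0 ∧
      a * δ0 (t k) + b * δ1 (t k) = 0) → a = 0 ∧ b = 0)
    (hNC : ∀ k, (cx δ0 (p0 k - p1 k * I) ≠ 0 ∨ cx δ1 (p0 k - p1 k * I) ≠ 0) →
      (p0 k + p1 k * I : ℂ) ∈ cl (Cst δ0 δ1) {(p0 k - p1 k * I : ℂ)} →
      NC (Cst δ0 δ1) ℂ (p0 k + p1 k * I) (p0 k - p1 k * I)) : False := by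
  have := closed δ0 δ1
  have hI : ∀ T : IntermediateField (Cst δ0 δ1) ℂ, I ∈ T := fun T =>
    T.algebraMap_mem ⟨I, cx_I δ0, cx_I δ1⟩
  have hz : ∀ k, ((u0 k : ℂ) + u1 k * I) * (u0 k - u1 k * I) = 1 := fun k => by
    have := congrArg ((↑) : ℝ → ℂ) (hu k)
    push_cast at this
    linear_combination this - (u1 k : ℂ) ^ 2 * I_sq
  have hν : ∀ k, (J k [0] : ℂ) + J k [1] * I ≠ 0 ∧ (J k [0] : ℂ) - J k [1] * I ≠ 0 := fun k => by
    constructor <;> intro h <;> apply hn k <;> have h1 := congrArg re h <;>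
      have h2 := congrArg im h <;> simp at h1 h2 <;> simp [h1, h2]
  obtain ⟨w, hw⟩ : ∃ w : Fin (n + 1) → ℂ,
      ∀ k, w k = -((J k [0] : ℂ) + J k [1] * I) / (J k [0] - J k [1] * I) := ⟨_, fun _ => rfl⟩
  have tan : ∀ δ : Derivation ℤ ℝ ℝ,
      (∀ k l, δ (J k l) = J k (0 :: l) * δ (p0 k) + J k (1 :: l) * δ (p1 k)) → ∀ k,
      cx δ (p0 k + p1 k * I) = cx δ (p0 k - p1 k * I) * w k ∧
      cx δ (p0 k) = cx δ (p0 k - p1 k * I) * ((w k + 1) / 2) ∧
      cx δ (p1 k) = cx δ (p0 k - p1 k * I) * ((w k - 1) / (2 * I)) ∧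
      ∀ l, cx δ (J k l) = cx δ (p0 k - p1 k * I) *
        (J k (0 :: l) * ((w k + 1) / 2) + J k (1 :: l) * ((w k - 1) / (2 * I))) := fun δ h k => by
    have h1 := congrArg ((↑) : ℝ → ℂ) (h k [])
    rw [hJ, map_zero] at h1
    push_cast at h1
    simp only [map_add, map_sub, Derivation.leibniz, cx_I, cx_ofReal, smul_eq_mul, mul_zero,
      zero_add]
    have a1 : (δ (p0 k) : ℂ) + I * δ (p1 k) = (δ (p0 k) - I * δ (p1 k)) * w k := by
      rw [hw, ← mul_div_assoc, eq_div_iff (hν k).2]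
      linear_combination (-2 : ℂ) * h1 - 2 * (δ (p1 k) : ℂ) * J k [1] * I_sq
    have a2 : (δ (p0 k) : ℂ) = (δ (p0 k) - I * δ (p1 k)) * ((w k + 1) / 2) := by
      linear_combination a1 / 2
    have a3 : (δ (p1 k) : ℂ) = (δ (p0 k) - I * δ (p1 k)) * ((w k - 1) / (2 * I)) := by
      rw [← mul_div_assoc, eq_div_iff (mul_ne_zero two_ne_zero I_ne_zero)]
      linear_combination a1
    refine ⟨a1, a2, a3, fun l => ?_⟩
    rw [h k l]
    push_cast
    linear_combination (J k (0 :: l) : ℂ) * a2 + (J k (1 :: l) : ℂ) * a3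
  have t0 := tan δ0 c0
  have t1 := tan δ1 c1
  let G : Fin (n + 1) → Set ℂ := fun k => {(p0 k : ℂ), (p1 k : ℂ)} ∪ range fun l => (J k l : ℂ)
  have m0 : ∀ k, (p0 k : ℂ) ∈ adjoin (Cst δ0 δ1) (G k) := fun k =>
    subset_adjoin _ _ (Or.inl (Or.inl rfl))
  have m1 : ∀ k, (p1 k : ℂ) ∈ adjoin (Cst δ0 δ1) (G k) := fun k =>
    subset_adjoin _ _ (Or.inl (Or.inr rfl))
  have mJ : ∀ k l, (J k l : ℂ) ∈ adjoin (Cst δ0 δ1) (G k) := fun k l =>
    subset_adjoin _ _ (Or.inr ⟨l, rfl⟩)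
  have mw : ∀ k, w k ∈ adjoin (Cst δ0 δ1) (G k) := fun k => by
    rw [hw]
    exact div_mem (neg_mem (add_mem (mJ _ _) (mul_mem (mJ _ _) (hI _))))
      (sub_mem (mJ _ _) (mul_mem (mJ _ _) (hI _)))
  have m2 : ∀ k, (w k + 1) / 2 ∈ adjoin (Cst δ0 δ1) (G k) := fun k =>
    div_mem (add_mem (mw k) (one_mem _)) (ofNat_mem _ 2)
  have m3 : ∀ k, (w k - 1) / (2 * I) ∈ adjoin (Cst δ0 δ1) (G k) := fun k =>
    div_mem (sub_mem (mw k) (one_mem _)) (mul_mem (ofNat_mem _ 2) (hI _))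
  have cj : ∀ a b : ℝ, (starRingEnd ℂ) (a + b * I) = a - b * I ∧
      (starRingEnd ℂ) (a - b * I) = a + b * I := fun a b => by simp [sub_eq_add_neg]
  obtain ⟨m, mx, my, me, mr⟩ := cfg (d := two δ0 δ1) (fun k => p0 k + p1 k * I)
    (fun k => p0 k - p1 k * I) w
    (fun k => u0 k + u1 k * I) (fun k => t k) (fun k => adjoin _ (G k))
    (fun k => add_mem (m0 k) (mul_mem (m1 k) (hI _)))
    (fun k => sub_mem (m0 k) (mul_mem (m1 k) (hI _))) mw
    (fun k => stab_adjoin (by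
      rintro _ ((rfl | rfl) | ⟨l, rfl⟩)
      · exact ⟨_, m2 k, (t0 k).2.1, (t1 k).2.1⟩
      · exact ⟨_, m3 k, (t0 k).2.2.1, (t1 k).2.2.1⟩
      · exact ⟨_, add_mem (mul_mem (mJ _ _) (m2 k)) (mul_mem (mJ _ _) (m3 k)), (t0 k).2.2.2 l,
          (t1 k).2.2.2 l⟩))
    (fun k => ⟨(t0 k).1, (t1 k).1⟩) (fun f h0 h1 => mem_bot.2 ⟨⟨f, h0, h1⟩, rfl⟩)
    (fun k => ⟨fun h => by simpa only [(cj _ _).1, (cj _ _).2] using conj_mem δ0 δ1 h,
      fun h => by simpa only [(cj _ _).1, (cj _ _).2] using conj_mem δ0 δ1 h⟩)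
    (fun k => by simp only [e0 k, e1 k]; push_cast; ring)
    (fun k => by simp only [e0 k, e1 k]; push_cast; linear_combination (t k : ℂ) * hz k)
    (fun k => left_ne_zero_of_mul_eq_one (hz k)) (fun k => ofReal_ne_zero.2 (ht k).ne')
    (fun k h => hn k (by
      rw [hw, div_eq_iff (hν k).2] at h
      have h2 := hz k
      apply ofReal_injective
      push_cast
      linear_combination (-1 / 2 : ℂ) * (u0 k - u1 k * I) * h
        - (1 / 2 : ℂ) * (u0 k + u1 k * I) * (J k [0] - J k [1] * I) * h2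
        + (u1 k : ℂ) * J k [1] * I_sq))
    (fun k => by
      have h3 : (J (k + 1) [0] : ℂ) ^ 2 + J (k + 1) [1] ^ 2 =
          (J (k + 1) [0] + J (k + 1) [1] * I) * (J (k + 1) [0] - J (k + 1) [1] * I) := by
        linear_combination (J (k + 1) [1] : ℂ) ^ 2 * I_sq
      have h4 := div_mul_cancel₀ (2 * ((u0 k : ℂ) * J (k + 1) [0] + u1 k * J (k + 1) [1]))
        (mul_ne_zero (hν (k + 1)).1 (hν (k + 1)).2)
      simp only [r0 k, r1 k, hw]
      push_cast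
      rw [h3, eq_div_iff (hν (k + 1)).2]
      linear_combination (-((u0 k : ℂ) + u1 k * I)) * h4 -
        ((J (k + 1) [0] : ℂ) + J (k + 1) [1] * I) * hz k -
        2 * ((u0 k : ℂ) + u1 k * I) * u1 k * J (k + 1) [1] * I_sq)
    (fun a b h => by
      have h1 : ∀ δ : Derivation ℤ ℝ ℝ, ∀ k, (u0 k : ℂ) * δ (u0 k) + u1 k * δ (u1 k) = 0 :=
        fun δ k => by
          have := congrArg δ (hu k)
          simp only [map_add, sq, Derivation.leibniz, smul_eq_mul, Derivation.map_one_eq_zero]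
            at this
          exact_mod_cast (by linarith : u0 k * δ (u0 k) + u1 k * δ (u1 k) = 0)
      have h2 : ∀ k, a * δ0 (p0 k) + b * δ1 (p0 k) = 0 ∧ a * δ0 (p1 k) + b * δ1 (p1 k) = 0 ∧
          a * δ0 (u0 k) + b * δ1 (u0 k) = 0 ∧ a * δ0 (u1 k) + b * δ1 (u1 k) = 0 ∧
          a * δ0 (t k) + b * δ1 (t k) = 0 := fun k => by
        obtain ⟨a1, a2, a3, a4⟩ := h k
        simp only [two, toDer_apply, map_add, map_sub, Derivation.leibniz, cx_I, cx_ofReal,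
          smul_eq_mul, mul_zero, zero_add] at a1 a2 a3 a4
        have a5 : a * δ0 (u1 k) + b * δ1 (u1 k) = 0 :=
          (mul_eq_zero.1 (show ((u0 k : ℂ) + u1 k * I) * (a * δ0 (u1 k) + b * δ1 (u1 k)) = 0 by
            linear_combination (-I * u0 k) * a3 + I * a * h1 δ0 k + I * b * h1 δ1 k +
              u0 k * (a * δ0 (u1 k) + b * δ1 (u1 k)) * I_sq)).resolve_left
            (left_ne_zero_of_mul_eq_one (hz k))
        exact ⟨by linear_combination (a1 + a2) / 2,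
          mul_left_cancel₀ I_ne_zero (by linear_combination (a1 - a2) / 2),
          by linear_combination a3 - I * a5, a5, a4⟩
      have h3 : ∀ r s : ℝ, a * r + b * s = 0 → a.re * r + b.re * s = 0 ∧ a.im * r + b.im * s = 0 :=
        fun r s e => ⟨by simpa using congrArg re e, by simpa using congrArg im e⟩
      have h4 := ind a.re b.re fun k => ⟨(h3 _ _ (h2 k).1).1, (h3 _ _ (h2 k).2.1).1,
        (h3 _ _ (h2 k).2.2.1).1, (h3 _ _ (h2 k).2.2.2.1).1, (h3 _ _ (h2 k).2.2.2.2).1⟩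
      have h5 := ind a.im b.im fun k => ⟨(h3 _ _ (h2 k).1).2, (h3 _ _ (h2 k).2.1).2,
        (h3 _ _ (h2 k).2.2.1).2, (h3 _ _ (h2 k).2.2.2.1).2, (h3 _ _ (h2 k).2.2.2.2).2⟩
      exact ⟨Complex.ext h4.1 h5.1, Complex.ext h4.2 h5.2⟩)
  refine hP _ ℂ (two δ0 δ1) m _ _ {z | 0 < z.re} (fun f h0 h1 => mem_bot.2 ⟨⟨f, h0, h1⟩, rfl⟩) me mr
    ⟨fun a ha b hb => add_pos (show 0 < a.re from ha) hb, lt_irrefl (0 : ℝ)⟩ ht fun k => ?_
  have := (m k).ny
  rw [my] at this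
  rw [mx, my]
  exact hNC k this

end Circ

section Ev

open MvPolynomial Irr

variable {f : EuclideanSpace ℝ (Fin 2) → ℝ} (hf : f ∈ Irr.Sm)

/-- Iterated tangential derivatives of polynomials at a point. -/
noncomputable def ev (q : EuclideanSpace ℝ (Fin 2)) (n : ℕ) : MvPolynomial (Fin 2) ℝ →ₗ[ℝ] ℝ :=
  (LinearMap.proj q).comp (Irr.Sm.val.toLinearMap.comp
    (((der hf).toLinearMap ^ n).comp pol.toLinearMap))

lemma ev_eq (q : EuclideanSpace ℝ (Fin 2)) (n : ℕ) (P : MvPolynomial (Fin 2) ℝ) :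
    ev hf q n P = ((der hf)^[n] (pol P)).1 q := by
  simp [ev, Module.End.pow_apply]

lemma tang_iff (q : EuclideanSpace ℝ (Fin 2)) (P : MvPolynomial (Fin 2) ℝ) :
    Tang f q P ↔ ∀ n, ev hf q n P = 0 := by
  simp only [Tang, ev_eq, der_iter, pol_apply]

lemma ev_diff (n : ℕ) (P : MvPolynomial (Fin 2) ℝ) : Differentiable ℝ fun q => ev hf q n P := by
  simp only [ev_eq]
  exact Irr.diff _

lemma ev_zero (q : EuclideanSpace ℝ (Fin 2)) (α : Fin 2 →₀ ℕ) :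
    ev hf q 0 (monomial α 1) = q 0 ^ α 0 * q 1 ^ α 1 := by
  simp [ev_eq, pol_apply, eval_monomial, Finsupp.prod_fintype]

lemma ev_succ {q v : EuclideanSpace ℝ (Fin 2)} {l : ℝ}
    (h : v = l • !₂[-gradient f q 1, gradient f q 0]) (n : ℕ) (P : MvPolynomial (Fin 2) ℝ) :
    fderiv ℝ (fun x => ev hf x n P) q v = l * ev hf q (n + 1) P := by
  simp only [ev_eq, Function.iterate_succ_apply']
  rw [h, map_smul]
  rfl

lemma tang {q : EuclideanSpace ℝ (Fin 2)} (v : EuclideanSpace ℝ (Fin 2))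
    (h0 : ¬(pd f [0] q = 0 ∧ pd f [1] q = 0)) (h : 0 = pd f [0] q * v 0 + pd f [1] q * v 1) :
    ∃ l : ℝ, v = l • !₂[-gradient f q 1, gradient f q 0] := by
  have h1 : pd f [0] q ^ 2 + pd f [1] q ^ 2 ≠ 0 := fun e => h0 ⟨by nlinarith, by nlinarith⟩
  refine ⟨(pd f [0] q * v 1 - pd f [1] q * v 0) / (pd f [0] q ^ 2 + pd f [1] q ^ 2), ?_⟩
  ext j
  fin_cases j <;> simp [H17.Anal.grad] <;> field_simp
  · linear_combination -pd f [0] q * h
  · linear_combination -pd f [1] q * h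

end Ev

end An

open An MvPolynomial in
theorem an : ∀ n, StmtQ NC n → Final (n + 1) := by
  intro n hP f hf
  let S : Set ((Fin (n + 1) → EuclideanSpace ℝ (Fin 2)) × (Fin (n + 1) → EuclideanSpace ℝ (Fin 2)) ×
      (Fin (n + 1) → ℝ)) :=
    {q | ∀ k, f (q.1 k) = 0 ∧ ‖q.2.1 k‖ = 1 ∧ inner ℝ (q.2.1 k) (gradient f (q.1 k)) < 0 ∧
      0 < q.2.2 k ∧ q.1 (k + 1) = q.1 k + q.2.2 k • q.2.1 k ∧
      q.2.1 (k + 1) = q.2.1 k - (2 * inner ℝ (q.2.1 k) (gradient f (q.1 (k + 1))) /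
        ‖gradient f (q.1 (k + 1))‖ ^ 2) • gradient f (q.1 (k + 1)) ∧
      ∀ P, P ≠ 0 → Tang f (q.1 k) P → ∃ Q, Tang f (q.1 k) Q ∧ ¬Circ Q}
  let L : ((Fin (n + 1) → EuclideanSpace ℝ (Fin 2)) × (Fin (n + 1) → EuclideanSpace ℝ (Fin 2)) ×
      (Fin (n + 1) → ℝ)) →L[ℝ] EuclideanSpace ℝ (Fin 2) × EuclideanSpace ℝ (Fin 2) :=
    ((ContinuousLinearMap.proj 0).comp (ContinuousLinearMap.fst ℝ _ _)).prod
      ((ContinuousLinearMap.proj 0).comp ((ContinuousLinearMap.fst ℝ _ _).comp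
        (ContinuousLinearMap.snd ℝ _ _)))
  refine (dimH_mono (t := L '' S) ?_).trans ((L.lipschitz.dimH_image_le S).trans ?_)
  · rintro q ⟨p, u, h1, h2, h3, h4, h⟩
    choose t ht using fun k : Fin (n + 1) => (h k k.2).2.2.2.1
    refine ⟨⟨fun k => p k, fun k => u k, t⟩, fun k => ?_, Prod.ext h1 h2⟩
    dsimp only
    rw [per (h3.trans h1.symm), per (h4.trans h2.symm)]
    exact ⟨(h k k.2).1, (h k k.2).2.1, (h k k.2).2.2.1, (ht k).1, (ht k).2, (h k k.2).2.2.2.2⟩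
  by_contra hS
  have hd : ∀ l, Differentiable ℝ (pd f l) := fun l => (pd_smooth hf l).differentiable (by simp)
  obtain ⟨y, hy, v0, v1, hv, δ0, δ1, h⟩ :=
    gen2 (ι := Fin (n + 1) × ((List (Fin 2) ⊕ ℕ × (Fin 2 →₀ ℕ)) ⊕ Fin 2 ⊕ Fin 2 ⊕ Unit))
      (fun i q => Sum.elim (Sum.elim (fun l => pd f l (q.1 i.1))
        fun a => ev hf (q.1 i.1) a.1 (monomial a.2 1)) (Sum.elim (fun j => q.1 i.1 j)
        (Sum.elim (fun j => q.2.1 i.1 j) fun _ => q.2.2 i.1)) i.2) (by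
      rintro ⟨k, (l | a) | j | j | j⟩ <;> simp only [Sum.elim_inl, Sum.elim_inr]
      · exact (hd l).comp (by fun_prop)
      · exact (ev_diff hf _ _).comp (by fun_prop)
      all_goals fun_prop) hS
  have lin : ∀ (A : _ →L[ℝ] ℝ) (v), fderiv ℝ (fun q => A q) y v = A v := fun A v => by
    rw [A.fderiv]
  let P := fun k : Fin (n + 1) => (ContinuousLinearMap.proj k).comp (ContinuousLinearMap.fst ℝ
    (Fin (n + 1) → EuclideanSpace ℝ (Fin 2)) ((Fin (n + 1) → EuclideanSpace ℝ (Fin 2)) ×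
      (Fin (n + 1) → ℝ)))
  have hp : ∀ k j, δ0 (y.1 k j) = v0.1 k j ∧ δ1 (y.1 k j) = v1.1 k j := fun k j =>
    ⟨(h (k, .inr (.inl j))).1.trans (lin ((EuclideanSpace.proj j).comp (P k)) _),
      (h (k, .inr (.inl j))).2.trans (lin ((EuclideanSpace.proj j).comp (P k)) _)⟩
  have hu : ∀ k j, δ0 (y.2.1 k j) = v0.2.1 k j ∧ δ1 (y.2.1 k j) = v1.2.1 k j := fun k j => by
    have := lin ((EuclideanSpace.proj j).comp ((ContinuousLinearMap.proj k).comp
      ((ContinuousLinearMap.fst ℝ _ _).comp (ContinuousLinearMap.snd ℝ _ _))))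
    exact ⟨(h (k, .inr (.inr (.inl j)))).1.trans (this _),
      (h (k, .inr (.inr (.inl j)))).2.trans (this _)⟩
  have ht : ∀ k, δ0 (y.2.2 k) = v0.2.2 k ∧ δ1 (y.2.2 k) = v1.2.2 k := fun k => by
    have := lin ((ContinuousLinearMap.proj k).comp
      ((ContinuousLinearMap.snd ℝ _ _).comp (ContinuousLinearMap.snd ℝ _ _)))
    exact ⟨(h (k, .inr (.inr (.inr ())))).1.trans (this _),
      (h (k, .inr (.inr (.inr ())))).2.trans (this _)⟩
  have hc : ∀ k l v, fderiv ℝ (fun q => pd f l (P k q)) y v =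
      pd f (0 :: l) (y.1 k) * v.1 k 0 + pd f (1 :: l) (y.1 k) * v.1 k 1 := fun k l v =>
    (DFunLike.congr_fun ((hd l _).hasFDerivAt.comp y (P k).hasFDerivAt).fderiv v).trans
      (fderiv_pd l _ _)
  have hi : ∀ a b : EuclideanSpace ℝ (Fin 2),
      inner ℝ a (gradient f b) = a 0 * pd f [0] b + a 1 * pd f [1] b := fun a b => by
    rw [PiLp.inner_apply, Fin.sum_univ_two, grad, grad]
    simp [mul_comm]
  have hn : ∀ a : EuclideanSpace ℝ (Fin 2), ‖a‖ ^ 2 = a 0 ^ 2 + a 1 ^ 2 := fun a => by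
    simp [EuclideanSpace.norm_sq_eq]
  have c0 : ∀ k l, δ0 (pd f l (y.1 k)) =
      pd f (0 :: l) (y.1 k) * δ0 (y.1 k 0) + pd f (1 :: l) (y.1 k) * δ0 (y.1 k 1) := fun k l => by
    rw [(hp k 0).1, (hp k 1).1]; exact (h (k, .inl (.inl l))).1.trans (hc k l _)
  have c1 : ∀ k l, δ1 (pd f l (y.1 k)) =
      pd f (0 :: l) (y.1 k) * δ1 (y.1 k 0) + pd f (1 :: l) (y.1 k) * δ1 (y.1 k 1) := fun k l => by
    rw [(hp k 0).2, (hp k 1).2]; exact (h (k, .inl (.inl l))).2.trans (hc k l _)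
  have hg : ∀ k, y.2.1 k 0 * pd f [0] (y.1 k) + y.2.1 k 1 * pd f [1] (y.1 k) ≠ 0 := fun k => by
    rw [← hi]; exact (hy k).2.2.1.ne
  refine rcfg δ0 δ1 hP (fun k => y.1 k 0) (fun k => y.1 k 1) (fun k => y.2.1 k 0)
    (fun k => y.2.1 k 1) y.2.2 (fun k l => pd f l (y.1 k)) c0 c1
    (fun k => (hy k).1) (fun k => by rw [← hn, (hy k).2.1, one_pow]) hg (fun k => (hy k).2.2.2.1)
    (fun k => by rw [(hy k).2.2.2.2.1]; rfl) (fun k => by rw [(hy k).2.2.2.2.1]; rfl)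
    (fun k => by rw [(hy k).2.2.2.2.2.1, hi, hn, ← grad, ← grad]; rfl)
    (fun k => by rw [(hy k).2.2.2.2.2.1, hi, hn, ← grad, ← grad]; rfl)
    (fun a b e => hv a b ?_) fun k ny => ?_
  swap
  · have hz : pd f [] (y.1 k) = 0 := (hy k).1
    have hne : ¬(pd f [0] (y.1 k) = 0 ∧ pd f [1] (y.1 k) = 0) := fun e => hg k (by simp [e.1, e.2])
    have hev : ∀ m Q v, fderiv ℝ (fun q => ev hf (P k q) m Q) y v =
        fderiv ℝ (fun x => ev hf x m Q) (y.1 k) (v.1 k) := fun m Q v =>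
      DFunLike.congr_fun ((ev_diff hf m Q _).hasFDerivAt.comp y (P k).hasFDerivAt).fderiv v
    obtain ⟨l0, a0⟩ := tang (v0.1 k) hne (by rw [← (hp k 0).1, ← (hp k 1).1, ← c0, hz, map_zero])
    obtain ⟨l1, a1⟩ := tang (v1.1 k) hne (by rw [← (hp k 0).2, ← (hp k 1).2, ← c1, hz, map_zero])
    refine nc δ0 δ1 _ _ l0 l1 (ev hf (y.1 k))
      (fun m α => (h (k, .inl (.inr (m, α)))).1.trans ((hev _ _ _).trans (ev_succ hf a0 _ _)))
      (fun m α => (h (k, .inl (.inr (m, α)))).2.trans ((hev _ _ _).trans (ev_succ hf a1 _ _)))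
      (ev_zero hf _) ?_ fun Q Q0 Q1 => ?_
    · refine ny.imp (fun e e0 => e ?_) fun e e0 => e ?_
      · simp [cx_ofReal, cx_I, (hp k _).1, a0, e0]
      · simp [cx_ofReal, cx_I, (hp k _).2, a1, e0]
    · simpa only [tang_iff hf] using (hy k).2.2.2.2.2.2 Q Q0 ((tang_iff hf _ _).2 Q1)
  simp only [(hp _ _).1, (hp _ _).2, (hu _ _).1, (hu _ _).2, (ht _).1, (ht _).2] at e
  refine Prod.ext (funext fun k => ?_) (Prod.ext (funext fun k => ?_) (funext fun k => ?_))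
  · ext j; fin_cases j
    · exact (e k).1
    · exact (e k).2.1
  · ext j; fin_cases j
    · exact (e k).2.2.1
    · exact (e k).2.2.2.1
  · exact (e k).2.2.2.2

end Pool.Agent.MP_249f74_an.H96
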