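import Pool.Agent.MP_249f74_an.H96.Chn

/-!
A finite basis for the last mirror.
-/

open Set IntermediateField

namespace Pool.Agent.MP_249f74_an.H96

open H17 (Der Two Kr St mem_Kr mem_St kill_cl stab_cl cl_le cl_mono mem_cl_iff)
open H88 (rk cl subset_cl coe_cl mem_cl)

variable {C Ω : Type} [Field C] [Field Ω] [CharZero Ω] [Algebra C Ω] {d : Two C Ω}

/-- An independent family of constants of the pencil in a finitely generated extension. -/
lemma bas_finite (q : Pt d) {I0 Sa I : Set Ω} (hSa : Sa.Finite)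
    (hl : ∀ t : Der C Ω, ∃ φ : Der C Ω, Kil I0 φ ∧ q.Tan (φ - t))
    (hI : AlgebraicIndependent (⊥ : IntermediateField C Ω) fun a : I => (a : Ω)) (hy : q.y ∈ I)
    (h1 : I ⊆ q.H) (h2 : I ⊆ cl C (I0 ∪ Sa)) : Finite {a : I // a.1 ≠ q.y} := by
  classical
  have := hSa.fintype
  obtain ⟨Z, z1, z2⟩ := q.exists_one
  choose t _ t2 using fun b : I => ext_indep ⊥ hI 0 fun a => if b = a then 1 else 0
  choose φ p1 p2 using fun b : I => hl (t b)
  have key : LinearIndependent Ω fun (b : {a : I // a.1 ≠ q.y}) (x : Sa) => φ b.1 x := by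
    refine linearIndependent_iff'.2 fun s g hg k hk => ?_
    have h3 : Kil (I0 ∪ Sa) (∑ b ∈ s, g b • φ b.1) := by
      rintro f (hf | hf)
      · simp [sum_apply, show ∀ b, φ b f = 0 from fun b => p1 b f hf]
      · simpa [sum_apply] using congrFun hg ⟨f, hf⟩
    have h4 := h3.cl _ (h2 hy)
    have h5 := h3.cl _ (h2 k.1.2)
    have h6 : ∀ b : {a : I // a.1 ≠ q.y},
        φ b.1 k.1 = φ b.1 q.y * Z k.1 + if b = k then 1 else 0 := fun b => by
      have e1 := (p2 b.1).agr z1 z2 _ (h1 k.1.2)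
      have e2 : t b.1 q.y = 0 := (t2 b.1 ⟨_, hy⟩).trans (if_neg fun h => b.2 (congrArg Subtype.val h))
      have e3 : t b.1 k.1 = if b = k then 1 else 0 := by rw [t2]; simp [Subtype.ext_iff]
      simp only [Derivation.sub_apply, Derivation.smul_apply, smul_eq_mul, e2, e3] at e1
      linear_combination e1
    simp only [sum_apply, Derivation.smul_apply, smul_eq_mul, h6, mul_add, ← mul_assoc,
      Finset.sum_add_distrib, ← Finset.sum_mul, mul_ite, mul_one, mul_zero, Finset.sum_ite_eq', hk,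
      if_true] at h4 h5
    rwa [h4, zero_mul, zero_add] at h5
  exact key.finite

lemma bas_core (hd : Amb d) (q : Pt d) {K : IntermediateField C Ω} {Z : Der C Ω}
    (hf : ∀ I : Set Ω, AlgebraicIndependent (⊥ : IntermediateField C Ω) (fun a : I => (a : Ω)) →
      q.y ∈ I → I ⊆ q.H → I ⊆ K → Finite {a : I // a.1 ≠ q.y})
    (Z1 : d.Tn Z) (Z2 : Z q.y = 1) (Z3 : Pres K Z) (hx : q.x ∈ K) (hy : q.y ∈ K) :
    ∃ (r : ℕ) (b b' : Fin r → Ω), AlgebraicIndependent C (fun o : Option (Fin r) => o.elim q.y b) ∧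
      q.x ∈ cl C (insert q.y (range b)) ∧ ∀ j, d.J q.y (b j) = 0 ∧ b j ∈ K ∧
        b' j ∈ cl C (insert q.y (range b)) ∧ d.Sl q.y (b j) (b' j) := by
  have Z4 : Pres q.H Z := q.pres_H hd Z1 (by rw [Z2]; exact one_mem _)
  have h0 : q.y ∉ cl C (∅ : Set Ω) :=
    not_mem_cl (δ := Z) (fun _ h => h.elim) (by rw [Z2]; exact one_ne_zero)
  have hv : AlgebraicIndependent C fun _ : Unit => q.y :=
    (indep_one h0).restrictScalars (algebraMap C _).injective
  obtain ⟨I, I1, I2, I3, I4⟩ := exists_basis ⊥ (indep_bot hv) (T := (q.H : Set Ω) ∩ K)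
    fun _ => ⟨q.yH, hy⟩
  have I5 : q.y ∈ I := I1 ⟨(), rfl⟩
  have := hf I I3 I5 (fun _ e => (I2 e).1) fun _ e => (I2 e).2
  obtain ⟨r, ⟨e⟩⟩ := Finite.exists_equiv_fin {a : I // a.1 ≠ q.y}
  have hb : ∀ j, ((e.symm j).1 : Ω) ∈ q.H ∧ ((e.symm j).1 : Ω) ∈ K := fun j => I2 (e.symm j).1.2
  have hc : ∀ f ∈ q.H, f ∈ K → f ∈ cl C (insert q.y (range fun j => ((e.symm j).1 : Ω))) := by
    intro f hf hf'
    refine cl_le (union_subset (fun _ e => (bot_le : ⊥ ≤ cl C _) e) fun a ha => subset_cl _ ?_)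
      (I4 ⟨hf, hf'⟩)
    by_cases h0 : a = q.y
    · exact Or.inl h0
    · exact Or.inr ⟨e ⟨⟨a, ha⟩, h0⟩, by simp⟩
  refine ⟨r, _, fun j => Z (e.symm j).1, ?_, hc _ q.xH hx, fun j => ⟨q.J_H (hb j).1, (hb j).2,
    hc _ (Z4 _ (hb j).1) (Z3 _ (hb j).2), q.prop Z1 Z2 tn_d0 (q.J_H (hb j).1),
    q.prop Z1 Z2 tn_d1 (q.J_H (hb j).1)⟩⟩
  have h3 := (I3.restrictScalars (algebraMap C _).injective).comp
    (fun o : Option (Fin r) => o.elim ⟨q.y, I5⟩ fun j => (e.symm j).1) (by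
      rintro (_ | i) (_ | j) hij
      · rfl
      · exact absurd (congrArg Subtype.val hij).symm (e.symm j).2
      · exact absurd (congrArg Subtype.val hij) (e.symm i).2
      · exact congrArg some (e.symm.injective (Subtype.ext hij)))
  convert h3 using 2 with o
  cases o <;> rfl

theorem bas : StmtBAS := by
  intro C Ω _ _ _ _ d m z l n hd h ht hJ hD hy
  obtain ⟨T, T1, T2, T3⟩ := H17.exists_finite_cl hy
  obtain ⟨Sa, S0⟩ : ∃ Sa, Sa = insert (m 0).y (T ∩ HS m 0) := ⟨_, rfl⟩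
  have S1 : Sa.Finite := S0 ▸ (T2.inter_of_left _).insert _
  have S2 : Sa ⊆ HS m 0 := S0 ▸ insert_subset (m 0).yH inter_subset_right
  have K1 : cl C (Inn m z (HS m) (n + 1)) ≤ cl C (Inn m z (HS m) (n + 1) ∪ Sa) :=
    cl_mono subset_union_left
  have K3 : (m (n + 1)).y ∈ cl C (Inn m z (HS m) (n + 1) ∪ Sa) :=
    cl_mono (fun f hf => (T1 hf).imp id fun e => by rw [S0]; exact Or.inr ⟨hf, e⟩) T3
  have K4 : (m 0).y ∈ cl C (Inn m z (HS m) (n + 1) ∪ Sa) :=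
    subset_cl _ (Or.inr (by rw [S0]; exact Or.inl rfl))
  obtain ⟨D, D0⟩ : ∃ D, D = d.nb (m 0).y (z 0 ^ 2) := ⟨_, rfl⟩
  have D1 : d.Tn D := D0 ▸ Two.tn_nb _ _
  have D2 : D (m 0).y = 0 := D0 ▸ Two.nb_self _ _
  have D3 : D (z 0 ^ 2) = 1 := D0 ▸ Two.nb_one (h.e 0 n.succ_pos).nds
  have D4 : D (lc m z 0) = -(m 0).y := by
    rw [lc, map_sub, Derivation.leibniz, (m 0).dx D1, D2, D3]; simp
  have D5 : Pres (cl C (Inn m z (HS m) (n + 1) ∪ Sa)) D := pres_cl fun f hf => hf.elim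
    (h.stab_Inn hd K1 D1 n.succ_pos (by rw [D3]; exact one_mem _) (by rw [D4]; exact neg_mem K4) f)
    fun hf => by rw [D0, Two.nb_apply, (m 0).J_H (S2 hf), mul_zero]; exact zero_mem _
  have D6 : D (m (n + 1)).y ≠ 0 := D1.ne_zero D2 (by rw [D3]; exact one_ne_zero) hJ
  have hx : (m (n + 1)).x ∈ cl C (Inn m z (HS m) (n + 1) ∪ Sa) := by
    have k := h.line_mem_H hd n.lt_succ_self
    have := add_mem (K1 k.2.2) (mul_mem (K1 k.2.1) K3)
    rwa [h.lc_eq n.lt_succ_self, sub_add_cancel] at this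
  obtain ⟨r, b, b', h1, h2, h3⟩ := bas_core hd (m (n + 1)) (Z := (D (m (n + 1)).y)⁻¹ • D)
    (fun I => bas_finite _ S1 fun t => h.lift_last hd hD 0 t) (D1.smul _) (inv_mul_cancel₀ D6)
    (fun f hf => mul_mem (inv_mem (D5 _ K3)) (D5 f hf)) hx K3
  exact ⟨r, b, b', h1, h2, fun j =>
    ⟨(h3 j).1, cl_mono (union_subset_union_right _ S2) (h3 j).2.1, (h3 j).2.2⟩⟩

end Pool.Agent.MP_249f74_an.H96
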