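import Pool.Agent.MP_249f74_an.H96.Spec

/-!
Fields of definition of a closed form are stable under intersection.
-/

open Set IntermediateField

namespace Pool.Agent.MP_249f74_an.H96

open H17 (Der cl_le cl_mono rk_mono mem_cl_of_rk rk_finite rk_map)
open H88 (rk cl subset_cl coe_cl rk_le rk_insert rk_union)

namespace Chh

variable {C Ω : Type} [Field C] [Field Ω] [Algebra C Ω]

lemma alg_iff (K : IntermediateField C Ω) {ι : Type} (v : ι → Ω) :
    AlgebraicIndependent K v ↔ LinearIndependent K fun m : ι →₀ ℕ => m.prod fun i k => v i ^ k := by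
  have e : (MvPolynomial.aeval v : MvPolynomial ι K →ₐ[K] Ω).toLinearMap =
      Finsupp.linearCombination K (fun m : ι →₀ ℕ => m.prod fun i k => v i ^ k) ∘ₗ
        (MvPolynomial.basisMonomials ι K).repr.toLinearMap :=
    (MvPolynomial.basisMonomials ι K).ext fun m => by
      rw [LinearMap.comp_apply, LinearEquiv.coe_coe, Module.Basis.repr_self]
      simp [MvPolynomial.aeval_monomial]
  rw [linearIndependent_iff_injective_finsuppLinearCombination,
    ← EquivLike.injective_comp (MvPolynomial.basisMonomials ι K).repr]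
  exact iff_of_eq (congrArg Function.Injective (congrArg DFunLike.coe e))

variable [CharZero Ω]

lemma lin {K K1 K2 : IntermediateField C Ω} (hK : cl C (K : Set Ω) = K)
    (h1 : cl C (K1 : Set Ω) = K1) (h2 : cl C (K2 : Set Ω) = K2) (l1 : K1 ≤ K) (l2 : K2 ≤ K)
    {X : Set Ω} (i1 : Ind C X K K1) (i2 : Ind C X K K2) {ι : Type} {u : ι → Ω}
    (hu : ∀ i, u i ∈ cl C X) (h : LinearIndependent ↥(K1 ⊓ K2) u) : LinearIndependent K u := by
  classical
  rw [linearIndependent_iff'] at h ⊢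
  intro s
  induction s using Finset.induction_on with
  | empty => simp
  | insert j s hj ih =>
    intro g hg
    have h0 : g j = 0 := by
      by_contra hn
      have hn' : (g j : Ω) ≠ 0 := fun e => hn (Subtype.ext e)
      let a : ι → Ω := fun i => g i / g j
      have aK : ∀ i, a i ∈ K := fun i => div_mem (g i).2 (g j).2
      have ha : u j + ∑ i ∈ s, a i * u i = 0 := by
        rw [Finset.sum_insert hj] at hg
        have e : ∑ i ∈ s, a i * u i = (∑ i ∈ s, g i • u i) / g j := by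
          rw [Finset.sum_div]
          exact Finset.sum_congr rfl fun i _ => by
            simp only [a, IntermediateField.smul_def, smul_eq_mul]; ring
        rw [e, ← eq_neg_iff_add_eq_zero, ← neg_div, eq_div_iff hn', ← sub_eq_zero, ← hg,
          IntermediateField.smul_def, smul_eq_mul]
        ring
      have key : ∀ L : IntermediateField C Ω, cl C (L : Set Ω) = L → L ≤ K → Ind C X K L →
          ∀ i ∈ s, a i ∈ L := fun L hL l hi i his => by
        by_contra hm
        obtain ⟨θ, p1, p2, p3⟩ := sep_pres hK (S := L) l (aK i) (by rwa [hL])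
        obtain ⟨φ, q1, q2⟩ := hi θ p2
        have h3 := congrArg φ ha
        simp only [map_add, map_sum, Derivation.leibniz, q1.cl _ (hu _), smul_zero, zero_add,
          map_zero, q2 _ (aK _)] at h3
        have h4 := ih (fun i => ⟨θ (a i), p1 _ (aK i)⟩) (by
          simpa [IntermediateField.smul_def, mul_comm] using h3) i his
        exact one_ne_zero (p3.symm.trans (congrArg Subtype.val h4))
      let b : ι → ↥(K1 ⊓ K2) := fun i =>
        if hi : i ∈ s then ⟨a i, key K1 h1 l1 i1 i hi, key K2 h2 l2 i2 i hi⟩ else 1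
      have h5 := h (insert j s) b (by
        rw [Finset.sum_insert hj, ← ha]
        congr 1
        · simp [b, hj]
        · exact Finset.sum_congr rfl fun i hi => by
            simp [b, hi, IntermediateField.smul_def]) j (Finset.mem_insert_self _ _)
      simp [b, hj] at h5
    rw [Finset.sum_insert hj, h0, zero_smul, zero_add] at hg
    intro i hi
    rcases Finset.mem_insert.1 hi with rfl | hi
    · exact h0
    · exact ih g hg i hi

lemma core {K K1 K2 : IntermediateField C Ω} (hK : cl C (K : Set Ω) = K)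
    (h1 : cl C (K1 : Set Ω) = K1) (h2 : cl C (K2 : Set Ω) = K2) (l1 : K1 ≤ K) (l2 : K2 ≤ K)
    {X : Set Ω} (i1 : Ind C X K K1) (i2 : Ind C X K K2) {ι : Type} {v : ι → Ω}
    (hv : ∀ i, v i ∈ X) (h : AlgebraicIndependent ↥(K1 ⊓ K2) v) : AlgebraicIndependent K v := by
  rw [alg_iff] at h ⊢
  exact lin hK h1 h2 l1 l2 i1 i2
    (fun m => prod_mem fun i _ => pow_mem (subset_cl _ (hv i) : v i ∈ cl C X) _) h

lemma ind_of_indep {K : IntermediateField C Ω} {K0 J X : Set Ω} (l : K0 ⊆ K)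
    (h : AlgebraicIndependent K fun a : J => (a : Ω)) (hX : X ⊆ cl C (K0 ∪ J)) : Ind C X K K0 :=
  fun θ hθ => by
    obtain ⟨φ, p1, p2⟩ := ext_indep K h θ 0
    exact ⟨φ, (Kil.cl ((hθ.of_agr (p1.mono l)).union fun a ha => p2 ⟨a, ha⟩)).mono hX, p1⟩

/-- Canonical bases. -/
lemma cb {K K1 K2 : IntermediateField C Ω} (hK : cl C (K : Set Ω) = K)
    (h1 : cl C (K1 : Set Ω) = K1) (h2 : cl C (K2 : Set Ω) = K2) (l1 : K1 ≤ K) (l2 : K2 ≤ K)
    {X : Set Ω} (i1 : Ind C X K K1) (i2 : Ind C X K K2) :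
    Ind C X K (K1 ⊓ K2 : IntermediateField C Ω) := by
  obtain ⟨J, -, j2, j3, j4⟩ := exists_basis (K1 ⊓ K2) (v := fun e : Empty => e.elim)
    algebraicIndependent_empty_type (T := X) fun e => e.elim
  exact ind_of_indep (inf_le_left.trans l1 : K1 ⊓ K2 ≤ K)
    (core hK h1 h2 l1 l2 i1 i2 (fun a => j2 a.2) j3) j4

lemma rk_add {K : IntermediateField C Ω} {S J : Set Ω} (l : S ⊆ K)
    (h : AlgebraicIndependent K fun a : J => (a : Ω)) {I : Set Ω} (hI : I.Finite) :
    I ⊆ J → rk C (S ∪ I) = rk C S + I.encard := by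
  classical
  induction I, hI using Set.Finite.induction_on with
  | empty => simp
  | @insert x I hx _ ih =>
    intro hJ
    obtain ⟨φ, p1, p2⟩ := ext_indep K h 0 fun a => if (a : Ω) = x then 1 else 0
    rw [union_insert, rk_insert, ih ((subset_insert _ _).trans hJ), encard_insert_of_notMem hx,
      add_assoc]
    refine not_mem_cl (δ := φ) (Kil.union (fun f hf => p1 f (l hf)) fun f hf => ?_) ?_
    · exact (p2 ⟨f, hJ (Or.inr hf)⟩).trans (if_neg fun e : f = x => hx (e ▸ hf))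
    · rw [show φ x = 1 from (p2 ⟨x, hJ (Or.inl rfl)⟩).trans (if_pos rfl)]
      exact one_ne_zero

variable {ω : Fm C Ω}

variable (ω) in
/-- Finite sets of definition of minimal rank. -/
structure Mn (S : Set Ω) : Prop where
  fin : S.Finite
  van : Van ω S
  min : ∀ T : Set Ω, T.Finite → Van ω T → rk C S ≤ rk C T

omit [CharZero Ω] in
lemma Mn.eq {S T : Set Ω} (h : Mn ω S) (h' : Mn ω T) : rk C S = rk C T :=
  le_antisymm (h.min T h'.fin h'.van) (h'.min S h.fin h.van)

lemma Mn.push {S T : Set Ω} (h : Mn ω S) (hc : Cls ω) (hT : T.Finite) (hv : Van ω T)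
    {σ : Ω ≃ₐ[C] Ω} (hσ : ∀ a ∈ cl C T, σ a = a) : Mn ω (σ '' S) :=
  ⟨h.fin.image _, hv.push_eq hT hc hσ ▸ h.van.push σ, fun U h1 h2 =>
    (rk_map (σ : Ω →ₐ[C] Ω) S).le.trans (h.min U h1 h2)⟩

variable [IsAlgClosed Ω]

lemma max_pair (hC : StmtCOPY) (hB : Big C Ω) (hc : Cls ω) {S T : Set Ω} (hS : Mn ω S)
    (hT : Mn ω T) (hm : ∀ U V, Mn ω U → Mn ω V → rk C (U ∪ V) ≤ rk C (S ∪ T)) : S ⊆ cl C T := by
  obtain ⟨σ, s1, s2⟩ := hC C Ω S T hB hS.fin hT.fin
  have hS' := hS.push hc hT.fin hT.van s1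
  have l1 : cl C S ≤ cl C (S ∪ T) := cl_mono subset_union_left
  have l2 : cl C T ≤ cl C (S ∪ T) := cl_mono subset_union_right
  have i2 : Ind C (σ '' S) (cl C (S ∪ T) : Set Ω) (cl C T : Set Ω) :=
    (s2.cl.mono (subset_cl _) subset_rfl).base ((subset_cl _).trans (subset_cl _))
  obtain ⟨J, -, j2, j3, j4⟩ := exists_basis (cl C T) (v := fun e : Empty => e.elim)
    algebraicIndependent_empty_type (T := σ '' S) fun e => e.elim
  have hJ := hS'.fin.subset j2
  have j5 := core (cl_cl _) (cl_cl _) (cl_cl _) l2 l2 i2 i2 (fun a : J => j2 a.2)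
    (by rwa [inf_idem])
  have r1 : rk C (S ∪ σ '' S) ≤ rk C (S ∪ J) := by
    rw [rk_add ((subset_cl _).trans l1) j5 hJ subset_rfl, hS.eq hT,
      ← rk_add ((subset_cl _).trans l2) j5 hJ subset_rfl]
    refine (hm _ _ hS hS').trans ((rk_map (σ : Ω →ₐ[C] Ω) _).ge.trans (rk_le ?_))
    rintro _ ⟨x, hx | hx, rfl⟩
    · exact cl_le (union_subset (cl_mono subset_union_left)
        (subset_union_right.trans (subset_cl _))) (j4 ⟨x, hx, rfl⟩)
    · exact (s1 x (subset_cl _ hx)).symm ▸ subset_cl _ (Or.inl hx)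
  have i1 : Ind C (σ '' S) (cl C (S ∪ T) : Set Ω) (cl C S : Set Ω) :=
    ind_of_indep l1 j5 ((subset_union_right.trans (mem_cl_of_rk (rk_finite (hS.fin.union hJ))
      ((union_subset_union_right _ j2).trans (subset_cl _)) r1)).trans
      (cl_mono (union_subset_union_left _ (subset_cl _))))
  have i0 := cb (cl_cl _) (cl_cl _) (cl_cl _) l1 l2 i1 i2
  obtain ⟨I, hI⟩ := (AlgebraicIndependent.matroid C Ω).exists_isBasis
    (cl C S ⊓ cl C T : IntermediateField C Ω) (by simp)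
  have hIS : I ⊆ cl C S := fun x hx => (hI.subset hx).1
  have hf : I.Finite := Set.finite_of_encard_le_coe (k := (rk C S).toNat) (by
    rw [ENat.natCast_toNat (rk_finite hS.fin), ← hI.indep.eRk_eq_encard]
    exact rk_le hIS)
  have hv : Van ω I := fun θ hθ => by
    obtain ⟨φ, p1, p2⟩ := i0 θ (hθ.cl.mono (by rw [coe_cl]; exact hI.subset_closure))
    rw [← hS.van.agr (p2.mono ((subset_cl _).trans l1)), hS'.van φ p1]
  exact (mem_cl_of_rk (rk_finite hf) hIS (hS.min I hf hv)).trans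
    (cl_le fun x hx => (hI.subset hx).2)

lemma min_pair (hC : StmtCOPY) (hB : Big C Ω) (hc : Cls ω) {S T : Set Ω} (hS : Mn ω S)
    (hT : Mn ω T) : S ⊆ cl C T := by
  have : Nonempty {p : Set Ω × Set Ω // Mn ω p.1 ∧ Mn ω p.2} := ⟨⟨(S, T), hS, hT⟩⟩
  obtain ⟨⟨⟨U, V⟩, hU, hV⟩, h⟩ := ENat.exists_eq_iSup_of_lt_top
    (f := fun p : {p : Set Ω × Set Ω // Mn ω p.1 ∧ Mn ω p.2} => rk C (p.1.1 ∪ p.1.2))
    (lt_of_le_of_lt (iSup_le fun p => (rk_union _ _).trans
      (add_le_add (p.2.1.eq hS).le (p.2.2.eq hS).le))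
      (WithTop.add_lt_top.2
        ⟨(rk_finite (C := C) hS.fin).lt_top, (rk_finite (C := C) hS.fin).lt_top⟩))
  have hm : ∀ A B, Mn ω A → Mn ω B → rk C (A ∪ B) ≤ rk C (U ∪ V) := fun A B hA hB =>
    (le_iSup (fun p : {p : Set Ω × Set Ω // Mn ω p.1 ∧ Mn ω p.2} => rk C (p.1.1 ∪ p.1.2))
      ⟨(A, B), hA, hB⟩).trans h.ge
  refine subset_union_left.trans (mem_cl_of_rk (rk_finite hT.fin)
    (subset_union_right.trans (subset_cl _)) ((hm S T hS hT).trans ?_))
  rw [hT.eq hV]
  exact rk_le (union_subset (max_pair hC hB hc hU hV hm) (subset_cl _))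

lemma min_sub (hC : StmtCOPY) (hB : Big C Ω) (hc : Cls ω) {S T : Set Ω} (hS : Mn ω S)
    (hT : T.Finite) (hv : Van ω T) : S ⊆ cl C T := fun x hx => by
  obtain ⟨σ, s1, s2⟩ := hC C Ω S T hB hS.fin hT
  refine mem_cl_of_kil fun θ hθ => ?_
  obtain ⟨φ, p1, p2⟩ := s2 θ hθ
  rw [← p2 x (Or.inl hx)]
  exact p1.cl x (min_pair hC hB hc hS (hS.push hc hT hv s1) hx)

end Chh

theorem ch : StmtCOPY → StmtCH := by
  intro hC C Ω _ _ _ _ _ ω S T hB hc hS hT vS vT
  obtain ⟨S0, ⟨h1, h2⟩, h3⟩ := (InvImage.wf (rk C) wellFounded_lt).has_min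
    {U : Set Ω | U.Finite ∧ Van ω U} ⟨S, hS, vS⟩
  have h0 : Chh.Mn ω S0 := ⟨h1, h2, fun U p q => not_lt.1 (h3 U ⟨p, q⟩)⟩
  exact h2.mono fun x hx => ⟨Chh.min_sub hC hB hc h0 hS vS hx, Chh.min_sub hC hB hc h0 hT vT hx⟩

end Pool.Agent.MP_249f74_an.H96
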