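import Pool.Agent.MP_249f74_an.H96.Chn

/-!
The main induction.
-/

open Set IntermediateField

namespace Pool.Agent.MP_249f74_an.H96

open H17 (Der Two Kr cl_le cl_mono)
open H88 (rk cl subset_cl)

namespace IndAux

variable {C Ω : Type} [Field C] [Field Ω] [Algebra C Ω] {d : Two C Ω} {p : Prp} {P : Set Ω}
  {m : ℕ → Pt d} {z l : ℕ → Ω} {n : ℕ} {g : Iso C} {L : Ω}

lemma adm_mono (h : Adm p P m l (n + 1)) : Adm p P m l n :=
  ⟨h.pos, fun i hi => h.hl i (by omega), fun i hi => h.hp i (by omega)⟩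

lemma adm_shift (h : Adm p P m l (n + 1)) :
    Adm p P (fun i => m (i + 1)) (fun i => l (i + 1)) n :=
  ⟨h.pos, fun i hi => h.hl _ (by omega), fun i hi => h.hp _ (by omega)⟩

/-- Rotation of a chain. -/
lemma tw_rot (h : Ch m z l (n + 1)) (e : Edge (m (n + 1)) ((m 1).act g) (g.pz (z 0)) L)
    (hr : z n * g.pz (z 0) = (m (n + 1)).w) :
    Tw g (fun i => if i ≤ n then m (i + 1) else (m 1).act g)
      (fun i => if i < n then z (i + 1) else g.pz (z 0))
      (fun i => if i < n then l (i + 1) else L) n := by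
  have h1 : ∀ i ≤ n, z i * (if i < n then z (i + 1) else g.pz (z 0)) = (m (i + 1)).w := by
    intro i hi
    split_ifs with h2
    · exact h.r i (by omega)
    · obtain rfl : i = n := by omega
      exact hr
  refine ⟨⟨fun i hi => ?_, fun i hi => ?_⟩, by simp, by simp, ?_⟩
  · by_cases h2 : i < n
    · simp only [h2, h2.le, show i + 1 ≤ n from h2, if_true]
      exact h.e (i + 1) (by omega)
    · obtain rfl : i = n := by omega
      simpa using e
  · have h2 : i < n := by omega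
    simp only [h2, show i + 1 ≤ n from h2, if_true]
    exact h1 (i + 1) h2
  · simp only [lt_irrefl, if_false, Nat.not_succ_le_self, Iso.pz_mul, Pt.act_w]
    rw [h1 0 n.zero_le]

lemma adm_rot [CharZero Ω] (hp : p.Ok) (h : Adm p P m l (n + 1)) (hL : L ∈ P) :
    Adm p P (fun i => if i ≤ n then m (i + 1) else (m 1).act g)
      (fun i => if i < n then l (i + 1) else L) (n + 1) := by
  refine ⟨h.pos, fun i _ => ?_, fun i _ => ?_⟩
  · split_ifs with h2
    · exact h.hl _ (by omega)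
    · exact hL
  · split_ifs with h2
    · exact h.hp _ (by omega)
    · exact fun h3 => hp.iso C Ω g _ _ (h.hp 1 (by omega) fun h4 => h3 ((m 1).tr_act g h4))

/-- Two collinear segments. -/
lemma edge_add {a b c : Pt d} {z l l' : Ω} (e : Edge a b z l) (e' : Edge b c z l')
    (h : l + l' ≠ 0) : Edge a c z (l + l') :=
  ⟨by linear_combination e.ex + e'.ex, by linear_combination e.ey + e'.ey, e.z0, h, e.g0, e'.g1,
    e.nd⟩

variable [CharZero Ω]

/-- A twisted periodic chain with a transcendental last mirror is not free. -/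
lemma not_dec (h : Tw g m z l n) (hD : Dec m (n + 1)) : ¬(m (n + 1)).Tr := fun ht => by
  obtain ⟨τ, t1, t2⟩ := sep ht
  obtain ⟨θ, hθ⟩ := hD fun i => if i = n + 1 then τ else 0
  obtain ⟨Z, z1, z2⟩ := hθ 0 (Nat.zero_le _)
  have h1 : θ (m 0).x = Z (m 0).x := by simpa using z2 _ (m 0).xH
  have h2 : θ (m 0).y = Z (m 0).y := by simpa using z2 _ (m 0).yH
  have h3 : θ (m (n + 1)).x = Z (m (n + 1)).x := by
    rw [h.hx]; cases e : g.e <;> simp [Iso.px, e, h1, h2]
  have h4 : θ (m (n + 1)).y = Z (m (n + 1)).y := by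
    rw [h.hy]; cases e : g.e <;> simp [Iso.py, e, h1, h2, Derivation.leibniz_inv]
  have h5 := (m (n + 1)).dx_of_tanS (m _).xH (m _).yH (hθ (n + 1) le_rfl)
  simp only [if_true, Derivation.sub_apply, t2, t1 _ rfl, h3, h4, (m (n + 1)).dx z1] at h5
  exact one_ne_zero (α := Ω) (by linear_combination -h5)

lemma stmtS (hp : p.Ok) (hA : StmtA p) (hD : StmtD p (n + 1)) : StmtS p n := by
  intro C Ω _ _ _ _ _ _ d g m z l P hd h ha
  have key : ∀ (i : ℕ) (m : ℕ → Pt d) (z l : ℕ → Ω), Tw g m z l n → Adm p P m l (n + 1) →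
      i ≤ n + 1 → ¬(m i).Tr := fun i => by
    induction i with
    | zero =>
      exact fun m z l h ha _ ht => not_dec h (hD C Ω d m z l P hd h.ch ha)
        (((m (n + 1)).tr_congr (m' := (m 0).act g) h.hx h.hy).2 ((m 0).tr_act g ht))
    | succ i ih =>
      intro m z l h ha hi
      have := ih _ _ _ (tw_rot h.ch (((h.ch.e 0 n.succ_pos).act g).congr h.hx h.hy rfl rfl) h.hr)
        (adm_rot hp ha (ha.hl 0 n.succ_pos)) (by omega)
      simpa [show i ≤ n by omega] using this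
  exact hA C Ω d g m z l n P hd h ha fun i hi => key i m z l h ha hi

/-- The focusing case. -/
lemma foc (hF : StmtFOC) (hd : Amb d) (h : Ch m z l (n + 1)) (hD : Dec m n) (ht : (m 0).Tr)
    (hJ : d.J (m 0).y (m (n + 1)).y = 0) : ∃ g : Iso C, (m (n + 1)).x = g.px (m 0).x (m 0).y ∧
      (m (n + 1)).y = g.py (m 0).x (m 0).y ∧ z n = g.pz (z 0) := by
  have k := fun i hi => h.line_mem_H hd (i := i) hi
  have hP := h.pen n.succ_pos (k 0 n.succ_pos).2.1 (k 0 n.succ_pos).2.2
    (fun Z hZ => h.pres_Inn hd hZ n.succ_pos) (y := (m 0).y)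
    (by rw [cl_cl]; exact h.first_tr hd hD ht)
  have hκ : ∀ j ≤ n, ∑ i ∈ Finset.range (j + 1), l i + z 0 * (m 0).y - z j * (m (j + 1)).y ∈
      cl C (Inn m z (HS m) (n + 1)) := fun j hj => by
    induction j with
    | zero =>
      convert zero_mem (cl C (Inn m z (HS m) (n + 1))) using 1
      rw [Finset.sum_range_one]
      linear_combination -(h.e 0 n.succ_pos).ey
    | succ j ih =>
      convert add_mem (ih (by omega)) (mul_mem (subset_cl _ (sub_Inn (S := HS m) j.succ_pos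
        (by omega) (m (j + 1)).yH)) (sub_mem (k j (by omega)).1 (k (j + 1) (by omega)).1)) using 1
      rw [Finset.sum_range_succ _ (j + 1)]
      linear_combination -(h.e (j + 1) (by omega)).ey
  generalize d.nb (lc m z 0) (z 0 ^ 2) = ds at hP
  generalize d.nb (z 0 ^ 2) (lc m z 0) = dc at hP
  have t : d.Tn (ds - (m 0).y • dc) := hP.t1.sub (hP.t2.smul _)
  have h1 : (ds - (m 0).y • dc) (z 0 ^ 2) = 1 := by
    rw [Derivation.sub_apply, Derivation.smul_apply, hP.e11, hP.e21, smul_zero, sub_zero]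
  have h2 : (ds - (m 0).y • dc) (lc m z 0) = -(m 0).y := by
    rw [Derivation.sub_apply, Derivation.smul_apply, hP.e12, hP.e22, smul_eq_mul, mul_one, zero_sub]
  have h3 : (ds - (m 0).y • dc) (m 0).y = 0 := by
    rw [lc, map_sub, Derivation.leibniz, h1, (m 0).dx t, smul_eq_mul, smul_eq_mul] at h2
    exact (mul_eq_zero.1 (show _ * ((m 0).w - z 0 ^ 2) = 0 by linear_combination h2)).resolve_right
      (sub_ne_zero.2 (h.e 0 n.succ_pos).g0)
  have h4 := ((m 0).J_eq_zero_iff t h3 (h1 ▸ one_ne_zero)).1 hJ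
  have h5 : (ds - (m 0).y • dc) (m (n + 1)).x = 0 := by rw [(m _).dx t, h4, zero_mul]
  have h6 := h.dlen t
  rw [h4, h5, (m 0).dx t, h3] at h6
  have := hF C Ω d _ (z 0) (lc m z 0) (m 0).y (z n) (lc m z n) _ (m (n + 1)).x (m (n + 1)).y ds dc
    hd hP h3 (k 0 n.succ_pos).1 (k n n.lt_succ_self).1 (k n n.lt_succ_self).2.2 (hκ n le_rfl)
    (by rw [h.lc_eq n.lt_succ_self, sub_add_cancel]) (h.Jsc n.lt_succ_self) h5 h4 (by
      rw [show ∀ a b c : Ω, a + b - c - b + c = a from fun _ _ _ => by ring]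
      simpa using h6)
  rwa [lc, sub_add_cancel] at this

lemma stmtD (hS : StmtSTEP) (hF : StmtFOC) (hN : StmtD p n → StmtNF p n) (hp : p.Ok)
    (hA : StmtA p) (hD : StmtD p n) : StmtD p (n + 1) := by
  intro C Ω _ _ _ _ _ _ d m z l P hd h ha t
  have D1 := hD C Ω d m z l P hd (h.mono n.le_succ) (adm_mono ha)
  have D2 := hD C Ω d _ _ _ P hd h.shift (adm_shift ha)
  obtain ⟨θ, hθ⟩ := D1 t
  by_cases ht : (m (n + 1)).Tr
  swap
  · refine ⟨θ, fun i hi => ?_⟩
    rcases hi.eq_or_lt with rfl | hi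
    · exact (m _).tan_alg ht _
    · exact hθ i (by omega)
  have hy : (m (n + 1)).y ∉ cl C (Inn m z (HS m) (n + 1) ∪ HS m 0) := by
    by_cases hJ : d.J (m 0).y (m (n + 1)).y = 0
    swap
    · exact hN hD C Ω d m z l P hd h ha ht hJ
    by_cases h0 : (m 0).Tr
    swap
    · exact fun hy => h.last_tr hd D2 ht (cl_le (union_subset (subset_cl _) (h.first_alg hd h0)) hy)
    exfalso
    rcases n with _ | n
    · have h1 := (h.e 0 one_pos).dline (Two.tn_br (m 0).y)
      simp only [Two.br_apply, hJ, Two.J_self, mul_zero, sub_zero] at h1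
      exact mul_ne_zero (mul_ne_zero two_ne_zero (h.e 0 one_pos).l0) (h.e 0 one_pos).nd h1.symm
    · obtain ⟨g, g1, g2, g3⟩ := foc hF hd h D1 h0 hJ
      have hL := ha.pos.add _ (ha.hl (n + 1) (by omega)) _ (ha.hl 0 (by omega))
      exact stmtS hp hA hD C Ω d g _ _ _ P hd (tw_rot (h.mono (n + 1).le_succ)
        (edge_add (g3 ▸ h.e (n + 1) (by omega)) (((h.e 0 (by omega)).act g).congr g1 g2 rfl rfl)
          fun h => ha.pos.ne (h ▸ hL)) (g3 ▸ h.r n (by omega))) (adm_rot hp (adm_mono ha) hL)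
  have k := h.line_mem_H hd n.lt_succ_self
  have hK : cl C (Inn m z (HS m) (n + 1)) ≤ cl C (Inn m z (HS m) (n + 1) ∪ HS m 0) :=
    cl_mono subset_union_left
  obtain ⟨φ, h1, h2⟩ := hS C Ω d _ _ _ _ _ (m (n + 1)) hd
    (h.pen n.lt_succ_self (hK k.2.1) (hK k.2.2) (fun Z hZ => h.pres_Inn0 hd hZ n.lt_succ_self)
      (by rwa [cl_cl])) (by rw [h.lc_eq n.lt_succ_self, sub_add_cancel])
    (h.e n n.lt_succ_self).g1 θ (t (n + 1))
  refine ⟨φ, fun i hi => ?_⟩
  rcases hi.eq_or_lt with rfl | hi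
  · exact h2
  · refine TanS.of_agr (hθ i (by omega)) fun f hf => ?_
    rw [Derivation.sub_apply, Derivation.sub_apply, h1 f (subset_cl _ ?_)]
    rcases i.eq_zero_or_pos with rfl | h0
    · exact Or.inr hf
    · exact Or.inl (sub_Inn (S := HS m) h0 hi hf)

end IndAux

theorem ind (p : Prp) : StmtSTEP → StmtFOC → (∀ n, StmtD p n → StmtNF p n) → p.Ok → StmtA p →
    ∀ n, StmtS p n := by
  intro hS hF hN hp hA n
  refine IndAux.stmtS hp hA ?_
  generalize n + 1 = k
  induction k with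
  | zero =>
    intro C Ω _ _ _ _ _ _ d m z l P _ _ _ t
    refine ⟨t 0, fun i hi => ?_⟩
    rw [Nat.le_zero.1 hi, sub_self]
    exact tanS_tn tn_zero
  | succ k ih => exact IndAux.stmtD hS hF (hN k) hp hA ih

end Pool.Agent.MP_249f74_an.H96
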