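import Pool.Agent.MP_249f74_an.H96.Spec

/-!
Polynomials tangent to infinite order form a prime ideal.
-/

namespace Pool.Agent.MP_249f74_an.H96

namespace Irr

/-- Smooth functions on the plane. -/
def Sm : Subalgebra ℝ (EuclideanSpace ℝ (Fin 2) → ℝ) where
  carrier := {g | ContDiff ℝ ((⊤ : ℕ∞) : WithTop ℕ∞) g}
  mul_mem' := fun ha hb => Set.mem_ofPred.2 ((Set.mem_ofPred.1 ha).mul (Set.mem_ofPred.1 hb))
  add_mem' := fun ha hb => Set.mem_ofPred.2 ((Set.mem_ofPred.1 ha).add (Set.mem_ofPred.1 hb))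
  algebraMap_mem' := fun c => Set.mem_ofPred.2 (contDiff_const (c := c))

variable {f : EuclideanSpace ℝ (Fin 2) → ℝ}

lemma mem_Sm : f ∈ Sm ↔ ContDiff ℝ ((⊤ : ℕ∞) : WithTop ℕ∞) f := Iff.rfl

lemma fd (hf : f ∈ Sm) : ContDiff ℝ ((⊤ : ℕ∞) : WithTop ℕ∞) (fderiv ℝ f) :=
  (mem_Sm.1 hf).fderiv_right (by simp)

lemma grad (hf : f ∈ Sm) (j : Fin 2) : (fun x => gradient f x j) ∈ Sm := by
  have e : (fun x => gradient f x j) = fun x => fderiv ℝ f x (EuclideanSpace.single j 1) := by
    ext x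
    have := InnerProductSpace.toDual_symm_apply (𝕜 := ℝ) (x := EuclideanSpace.single j (1 : ℝ))
      (y := fderiv ℝ f x)
    rw [EuclideanSpace.inner_single_right] at this
    simpa [gradient] using this
  rw [e]
  exact mem_Sm.2 ((fd hf).clm_apply contDiff_const)

lemma tg_mem (hf : f ∈ Sm) {g : EuclideanSpace ℝ (Fin 2) → ℝ} (hg : g ∈ Sm) : tg f g ∈ Sm := by
  refine mem_Sm.2 ((fd hg).clm_apply (contDiff_euclidean.2 fun i => ?_))
  fin_cases i
  · exact (mem_Sm.1 (grad hf 1)).neg
  · exact mem_Sm.1 (grad hf 0)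

lemma diff (g : Sm) (x : EuclideanSpace ℝ (Fin 2)) : DifferentiableAt ℝ g.1 x :=
  ((mem_Sm.1 g.2).differentiable (by simp)) x

/-- The derivative along the level curves. -/
noncomputable def der (hf : f ∈ Sm) : Derivation ℝ Sm Sm :=
  Derivation.mk'
    { toFun := fun g => ⟨tg f g, tg_mem hf g.2⟩
      map_add' := fun a b => Subtype.ext (funext fun x => by
        simp [tg, fderiv_add (diff a x) (diff b x)])
      map_smul' := fun c a => Subtype.ext (funext fun x => by
        simp [tg, fderiv_const_smul (diff a x)]) }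
    fun a b => Subtype.ext (funext fun x => by
      simp [tg, fderiv_mul (diff a x) (diff b x)])

lemma der_iter (hf : f ∈ Sm) (n : ℕ) (g : Sm) : ((der hf)^[n] g).1 = (tg f)^[n] g.1 := by
  induction n with
  | zero => rfl
  | succ n ih => rw [Function.iterate_succ_apply', Function.iterate_succ_apply', ← ih]; rfl

/-- Polynomial functions. -/
noncomputable def pol : MvPolynomial (Fin 2) ℝ →ₐ[ℝ] Sm :=
  MvPolynomial.aeval fun j => ⟨fun x => x j, mem_Sm.2 (contDiff_euclidean.1 contDiff_id j)⟩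

lemma pol_apply (P : MvPolynomial (Fin 2) ℝ) :
    (pol P).1 = fun x => MvPolynomial.eval (fun j => x j) P := by
  induction P using MvPolynomial.induction_on with
  | C a => ext x; simp [pol]
  | add p q hp hq => ext x; simp [hp, hq]
  | mul_X p j hp => ext x; rw [map_mul, Subalgebra.coe_mul, hp]; simp [pol]

lemma exists_hom (hf : f ∈ Sm) (q : EuclideanSpace ℝ (Fin 2)) :
    ∃ T : MvPolynomial (Fin 2) ℝ →+* PowerSeries ℝ, ∀ P, Tang f q P ↔ T P = 0 := by
  refine ⟨(PowerSeries.map ((Pi.evalRingHom (fun _ => ℝ) q).comp Sm.val.toRingHom)).comp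
    ((H17.tay (der hf)).toRingHom.comp pol.toRingHom), fun P => ?_⟩
  rw [PowerSeries.ext_iff]
  refine forall_congr' fun n => ?_
  rw [← pol_apply, ← der_iter hf]
  simp [H17.coeff_tay, Nat.factorial_ne_zero]

end Irr

theorem irr : StmtIRR := by
  intro f hf q P
  obtain ⟨T, hT⟩ := Irr.exists_hom hf q
  simp only [hT]
  induction P using WfDvdMonoid.induction_on_irreducible with
  | zero => exact fun h => (h rfl).elim
  | unit u hu => exact fun _ h => ((hu.map T).ne_zero h).elim
  | mul a i ha hi ih =>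
    intro _ h
    rw [map_mul, mul_eq_zero] at h
    exact h.elim (fun h => ⟨i, hi, h⟩) (ih ha)

end Pool.Agent.MP_249f74_an.H96
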