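import Pool.Agent.MP_249f74_an.H96.Spec

/-!
A Lie algebra of derivations and closed forms.
-/

open Set IntermediateField

namespace Pool.Agent.MP_249f74_an.H96

open H17 (Der)
open H88 (cl)

namespace LieAux

variable {C Ω : Type} [Field C] [Field Ω] [Algebra C Ω]

/-- Either a vector is attained, or there is a linear relation. -/
lemma exists_rel (M : IntermediateField C Ω) (G : Set (Der C Ω)) {J : Type} [Fintype J]
    (μ : J → Fm C Ω) (h0 : 0 ∈ G) (ha : ∀ θ ∈ G, ∀ φ ∈ G, θ + φ ∈ G)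
    (hs : ∀ a ∈ M, ∀ θ ∈ G, a • θ ∈ G) (hμ : ∀ j, ∀ θ ∈ G, μ j θ ∈ M) (a : J → Ω)
    (haM : ∀ j, a j ∈ M) :
    (∃ θ ∈ G, ∀ j, μ j θ = a j) ∨
      ∃ ρ : J → Ω, (∀ j, ρ j ∈ M) ∧ ρ ≠ 0 ∧ ∀ θ ∈ G, ∑ j, ρ j * μ j θ = 0 := by
  classical
  let W : Submodule M (J → M) :=
    { carrier := {v | ∃ θ ∈ G, ∀ j, μ j θ = v j}
      zero_mem' := ⟨0, h0, fun j => by simp⟩
      add_mem' := by
        rintro v w ⟨θ, h1, h2⟩ ⟨φ, h3, h4⟩
        exact ⟨θ + φ, ha _ h1 _ h3, fun j => by simp [h2, h4]⟩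
      smul_mem' := by
        rintro b v ⟨θ, h1, h2⟩
        exact ⟨(b : Ω) • θ, hs _ b.2 _ h1, fun j => by simp [h2]⟩ }
  let x : J → M := fun j => ⟨a j, haM j⟩
  by_cases hx : x ∈ W
  · exact Or.inl hx
  right
  obtain ⟨f, h1, h2⟩ := Submodule.exists_dual_map_eq_bot_of_notMem hx inferInstance
  have hf : ∀ v : J → M, f v = ∑ j, f (Pi.single j 1) * v j := fun v => by
    conv_lhs => rw [← Finset.univ_sum_single v, map_sum]
    refine Finset.sum_congr rfl fun j _ => ?_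
    rw [mul_comm, ← smul_eq_mul, ← map_smul, ← Pi.single_smul, smul_eq_mul, mul_one]
  refine ⟨fun j => (f (Pi.single j 1) : Ω), fun j => (f (Pi.single j 1)).2, fun h => h1 ?_,
    fun θ hθ => ?_⟩
  · rw [hf]
    refine Finset.sum_eq_zero fun j _ => ?_
    have : f (Pi.single j 1) = 0 := Subtype.ext (congrFun h j)
    rw [this, zero_mul]
  · have h3 : f (fun j => ⟨μ j θ, hμ j θ hθ⟩) = 0 := by
      have : f (fun j => ⟨μ j θ, hμ j θ hθ⟩) ∈ W.map f :=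
        Submodule.mem_map_of_mem ⟨θ, hθ, fun _ => rfl⟩
      rwa [h2, Submodule.mem_bot] at this
    rw [hf] at h3
    have h4 := congrArg (fun z : M => (z : Ω)) h3
    simpa using h4

/-- Linear relations with coefficients in `M`. -/
def Rel (M : IntermediateField C Ω) (s c : Ω) (G : Set (Der C Ω)) {ι : Type} [Fintype ι]
    (ν : ι → Fm C Ω) (k1 k2 : Ω) (l : ι → Ω) : Prop :=
  k1 ∈ M ∧ k2 ∈ M ∧ (∀ k, l k ∈ M) ∧ ∀ θ ∈ G, k1 * θ s + k2 * θ c + ∑ k, l k * ν k θ = 0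

variable {M : IntermediateField C Ω} {s c : Ω} {G : Set (Der C Ω)} {ι : Type} [Fintype ι]
  {ν : ι → Fm C Ω} {k1 k2 : Ω} {l : ι → Ω}

lemma Rel.key (h : Rel M s c G ν k1 k2 l) (hb : ∀ θ ∈ G, ∀ φ ∈ G, ⁅θ, φ⁆ ∈ G)
    (hc : ∀ k, Cls (ν k)) {φ θ : Der C Ω} (hφ : φ ∈ G) (hθ : θ ∈ G) :
    φ k1 * θ s + φ k2 * θ c + ∑ k, φ (l k) * ν k θ =
      θ k1 * φ s + θ k2 * φ c + ∑ k, θ (l k) * ν k φ := by
  have h1 := congrArg φ (h.2.2.2 θ hθ)
  have h2 := congrArg θ (h.2.2.2 φ hφ)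
  have h3 := h.2.2.2 _ (hb φ hφ θ hθ)
  have h4 : ∀ k, ν k ⁅φ, θ⁆ = φ (ν k θ) - θ (ν k φ) := fun k => by
    have := hc k φ θ
    rw [dd] at this
    linear_combination -this
  simp only [map_add, map_sum, Derivation.leibniz, smul_eq_mul, map_zero, Finset.sum_add_distrib,
    br_apply, h4, mul_sub, Finset.sum_sub_distrib] at h1 h2 h3
  simp only [mul_comm (φ (l _)), mul_comm (θ (l _))]
  linear_combination h1 - h2 - h3

lemma Rel.smul (h : Rel M s c G ν k1 k2 l) {a : Ω} (ha : a ∈ M) :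
    Rel M s c G ν (a * k1) (a * k2) fun k => a * l k := by
  refine ⟨mul_mem ha h.1, mul_mem ha h.2.1, fun k => mul_mem ha (h.2.2.1 k), fun θ hθ => ?_⟩
  have := h.2.2.2 θ hθ
  simp only [mul_assoc, ← Finset.mul_sum]
  linear_combination a * this

lemma der_cl [CharZero Ω] {θ1 θ2 : Der C Ω} (h1 : θ1 s = 1) (h2 : θ1 c = 0) (h3 : θ2 s = 0)
    (h4 : θ2 c = 1) (θ : Der C Ω) {f : Ω} (hf : f ∈ cl C {s, c}) :
    θ f = θ s * θ1 f + θ c * θ2 f := by
  have : Agr {s, c} θ (θ s • θ1 + θ c • θ2) := by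
    rintro f (rfl | rfl) <;> simp [h1, h2, h3, h4]
  simpa using this.cl f hf

end LieAux

open LieAux in
theorem lie : StmtLIE := by
  intro C Ω _ _ _ _ _ M s c G ι _ ν hs hc h0 ha hsm hbr hp hcl hν hb
  classical
  -- relations without forms
  by_cases hA : ∃ k1 k2, Rel M s c G ν k1 k2 0 ∧ (k1 ≠ 0 ∨ k2 ≠ 0)
  · right
    obtain ⟨k1, k2, h1, h2⟩ := hA
    have hc0 : ∀ a : Ω, a ≠ 0 → (∀ θ ∈ G, a * θ c = 0) →
        ∃ κ1 ∈ cl C {s, c}, ∃ κ2 ∈ cl C {s, c}, ∃ lam : ι → C, (κ1 ≠ 0 ∨ κ2 ≠ 0 ∨ lam ≠ 0) ∧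
          ∀ θ ∈ G, κ1 * θ s + κ2 * θ c + ∑ k, algebraMap C Ω (lam k) * ν k θ = 0 :=
      fun a ha0 h => ⟨0, zero_mem _, 1, one_mem _, 0, Or.inr (Or.inl one_ne_zero), fun θ hθ => by
        simpa [ha0] using h θ hθ⟩
    by_cases hk : k1 = 0
    · exact hc0 k2 (h2.resolve_left (not_not.2 hk)) fun θ hθ => by simpa [hk] using h1.2.2.2 θ hθ
    have h3 := h1.smul (inv_mem h1.1)
    rw [inv_mul_cancel₀ hk] at h3
    by_cases hκ : k1⁻¹ * k2 ∈ cl C {s, c}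
    · exact ⟨1, one_mem _, _, hκ, 0, Or.inl one_ne_zero, fun θ hθ => by
        simpa using h3.2.2.2 θ hθ⟩
    obtain ⟨φ, p1, p2, p3, -, p5⟩ := hb _ h3.2.1 hκ
    refine hc0 _ p5 fun θ hθ => ?_
    have := h3.key hbr hcl p1 hθ
    simpa [p2, p3] using this
  have hA' : ∀ k1 k2, Rel M s c G ν k1 k2 0 → k1 = 0 ∧ k2 = 0 := fun k1 k2 h => by
    by_contra hn
    exact hA ⟨k1, k2, h, by tauto⟩
  -- the dual derivations
  have hd : ∀ a b : Ω, a ∈ M → b ∈ M → ∃ θ ∈ G, θ s = a ∧ θ c = b := fun a b haM hbM => by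
    rcases exists_rel M G (fun j : Bool => if j then dif s else dif c) h0 ha hsm
      (fun j θ hθ => by cases j <;> simp [hp θ hθ _ hs, hp θ hθ _ hc])
      (fun j => if j then a else b) (fun j => by cases j <;> simpa) with ⟨θ, p1, p2⟩ | ⟨ρ, p1, p2, p3⟩
    · exact ⟨θ, p1, by simpa using p2 true, by simpa using p2 false⟩
    · exfalso
      obtain ⟨q1, q2⟩ := hA' (ρ true) (ρ false) ⟨p1 _, p1 _, fun _ => zero_mem _, fun θ hθ => by
        simpa using p3 θ hθ⟩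
      exact p2 (funext fun j => by cases j <;> simpa)
  obtain ⟨θ1, g1, a1, a2⟩ := hd 1 0 (one_mem _) (zero_mem _)
  obtain ⟨θ2, g2, a3, a4⟩ := hd 0 1 (zero_mem _) (one_mem _)
  by_cases hR : ∃ n, ∃ k1 k2 l, Rel M s c G ν k1 k2 l ∧ l ≠ 0 ∧
      (Finset.univ.filter fun k => l k ≠ 0).card = n
  swap
  · left
    have hw : ∀ a b : Ω, a ∈ M → b ∈ M → ∃ θ ∈ G, θ s = a ∧ θ c = b ∧ ∀ k, ν k θ = 0 :=
      fun a b haM hbM => by
        rcases exists_rel M G (fun j : Option (Option ι) => j.elim (dif s) fun j => j.elim (dif c) ν)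
          h0 ha hsm (fun j θ hθ => by
            rcases j with _ | _ | j
            · exact hp θ hθ _ hs
            · exact hp θ hθ _ hc
            · exact hν j θ hθ)
          (fun j => j.elim a fun j => j.elim b fun _ => 0) (fun j => by
            rcases j with _ | _ | j
            · exact haM
            · exact hbM
            · exact zero_mem _) with ⟨θ, p1, p2⟩ | ⟨ρ, p1, p2, p3⟩
        · exact ⟨θ, p1, p2 none, p2 (some none), fun k => p2 (some (some k))⟩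
        · exfalso
          have hr : Rel M s c G ν (ρ none) (ρ (some none)) fun k => ρ (some (some k)) :=
            ⟨p1 _, p1 _, fun _ => p1 _, fun θ hθ => by
              simpa [Fintype.sum_option, add_assoc] using p3 θ hθ⟩
          by_cases hl : (fun k => ρ (some (some k))) = 0
          · rw [hl] at hr
            obtain ⟨q1, q2⟩ := hA' _ _ hr
            refine p2 (funext fun j => ?_)
            rcases j with _ | _ | j
            · exact q1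
            · exact q2
            · exact congrFun hl j
          · exact hR ⟨_, _, _, _, hr, hl, rfl⟩
    exact ⟨hw 1 0 (one_mem _) (zero_mem _), hw 0 1 (zero_mem _) (one_mem _)⟩
  right
  obtain ⟨k1', k2', l', r1, r2, r3⟩ := Nat.find_spec hR
  obtain ⟨j, hj⟩ := Function.ne_iff.1 r2
  have hj0 : l' j ≠ 0 := hj
  have r4 := r1.smul (inv_mem (r1.2.2.1 j))
  set k1 := (l' j)⁻¹ * k1'
  set k2 := (l' j)⁻¹ * k2'
  set l : ι → Ω := fun k => (l' j)⁻¹ * l' k with hl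
  have hlj : l j = 1 := inv_mul_cancel₀ hj0
  have hmin : ∀ (φ : Der C Ω) (b1 b2 : Ω), Rel M s c G ν b1 b2 (fun k => φ (l k)) →
      b1 = 0 ∧ b2 = 0 ∧ ∀ k, φ (l k) = 0 := fun φ b1 b2 h => by
    by_cases h1 : (fun k => φ (l k)) = 0
    · rw [h1] at h
      exact ⟨(hA' _ _ h).1, (hA' _ _ h).2, congrFun h1⟩
    exfalso
    refine Nat.find_min hR (m := (Finset.univ.filter fun k => φ (l k) ≠ 0).card) ?_
      ⟨_, _, _, h, h1, rfl⟩
    rw [← r3]
    refine Finset.card_lt_card ⟨fun k hk => ?_, fun hk => ?_⟩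
    · simp only [Finset.mem_filter, Finset.mem_univ, true_and] at hk ⊢
      intro h2
      exact hk (by simp [hl, h2])
    · have := hk (Finset.mem_filter.2 ⟨Finset.mem_univ j, hj0⟩)
      simp [hlj] at this
  have hkil : ∀ φ ∈ G, φ s = 0 → φ c = 0 → (∀ k, ν k φ = 0) →
      φ k1 = 0 ∧ φ k2 = 0 ∧ ∀ k, φ (l k) = 0 := fun φ hφ b1 b2 b3 =>
    hmin φ _ _ ⟨hp φ hφ _ r4.1, hp φ hφ _ r4.2.1, fun k => hp φ hφ _ (r4.2.2.1 k), fun θ hθ => by
      rw [r4.key hbr hcl hφ hθ]; simp [b1, b2, b3]⟩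
  have m1 : k1 ∈ cl C {s, c} := by
    by_contra hn
    obtain ⟨φ, p1, p2, p3, p4, p5⟩ := hb _ r4.1 hn
    exact p5 (hkil φ p1 p2 p3 p4).1
  have m2 : k2 ∈ cl C {s, c} := by
    by_contra hn
    obtain ⟨φ, p1, p2, p3, p4, p5⟩ := hb _ r4.2.1 hn
    exact p5 (hkil φ p1 p2 p3 p4).2.1
  have m3 : ∀ k, l k ∈ cl C {s, c} := fun k => by
    by_contra hn
    obtain ⟨φ, p1, p2, p3, p4, p5⟩ := hb _ (r4.2.2.1 k) hn
    exact p5 ((hkil φ p1 p2 p3 p4).2.2 k)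
  have hmem : ∀ ψ ∈ G, ∀ φ ∈ G, ψ k1 * φ s + ψ k2 * φ c + ∑ k, ψ (l k) * ν k φ ∈ M :=
    fun ψ hψ φ hφ => add_mem (add_mem (mul_mem (hp ψ hψ _ r4.1) (hp φ hφ _ hs))
      (mul_mem (hp ψ hψ _ r4.2.1) (hp φ hφ _ hc)))
      (sum_mem fun k _ => mul_mem (hp ψ hψ _ (r4.2.2.1 k)) (hν k φ hφ))
  have hG : ∀ φ ∈ G, ∀ k, φ (l k) = 0 := fun φ hφ =>
    (hmin φ (φ k1 - (θ1 k1 * φ s + θ1 k2 * φ c + ∑ k, θ1 (l k) * ν k φ))
      (φ k2 - (θ2 k1 * φ s + θ2 k2 * φ c + ∑ k, θ2 (l k) * ν k φ))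
      ⟨sub_mem (hp φ hφ _ r4.1) (hmem _ g1 _ hφ), sub_mem (hp φ hφ _ r4.2.1) (hmem _ g2 _ hφ),
        fun k => hp φ hφ _ (r4.2.2.1 k), fun θ hθ => by
          have e := r4.key hbr hcl hφ hθ
          have e1 := der_cl a1 a2 a3 a4 θ m1
          have e2 := der_cl a1 a2 a3 a4 θ m2
          have e3 : ∑ k, θ (l k) * ν k φ =
              θ s * ∑ k, θ1 (l k) * ν k φ + θ c * ∑ k, θ2 (l k) * ν k φ := by
            simp only [Finset.mul_sum, ← Finset.sum_add_distrib]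
            exact Finset.sum_congr rfl fun k _ => by rw [der_cl a1 a2 a3 a4 θ (m3 k)]; ring
          linear_combination e + φ s * e1 + φ c * e2 + e3⟩).2.2
  have hbot : ∀ k, ∃ a : C, algebraMap C Ω a = l k := fun k =>
    IntermediateField.mem_bot.1 (H17.mem_bot_of_cl (mem_cl_of_kil fun θ _ => by
      rw [der_cl a1 a2 a3 a4 θ (m3 k), hG _ g1, hG _ g2]; simp))
  choose lam hlam using hbot
  refine ⟨k1, m1, k2, m2, lam, Or.inr (Or.inr fun h => ?_), fun θ hθ => ?_⟩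
  · have := hlam j
    rw [h, hlj] at this
    simp at this
  · simp only [hlam]
    exact r4.2.2.2 θ hθ

end Pool.Agent.MP_249f74_an.H96
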