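import Pool.Agent.MP_249f74_an.H96.Chn

/-!
The non-focusing case: transfer to an extension.
-/

open Set IntermediateField

namespace Pool.Agent.MP_249f74_an.H96

open H17 (Der Two Kr St mem_Kr mem_St kill_cl stab_cl cl_le cl_mono mem_cl_iff)
open H88 (rk cl subset_cl coe_cl mem_cl)

namespace Nf

variable {C Ω C' Ω' : Type} [Field C] [Field Ω] [Algebra C Ω] [Field C'] [Field Ω']
  [Algebra C' Ω'] [Algebra C Ω'] {d : Two C Ω} {d' : Two C' Ω'} {i : Ω →ₐ[C] Ω'}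

/-- The map commutes with the derivations. -/
structure Cm (d : Two C Ω) (d' : Two C' Ω') (i : Ω →ₐ[C] Ω') : Prop where
  h0 : ∀ f, d'.d0 (i f) = i (d.d0 f)
  h1 : ∀ f, d'.d1 (i f) = i (d.d1 f)

namespace Cm

lemma J (h : Cm d d' i) (f g : Ω) : d'.J (i f) (i g) = i (d.J f g) := by
  simp only [Two.J, h.h0, h.h1, map_sub, map_mul]

lemma sl (h : Cm d d' i) {y f g : Ω} (e : d.Sl y f g) : d'.Sl (i y) (i f) (i g) :=
  ⟨by rw [h.h0, h.h0, e.1, map_mul], by rw [h.h1, h.h1, e.2, map_mul]⟩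

/-- The image of a point. -/
def pt (h : Cm d d' i) (m : Pt d) : Pt d' where
  x := i m.x
  y := i m.y
  w := i m.w
  w0 := (_root_.map_ne_zero i).2 m.w0
  ny := by
    rw [h.h0, h.h1]
    exact m.ny.imp (_root_.map_ne_zero i).2 (_root_.map_ne_zero i).2
  tan := h.sl m.tan

lemma edge (h : Cm d d' i) {m m' : Pt d} {z l : Ω} (e : Edge m m' z l) :
    Edge (h.pt m) (h.pt m') (i z) (i l) where
  ex := by simpa [pt] using congrArg i e.ex
  ey := by simpa [pt] using congrArg i e.ey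
  z0 := (_root_.map_ne_zero i).2 e.z0
  l0 := (_root_.map_ne_zero i).2 e.l0
  g0 := fun k => e.g0 (i.injective (by simpa [pt] using k))
  g1 := fun k => e.g1 (i.injective (by simpa [pt] using k))
  nd := by
    change d'.J (i m.y) (i z) ≠ 0
    rw [h.J]
    exact (_root_.map_ne_zero i).2 e.nd

lemma ch (h : Cm d d' i) {m : ℕ → Pt d} {z l : ℕ → Ω} {n : ℕ} (e : Ch m z l n) :
    Ch (fun k => h.pt (m k)) (fun k => i (z k)) (fun k => i (l k)) n :=
  ⟨fun k hk => h.edge (e.e k hk), fun k hk => by simpa [pt] using congrArg i (e.r k hk)⟩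

end Cm

lemma y_tr [CharZero Ω] (m : Pt d) : m.y ∉ cl C (∅ : Set Ω) :=
  m.ny.elim (not_mem_cl fun _ h => h.elim) (not_mem_cl fun _ h => h.elim)

lemma tr_iff [CharZero Ω] (m : Pt d) :
    m.Tr ↔ AlgebraicIndependent C fun o : Option Unit => o.elim m.x fun _ => m.y := by
  rw [AlgebraicIndependent.option_iff, range_const, Pt.Tr, mem_cl]
  exact ⟨fun h => ⟨(indep_one (y_tr m)).restrictScalars (algebraMap C _).injective, h⟩,
    fun h => h.2⟩

variable {p : Prp} {P : Set Ω} {m : ℕ → Pt d} {z l : ℕ → Ω} {n : ℕ}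

lemma adm_mono (h : Adm p P m l (n + 1)) : Adm p P m l n :=
  ⟨h.pos, fun k hk => h.hl k (by omega), fun k hk => h.hp k (by omega)⟩

lemma adm_shift (h : Adm p P m l (n + 1)) :
    Adm p P (fun k => m (k + 1)) (fun k => l (k + 1)) n :=
  ⟨h.pos, fun k hk => h.hl (k + 1) (by omega), fun k hk => h.hp (k + 1) (by omega)⟩

/-- Transfer of closures and of independence. -/
structure Tf (d : Two C Ω) (d' : Two C' Ω') (i : Ω →ₐ[C] Ω') : Prop extends Cm d d' i where
  t1 : ∀ (S : Set Ω) (f : Ω), f ∈ cl C S → i f ∈ cl C' (i '' S)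
  t2 : ∀ (y : Ω) (ι : Type) (v : ι → Ω), (d.d0 y ≠ 0 ∨ d.d1 y ≠ 0) → (∀ j, d.J y (v j) = 0) →
    AlgebraicIndependent C v → AlgebraicIndependent C' (i ∘ v)

namespace Tf

variable [CharZero Ω] [CharZero Ω']

lemma tr (h : Tf d d' i) {q : Pt d} (ht : q.Tr) : (h.toCm.pt q).Tr := by
  rw [tr_iff] at ht ⊢
  have := h.t2 q.y _ _ q.ny (by rintro (_ | _) <;> simp [q.Jyx, Two.J_self]) ht
  convert this using 1
  ext (_ | _) <;> rfl

omit [CharZero Ω] [CharZero Ω'] in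
lemma alg (h : Tf d d' i) {q : Pt d} (ht : ¬q.Tr) : ¬(h.toCm.pt q).Tr := by
  have := h.t1 _ _ (not_not.1 ht)
  rw [image_singleton] at this
  exact not_not.2 this

lemma mem_H (h : Tf d d' i) {q : Pt d} {f : Ω} (hf : f ∈ q.H) : i f ∈ (h.toCm.pt q).H := by
  by_cases ht : q.Tr
  · rw [Pt.H_tr _ (h.tr ht)]
    change d'.br (i q.y) (i f) = 0
    rw [Two.br_apply, h.J, q.J_H hf, map_zero]
  · rw [Pt.H_alg _ (h.alg ht)]
    rw [Pt.H_alg _ ht] at hf
    simpa [Cm.pt] using h.t1 _ _ hf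

lemma mem_Inn (h : Tf d d' i) {f : Ω} (hf : f ∈ cl C (Inn m z (HS m) n ∪ HS m 0)) :
    i f ∈ cl C' (Inn (fun k => h.toCm.pt (m k)) (fun k => i (z k)) (HS fun k => h.toCm.pt (m k)) n ∪
      HS (fun k => h.toCm.pt (m k)) 0) := by
  refine cl_mono ?_ (h.t1 _ _ hf)
  rw [image_subset_iff]
  refine union_subset (Inn_subset ?_ ?_ fun k h0 h1 g hg => ?_) fun g hg => ?_
  · exact Or.inl (by rw [map_pow]; exact s0_mem)
  · refine Or.inl ?_
    rw [lc, map_sub, map_mul, map_pow]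
    exact c0_mem
  · exact Or.inl (sub_Inn (S := HS fun k => h.toCm.pt (m k)) h0 h1 (h.mem_H hg))
  · exact Or.inr (h.mem_H hg)

lemma adm [IsAlgClosed C] [Algebra C C'] [IsScalarTower C C' Ω'] (h : Tf d d' i) (hp : p.Ok)
    (ha : Adm p P m l n) : Adm p (i '' P) (fun k => h.toCm.pt (m k)) (fun k => i (l k)) n where
  pos := ⟨by
    rintro _ ⟨a, h1, rfl⟩ _ ⟨b, h2, rfl⟩
    exact ⟨a + b, ha.pos.add a h1 b h2, map_add i a b⟩, by
    rintro ⟨a, h1, h2⟩
    exact ha.pos.ne (((_root_.map_eq_zero i).1 h2) ▸ h1)⟩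
  hl := fun k hk => mem_image_of_mem _ (ha.hl k hk)
  hp := fun k hk ht =>
    have h1 : ¬(m k).Tr := fun e => ht (h.tr e)
    hp.ext C Ω C' Ω' i _ _ (not_not.1 h1) (y_tr (h.toCm.pt (m k))) (ha.hp k hk h1)

end Tf

/-- Dual derivations of an independent family preserving its closure. -/
lemma dual [CharZero Ω] {ι : Type} [Fintype ι] {v : ι → Ω} (hv : AlgebraicIndependent C v)
    {f : Ω} (hf : f ∈ cl C (range v)) :
    ∃ a : ι → Ω, (∀ o, a o ∈ cl C (range v)) ∧ ∀ θ : Der C Ω, θ f = ∑ o, a o * θ (v o) := by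
  classical
  choose e e1 _ e3 using fun o => ext_pres (M := cl C (range v)) (cl_cl _) ⊥ bot_le (indep_bot hv)
    (fun j => subset_cl _ ⟨j, rfl⟩) (θ := 0) (fun _ _ => zero_mem _)
    (a := fun j => if o = j then 1 else 0) fun j => by
      split_ifs
      · exact one_mem _
      · exact zero_mem _
  refine ⟨fun o => e o f, fun o => e1 o f hf, fun θ => ?_⟩
  have h : Agr (range v) θ (∑ o, θ (v o) • e o) := by
    rintro _ ⟨j, rfl⟩
    simp [sum_apply, e3]
  rw [h.cl f hf, sum_apply]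
  simp [mul_comm]

end Nf

open Nf in
theorem nf (p : Prp) (n : ℕ) : StmtBAS → StmtPV → StmtTRF → StmtNF2 → p.Ok → StmtD p n →
    StmtNF p n := by
  intro bas pv trf nf2 hp hD C Ω _ _ _ _ _ _ d m z l P hd hc ha ht hJ hy
  obtain ⟨r, b, b', hi, hx, hb⟩ := bas C Ω d m z l n hd hc ht hJ
    (hD C Ω d _ _ _ P hd hc.shift (adm_shift ha)) hy
  set v : Option (Fin r) → Ω := fun o => o.elim (m (n + 1)).y b with hv
  have hr : range v = insert (m (n + 1)).y (range b) := Option.range_eq v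
  have hJv : ∀ o, d.J (m (n + 1)).y (v o) = 0 := by
    rintro (_ | j)
    · exact d.J_self _
    · exact (hb j).1
  choose a a1 a2 using fun j => dual hi (f := b' j) (hr ▸ (hb j).2.2.1)
  obtain ⟨C', Ω', _, _, _, _, _, _, _, _, _, d', i, u, hd', big, h0, h1, hu, hs⟩ :=
    pv C Ω d (m (n + 1)).y (Fin r) (fun j k => a j (some k)) hd (m (n + 1)).ny fun j k => by
      rw [← Two.br_apply]
      refine kill_cl ?_ (a1 j (some k))
      rintro _ ⟨o, rfl⟩
      rw [Two.br_apply, hJv]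
  obtain ⟨t1, t2, t3⟩ := trf C Ω C' Ω' d d' i hd h0 h1
  have h : Tf d d' i := ⟨⟨h0, h1⟩, t1, t2⟩
  have hc' := h.toCm.ch hc
  have ha' := h.adm hp ha
  have him : ∀ f ∈ cl C (insert (m (n + 1)).y (range b)),
      i f ∈ cl C' (insert (i (m (n + 1)).y) (range fun j => i (b j))) := fun f hf => by
    have := t1 _ _ hf
    rwa [image_insert_eq, ← range_comp] at this
  refine nf2 C' Ω' d' _ _ _ n r (fun j => i (b j)) (fun j => i (b' j)) (fun j => i (a j none))
    (Matrix.of fun j k => i (a j (some k))) u hd' big hc' (h.tr ht) ?_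
    (hD C' Ω' d' _ _ _ _ hd' (hc'.mono n.le_succ) (adm_mono ha'))
    (hD C' Ω' d' _ _ _ _ hd' hc'.shift (adm_shift ha')) (h.mem_Inn hy) ?_ (him _ hx)
    (fun j => ⟨?_, h.mem_Inn (hb j).2.1, him _ (hb j).2.2.1, h.sl (hb j).2.2.2⟩) (fun j θ => ?_)
    hu hs
  · change d'.J (i (m 0).y) (i (m (n + 1)).y) ≠ 0
    rw [h.J]
    exact (_root_.map_ne_zero i).2 hJ
  · convert t2 _ _ v (m (n + 1)).ny hJv hi using 1
    ext (_ | _) <;> rfl
  · change d'.J (i (m (n + 1)).y) (i (b j)) = 0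
    rw [h.J, (hb j).1, map_zero]
  · rw [t3 _ v (a j) (b' j) (hr ▸ (hb j).2.2.1) (a2 j) hi θ, Fintype.sum_option]
    rfl

end Pool.Agent.MP_249f74_an.H96
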