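import Pool.Agent.MP_249f74_an.H96.Chn

/-!
The non-focusing case in a large field.
-/

open Set IntermediateField

namespace Pool.Agent.MP_249f74_an.H96

open H17 (Der Two Kr mem_Kr kill_cl cl_le cl_mono)
open H88 (rk cl subset_cl)

namespace Nf2

variable {C Ω : Type} [Field C] [Field Ω] [Algebra C Ω]

lemma dd_smul (u : Ω) (α : Fm C Ω) (θ φ : Der C Ω) :
    dd (u • α) θ φ = θ u * α φ - φ u * α θ + u * dd α θ φ := by
  simp only [dd, LinearMap.smul_apply, smul_eq_mul, Derivation.leibniz]; ring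

lemma dd_sub_left (ω : Fm C Ω) (θ θ' φ : Der C Ω) :
    dd ω (θ - θ') φ = dd ω θ φ - dd ω θ' φ := by
  rw [eq_sub_iff_add_eq, ← dd_add_left, sub_add_cancel]

lemma fin_cl {ι : Type} [Finite ι] {S : Set Ω} {v : ι → Ω} (h : ∀ i, v i ∈ cl C S) :
    ∃ T ⊆ S, T.Finite ∧ ∀ i, v i ∈ cl C T := by
  choose T h1 h2 h3 using fun i => H17.exists_finite_cl (h i)
  exact ⟨⋃ i, T i, iUnion_subset h1, finite_iUnion h2,
    fun i => cl_mono (subset_iUnion T i) (h3 i)⟩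

/-- The horizontal forms. -/
lemma forms [CharZero Ω] {d : Two C Ω} (q : Pt d) (hq : q.Tr) {r : ℕ} {b b' A0 : Fin r → Ω}
    {A u : Matrix (Fin r) (Fin r) Ω}
    (hi : AlgebraicIndependent C fun o : Option (Fin r) => o.elim q.y b)
    (hb : ∀ j, d.J q.y (b j) = 0 ∧ b' j ∈ cl C (insert q.y (range b)) ∧ d.Sl q.y (b j) (b' j))
    (hA : ∀ j, ∀ θ : Der C Ω, θ (b' j) = A0 j * θ q.y + ∑ k, A j k * θ (b k)) (hu : u.det ≠ 0)
    (hs : ∀ k j, d.Sl q.y (u k j) (-∑ i, u k i * A i j)) :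
    ∃ ν : Fin r → Fm C Ω, (∀ k, Van (ν k) (insert q.y (range b))) ∧ (∀ k Z, d.Tn Z → ν k Z = 0) ∧
      (∀ k Z, d.Tn Z → ∀ θ, dd (ν k) Z θ = 0) ∧ (∀ k θ, q.Tan θ → ∀ φ, dd (ν k) θ φ = 0) ∧
      (∀ θ : Der C Ω, (∀ k, ν k θ = 0) → ∀ j, θ (b j) = θ q.y * b' j) ∧
      ∀ lam : Fin r → Ω, (∀ θ, ∑ k, lam k * ν k θ = 0) → lam = 0 := by
  classical
  let nf : Fin r → Fm C Ω := fun j => dif (b j) - b' j • dif q.y
  have e1 : ∀ j θ, nf j θ = θ (b j) - b' j * θ q.y := fun j θ => rfl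
  have e2 : ∀ j Z, d.Tn Z → nf j Z = 0 := fun j Z hZ => by rw [e1, hZ.sl (hb j).2.2]; ring
  have e3 : ∀ j Z, d.Tn Z → ∀ θ, dd (nf j) Z θ = Z q.y * ∑ k, A j k * nf k θ := fun j Z hZ θ => by
    have : dd (nf j) Z θ = θ (b' j) * Z q.y - Z (b' j) * θ q.y := by
      simp only [dd, e1, br_apply, map_sub, Derivation.leibniz, smul_eq_mul]; ring
    rw [this, hA, hA]
    simp only [e1, fun k => hZ.sl (hb k).2.2, mul_sub, Finset.sum_sub_distrib, Finset.mul_sum,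
      Finset.sum_mul, add_mul]
    rw [mul_right_comm, add_sub_add_left_eq_sub]
    congr 1 <;> exact Finset.sum_congr rfl fun _ _ => by ring
  let ν : Fin r → Fm C Ω := fun k => ∑ j, u k j • nf j
  have e4 : ∀ k θ, ν k θ = ∑ j, u k j * nf j θ := fun k θ => by simp [ν]
  have e5 : ∀ k Z, d.Tn Z → ∀ θ, dd (ν k) Z θ = 0 := fun k Z hZ θ => by
    simp only [ν, dd_sum, dd_smul, e2 _ Z hZ, e3 _ Z hZ, fun j => hZ.sl (hs k j), mul_zero,
      sub_zero, Finset.sum_add_distrib, mul_neg, neg_mul, Finset.sum_neg_distrib, Finset.mul_sum,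
      Finset.sum_mul]
    rw [Finset.sum_comm, neg_add_eq_zero]
    exact Finset.sum_congr rfl fun _ _ => Finset.sum_congr rfl fun _ _ => by ring
  have hL : cl C (insert q.y (range b)) ≤ q.H := by
    rw [← q.cl_H]
    refine cl_mono (insert_subset q.yH (range_subset_iff.2 fun j => ?_))
    rw [q.H_tr hq]; exact (hb j).1
  have hH : ∀ k j, u k j ∈ q.H := fun k j => by
    rw [q.H_tr hq, mem_Kr, Two.br_apply, Two.J_symm, (hs k j).J, Two.J_self, mul_zero, neg_zero]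
  refine ⟨ν, fun k θ hθ => ?_, fun k Z hZ => by simp [e4, e2 _ Z hZ], e5, fun k θ hθ φ => ?_,
    fun θ hθ j => ?_, fun lam h => ?_⟩
  · simp [e4, e1, hθ _ (mem_insert _ _), fun j => hθ (b j) (Or.inr ⟨j, rfl⟩)]
  · refine q.dd_tan (a := fun o : Option (Fin r) => o.elim (-∑ j, u k j * b' j) (u k))
      (b := fun o => o.elim q.y b) ?_ ?_ (fun θ => ?_) (e5 k) hθ φ
    · rintro (_ | j)
      · exact neg_mem (sum_mem fun j _ => mul_mem (hH k j) (hL (hb j).2.1))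
      · exact hH k j
    · rintro (_ | j)
      · exact q.yH
      · exact hL (subset_cl _ (Or.inr ⟨j, rfl⟩))
    · simp only [e4, e1, Fintype.sum_option, Option.elim, mul_sub, Finset.sum_sub_distrib,
        neg_mul, Finset.sum_mul, mul_assoc]
      ring
  · have := Matrix.eq_zero_of_mulVec_eq_zero hu (v := fun j => nf j θ)
      (funext fun k => (e4 k θ).symm.trans (hθ k))
    have h2 : nf j θ = 0 := congrFun this j
    rw [e1] at h2
    linear_combination h2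
  · refine Matrix.eq_zero_of_vecMul_eq_zero hu (funext fun j => ?_)
    obtain ⟨θ, -, hθ⟩ := ext_indep ⊥ (indep_bot hi) 0 fun o => if o = some j then 1 else 0
    have h1 : θ q.y = 0 := hθ none
    have h2 : ∀ i, θ (b i) = if i = j then 1 else 0 := fun i => by simpa using hθ (some i)
    simpa [e4, e1, h1, h2, Matrix.vecMul, dotProduct] using h θ

end Nf2

open Nf2 in
theorem nf2 (hSPL : StmtSPL) (hDBL : StmtDBL) (hPA : StmtPDEA) (hPB : StmtPDEB) : StmtNF2 := by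
  intro C Ω _ _ _ _ _ _ d m z l n r b b' A0 A u hd big h hq hJ D1 D2 hy hi hx hb hA hu hs
  classical
  obtain ⟨ν, n1, n2, n3, n4, n5, n6⟩ := forms (m (n + 1)) hq hi
    (fun j => ⟨(hb j).1, (hb j).2.2⟩) hA hu hs
  obtain ⟨T0, t1, t2, t3⟩ := fin_cl (v := fun o : Option (Fin r) => o.elim (m (n + 1)).y b)
    (by rintro (_ | j); exacts [hy, (hb j).2.1])
  let S : ℕ → Set Ω := fun i => T0 ∩ HS m i ∪ {(m i).x, (m i).y, (m i).w}
  have hS : ∀ i, (m i).Dat (S i) := fun i =>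
    ⟨union_subset inter_subset_right (by
      rintro _ (rfl | rfl | rfl); exacts [(m i).xH, (m i).yH, (m i).wH hd]),
      Or.inr (Or.inl rfl), Or.inr (Or.inr (Or.inl rfl)), Or.inr (Or.inr (Or.inr rfl))⟩
  have hf : ∀ i, (S i).Finite := fun i => (t2.subset inter_subset_left).union (toFinite _)
  have t4 : T0 ⊆ Inn m z S (n + 1) ∪ S 0 := fun f hf => by
    rcases t1 hf with (h1 | h1) | h1
    · exact Or.inl (Or.inl h1)
    · obtain ⟨i, hi, h1⟩ := mem_iUnion₂.1 h1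
      exact Or.inl (sub_Inn (S := S) hi.1 hi.2 (Or.inl ⟨hf, h1⟩))
    · exact Or.inr (Or.inl ⟨hf, h1⟩)
  have hI : Inn m z S (n + 1) ⊆ Inn m z (HS m) (n + 1) := Inn_mono fun i _ _ => (hS i).le
  choose ω w1 w2 using fun k => hSPL C Ω d (Fin (n + 1)) (fun i => m i) (fun i => S i) (ν k) hd
    (fun i => hf i) (fun i => (hS i).le)
    (fun t => (D1 fun i => if h : i < n + 1 then t ⟨i, h⟩ else 0).imp fun θ hθ i => by
      have := hθ i (by omega)
      rwa [dif_pos i.2] at this)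
    (fun θ hθ => by
      obtain ⟨Z, z1, z2⟩ := h.agr_Inn n.succ_pos (fun i _ _ => hS i) fun i _ hi => hθ ⟨i, hi⟩
      have z3 := h.kil_first n.succ_pos (hS 0) ((hθ 0).sub (tanS_tn z1)) (z2 _ s0_mem)
        (z2 _ c0_mem)
      have z4 := ((z2.union z3).mono t4).cl
      have := n1 k (θ - Z) (by rintro _ (rfl | ⟨j, rfl⟩); exacts [z4 _ (t3 none), z4 _ (t3 (some j))])
      rwa [map_sub, n2 k Z z1, sub_zero] at this) (n3 k)
  have w3 : ∀ k (i : Fin (n + 1)) θ, TanS d (S i) θ → ω k i θ = 0 := fun k i => (w2 k i).1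
  have w4 : ∀ k (i : Fin (n + 1)) θ, (m i).Tan θ → ∀ φ, dd (ω k i) θ φ = 0 := fun k i => (w2 k i).2.1
  let γ : Fin r → Fm C Ω := fun k => -∑ i : Fin n, ω k i.succ
  have g0 : ∀ k, ν k + -ω k 0 + γ k = 0 := fun k => by
    rw [← w1 k, Fin.sum_univ_succ]; simp [γ]
  have g1 : ∀ k θ, Kil (Inn m z (HS m) (n + 1)) θ → ∀ φ, dd (ν k) θ φ = dd (ω k 0) θ φ :=
    fun k θ hθ φ => by
      rw [← w1 k, dd_sum, Fin.sum_univ_succ, Finset.sum_eq_zero fun (i : Fin n) _ => w4 k i.succ θ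
        (hθ.mono (sub_Inn (S := HS m) (Nat.succ_pos i) i.succ.2)).tanS φ, add_zero]
  have sp : ∀ φ : Der C Ω, ∃ ψ, (m 0).Tan ψ ∧ (m (n + 1)).Tan (φ - ψ) := fun φ => by
    obtain ⟨ψ, p1, p2⟩ := (m 0).ind_H hd (m (n + 1)) hJ φ fun _ h => h.elim
    exact ⟨ψ, p1.tanS, (agr_iff.1 p2.symm).tanS⟩
  have c1 : ∀ k, Cls (ν k) := fun k θ φ => by
    obtain ⟨θ1, p1, p2⟩ := h.lift_last hd D2 0 θ
    obtain ⟨ψ, p3, p4⟩ := sp φ
    have e1 := n4 k _ p2 φ
    have e2 := n4 k _ p4 θ1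
    have e3 := g1 k θ1 p1 ψ
    rw [dd_sub_left] at e1 e2
    rw [dd_swap (ω k 0), w4 k 0 ψ p3, dd_swap] at e3
    rw [dd_swap] at e2
    linear_combination -e1 - e2 + e3
  have c2 : ∀ k, Cls (γ k) := fun k θ φ => by
    obtain ⟨θ1, p1, p2⟩ := h.lift_first hd D1 0 θ
    have e1 := w4 k 0 _ p2 φ
    have e2 := congrArg (dd · θ φ) (g0 k)
    rw [dd_sub_left, ← g1 k θ1 p1, c1] at e1
    simp only [dd_add, dd_neg, c1 k θ φ] at e2
    rw [show dd (0 : Fm C Ω) θ φ = 0 by simp [dd]] at e2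
    linear_combination e2 - e1
  have hL : insert (m (n + 1)).y (range b) ⊆ HS m (n + 1) :=
    insert_subset (m _).yH (range_subset_iff.2 fun j => by
      rw [HS, (m _).H_tr hq]; exact (hb j).1)
  have n7 : ∀ k θ, (m (n + 1)).Tan θ → ν k θ = 0 := fun k θ ⟨Z, z1, z2⟩ => by
    rw [(n1 k).agr (z2.mono hL), n2 k Z z1]
  have fin : ∀ lam : Fin r → Ω, (∀ θ, ∑ k, lam k * γ k θ = 0) → lam = 0 := fun lam hl =>
    n6 lam fun θ => by
      obtain ⟨ψ, p1, p2⟩ := sp θ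
      have e : ∀ k, ν k θ = -γ k ψ := fun k => by
        have e1 := n7 k _ p2
        have e2 := LinearMap.congr_fun (g0 k) ψ
        rw [map_sub] at e1
        simp only [LinearMap.add_apply, LinearMap.neg_apply, w3 k 0 ψ (p1.mono (hS 0).le),
          LinearMap.zero_apply] at e2
        linear_combination e1 + e2
      simp [e, hl]
  have hr : Nonempty (Fin r) := by
    by_contra hn
    have := not_nonempty_iff.1 hn
    rw [range_eq_empty, insert_empty_eq] at hx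
    exact hq hx
  by_cases ha : ∀ i, 0 < i → i ≤ n → ¬(m i).Tr
  · obtain ⟨k⟩ := hr
    refine one_ne_zero (congrFun (fin (fun _ => 1) fun θ => Finset.sum_eq_zero fun k _ => ?_) k)
    simp only [γ, LinearMap.neg_apply, LinearMap.sum_apply]
    rw [Finset.sum_eq_zero fun (i : Fin n) _ => w3 k i.succ θ
      (((m _).tan_alg (ha _ (Nat.succ_pos i) i.2) θ).mono (hS _).le), neg_zero, mul_zero]
  obtain ⟨j, j1, j2, j3⟩ : ∃ j, j < n ∧ (m (j + 1)).Tr ∧ ∀ i, j + 1 < i → i ≤ n → ¬(m i).Tr := by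
    push Not at ha
    obtain ⟨i, i1, i2, i3⟩ := ha
    have h1 := Nat.findGreatest_spec (P := fun i => 0 < i ∧ (m i).Tr) i2 ⟨i1, i3⟩
    have h2 := Nat.findGreatest_le (P := fun i => 0 < i ∧ (m i).Tr) n
    obtain ⟨j, hj⟩ := Nat.exists_eq_succ_of_ne_zero h1.1.ne'
    rw [hj] at h1 h2
    exact ⟨j, h2, h1.2, fun k k1 k2 k3 => Nat.findGreatest_is_greatest
      (P := fun i => 0 < i ∧ (m i).Tr) (hj ▸ k1) k2 ⟨by omega, k3⟩⟩
  obtain ⟨Z, z1, z2⟩ := (m (n + 1)).exists_one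
  have ka := fun θ : Der C Ω => h.kil_alg (θ := θ) hd (j := j + 1) (k := n) j1 n.lt_succ_self j3
  have k1 := fun i hi => h.line_mem (fun i _ _ => hS i) (i := i) hi
  have k2 : z n ^ 2 ∈ cl C {z (j + 1) ^ 2, lc m z (j + 1)} ∧
      lc m z n ∈ cl C {z (j + 1) ^ 2, lc m z (j + 1)} :=
    ⟨mem_cl_of_kil fun θ hθ => ((ka θ).1 ⟨hθ _ (Or.inl rfl), hθ _ (Or.inr rfl)⟩).1,
      mem_cl_of_kil fun θ hθ => ((ka θ).1 ⟨hθ _ (Or.inl rfl), hθ _ (Or.inr rfl)⟩).2⟩
  have hK : Kil (cl C (insert (m (n + 1)).y (range b)) : Set Ω) (d.br (m (n + 1)).y) :=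
    Kil.cl fun f hf => (m _).J_H (hL hf)
  obtain ⟨κ1, a1, κ2, a2, lam, a3, a4⟩ := hDBL C Ω (Inn m z S (n + 1)) (S 0)
    (insert (m (n + 1)).y (range b)) (z 0 ^ 2) (lc m z 0) (z (j + 1) ^ 2) (lc m z (j + 1))
    (z n ^ 2) (lc m z n) (m (n + 1)).x (m (n + 1)).y Z (Fin r) ν (fun k => -ω k 0) γ big
    (Inn_finite hf) (hf 0) (toFinite _) (subset_cl _ s0_mem) (subset_cl _ c0_mem)
    (k1 _ (by omega)).2.1 (k1 _ (by omega)).2.2 k2.1 k2.2
    (mem_cl_of_kil fun θ hθ => ((ka θ).2 ⟨hθ _ (Or.inl rfl), hθ _ (Or.inr rfl)⟩).1)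
    (mem_cl_of_kil fun θ hθ => ((ka θ).2 ⟨hθ _ (Or.inl rfl), hθ _ (Or.inr rfl)⟩).2) hx
    (subset_cl _ (mem_insert _ _)) (by rw [h.lc_eq n.lt_succ_self]; ring)
    (pres_cl (by
      rintro _ (rfl | ⟨i, rfl⟩)
      · rw [z2]; exact one_mem _
      · rw [z1.sl (hb i).2.2.2, z2, one_mul]; exact (hb i).2.2.1))
    z2 (by rw [(m _).dx z1, z2, one_mul]; exact (h.e n n.lt_succ_self).g1)
    (fun f hf h0 => (m _).const hd z1 (z2 ▸ one_ne_zero) (hK f hf) h0)
    (fun ht => (h.e n n.lt_succ_self).nds' (hK _ ht))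
    (fun hy => h.last_tr hd D2 hq (cl_mono hI hy)) c1 c2 g0 n1
    (fun k θ hθ => by rw [LinearMap.neg_apply, w3 k 0 θ hθ.tanS, neg_zero])
    (fun k θ hθ => by
      simp only [γ, LinearMap.neg_apply, LinearMap.sum_apply]
      rw [Finset.sum_eq_zero fun (i : Fin n) _ => w3 k i.succ θ
        (hθ.mono (sub_Inn (S := S) (Nat.succ_pos i) i.succ.2)).tanS, neg_zero])
    (fun k => n2 k Z z1)
    (fun θ hθ => by
      rintro _ (rfl | ⟨i, rfl⟩)
      · simp [z2]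
      · simp [n5 θ hθ, z1.sl (hb i).2.2.2, z2])
    ((h.ind_first hd D1).mono (hS 0).le hI)
    (((h.ind_last hd D2).mono hL hI).base (insert_subset k2.1 (singleton_subset_iff.2 k2.2)))
    (by
      by_contra hn
      push Not at hn
      obtain ⟨k⟩ := hr
      exact one_ne_zero (congrFun (n6 (fun _ => 1) fun θ => by simp [hn]) k))
  let jj : Fin n := ⟨j, j1⟩
  let α : Fm C Ω := -∑ k, algebraMap C Ω (lam k) • ω k jj.succ
  have e0 : ∀ θ, α θ = -∑ k, algebraMap C Ω (lam k) * ω k jj.succ θ := fun θ => by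
    simp only [α, LinearMap.neg_apply, LinearMap.sum_apply, LinearMap.smul_apply, smul_eq_mul]
  have hP : Pde (m (j + 1)) (z (j + 1) ^ 2) κ1 κ2 α := by
    refine ⟨j2, (h.e (j + 1) (by omega)).nds, a1, a2, ?_, fun Z hZ => ?_, fun θ h1 h2 => ?_⟩
    · obtain ⟨N, a, c, p1, p2, p3⟩ := Van.rep (ω := α) (S := S (j + 1))
        (fun θ hθ => by simp [e0, w3 _ jj.succ θ hθ.tanS]) (hf _)
      refine ⟨N, a, c, fun i => ?_, fun i => (hS _).le (p1 i), p2⟩
      rw [(m _).H_tr j2]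
      refine p3 _ (fun f hf => (m _).J_H ((hS _).le hf)) (fun θ => ?_) i
      simp only [α, dd_neg, dd_sum, dd_smul, w4 _ jj.succ _ (tanS_tn (Two.tn_br _)),
        Derivation.map_algebraMap, zero_mul, mul_zero, sub_zero, add_zero, Finset.sum_const_zero,
        neg_zero]
    · simp [e0, w3 _ jj.succ Z (tanS_tn hZ)]
    · have h' := h.mono (k := j + 1) (by omega)
      obtain ⟨φ, p1, p2⟩ := h'.lift_last hd (D1.mono j1).shift 0 θ
      rw [← h.sq_eq (by omega)] at h1 h2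
      rw [← h.lc_eq (by omega)] at h2
      have k3 := h'.line_mem_H hd j.lt_succ_self
      have p3 := (h.kil_step (i := j) (by omega) ((m _).dat_H hd) p2).1
        ⟨by rw [Derivation.sub_apply, p1.cl _ k3.2.1, h1]; simp,
          by rw [Derivation.sub_apply, p1.cl _ k3.2.2, h2]; simp⟩
      simp only [Derivation.sub_apply, sub_eq_zero] at p3
      have p4 := a4 φ (p1 _ s0_mem) (p1 _ c0_mem)
      rw [p3.1, p3.2] at p4
      refine p4.trans ?_
      rw [e0, ← Finset.sum_neg_distrib]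
      refine Finset.sum_congr rfl fun k _ => ?_
      simp only [γ, LinearMap.neg_apply, LinearMap.sum_apply]
      rw [Finset.sum_eq_single jj (fun i _ hi => w3 k i.succ φ ?_) (by simp), mul_neg, neg_inj]
      · have := w3 k jj.succ _ (p2.mono (hS _).le)
        rw [map_sub, sub_eq_zero] at this
        rw [this]
      · rcases lt_or_gt_of_ne (show (i : ℕ) ≠ j from fun e => hi (Fin.ext e)) with e | e
        · exact Kil.tanS fun f hf => p1 f
            (sub_Inn (S := HS m) (Nat.succ_pos i) (Nat.succ_lt_succ e) ((hS _).le hf))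
        · exact ((m _).tan_alg (j3 _ (Nat.succ_lt_succ e) i.2) φ).mono (hS _).le
  have hκ : κ1 = 0 ∧ κ2 = 0 := by
    by_cases hw : (m (j + 1)).w ∈ cl C {(m (j + 1)).x, (m (j + 1)).y}
    exacts [hPB C Ω d _ _ _ _ α hd hP hw, hPA C Ω d _ _ _ _ α hd hP hw]
  simp only [hκ.1, hκ.2, ne_eq, not_true, false_or, zero_mul, add_zero] at a3 a4
  refine a3 (funext fun k => (algebraMap C Ω).injective ?_)
  rw [Pi.zero_apply, map_zero]
  refine congrFun (fin (fun k => algebraMap C Ω (lam k)) fun θ => ?_) k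
  obtain ⟨Z', p1, p2, p3⟩ := exists_tn (h.Jsc n.succ_pos) (θ (z 0 ^ 2)) (θ (lc m z 0))
  rw [a4 (θ - Z') (by rw [Derivation.sub_apply, p2, sub_self])
    (by rw [Derivation.sub_apply, p3, sub_self])]
  refine Finset.sum_congr rfl fun k _ => ?_
  simp [γ, fun i => w3 k i Z' (tanS_tn p1)]

end Pool.Agent.MP_249f74_an.H96
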