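import Pool.Agent.MP_249f74_an.H96.Spec

/-!
The equation at a transcendental mirror of order at least two.
-/

open Set IntermediateField

namespace Pool.Agent.MP_249f74_an.H96

open H17 (Der Two Kr)
open H88 (cl subset_cl)

namespace PdeA

variable {C Ω : Type} [Field C] [Field Ω] [CharZero Ω] [Algebra C Ω] {d : Two C Ω} {m : Pt d}
  {t κ1 κ2 : Ω} {ω : Fm C Ω}

lemma tH (h : Pde m t κ1 κ2 ω) : t ∉ cl C (m.H : Set Ω) := fun h1 =>
  h.nd (m.J_H (m.cl_H ▸ h1))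

/-- The basic relation for derivations that fix the reflected line. -/
lemma star (hd : Amb d) (h : Pde m t κ1 κ2 ω) (τ : Der C Ω) (hτ : t * τ m.x = m.w ^ 2 * τ m.y) :
    m.w * t * ω τ = 2 * t ^ 2 * (κ1 - m.y * κ2) * τ m.w + m.w * κ2 * (m.w ^ 2 - t ^ 2) * τ m.y := by
  have t0 : t ≠ 0 := fun e => tH h (e ▸ zero_mem _)
  have w0 := m.w0
  obtain ⟨θ, h1, h2⟩ := ext_one (tH h) τ (2 * t * τ m.w / m.w)
  rw [m.cl_H] at h1
  obtain ⟨n, a, b, -, hb, hω⟩ := h.rep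
  have h3 : θ (m.w ^ 2 / t) = 0 := by
    rw [Derivation.leibniz_div, Derivation.leibniz_pow, h2, h1 _ (m.wH hd)]
    simp only [smul_eq_mul, nsmul_eq_mul]
    field_simp
    ring
  have h4 := h.rel θ h3 (by
    rw [map_sub, Derivation.leibniz, h3, h1 _ m.xH, h1 _ m.yH]
    simp only [smul_eq_mul]
    field_simp
    linear_combination hτ)
  rw [map_sub, Derivation.leibniz, h2, h1 _ m.xH, h1 _ m.yH, hω,
    Finset.sum_congr rfl fun j _ => by rw [h1 _ (hb j)], ← hω] at h4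
  simp only [smul_eq_mul] at h4
  rw [← h4]
  field_simp
  linear_combination m.w * κ2 * hτ

omit [CharZero Ω] in
lemma mem (h : Pde m t κ1 κ2 ω) {τ : Der C Ω} (hτ : Pres m.H τ) : ω τ ∈ m.H := by
  obtain ⟨n, a, b, ha, hb, hω⟩ := h.rep
  rw [hω]
  exact sum_mem fun j _ => mul_mem (ha j) (hτ _ (hb j))

end PdeA

open PdeA in
theorem pdea : StmtPDEA := by
  intro C Ω _ _ _ _ d m t κ1 κ2 ω hd h hw
  have t0 : t ≠ 0 := fun e => tH h (e ▸ zero_mem _)
  have w0 := m.w0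
  have wH := m.wH hd
  obtain ⟨Z, hZ, Zy⟩ := m.exists_one
  have Zp := m.pres_H hd hZ (Zy ▸ one_mem _)
  have Zw : Z m.w ≠ 0 := fun e =>
    hw (bot_le (a := cl C {m.x, m.y}) (m.const hd hZ (Zy ▸ one_ne_zero) (m.Jyw hd) e))
  obtain ⟨T, Tp, Tk, Tw⟩ := sep_pres m.cl_H (insert_subset m.xH (singleton_subset_iff.2 m.yH)) wH hw
  have Tx := Tk m.x (by simp)
  have Ty := Tk m.y (by simp)
  obtain ⟨P, Pp, Pk, Px⟩ := sep_pres m.cl_H (singleton_subset_iff.2 m.yH) m.xH h.tr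
  have Py := Pk m.y rfl
  have e1 := star hd h T (by simp [Tx, Ty])
  have e2 := star hd h (t • Z + (m.w ^ 2 - t * m.w) • P -
      (t * Z m.w + (m.w ^ 2 - t * m.w) * P m.w) • T) (by simp [Tx, Ty, Px, Py, Zy, m.dx hZ]; ring)
  simp only [map_sub, map_add, map_smul, h.bas Z hZ, smul_eq_mul, Derivation.sub_apply,
    Derivation.add_apply, Derivation.smul_apply, Tw, Ty, Py, Zy] at e1 e2
  set g1 := ω P - P m.w * ω T with hg1
  set g2 := -(m.w * g1) - Z m.w * ω T with hg2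
  have g1H : g1 ∈ m.H := sub_mem (mem h Pp) (mul_mem (Pp _ wH) (mem h Tp))
  have g2H : g2 ∈ m.H := sub_mem (neg_mem (mul_mem wH g1H)) (mul_mem (Zp _ wH) (mem h Tp))
  have e3 : m.w ^ 2 * g1 + t * g2 = κ2 * (m.w ^ 2 - t ^ 2) :=
    mul_left_cancel₀ (mul_ne_zero w0 t0) (by rw [hg2, hg1]; linear_combination e2)
  obtain ⟨θ, h1, h2⟩ := ext_one (tH h) T 0
  rw [m.cl_H] at h1
  have h3 : θ κ2 = 0 := Kil.cl (S := {t, m.x - t * m.y}) (by
    rintro f (rfl | rfl)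
    · exact h2
    · simp [h2, h1 _ m.xH, h1 _ m.yH, Tx, Ty]) _ h.k2
  have e4 := congrArg θ e3
  simp only [map_add, map_sub, Derivation.leibniz, Derivation.leibniz_pow, h2, h3, h1 _ wH,
    h1 _ g1H, h1 _ g2H, Tw, smul_eq_mul, nsmul_eq_mul] at e4
  have AH : 2 * m.w * g1 + m.w ^ 2 * T g1 ∈ m.H :=
    add_mem (mul_mem (mul_mem (ofNat_mem _ 2) wH) g1H) (mul_mem (pow_mem wH 2) (Tp _ g1H))
  have e5 := coef_zero (tH h) ![(2 * m.w * g1 + m.w ^ 2 * T g1) * m.w ^ 2 - 2 * m.w ^ 3 * g1,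
    T g2 * m.w ^ 2 - 2 * m.w * g2, -(2 * m.w * g1 + m.w ^ 2 * T g1), -T g2] (fun i => by
      fin_cases i
      · exact sub_mem (mul_mem AH (pow_mem wH 2))
          (mul_mem (mul_mem (ofNat_mem _ 2) (pow_mem wH 3)) g1H)
      · exact sub_mem (mul_mem (Tp _ g2H) (pow_mem wH 2))
          (mul_mem (mul_mem (ofNat_mem _ 2) wH) g2H)
      · exact neg_mem AH
      · exact neg_mem (Tp _ g2H)) (by
      simp only [Fin.sum_univ_four, Matrix.cons_val, Fin.val_zero, Fin.val_one, Fin.val_two,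
        show ((3 : Fin 4) : ℕ) = 3 from rfl]
      push_cast at e4
      linear_combination (m.w ^ 2 - t ^ 2) * e4 - 2 * m.w * e3)
  have c0 := e5 0
  have c1 := e5 1
  have c2 := e5 2
  have c3 := e5 3
  simp only [Matrix.cons_val] at c0 c1 c2 c3
  have z1 : g1 = 0 := mul_left_cancel₀ (mul_ne_zero two_ne_zero (pow_ne_zero 3 w0))
    (by linear_combination -c0 - m.w ^ 2 * c2)
  have z2 : g2 = 0 := mul_left_cancel₀ (mul_ne_zero two_ne_zero w0)
    (by linear_combination -c1 - m.w ^ 2 * c3)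
  have z3 : κ2 = 0 := by
    refine (mul_eq_zero.1 (show κ2 * (m.w ^ 2 - t ^ 2) = 0 by rw [← e3, z1, z2]; ring)).resolve_right
      fun e => tH h ?_
    rw [m.cl_H]
    obtain e | e := sq_eq_sq_iff_eq_or_eq_neg.1 (sub_eq_zero.1 e).symm
    · exact e ▸ wH
    · exact e ▸ neg_mem wH
  have z4 : ω T = 0 := mul_left_cancel₀ Zw (by linear_combination hg2 - z2 - m.w * z1)
  refine ⟨mul_left_cancel₀ (mul_ne_zero two_ne_zero (pow_ne_zero 2 t0)) ?_, z3⟩
  rw [z4, z3] at e1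
  linear_combination -e1

end Pool.Agent.MP_249f74_an.H96
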