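import Pool.Agent.MP_249f74_an.H96.PdeA

/-!
The equation at a transcendental leaf of an algebraic foliation of the plane.
-/

open Set IntermediateField

namespace Pool.Agent.MP_249f74_an.H96

open H17 (Der Two Kr)
open H88 (cl subset_cl)

namespace PdeB

variable {C Ω : Type} [Field C] [Field Ω] [CharZero Ω] [Algebra C Ω]

/-- Polynomials with coefficients in `F`. -/
noncomputable def PF (F : IntermediateField C Ω) : Subring (Polynomial Ω) :=
  Polynomial.liftsRing (algebraMap F Ω)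

omit [CharZero Ω] in
lemma coeff_mem {F : IntermediateField C Ω} {p : Polynomial Ω} (h : p ∈ PF F) (i : ℕ) :
    p.coeff i ∈ F := by
  obtain ⟨a, ha⟩ :=
    (Polynomial.lifts_iff_coeff_lifts p).1 ((Polynomial.lifts_iff_liftsRing _ p).2 h) i
  exact ha ▸ a.2

omit [CharZero Ω] in
lemma C_mem {F : IntermediateField C Ω} {a : Ω} (h : a ∈ F) : Polynomial.C a ∈ PF F :=
  (Polynomial.lifts_iff_liftsRing _ _).1 (Polynomial.C'_mem_lifts ⟨⟨a, h⟩, rfl⟩)

omit [CharZero Ω] in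
lemma X_mem (F : IntermediateField C Ω) : (Polynomial.X : Polynomial Ω) ∈ PF F :=
  (Polynomial.lifts_iff_liftsRing _ _).1 (Polynomial.X_mem_lifts _)

/-- The polynomial `Q f + T * P f`. -/
noncomputable def D (P Q : Der C Ω) (f : Ω) : Polynomial Ω :=
  Polynomial.C (Q f) + Polynomial.X * Polynomial.C (P f)

omit [CharZero Ω] in
lemma D_mem {F : IntermediateField C Ω} {P Q : Der C Ω} (Pp : Pres F P) (Qp : Pres F Q) {f : Ω}
    (h : f ∈ F) : D P Q f ∈ PF F :=
  add_mem (C_mem (Qp f h)) (mul_mem (X_mem F) (C_mem (Pp f h)))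

omit [CharZero Ω] in
lemma D_eval (P Q : Der C Ω) (f s : Ω) : (D P Q f).eval s = Q f + s * P f := by
  simp [D]; ring

/-- The residue vanishes. -/
lemma g_zero (hp : StmtPOLE) {F : IntermediateField C Ω} {P Q X : Der C Ω} {t w N W A B g : Ω}
    (Pp : Pres F P) (Qp : Pres F Q) (ht : t ∉ cl C (F : Set Ω))
    (hX : ∀ f ∈ F, X f = Q f + t * P f) (Xt : X t = 0) (wF : w ∈ F) (AF : A ∈ F) (BF : B ∈ F)
    (gF : g ∈ F) (w0 : w ≠ 0) (hA : Q w = w * A) (hB : P w = w * B) (hZ : A + w * B ≠ 0)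
    (XN : X N = 0) (XW : X W = -N)
    (e : 2 * t * (t * A + w ^ 2 * B) * W = g * w * (w - t) - N * (w ^ 2 - t ^ 2)) : g = 0 := by
  have e1 := congrArg X e
  simp only [map_add, map_sub, Derivation.leibniz, Derivation.leibniz_pow, Xt, XN, XW, hX w wF,
    hX A AF, hX B BF, hX g gF, hA, hB, smul_eq_mul, nsmul_eq_mul,
    show X 2 = 0 by simpa using X.map_natCast 2] at e1
  let T : Polynomial Ω := Polynomial.X
  let c : Ω → Polynomial Ω := fun a => Polynomial.C a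
  let q := c 2 * T * (T * c A + c w ^ 2 * c B)
  let q' := c 2 * T * (T * D P Q A + c 2 * c w * D P Q w * c B + c w ^ 2 * D P Q B)
  have TF : T ∈ PF F := X_mem F
  have c2 : c 2 ∈ PF F := C_mem (ofNat_mem _ 2)
  have cw : c w ∈ PF F := C_mem wF
  have cB : c B ∈ PF F := C_mem BF
  have cg : c g ∈ PF F := C_mem gF
  have dw := D_mem Pp Qp wF
  have qF : q ∈ PF F :=
    mul_mem (mul_mem c2 TF) (add_mem (mul_mem TF (C_mem AF)) (mul_mem (pow_mem cw 2) cB))
  have q'F : q' ∈ PF F :=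
    mul_mem (mul_mem c2 TF) (add_mem (add_mem (mul_mem TF (D_mem Pp Qp AF))
      (mul_mem (mul_mem (mul_mem c2 cw) dw) cB)) (mul_mem (pow_mem cw 2) (D_mem Pp Qp BF)))
  have h := hp C Ω F P Q X t w N (q * (c 2 * c w * D P Q w) - (c w ^ 2 - T ^ 2) * q' - q ^ 2)
    (q * (D P Q g * c w * (c w - T) + c g * D P Q w * (c 2 * c w - T)) - c g * c w * (c w - T) * q')
    Pp Qp ht hX Xt wF (by
      rw [hA, hB, show w * A + w * (w * B) = w * (A + w * B) by ring]; exact mul_ne_zero w0 hZ)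
    (coeff_mem (sub_mem (sub_mem (mul_mem qF (mul_mem (mul_mem c2 cw) dw))
      (mul_mem (sub_mem (pow_mem cw 2) (pow_mem TF 2)) q'F)) (pow_mem qF 2)))
    (coeff_mem (sub_mem (mul_mem qF (add_mem
      (mul_mem (mul_mem (D_mem Pp Qp gF) cw) (sub_mem cw TF))
      (mul_mem (mul_mem cg dw) (sub_mem (mul_mem c2 cw) TF))))
      (mul_mem (mul_mem (mul_mem cg cw) (sub_mem cw TF)) q'F))) XN (by
      simp only [q, q', c, T, Polynomial.eval_sub, Polynomial.eval_mul, Polynomial.eval_add,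
        Polynomial.eval_pow, Polynomial.eval_C, Polynomial.eval_X, D_eval, hA, hB]
      push_cast at e1
      linear_combination (2 * t * (t * A + w ^ 2 * B)) * e1 - (2 * t * (t * (Q A + t * P A) +
        2 * w * (w * A + t * (w * B)) * B + w ^ 2 * (Q B + t * P B))) * e) (by
      simp only [q, q', c, T, Polynomial.eval_sub, Polynomial.eval_mul, Polynomial.eval_add,
        Polynomial.eval_pow, Polynomial.eval_C, Polynomial.eval_X, D_eval, hA, hB]
      ring)
  simp only [q, q', c, T, Polynomial.eval_sub, Polynomial.eval_mul, Polynomial.eval_add,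
    Polynomial.eval_pow, Polynomial.eval_C, Polynomial.eval_X, D_eval, hA, hB] at h
  exact mul_left_cancel₀ (mul_ne_zero (mul_ne_zero two_ne_zero (pow_ne_zero 4 w0))
    (pow_ne_zero 2 hZ)) (by linear_combination h)

/-- The equations of the confocal foliation. -/
lemma coefs {F : IntermediateField C Ω} {P Q X : Der C Ω} {t w N W A B : Ω}
    (Pp : Pres F P) (Qp : Pres F Q) (ht : t ∉ cl C (F : Set Ω))
    (hX : ∀ f ∈ F, X f = Q f + t * P f) (Xt : X t = 0) (wF : w ∈ F) (AF : A ∈ F) (BF : B ∈ F)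
    (w0 : w ≠ 0) (hA : Q w = w * A) (hB : P w = w * B) (XN : X N = 0) (XW : X W = -N) (N0 : N ≠ 0)
    (e : 2 * t * (t * A + w ^ 2 * B) * W = -(N * (w ^ 2 - t ^ 2))) :
    P A = 0 ∧ Q B = 0 ∧ Q A + 2 * w ^ 2 * B ^ 2 + w ^ 2 * P B = 2 * A ^ 2 := by
  have t0 : t ≠ 0 := fun e => ht (e ▸ zero_mem _)
  have e1 := congrArg X e
  simp only [map_add, map_sub, map_neg, Derivation.leibniz, Derivation.leibniz_pow, Xt, XN, XW,
    hX w wF, hX A AF, hX B BF, hA, hB, smul_eq_mul, nsmul_eq_mul,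
    show X 2 = 0 by simpa using X.map_natCast 2] at e1
  have w2 := pow_mem wF 2
  have EF : Q A + 2 * w ^ 2 * B ^ 2 + w ^ 2 * P B - 2 * A ^ 2 ∈ F :=
    sub_mem (add_mem (add_mem (Qp A AF) (mul_mem (mul_mem (ofNat_mem _ 2) w2) (pow_mem BF 2)))
      (mul_mem w2 (Pp B BF))) (mul_mem (ofNat_mem _ 2) (pow_mem AF 2))
  have e5 := coef_zero ht ![-(w ^ 4 * Q B),
    -(w ^ 2 * (Q A + 2 * w ^ 2 * B ^ 2 + w ^ 2 * P B - 2 * A ^ 2)), w ^ 2 * (Q B - P A),
    Q A + 2 * w ^ 2 * B ^ 2 + w ^ 2 * P B - 2 * A ^ 2, P A] (fun i => by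
      fin_cases i
      · exact neg_mem (mul_mem (pow_mem wF 4) (Qp B BF))
      · exact neg_mem (mul_mem w2 EF)
      · exact mul_mem w2 (sub_mem (Qp B BF) (Pp A AF))
      · exact EF
      · exact Pp A AF) (by
      simp only [Fin.sum_univ_five, Matrix.cons_val, Fin.val_zero, Fin.val_one, Fin.val_two,
        show ((3 : Fin 5) : ℕ) = 3 from rfl, show ((4 : Fin 5) : ℕ) = 4 from rfl]
      push_cast at e1
      refine mul_left_cancel₀ (mul_ne_zero (mul_ne_zero two_ne_zero t0) N0) ?_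
      linear_combination (2 * t * (t * A + w ^ 2 * B)) * e1 - (2 * t * (t * (Q A + t * P A) +
        2 * w * (w * A + t * (w * B)) * B + w ^ 2 * (Q B + t * P B))) * e)
  have c0 := e5 0
  have c3 := e5 3
  have c4 := e5 4
  simp only [Matrix.cons_val] at c0 c3 c4
  exact ⟨c4, (mul_eq_zero.1 (neg_eq_zero.1 c0)).resolve_left (pow_ne_zero 4 w0), sub_eq_zero.1 c3⟩

end PdeB

open PdeA PdeB in
theorem pdeb : StmtPOLE → StmtCONIC → StmtPDEB := by
  intro hp hc C Ω _ _ _ _ d m t κ1 κ2 ω hd h hw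
  have t0 : t ≠ 0 := fun e => tH h (e ▸ zero_mem _)
  have w0 := m.w0
  have wH := m.wH hd
  obtain ⟨Z, hZ, Zy⟩ := m.exists_one
  have Zy0 : Z m.y ≠ 0 := Zy ▸ one_ne_zero
  have Zx : Z m.x = m.w := by rw [m.dx hZ, Zy, one_mul]
  have Zp := m.pres_H hd hZ (Zy ▸ one_mem _)
  have Zw : Z m.w ≠ 0 := fun e => h.tr (by
    have h1 : m.w ∈ cl C {m.y} := bot_le (a := cl C {m.y}) (m.const hd hZ Zy0 (m.Jyw hd) e)
    have h2 : m.x - m.w * m.y ∈ cl C {m.y} := bot_le (a := cl C {m.y}) (m.const hd hZ Zy0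
      (m.J_H (sub_mem m.xH (mul_mem wH m.yH))) (by simp [Zx, Zy, e]))
    simpa using add_mem h2 (mul_mem h1 (subset_cl _ rfl)))
  obtain ⟨P, Pp, Pk, Px⟩ := sep_pres m.cl_H (singleton_subset_iff.2 m.yH) m.xH h.tr
  have Py := Pk m.y rfl
  obtain ⟨Q, hQ⟩ : ∃ Q : Der C Ω, Q = Z - m.w • P := ⟨_, rfl⟩
  have QZ : ∀ f, Q f + m.w * P f = Z f := fun f => by simp [hQ]
  have Qx : Q m.x = 0 := by linear_combination QZ m.x + Zx - m.w * Px
  have Qy : Q m.y = 1 := by linear_combination QZ m.y + Zy - m.w * Py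
  have Qp : Pres m.H Q := fun f hf => by
    rw [eq_sub_of_add_eq (QZ f)]; exact sub_mem (Zp f hf) (mul_mem wH (Pp f hf))
  have ωQ : ω Q = -(m.w * ω P) := by simp [hQ, h.bas Z hZ]
  have hA : Q m.w = m.w * (Q m.w / m.w) := by field_simp
  have hB : P m.w = m.w * (P m.w / m.w) := by field_simp
  have AH := div_mem (Qp _ wH) wH
  have BH := div_mem (Pp _ wH) wH
  generalize Q m.w / m.w = A at hA AH
  generalize P m.w / m.w = B at hB BH
  have hAB : A + m.w * B ≠ 0 := fun e => Zw (by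
    linear_combination m.w * e - QZ m.w + hA + m.w * hB)
  have e1 := star hd h (m.w ^ 2 • P + t • Q) (by simp [Px, Py, Qx, Qy]; ring)
  simp only [map_add, map_smul, smul_eq_mul, Derivation.add_apply, Derivation.smul_apply, ωQ, Py,
    Qy, hA, hB] at e1
  have e2 : 2 * t * (t * A + m.w ^ 2 * B) * (κ1 - m.y * κ2) =
      ω P * m.w * (m.w - t) - κ2 * (m.w ^ 2 - t ^ 2) :=
    mul_left_cancel₀ (mul_ne_zero w0 t0) (by linear_combination -e1)
  obtain ⟨X, h1, Xt⟩ := ext_one (tH h) (Q + t • P) 0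
  rw [m.cl_H] at h1
  have hX : ∀ f ∈ m.H, X f = Q f + t * P f := fun f hf => by simpa using h1 f hf
  have Xk : Kil (cl C {t, m.x - t * m.y} : Set Ω) X := Kil.cl (by
    rintro f (rfl | rfl)
    · exact Xt
    · simp [Xt, hX _ m.xH, hX _ m.yH, Px, Py, Qx, Qy])
  have XN := Xk _ h.k2
  have XW : X (κ1 - m.y * κ2) = -κ2 := by simp [Xk _ h.k1, XN, hX _ m.yH, Py, Qy]
  have g0 := g_zero hp Pp Qp (tH h) hX Xt wH AH BH (mem h Pp) w0 hA hB hAB XN XW e2
  rw [g0, zero_mul, zero_mul, zero_sub] at e2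
  by_cases N0 : κ2 = 0
  · refine ⟨?_, N0⟩
    rw [N0, mul_zero, sub_zero, zero_mul, neg_zero] at e2
    refine (mul_eq_zero.1 e2).resolve_left (mul_ne_zero (mul_ne_zero two_ne_zero t0) fun e => ?_)
    have e5 := coef_zero (tH h) ![m.w ^ 2 * B, A] (fun i => by
      fin_cases i
      · exact mul_mem (pow_mem wH 2) BH
      · exact AH) (by
      simp only [Fin.sum_univ_two, Matrix.cons_val, Fin.val_zero, Fin.val_one]
      linear_combination e)
    have c0 := e5 0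
    have c1 := e5 1
    simp only [Matrix.cons_val] at c0 c1
    exact hAB (mul_left_cancel₀ w0 (by linear_combination c0 + m.w * c1))
  obtain ⟨c1, c2, c3⟩ := coefs Pp Qp (tH h) hX Xt wH AH BH w0 hA hB XN XW N0 e2
  have kH : cl C {m.x, m.y} ≤ m.H :=
    m.cl_H ▸ H17.cl_mono (insert_subset m.xH (singleton_subset_iff.2 m.yH))
  refine (hc C Ω (cl C {m.x, m.y}) P Q m.x m.y m.w A B (pres_cl ?_) (pres_cl ?_) (fun f hf => ?_)
    (subset_cl _ (by simp)) (subset_cl _ (by simp)) hw w0 Px Py Qx Qy (fun f hf e => ?_) hA hB hAB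
    c1 c2 c3).elim
  · rintro f (rfl | rfl)
    · exact Px ▸ one_mem _
    · exact Py ▸ zero_mem _
  · rintro f (rfl | rfl)
    · exact Qx ▸ zero_mem _
    · exact Qy ▸ one_mem _
  · rw [← sub_eq_zero, ← br_apply]
    refine Kil.cl (S := {m.x, m.y}) ?_ f hf
    rintro f (rfl | rfl) <;> simp [br_apply, Px, Py, Qx, Qy]
  · obtain ⟨c, rfl⟩ := m.const hd hZ Zy0 (m.J_H (kH hf)) (QZ f ▸ e)
    exact P.map_algebraMap c

end Pool.Agent.MP_249f74_an.H96
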