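import Pool.Agent.MP_249f74_an.H96.Spec

/-!
First integrals along lines, and the foliation by confocal conics.
-/

open Set IntermediateField

namespace Pool.Agent.MP_249f74_an.H96

open H17 (Der mem_cl_iff)
open H88 (cl)

namespace Pole

open Polynomial

variable {C Ω : Type} [Field C] [Field Ω] [Algebra C Ω] {F : IntermediateField C Ω}

lemma lift {u : Polynomial Ω} (h : ∀ i, u.coeff i ∈ F) : ∃ p : F[X], p.map (algebraMap F Ω) = u :=
  (mem_lifts u).1 ((lifts_iff_coeff_lifts u).2 fun i => ⟨⟨_, h i⟩, rfl⟩)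

lemma der {P Q Z : Der C Ω} {t : Ω} (hP : Pres F P) (hQ : Pres F Q)
    (hZ : ∀ f ∈ F, Z f = Q f + t * P f) (ht : Z t = 0) (p : F[X]) :
    ∃ p' : F[X], Z (aeval t p) = aeval t p' := by
  induction p using Polynomial.induction_on' with
  | add p q hp hq =>
    obtain ⟨p', hp⟩ := hp
    obtain ⟨q', hq⟩ := hq
    exact ⟨p' + q', by rw [map_add, map_add, hp, hq, map_add]⟩
  | monomial n a =>
    refine ⟨monomial n ⟨Q a, hQ _ a.2⟩ + monomial (n + 1) ⟨P a, hP _ a.2⟩, ?_⟩
    simp only [map_add, aeval_monomial, Derivation.leibniz, Derivation.leibniz_pow, ht,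
      IntermediateField.algebraMap_apply, hZ _ a.2, smul_eq_mul, smul_zero, mul_zero]
    ring

end Pole

open Polynomial in
theorem pole : StmtPOLE := by
  intro C Ω _ _ _ _ F P Q Z t w N u v hP hQ ht hZ hZt hw h0 hu hv hN e hw0
  obtain ⟨u, rfl⟩ := Pole.lift hu
  obtain ⟨v, rfl⟩ := Pole.lift hv
  have inj : Function.Injective (aeval t : F[X] →ₐ[F] Ω) :=
    transcendental_iff_injective.1 fun h' => ht (mem_cl_iff.2 h')
  lift w to F using hw
  simp only [eval_map_algebraMap] at e hw0 ⊢
  by_cases u0 : u = 0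
  · rw [u0, map_zero, mul_zero] at e
    rw [inj (e.symm.trans (map_zero _).symm), map_zero]
  have r : u.IsRoot w := by
    rw [show (w : Ω) = algebraMap F Ω w from rfl, aeval_algebraMap_apply, _root_.map_eq_zero,
      coe_aeval_eq_eval] at hw0
    exact hw0
  obtain ⟨u1, e1, n1⟩ := exists_eq_pow_rootMultiplicity_mul_and_not_dvd u u0 w
  obtain ⟨m, hm⟩ := Nat.exists_eq_succ_of_ne_zero ((rootMultiplicity_pos u0).2 r).ne'
  rw [hm] at e1
  obtain ⟨u', hu'⟩ := Pole.der hP hQ hZ hZt u1
  obtain ⟨v', hv'⟩ := Pole.der hP hQ hZ hZt v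
  have e2 : aeval t u = (t - w) ^ (m + 1) * aeval t u1 := by rw [e1]; simp
  rw [e2] at e
  have e3 := congrArg Z e
  simp only [Derivation.leibniz, Derivation.leibniz_pow, hN, hu', hv', map_sub, hZt, hZ _ w.2,
    smul_eq_mul, nsmul_eq_mul, Nat.add_sub_cancel] at e3
  have e4 : (X - Polynomial.C w) * u1 * v' = v * (-(((m + 1 : ℕ) : F[X]) *
      (Polynomial.C (⟨Q w, hQ _ w.2⟩ : F) + X * Polynomial.C (⟨P w, hP _ w.2⟩ : F)) * u1) +
      (X - Polynomial.C w) * u') := inj (by
    simp only [map_mul, map_sub, map_add, map_neg, aeval_X, aeval_C, map_natCast,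
      IntermediateField.algebraMap_apply]
    rw [← e, ← e3]
    ring)
  have e5 := congrArg (aeval (w : Ω)) e4
  simp only [map_mul, map_sub, map_add, map_neg, aeval_X, aeval_C, map_natCast,
    IntermediateField.algebraMap_apply, sub_self, zero_mul, add_zero] at e5
  refine (mul_eq_zero.1 e5.symm).resolve_right (neg_ne_zero.2 (mul_ne_zero (mul_ne_zero
    (Nat.cast_ne_zero.2 m.succ_ne_zero) h0) fun h => n1 (dvd_iff_isRoot.2 ?_)))
  rw [show (w : Ω) = algebraMap F Ω w from rfl, aeval_algebraMap_apply, _root_.map_eq_zero,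
    coe_aeval_eq_eval] at h
  exact h

theorem conic : StmtCONIC := by
  intro C Ω _ _ _ _ k P Q x y w A B hP hQ hc hx hy hw w0 Px Py Qx Qy H Qw Pw n0 PA QB E
  have hA : A ∈ k := by
    have : A = Q w / w := by rw [Qw]; field_simp
    exact this ▸ div_mem (hQ _ hw) hw
  have hB : B ∈ k := by
    have : B = P w / w := by rw [Pw]; field_simp
    exact this ▸ div_mem (hP _ hw) hw
  have PQ : P (Q A) = 0 := by rw [hc A hA, PA, map_zero]
  have QP : Q (P B) = 0 := by rw [← hc B hB, QB, map_zero]
  have two : ∀ θ : Der C Ω, θ 2 = 0 := fun θ => by simpa using θ.map_natCast 2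
  have QE := congrArg Q E
  simp only [map_add, Derivation.leibniz, Derivation.leibniz_pow, two, Qw, QB, QP, smul_eq_mul,
    nsmul_eq_mul] at QE
  have hy2 : w * (A + w * B) ∈ k := mul_mem hw (add_mem hA (mul_mem hw hB))
  have y0 : w * (A + w * B) ≠ 0 := mul_ne_zero w0 n0
  have Py2 : P (w * (A + w * B)) = w * (A * B + w * (P B + 2 * B ^ 2)) := by
    simp only [map_add, Derivation.leibniz, Pw, PA, smul_eq_mul]; ring
  have dy : Q (w * (A + w * B)) + w * P (w * (A + w * B)) = 3 * A * (w * (A + w * B)) := by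
    rw [Py2]
    simp only [map_add, Derivation.leibniz, Qw, QB, smul_eq_mul]
    linear_combination w * E
  have key : ∀ ν ∈ k, ν ≠ 0 → P ν = 0 → Q ν = 2 * A * ν → P (w * (A + w * B)) = 0 := by
    intro ν hν ν0 h1 h2
    generalize w * (A + w * B) = s at *
    have := H (s ^ 2 * (ν ^ 3)⁻¹) (mul_mem (pow_mem hy2 2) (inv_mem (pow_mem hν 3))) (by
      simp only [Derivation.leibniz, Derivation.leibniz_inv, Derivation.leibniz_pow, h1, h2,
        smul_eq_mul, nsmul_eq_mul]
      field_simp
      push_cast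
      linear_combination 2 * s * ν ^ 3 * dy)
    simpa [Derivation.leibniz, Derivation.leibniz_inv, Derivation.leibniz_pow, h1, ν0, y0]
      using this
  have P0 : P (w * (A + w * B)) = 0 := by
    by_cases p0 : Q A - 2 * A ^ 2 = 0
    · by_cases A0 : A = 0
      · exact key 1 (one_mem _) one_ne_zero (by simp) (by simp [A0])
      · exact key A hA A0 PA (by linear_combination p0)
    · refine key _ (sub_mem (hQ _ hA) (mul_mem (ofNat_mem _ 2) (pow_mem hA 2))) p0 ?_ ?_
      · simp [Derivation.leibniz, Derivation.leibniz_pow, two, PQ, PA]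
      · simp only [map_sub, Derivation.leibniz, Derivation.leibniz_pow, two, smul_eq_mul,
          nsmul_eq_mul]
        push_cast at QE ⊢
        linear_combination QE - 2 * A * E
  have e1 : A * B + w * (P B + 2 * B ^ 2) = 0 := (mul_eq_zero.1 (Py2 ▸ P0)).resolve_left w0
  have e2 := congrArg Q e1
  simp only [map_add, Derivation.leibniz, Derivation.leibniz_pow, two, Qw, QB, QP, smul_eq_mul,
    nsmul_eq_mul, map_zero] at e2
  by_cases B0 : B = 0
  · subst B0
    have A0 : A ≠ 0 := by simpa using n0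
    have e3 : Q A = 2 * A ^ 2 := by simpa using E
    have := H (x + w * A⁻¹) (add_mem hx (mul_mem hw (inv_mem hA))) (by
      simp only [map_add, Derivation.leibniz, Derivation.leibniz_inv, Px, Qx, Pw, Qw, PA, e3,
        smul_eq_mul]
      field_simp
      ring)
    simp [Derivation.leibniz, Derivation.leibniz_inv, Px, Pw, PA] at this
  · have e3 : Q A = A ^ 2 := mul_right_cancel₀ B0 (by linear_combination e2 - A * e1)
    have A0 : A = 0 := (mul_eq_zero.1 (show A * (A + w * B) = 0 by
      linear_combination e3 - E + w * e1)).resolve_right n0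
    have := H (w - w * (A + w * B) * y) (sub_mem hw (mul_mem hy2 hy)) (by
      rw [map_sub, map_sub, Derivation.leibniz Q _ y, Derivation.leibniz P _ y, Qy, Py, Qw, Pw]
      simp only [smul_eq_mul]
      linear_combination (-y) * dy - 3 * y * (w * (A + w * B)) * A0)
    rw [map_sub, Derivation.leibniz P _ y, Py, P0, Pw] at this
    simp [w0, B0] at this

end Pool.Agent.MP_249f74_an.H96
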