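import Pool.Agent.MP_249f74_an.H96.Spec

/-!
Splitting of a basic form along independent mirrors.
-/

open Set IntermediateField

namespace Pool.Agent.MP_249f74_an.H96

open H17 (Der Two Kr mem_Kr)

theorem spl : StmtSPL := by
  classical
  intro C Ω _ _ _ _ d ι _ m S ν hd hS hH hdec hν hZ
  let P : ι → Der C Ω → Der C Ω → Prop := fun i θ φ =>
    (m i).Tan (φ - θ) ∧ ∀ j, j ≠ i → (m j).Tan φ
  have hex : ∀ i θ, ∃ φ, P i θ φ := fun i θ => by
    obtain ⟨φ, h⟩ := hdec (Pi.single i θ)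
    exact ⟨φ, by simpa using h i, fun j hj => by simpa [Pi.single_eq_of_ne hj] using h j⟩
  choose π hπ using hex
  have k0 : ∀ i θ φ, P i θ φ → TanS d (S i) θ → ν φ = 0 := fun i θ φ h hθ => hν φ fun j => by
    by_cases hj : j = i
    · subst hj
      simpa using (TanS.mono h.1 (hH j)).add hθ
    · exact TanS.mono (h.2 j hj) (hH j)
  have k1 : ∀ i θ φ, P i θ φ → ν (π i θ) = ν φ := fun i θ φ h => by
    rw [← sub_eq_zero, ← map_sub]
    refine k0 i 0 _ ⟨?_, fun j hj => TanS.sub ((hπ i θ).2 j hj) (h.2 j hj)⟩ (tanS_tn tn_zero)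
    have := TanS.sub (hπ i θ).1 h.1
    rwa [sub_sub_sub_cancel_right, ← sub_zero (π i θ - φ)] at this
  let ω : ι → Fm C Ω := fun i =>
    { toFun := fun θ => ν (π i θ)
      map_add' := fun θ θ' => by
        rw [← map_add]
        refine k1 i _ _ ⟨?_, fun j hj => TanS.add ((hπ i θ).2 j hj) ((hπ i θ').2 j hj)⟩
        rw [add_sub_add_comm]
        exact TanS.add (hπ i θ).1 (hπ i θ').1
      map_smul' := fun a θ => by
        rw [RingHom.id_apply, ← map_smul]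
        refine k1 i _ _ ⟨?_, fun j hj => TanS.smul ((hπ i θ).2 j hj) a⟩
        rw [← smul_sub]
        exact TanS.smul (hπ i θ).1 a }
  have k2 : ∀ i θ, TanS d (S i) θ → ω i θ = 0 := fun i θ h => k0 i θ _ (hπ i θ) h
  have k3 : ∀ i Z, d.Tn Z → ∀ θ, dd (ω i) Z θ = 0 := fun i Z h θ => by
    have e : ω i ⁅Z, θ⁆ = ν ⁅Z, π i θ⁆ := k1 i _ _
      ⟨by rw [← lie_sub]; exact Pt.Tan.br hd (tanS_tn h) (hπ i θ).1,
        fun j hj => Pt.Tan.br hd (tanS_tn h) ((hπ i θ).2 j hj)⟩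
    rw [← hZ Z h (π i θ), dd, dd, e, k2 i Z (tanS_tn h), hν Z fun _ => tanS_tn h, map_zero,
      map_zero]
    rfl
  refine ⟨ω, ?_, fun i => ?_⟩
  · ext1 θ
    rw [LinearMap.sum_apply, ← sub_eq_zero]
    change ∑ i, ν (π i θ) - ν θ = 0
    rw [← map_sum, ← map_sub]
    refine hν _ fun j => TanS.mono ?_ (hH j)
    rw [← Finset.add_sum_erase _ _ (Finset.mem_univ j), add_sub_right_comm]
    exact TanS.add (hπ j θ).1
      (TanS.sum _ fun i hi => (hπ i θ).2 j (Finset.ne_of_mem_erase hi).symm)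
  · have k4 : ∃ (n : ℕ) (a b : Fin n → Ω), (∀ j, a j ∈ (m i).H) ∧ (∀ j, b j ∈ S i) ∧
        ∀ θ, ω i θ = ∑ j, a j * θ (b j) := by
      by_cases h : (m i).Tr
      · obtain ⟨n, a, b, h1, h2, h3⟩ := Van.rep (ω := ω i) (fun θ hθ => k2 i θ hθ.tanS) (hS i)
        refine ⟨n, a, b, fun j => ?_, h1, h2⟩
        rw [(m i).H_tr h]
        exact h3 _ (fun f hf => by simpa using (m i).J_H (hH i hf)) (k3 i _ (Two.tn_br _)) j
      · exact ⟨0, Fin.elim0, Fin.elim0, fun j => j.elim0, fun j => j.elim0, fun θ => by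
          simpa using k2 i θ (TanS.mono ((m i).tan_alg h θ) (hH i))⟩
    obtain ⟨n, a, b, h1, h2, h3⟩ := k4
    exact ⟨k2 i, fun θ hθ φ => (m i).dd_tan h1 (fun j => hH i (h2 j)) h3 (k3 i) hθ φ,
      n, a, b, h1, h2, h3⟩

end Pool.Agent.MP_249f74_an.H96
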