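import Pool.Agent.MP_249f74_an.H96.Spec

/-!
Transfer along an extension of differential fields.
-/

open Set IntermediateField

namespace Pool.Agent.MP_249f74_an.H96

open H17 (Der Two Kr St mem_Kr kill_cl cl_mono mem_cl_iff map_mem_cl indep_Kr ext_der)
open H88 (rk cl subset_cl)

namespace Trf

variable {C Ω C' Ω' : Type} [Field C] [Field Ω] [Algebra C Ω] [Field C'] [Field Ω']
  [Algebra C' Ω'] [Algebra C C'] [Algebra C Ω'] [IsScalarTower C C' Ω']

lemma cl_up {T : Set Ω'} {x : Ω'} (h : x ∈ cl C T) : x ∈ cl C' T := by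
  have h1 : x ∈ cl C ((cl C' T).restrictScalars C : Set Ω') := cl_mono (subset_cl (k := C') T) h
  have h2 : IsAlgebraic (cl C' T) x := (mem_cl_iff (E := (cl C' T).restrictScalars C)).1 h1
  exact cl_cl (C := C') T ▸ mem_cl_iff.2 h2

lemma indep {d : Two C Ω} {d' : Two C' Ω'} (i : Ω →ₐ[C] Ω') (hd : Amb d)
    (h0 : ∀ f, d'.d0 (i f) = i (d.d0 f)) (h1 : ∀ f, d'.d1 (i f) = i (d.d1 f)) {y : Ω} {ι : Type}
    {v : ι → Ω} (hy : d.d0 y ≠ 0 ∨ d.d1 y ≠ 0) (hv : ∀ j, d.J y (v j) = 0)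
    (h : AlgebraicIndependent C v) : AlgebraicIndependent C' (i ∘ v) := by
  let m : Pt d := ⟨y, y, 1, one_ne_zero, hy, ⟨(mul_one _).symm, (mul_one _).symm⟩⟩
  obtain ⟨Z, hZ, hZ1⟩ := m.exists_one
  obtain ⟨a, b, hab⟩ := id hZ
  let Z' : Der C Ω' := (i a • d'.d0 + i b • d'.d1).restrictScalars C
  have e : ∀ f, Z' (i f) = i (Z f) := fun f => by simp [Z', hab, h0, h1]
  have h2 : AlgebraicIndependent (IsScalarTower.toAlgHom C C' Ω').fieldRange (i ∘ v) := by
    refine indep_Kr (δ := Z') (F := (Kr (d.br y)).map i) ?_ ?_ ?_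
      (fun j => ⟨v j, hv j, rfl⟩) (h.map' (f := i) i.toRingHom.injective)
    · rintro _ ⟨f, hf, rfl⟩
      exact ⟨Z f, m.pres_Kr hd hZ (by simp [hZ1, Two.J]) f hf, (e f).symm⟩
    · rintro _ ⟨f, hf, rfl⟩ h3
      have h4 : Z f = 0 := i.toRingHom.injective (((e f).symm.trans h3).trans (map_zero i).symm)
      obtain ⟨c, rfl⟩ := mem_bot.1 (m.const hd hZ (by simp [hZ1]) hf h4)
      exact mem_bot.2 ⟨c, (i.commutes c).symm⟩
    · rintro _ ⟨c, rfl⟩
      exact (i a • d'.d0 + i b • d'.d1).map_algebraMap c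
  exact h2.of_ringHom_of_comp_eq (g := RingHom.id Ω')
    (f := (IsScalarTower.toAlgHom C C' Ω').equivFieldRange.toRingEquiv.toRingHom)
    (IsScalarTower.toAlgHom C C' Ω').equivFieldRange.injective (by ext; rfl)

lemma chain [CharZero Ω] [CharZero Ω'] (i : Ω →ₐ[C] Ω') {ι : Type} [Fintype ι] {v a : ι → Ω}
    {f : Ω} (hf : f ∈ cl C (range v)) (ha : ∀ θ : Der C Ω, θ f = ∑ j, a j * θ (v j))
    (h : AlgebraicIndependent C v) (θ : Der C' Ω') :
    θ (i f) = ∑ j, i (a j) * θ (i (v j)) := by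
  classical
  choose e _ he using fun j : ι => ext_indep ⊥ (indep_bot h) 0 (Pi.single j 1)
  have h1 : ∀ j, e j f = a j := fun j => by simp [ha, he, Pi.single_apply]
  obtain ⟨δ, hδ⟩ := ext_der i
    { toFun := fun x => θ (i x) - ∑ j, i (e j x) * θ (i (v j))
      map_zero' := by simp
      map_add' := fun x z => by
        simp only [map_add, add_mul, Finset.sum_add_distrib]
        ring }
    (fun x z => by
      simp only [AddMonoidHom.coe_mk, ZeroHom.coe_mk, map_mul, Derivation.leibniz, smul_eq_mul,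
        map_add, add_mul, Finset.sum_add_distrib, mul_sub, Finset.mul_sum, mul_assoc]
      ring)
    (fun x hx => by
      obtain rfl : x = 0 := i.toRingHom.injective (hx.trans (map_zero i).symm)
      exact map_zero _)
    (fun c => by
      have := θ.map_algebraMap (algebraMap C C' c)
      rw [← IsScalarTower.algebraMap_apply] at this
      simp [this])
  have h2 := kill_cl (δ := δ) ?_ (map_mem_cl i hf)
  · rw [hδ] at h2
    simpa [h1, sub_eq_zero] using h2
  · rintro _ ⟨_, ⟨k, rfl⟩, rfl⟩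
    simp [hδ, he, Pi.single_apply, apply_ite i]

end Trf

theorem trf : StmtTRF := by
  intro C Ω C' Ω' _ _ _ _ _ _ _ _ _ _ _ d d' i hd h0 h1
  exact ⟨fun S f hf => Trf.cl_up (map_mem_cl i hf),
    fun y ι v hy hv h => Trf.indep i hd h0 h1 hy hv h,
    fun ι _ v a f hf ha h θ => Trf.chain i hf ha h θ⟩

end Pool.Agent.MP_249f74_an.H96
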