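import Pool.Agent.MP_249f74_an.H96.Spec

/-!
Lemmas on chains.
-/

open Set IntermediateField

namespace Pool.Agent.MP_249f74_an.H96

open H17 (Der Two Kr St mem_Kr mem_St kill_cl stab_cl cl_le cl_mono mem_cl_iff)
open H88 (rk cl subset_cl coe_cl mem_cl)

variable {C Ω : Type} [Field C] [Field Ω] [Algebra C Ω] {d : Two C Ω}

namespace Edge

variable {m m' : Pt d} {z l : Ω}

lemma yne (e : Edge m m' z l) : m'.y - m.y ≠ 0 := fun h => e.l0 (by rw [← e.ey, h, zero_mul])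

lemma line (e : Edge m m' z l) : m'.x - z ^ 2 * m'.y = m.x - z ^ 2 * m.y := by
  linear_combination e.ex - z * e.ey

lemma dline [CharZero Ω] (e : Edge m m' z l) {Z : Der C Ω} (hZ : d.Tn Z) :
    (m'.w - z ^ 2) * Z m'.y - (m.w - z ^ 2) * Z m.y = 2 * l * Z z := by
  have h := congrArg Z e.line
  simp only [map_sub, Derivation.leibniz, Derivation.leibniz_pow, smul_eq_mul, m.dx hZ,
    m'.dx hZ, nsmul_eq_mul] at h
  rw [← e.ey]
  norm_num at h
  linear_combination h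

lemma nd' [CharZero Ω] (e : Edge m m' z l) : d.J m'.y z ≠ 0 := fun h => by
  have h1 := e.dline (Two.tn_br z)
  simp only [Two.br_apply, Two.J_self, Two.J_symm d z, h] at h1
  exact mul_ne_zero (sub_ne_zero.2 e.g0) e.nd (by linear_combination h1)

lemma J_sq (f z : Ω) : d.J f (z ^ 2) = 2 * z * d.J f z := by
  simp only [Two.J, Derivation.leibniz_pow, smul_eq_mul, nsmul_eq_mul]
  norm_num
  ring

lemma nds [CharZero Ω] (e : Edge m m' z l) : d.J m.y (z ^ 2) ≠ 0 := by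
  rw [J_sq]; exact mul_ne_zero (mul_ne_zero two_ne_zero e.z0) e.nd

lemma nds' [CharZero Ω] (e : Edge m m' z l) : d.J m'.y (z ^ 2) ≠ 0 := by
  rw [J_sq]; exact mul_ne_zero (mul_ne_zero two_ne_zero e.z0) e.nd'

lemma Jsc [CharZero Ω] (e : Edge m m' z l) : d.J (z ^ 2) (m.x - z ^ 2 * m.y) ≠ 0 := by
  have : d.J (z ^ 2) (m.x - z ^ 2 * m.y) = -(m.w - z ^ 2) * d.J m.y (z ^ 2) := by
    generalize z ^ 2 = s
    simp only [Two.J, map_sub, Derivation.leibniz, smul_eq_mul, m.tan.1, m.tan.2]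
    ring
  rw [this]
  exact mul_ne_zero (neg_ne_zero.2 (sub_ne_zero.2 e.g0)) e.nds

lemma congr {n n' : Pt d} (e : Edge m m' z l) (hx : n.x = m.x) (hy : n.y = m.y) (hx' : n'.x = m'.x)
    (hy' : n'.y = m'.y) : Edge n n' z l :=
  ⟨by rw [hx, hx', e.ex], by rw [hy, hy', e.ey], e.z0, e.l0, by rw [n.w_eq hx hy]; exact e.g0,
    by rw [n'.w_eq hx' hy']; exact e.g1, by rw [hy]; exact e.nd⟩

lemma act (e : Edge m m' z l) (g : Iso C) : Edge (m.act g) (m'.act g) (g.pz z) l := by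
  have h0 := g.β0 (Ω := Ω)
  have h1 := e.z0
  have h2 := e.ex
  have h3 := e.ey
  have h4 := e.nd
  refine ⟨?_, ?_, ?_, e.l0, ?_, ?_, ?_⟩ <;> cases h : g.e <;>
    simp only [Pt.act, Iso.px, Iso.py, Iso.pz, Iso.pw, h, if_true, if_false, Bool.false_eq_true]
  · linear_combination algebraMap C Ω g.β * h2
  · field_simp; linear_combination algebraMap C Ω g.β * h3
  · field_simp; linear_combination h3
  · field_simp; linear_combination h2
  · exact mul_ne_zero h0 h1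
  · exact mul_ne_zero h0 (inv_ne_zero h1)
  · rw [mul_pow]; exact fun h => e.g0 (mul_left_cancel₀ (pow_ne_zero _ h0) h)
  · rw [mul_pow, inv_pow]
    exact fun h => e.g0 (inv_injective (mul_left_cancel₀ (pow_ne_zero _ h0) h))
  · rw [mul_pow]; exact fun h => e.g1 (mul_left_cancel₀ (pow_ne_zero _ h0) h)
  · rw [mul_pow, inv_pow]
    exact fun h => e.g1 (inv_injective (mul_left_cancel₀ (pow_ne_zero _ h0) h))
  · refine fun h => h4 ?_
    simp only [Two.J, map_add, Derivation.leibniz, Derivation.leibniz_inv, smul_eq_mul,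
      Derivation.map_algebraMap, mul_zero, add_zero] at h ⊢
    field_simp at h
    linear_combination h
  · refine fun h => mul_ne_zero m.w0 h4 ?_
    simp only [Two.J, map_add, Derivation.leibniz, Derivation.leibniz_inv, smul_eq_mul,
      Derivation.map_algebraMap, m.tan.1, m.tan.2, mul_zero, add_zero] at h ⊢
    field_simp at h
    linear_combination -h

end Edge

lemma Iso.pz_mul (g : Iso C) (z z' : Ω) : g.pz z * g.pz z' = g.pw (z * z') := by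
  cases h : g.e <;> simp [Iso.pz, Iso.pw, h] <;> ring

namespace Pt

variable (m : Pt d) {θ Z : Der C Ω} {s : Ω}

@[simp] lemma act_x (g : Iso C) : (m.act g).x = g.px m.x m.y := rfl
@[simp] lemma act_y (g : Iso C) : (m.act g).y = g.py m.x m.y := rfl
@[simp] lemma act_w (g : Iso C) : (m.act g).w = g.pw m.w := rfl

/-- Data of a mirror. -/
structure Dat (S : Set Ω) : Prop where
  le : S ⊆ m.H
  hx : m.x ∈ S
  hy : m.y ∈ S
  hw : m.w ∈ S

lemma dat_H [CharZero Ω] (hd : Amb d) : m.Dat m.H := ⟨subset_rfl, m.xH, m.yH, m.wH hd⟩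

/-- A tangent derivation that kills a transversal line kills the mirror. -/
lemma kil_of_line [CharZero Ω] {S : Set Ω} (hS : m.Dat S) (h : TanS d S θ) (hw : m.w ≠ s)
    (h1 : θ s = 0) (h2 : θ (m.x - s * m.y) = 0) : Kil S θ := by
  refine m.kil_of_tanS hS.le hS.hy h ?_
  simp only [map_sub, Derivation.leibniz, smul_eq_mul, h1, m.dx_of_tanS hS.hx hS.hy h] at h2
  exact (mul_eq_zero.1 (show θ m.y * (m.w - s) = 0 by linear_combination h2)).resolve_right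
    (sub_ne_zero.2 hw)

lemma dy_mem (hZ : d.Tn Z) {K : IntermediateField C Ω} (hy : m.y ∈ K) (hw : m.w ∈ K) (hs : s ∈ K)
    (hw' : m.w ≠ s) (h1 : Z s ∈ K) (h2 : Z (m.x - s * m.y) ∈ K) : Z m.y ∈ K := by
  have : Z m.y = (Z (m.x - s * m.y) + m.y * Z s) / (m.w - s) := by
    rw [eq_div_iff (sub_ne_zero.2 hw')]
    simp only [map_sub, Derivation.leibniz, smul_eq_mul, m.dx hZ]
    ring
  rw [this]
  exact div_mem (add_mem h2 (mul_mem hy h1)) (sub_mem hw hs)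

lemma tr_act [CharZero Ω] (g : Iso C) (h : m.Tr) : (m.act g).Tr := fun h' => by
  obtain ⟨θ, h1, h2⟩ := sep h
  have h3 : θ m.y = 0 := h1 _ rfl
  have h0 := g.β0 (Ω := Ω)
  cases e : g.e
  · have := kill_cl (δ := θ) (S := {(m.act g).y})
      (by simp [Iso.py, e, h3, Derivation.leibniz_inv]) h'
    simp [Iso.px, e, h2, h0] at this
  · obtain ⟨Z, z1, z2⟩ := m.exists_one
    have := kill_cl (δ := Z - m.w • θ) (S := {(m.act g).y})
      (by simp [Iso.py, e, h2, m.dx z1, z2, Derivation.leibniz_inv, mul_comm]) h'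
    simp [Iso.px, e, h3, z2, h0] at this

lemma tr_congr {m' : Pt d} (hx : m.x = m'.x) (hy : m.y = m'.y) : m.Tr ↔ m'.Tr := by
  rw [Tr, Tr, hx, hy]

end Pt

lemma kil_sq [CharZero Ω] {θ : Der C Ω} {z : Ω} (hz : z ≠ 0) : θ (z ^ 2) = 0 ↔ θ z = 0 := by
  simp [Derivation.leibniz_pow, hz]

/-- Both ends of a property that is shared by neighbours. -/
lemma nat_conn {p : ℕ → Prop} {a b : ℕ} (h : ∀ i, a ≤ i → i < b → (p i ↔ p (i + 1))) {i j : ℕ}
    (h1 : a ≤ i) (h2 : i ≤ b) (h3 : a ≤ j) (h4 : j ≤ b) : p i ↔ p j := by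
  have key : ∀ k, a ≤ k → k ≤ b → (p a ↔ p k) := fun k hk => by
    induction k, hk using Nat.le_induction with
    | base => exact fun _ => Iff.rfl
    | succ k hk ih => exact fun hb => (ih (by omega)).trans (h k hk hb)
  exact (key i h1 h2).symm.trans (key j h3 h4)

variable {m : ℕ → Pt d} {z l : ℕ → Ω} {n : ℕ} {S : ℕ → Set Ω} {θ Z : Der C Ω}

lemma s0_mem : z 0 ^ 2 ∈ Inn m z S n := Or.inl (Or.inl rfl)

lemma c0_mem : lc m z 0 ∈ Inn m z S n := Or.inl (Or.inr rfl)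

lemma sub_Inn {i : ℕ} (h0 : 0 < i) (h1 : i < n) : S i ⊆ Inn m z S n := fun _ hf =>
  Or.inr (mem_biUnion (show i ∈ Ioo 0 n from ⟨h0, h1⟩) hf)

lemma Inn_subset {T : Set Ω} (h1 : z 0 ^ 2 ∈ T) (h2 : lc m z 0 ∈ T)
    (h3 : ∀ i, 0 < i → i < n → S i ⊆ T) : Inn m z S n ⊆ T :=
  union_subset (insert_subset h1 (singleton_subset_iff.2 h2))
    (iUnion₂_subset fun i hi => h3 i hi.1 hi.2)

lemma Inn_mono {S' : ℕ → Set Ω} (h : ∀ i, 0 < i → i < n → S i ⊆ S' i) :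
    Inn m z S n ⊆ Inn m z S' n :=
  Inn_subset s0_mem c0_mem fun i h0 h1 => (h i h0 h1).trans (sub_Inn h0 h1)

lemma Inn_finite (h : ∀ i, (S i).Finite) : (Inn m z S n).Finite :=
  (toFinite _).union ((finite_Ioo 0 n).biUnion fun i _ => h i)

lemma Dec.mono (h : Dec m n) {k : ℕ} (hk : k ≤ n) : Dec m k := fun t =>
  (h t).imp fun _ h i hi => h i (hi.trans hk)

lemma Dec.shift (h : Dec m (n + 1)) : Dec (fun i => m (i + 1)) n := fun t =>
  (h fun i => t (i - 1)).imp fun _ h i hi => h (i + 1) (by omega)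

namespace Ch

lemma mono (h : Ch m z l n) {k : ℕ} (hk : k ≤ n) : Ch m z l k :=
  ⟨fun i hi => h.e i (by omega), fun i hi => h.r i (by omega)⟩

lemma shift (h : Ch m z l (n + 1)) :
    Ch (fun i => m (i + 1)) (fun i => z (i + 1)) (fun i => l (i + 1)) n :=
  ⟨fun i hi => h.e (i + 1) (by omega), fun i hi => h.r (i + 1) (by omega)⟩

lemma lc_eq (h : Ch m z l n) {i : ℕ} (hi : i < n) :
    lc m z i = (m (i + 1)).x - z i ^ 2 * (m (i + 1)).y := (h.e i hi).line.symm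

lemma sq_eq (h : Ch m z l n) {i : ℕ} (hi : i + 1 < n) :
    z i ^ 2 = (m (i + 1)).w ^ 2 / z (i + 1) ^ 2 := by
  rw [← h.r i hi]; field_simp [(h.e (i + 1) hi).z0]

lemma sq_eq' (h : Ch m z l n) {i : ℕ} (hi : i + 1 < n) :
    z (i + 1) ^ 2 = (m (i + 1)).w ^ 2 / z i ^ 2 := by
  rw [← h.r i hi]; field_simp [(h.e i (by omega)).z0]

variable [CharZero Ω]

lemma Jsc (h : Ch m z l n) {i : ℕ} (hi : i < n) : d.J (z i ^ 2) (lc m z i) ≠ 0 := (h.e i hi).Jsc

/-- Passing through one mirror. -/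
lemma kil_step (h : Ch m z l n) {i : ℕ} (hi : i + 1 < n) {T : Set Ω} (hT : (m (i + 1)).Dat T)
    (ht : TanS d T θ) : (θ (z i ^ 2) = 0 ∧ θ (lc m z i) = 0) ↔
      θ (z (i + 1) ^ 2) = 0 ∧ θ (lc m z (i + 1)) = 0 := by
  constructor
  · rintro ⟨h1, h2⟩
    have k := (m (i + 1)).kil_of_line hT ht (h.e i (by omega)).g1 h1 (h.lc_eq (i := i) (by omega) ▸ h2)
    have h3 : θ (z (i + 1) ^ 2) = 0 := by
      rw [h.sq_eq' hi]
      exact mem_Kr.1 (div_mem (pow_mem (mem_Kr.2 (k _ hT.hw)) _) (mem_Kr.2 h1))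
    exact ⟨h3, mem_Kr.1 (sub_mem (mem_Kr.2 (k _ hT.hx))
      (mul_mem (mem_Kr.2 h3) (mem_Kr.2 (k _ hT.hy))))⟩
  · rintro ⟨h1, h2⟩
    have k := (m (i + 1)).kil_of_line hT ht (h.e _ hi).g0 h1 h2
    have h3 : θ (z i ^ 2) = 0 := by
      rw [h.sq_eq hi]
      exact mem_Kr.1 (div_mem (pow_mem (mem_Kr.2 (k _ hT.hw)) _) (mem_Kr.2 h1))
    rw [h.lc_eq (by omega)]
    exact ⟨h3, mem_Kr.1 (sub_mem (mem_Kr.2 (k _ hT.hx))
      (mul_mem (mem_Kr.2 h3) (mem_Kr.2 (k _ hT.hy))))⟩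

/-- A derivation tangent to the inner mirrors that kills one line kills all lines. -/
lemma kil_line (h : Ch m z l n) (hS : ∀ i, 0 < i → i < n → (m i).Dat (S i))
    (ht : ∀ i, 0 < i → i < n → TanS d (S i) θ) {j : ℕ} (hj : j < n) (h1 : θ (z j ^ 2) = 0)
    (h2 : θ (lc m z j) = 0) {i : ℕ} (hi : i < n) : θ (z i ^ 2) = 0 ∧ θ (lc m z i) = 0 :=
  (nat_conn (p := fun i => θ (z i ^ 2) = 0 ∧ θ (lc m z i) = 0) (a := 0) (b := n - 1)
    (fun k _ hk => h.kil_step (by omega) (hS _ (by omega) (by omega)) (ht _ (by omega) (by omega)))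
    (Nat.zero_le _) (by omega) (Nat.zero_le _) (by omega)).1 ⟨h1, h2⟩

lemma kil_Inn (h : Ch m z l n) (hS : ∀ i, 0 < i → i < n → (m i).Dat (S i))
    (ht : ∀ i, 0 < i → i < n → TanS d (S i) θ) {j : ℕ} (hj : j < n) (h1 : θ (z j ^ 2) = 0)
    (h2 : θ (lc m z j) = 0) : Kil (Inn m z S n) θ :=
  have k := fun i hi => h.kil_line hS ht hj h1 h2 (i := i) hi
  fun _ hf => Inn_subset (T := Kr θ) (k 0 (by omega)).1 (k 0 (by omega)).2 (fun i h0 hi =>
    (m i).kil_of_line (hS i h0 hi) (ht i h0 hi) (h.e i hi).g0 (k i hi).1 (k i hi).2) hf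

/-- Across algebraic mirrors. -/
lemma kil_alg (hd : Amb d) (h : Ch m z l n) {j k : ℕ} (hjk : j ≤ k) (hk : k < n)
    (ha : ∀ i, j < i → i ≤ k → ¬(m i).Tr) : (θ (z j ^ 2) = 0 ∧ θ (lc m z j) = 0) ↔
      θ (z k ^ 2) = 0 ∧ θ (lc m z k) = 0 :=
  nat_conn (p := fun i => θ (z i ^ 2) = 0 ∧ θ (lc m z i) = 0) (a := j) (b := k)
    (fun i h1 h2 => h.kil_step (by omega) ((m _).dat_H hd)
      ((m _).tan_alg (ha _ (by omega) (by omega)) θ)) le_rfl hjk hjk le_rfl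

lemma line_mem (h : Ch m z l n) (hS : ∀ i, 0 < i → i < n → (m i).Dat (S i)) {i : ℕ} (hi : i < n) :
    z i ∈ cl C (Inn m z S n) ∧ z i ^ 2 ∈ cl C (Inn m z S n) ∧ lc m z i ∈ cl C (Inn m z S n) := by
  have k := fun (θ : Der C Ω) (hθ : Kil (Inn m z S n) θ) => h.kil_line hS
    (fun i h0 h1 => (hθ.mono (sub_Inn h0 h1)).tanS) (j := 0) (by omega) (hθ _ s0_mem)
    (hθ _ c0_mem) hi
  exact ⟨mem_cl_of_kil fun θ hθ => (kil_sq (h.e i hi).z0).1 (k θ hθ).1,
    mem_cl_of_kil fun θ hθ => (k θ hθ).1, mem_cl_of_kil fun θ hθ => (k θ hθ).2⟩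

lemma line_mem_H (hd : Amb d) (h : Ch m z l n) {i : ℕ} (hi : i < n) :
    z i ∈ cl C (Inn m z (HS m) n) ∧ z i ^ 2 ∈ cl C (Inn m z (HS m) n) ∧
      lc m z i ∈ cl C (Inn m z (HS m) n) :=
  h.line_mem (fun i _ _ => (m i).dat_H hd) hi

/-- A derivation tangent to the inner mirrors agrees with a tangent one on the inner data. -/
lemma agr_Inn (h : Ch m z l n) (hn : 0 < n) (hS : ∀ i, 0 < i → i < n → (m i).Dat (S i))
    (ht : ∀ i, 0 < i → i < n → TanS d (S i) θ) : ∃ Z, d.Tn Z ∧ Kil (Inn m z S n) (θ - Z) := by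
  obtain ⟨Z, h1, h2, h3⟩ := exists_tn (h.Jsc hn) (θ (z 0 ^ 2)) (θ (lc m z 0))
  exact ⟨Z, h1, h.kil_Inn hS (fun i a b => (ht i a b).sub (tanS_tn h1)) hn
    (by rw [Derivation.sub_apply, h2, sub_self]) (by rw [Derivation.sub_apply, h3, sub_self])⟩

lemma kil_first (h : Ch m z l n) (hn : 0 < n) {T : Set Ω} (hT : (m 0).Dat T) (ht : TanS d T θ)
    (h1 : θ (z 0 ^ 2) = 0) (h2 : θ (lc m z 0) = 0) : Kil T θ :=
  (m 0).kil_of_line hT ht (h.e 0 hn).g0 h1 h2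

lemma kil_last (h : Ch m z l (n + 1)) {T : Set Ω} (hT : (m (n + 1)).Dat T) (ht : TanS d T θ)
    (h1 : θ (z n ^ 2) = 0) (h2 : θ (lc m z n) = 0) : Kil T θ :=
  (m (n + 1)).kil_of_line hT ht (h.e n n.lt_succ_self).g1 h1 (h.lc_eq n.lt_succ_self ▸ h2)

/-- Free deformation of the last mirror. -/
lemma lift_last (hd : Amb d) (h : Ch m z l (n + 1)) (hD : Dec (fun i => m (i + 1)) n)
    (θ t : Der C Ω) : ∃ φ : Der C Ω, Agr (Inn m z (HS m) (n + 1)) φ θ ∧ (m (n + 1)).Tan (φ - t) := by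
  obtain ⟨φ, hφ⟩ := hD fun i => if i = n then t else θ
  obtain ⟨Z, h1, h2⟩ := h.agr_Inn (S := HS m) (θ := φ - θ) n.succ_pos (fun i _ _ => (m i).dat_H hd)
    fun i a b => by
      obtain ⟨i, rfl⟩ : ∃ k, i = k + 1 := ⟨i - 1, by omega⟩
      simpa [show i ≠ n by omega, Pt.Tan, HS] using hφ i (by omega)
  refine ⟨φ - Z, agr_iff.2 (by rwa [sub_right_comm]), ?_⟩
  rw [sub_right_comm]
  exact TanS.sub (by simpa [Pt.Tan] using hφ n le_rfl) (tanS_tn h1)

/-- Free deformation of the first mirror. -/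
lemma lift_first (hd : Amb d) (h : Ch m z l (n + 1)) (hD : Dec m n) (θ t : Der C Ω) :
    ∃ φ : Der C Ω, Agr (Inn m z (HS m) (n + 1)) φ θ ∧ (m 0).Tan (φ - t) := by
  obtain ⟨φ, hφ⟩ := hD fun i => if i = 0 then t else θ
  obtain ⟨Z, h1, h2⟩ := h.agr_Inn (S := HS m) (θ := φ - θ) n.succ_pos (fun i _ _ => (m i).dat_H hd)
    fun i a b => by simpa [show i ≠ 0 by omega, Pt.Tan, HS] using hφ i (by omega)
  refine ⟨φ - Z, agr_iff.2 (by rwa [sub_right_comm]), ?_⟩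
  rw [sub_right_comm]
  exact TanS.sub (by simpa [Pt.Tan] using hφ 0 (Nat.zero_le _)) (tanS_tn h1)

lemma ind_last (hd : Amb d) (h : Ch m z l (n + 1)) (hD : Dec (fun i => m (i + 1)) n) :
    Ind C (HS m (n + 1)) (Inn m z (HS m) (n + 1)) {z n ^ 2, lc m z n} := fun θ hθ => by
  obtain ⟨φ, h1, h2⟩ := h.lift_last hd hD θ 0
  have k := h.line_mem_H hd n.lt_succ_self
  exact ⟨φ, h.kil_last ((m _).dat_H hd) (by simpa [Pt.Tan, HS] using h2)
    ((h1.cl _ k.2.1).trans (hθ _ (Or.inl rfl))) ((h1.cl _ k.2.2).trans (hθ _ (Or.inr rfl))), h1⟩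

lemma ind_first (hd : Amb d) (h : Ch m z l (n + 1)) (hD : Dec m n) :
    Ind C (HS m 0) (Inn m z (HS m) (n + 1)) {z 0 ^ 2, lc m z 0} := fun θ hθ => by
  obtain ⟨φ, h1, h2⟩ := h.lift_first hd hD θ 0
  exact ⟨φ, h.kil_first n.succ_pos ((m _).dat_H hd) (by simpa [Pt.Tan, HS] using h2)
    ((h1 _ s0_mem).trans (hθ _ (Or.inl rfl))) ((h1 _ c0_mem).trans (hθ _ (Or.inr rfl))), h1⟩

omit [CharZero Ω] in
lemma aux_tr {q : Pt d} {φ t : Der C Ω} (h : q.Tan (φ - t)) (h1 : t q.y = 0) (h2 : t q.x = 1)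
    (h3 : φ q.y = 0) : φ q.x = 1 := by
  have := q.dx_of_tanS q.xH q.yH h
  simp only [Derivation.sub_apply, h1, h2, h3, sub_zero, zero_mul] at this
  linear_combination this

lemma last_tr (hd : Amb d) (h : Ch m z l (n + 1)) (hD : Dec (fun i => m (i + 1)) n)
    (ht : (m (n + 1)).Tr) : (m (n + 1)).y ∉ cl C (Inn m z (HS m) (n + 1)) := fun hy => by
  obtain ⟨t, t1, t2⟩ := sep ht
  obtain ⟨φ, h1, h2⟩ := h.lift_last hd hD 0 t
  have k := h.line_mem_H hd n.lt_succ_self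
  have h3 : φ (m (n + 1)).y = 0 := h1.cl _ hy
  have h4 : φ (lc m z n) = 0 := h1.cl _ k.2.2
  have h5 : φ (z n ^ 2) = 0 := h1.cl _ k.2.1
  rw [h.lc_eq n.lt_succ_self, map_sub, Derivation.leibniz, h3, h5, aux_tr h2 (t1 _ rfl) t2 h3] at h4
  simp at h4

lemma first_tr (hd : Amb d) (h : Ch m z l (n + 1)) (hD : Dec m n) (ht : (m 0).Tr) :
    (m 0).y ∉ cl C (Inn m z (HS m) (n + 1)) := fun hy => by
  obtain ⟨t, t1, t2⟩ := sep ht
  obtain ⟨φ, h1, h2⟩ := h.lift_first hd hD 0 t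
  have h3 : φ (m 0).y = 0 := h1.cl _ hy
  have h4 : φ (lc m z 0) = 0 := h1 _ c0_mem
  have h5 : φ (z 0 ^ 2) = 0 := h1 _ s0_mem
  rw [lc, map_sub, Derivation.leibniz, h3, h5, aux_tr h2 (t1 _ rfl) t2 h3] at h4
  simp at h4

lemma first_alg (hd : Amb d) (h : Ch m z l (n + 1)) (ht : ¬(m 0).Tr) :
    HS m 0 ⊆ cl C (Inn m z (HS m) (n + 1)) := fun f hf =>
  mem_cl_of_kil fun θ hθ => h.kil_first n.succ_pos ((m 0).dat_H hd) ((m 0).tan_alg ht θ)
    (hθ _ s0_mem) (hθ _ c0_mem) f hf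

/-- Stability of a field containing the inner data. -/
lemma stab_line (hd : Amb d) (h : Ch m z l n) {K : IntermediateField C Ω}
    (hK : cl C (Inn m z (HS m) n) ≤ K) (hZ : d.Tn Z) {j : ℕ} (hj : j < n) (h1 : Z (z j ^ 2) ∈ K)
    (h2 : Z (lc m z j) ∈ K) {i : ℕ} (hi : i < n) : Z (z i ^ 2) ∈ K ∧ Z (lc m z i) ∈ K := by
  refine (nat_conn (p := fun i => Z (z i ^ 2) ∈ K ∧ Z (lc m z i) ∈ K) (a := 0) (b := n - 1)
    (fun k _ hk => ?_) (Nat.zero_le _) (by omega) (Nat.zero_le _) (by omega)).1 ⟨h1, h2⟩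
  have hH : (m (k + 1)).H ≤ K := fun f hf =>
    hK (subset_cl _ (sub_Inn (S := HS m) k.succ_pos (by omega) hf))
  have a1 := hK (h.line_mem_H hd (i := k) (by omega)).2.1
  have a2 := hK (h.line_mem_H hd (i := k + 1) (by omega)).2.1
  have a3 : Z (m (k + 1)).y ∈ K → ∀ f ∈ (m (k + 1)).H, f ∈ St Z K := fun e f hf =>
    ⟨hH hf, (m _).stab_H hd hZ hH e hf⟩
  have hw := (m (k + 1)).wH hd
  constructor
  · rintro ⟨b1, b2⟩
    have b3 := a3 ((m _).dy_mem hZ (hH (m _).yH) (hH hw) a1 (h.e k (by omega)).g1 b1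
      (h.lc_eq (i := k) (by omega) ▸ b2))
    have b4 : z (k + 1) ^ 2 ∈ St Z K := by
      rw [h.sq_eq' (by omega)]; exact div_mem (pow_mem (b3 _ hw) _) ⟨a1, b1⟩
    exact ⟨b4.2, (sub_mem (b3 _ (m _).xH) (mul_mem b4 (b3 _ (m _).yH))).2⟩
  · rintro ⟨b1, b2⟩
    have b3 := a3 ((m _).dy_mem hZ (hH (m _).yH) (hH hw) a2 (h.e (k + 1) (by omega)).g0 b1 b2)
    have b4 : z k ^ 2 ∈ St Z K := by
      rw [h.sq_eq (by omega)]; exact div_mem (pow_mem (b3 _ hw) _) ⟨a2, b1⟩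
    rw [h.lc_eq (by omega)]
    exact ⟨b4.2, (sub_mem (b3 _ (m _).xH) (mul_mem b4 (b3 _ (m _).yH))).2⟩

lemma stab_Inn (hd : Amb d) (h : Ch m z l n) {K : IntermediateField C Ω}
    (hK : cl C (Inn m z (HS m) n) ≤ K) (hZ : d.Tn Z) {j : ℕ} (hj : j < n) (h1 : Z (z j ^ 2) ∈ K)
    (h2 : Z (lc m z j) ∈ K) : ∀ f ∈ Inn m z (HS m) n, Z f ∈ K := by
  have k := fun i hi => h.stab_line hd hK hZ hj h1 h2 (i := i) hi
  refine Inn_subset (T := {f | Z f ∈ K}) (k 0 (by omega)).1 (k 0 (by omega)).2 fun i h0 hi f hf => ?_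
  have hH : (m i).H ≤ K := fun f hf => hK (subset_cl _ (sub_Inn (S := HS m) h0 hi hf))
  exact (m i).stab_H hd hZ hH ((m i).dy_mem hZ (hH (m i).yH) (hH ((m i).wH hd))
    (hK (h.line_mem_H hd hi).2.1) (h.e i hi).g0 (k i hi).1 (k i hi).2) hf

lemma pres_Inn (hd : Amb d) (h : Ch m z l n) (hZ : d.Tn Z) {j : ℕ} (hj : j < n)
    (h1 : Z (z j ^ 2) ∈ cl C (Inn m z (HS m) n)) (h2 : Z (lc m z j) ∈ cl C (Inn m z (HS m) n)) :
    Pres (cl C (Inn m z (HS m) n)) Z := pres_cl (h.stab_Inn hd le_rfl hZ hj h1 h2)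

lemma pres_Inn0 (hd : Amb d) (h : Ch m z l n) (hZ : d.Tn Z) {j : ℕ} (hj : j < n)
    (h1 : Z (z j ^ 2) ∈ cl C (Inn m z (HS m) n ∪ HS m 0))
    (h2 : Z (lc m z j) ∈ cl C (Inn m z (HS m) n ∪ HS m 0)) :
    Pres (cl C (Inn m z (HS m) n ∪ HS m 0)) Z := by
  have hK : cl C (Inn m z (HS m) n) ≤ cl C (Inn m z (HS m) n ∪ HS m 0) := cl_mono subset_union_left
  refine pres_cl fun f hf => hf.elim (h.stab_Inn hd hK hZ hj h1 h2 f) fun hf => ?_
  have hH : (m 0).H ≤ cl C (Inn m z (HS m) n ∪ HS m 0) := fun f hf => subset_cl _ (Or.inr hf)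
  have k := h.stab_line hd hK hZ hj h1 h2 (i := 0) (by omega)
  exact (m 0).stab_H hd hZ hH ((m 0).dy_mem hZ (hH (m 0).yH) (hH ((m 0).wH hd))
    (subset_cl _ (Or.inl s0_mem)) (h.e 0 (by omega)).g0 k.1 k.2) hf

/-- The frame of a line. -/
lemma pen (h : Ch m z l n) {j : ℕ} (hj : j < n) {K : IntermediateField C Ω} {y : Ω}
    (hs : z j ^ 2 ∈ K) (hc : lc m z j ∈ K)
    (hp : ∀ Z, d.Tn Z → Z (z j ^ 2) ∈ K → Z (lc m z j) ∈ K → Pres K Z) (hy : y ∉ cl C (K : Set Ω)) :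
    Pen d K (z j ^ 2) (lc m z j) y (d.nb (lc m z j) (z j ^ 2)) (d.nb (z j ^ 2) (lc m z j)) := by
  have e1 := Two.nb_one (Two.J_ne_symm (h.Jsc hj))
  have e2 := Two.nb_one (h.Jsc hj)
  exact ⟨hs, hc, Two.tn_nb _ _, Two.tn_nb _ _, e1, Two.nb_self _ _, Two.nb_self _ _, e2,
    hp _ (Two.tn_nb _ _) (e1 ▸ one_mem _) (Two.nb_self (d := d) _ _ ▸ zero_mem _),
    hp _ (Two.tn_nb _ _) (Two.nb_self (d := d) _ _ ▸ zero_mem _) (e2 ▸ one_mem _), hy⟩

/-- First variation of the length. -/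
lemma dlen (h : Ch m z l (n + 1)) (hZ : d.Tn Z) : 2 * Z (∑ i ∈ Finset.range (n + 1), l i) =
    (Z (m (n + 1)).x / z n + z n * Z (m (n + 1)).y) - (Z (m 0).x / z 0 + z 0 * Z (m 0).y) := by
  have one : ∀ i < n + 1, 2 * Z (l i) = (Z (m (i + 1)).x / z i + z i * Z (m (i + 1)).y) -
      (Z (m i).x / z i + z i * Z (m i).y) := fun i hi => by
    have e := h.e i hi
    have h1 := congrArg Z e.ex
    have h2 := congrArg Z e.ey
    have h3 := e.z0
    simp only [map_sub, Derivation.leibniz, smul_eq_mul] at h1 h2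
    field_simp
    linear_combination -h1 - z i * h2 + Z (z i) * e.ey
  induction n with
  | zero => simpa using one 0 one_pos
  | succ n ih =>
    rw [Finset.sum_range_succ, map_add, mul_add, ih (h.mono (by omega)) fun i hi => one i (by omega),
      one (n + 1) (by omega), (m (n + 1)).dx hZ, ← h.r n (by omega)]
    have h1 := (h.e n (by omega)).z0
    have h2 := (h.e (n + 1) (by omega)).z0
    field_simp
    ring

end Ch

lemma Pos.sum {P : Set Ω} (hP : Pos P) (h : ∀ i < n + 1, l i ∈ P) :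
    ∑ i ∈ Finset.range (n + 1), l i ∈ P := by
  induction n with
  | zero => simpa using h 0 one_pos
  | succ n ih =>
    rw [Finset.sum_range_succ]
    exact hP.add _ (ih fun i hi => h i (by omega)) _ (h _ (by omega))

/-- The length of a twisted periodic family is constant. -/
lemma Tw.len [CharZero Ω] {g : Iso C} (hd : Amb d) (h : Tw g m z l n) :
    ∑ i ∈ Finset.range (n + 1), l i ∈ (⊥ : IntermediateField C Ω) := by
  have key : ∀ Z, d.Tn Z → Z (∑ i ∈ Finset.range (n + 1), l i) = 0 := fun Z hZ => by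
    have h1 := h.ch.dlen hZ
    have h2 := (h.ch.e n n.lt_succ_self).z0
    have h3 := (h.ch.e 0 n.succ_pos).z0
    have h4 := g.β0 (Ω := Ω)
    have h5 := (m 0).w0
    have h6 : (m (n + 1)).w = g.pw (m 0).w := (m (n + 1)).w_eq (m' := (m 0).act g) h.hx h.hy
    have h7 := h.hr
    rw [(m (n + 1)).dx hZ, ← h7, h.hy, (m 0).dx hZ] at h1
    rw [h6] at h7
    refine mul_left_cancel₀ (two_ne_zero' Ω) (h1.trans ?_)
    cases e : g.e <;> simp only [Iso.py, Iso.pz, Iso.pw, e, if_true, if_false, Bool.false_eq_true,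
      map_add, Derivation.leibniz, Derivation.leibniz_inv, smul_eq_mul, Derivation.map_algebraMap,
      mul_zero, add_zero, (m 0).dx hZ] at h7 ⊢
    · have h8 : z n = algebraMap C Ω g.β * (m 0).w / z 0 := by
        field_simp at h7 ⊢
        linear_combination h7
      rw [h8]; field_simp; ring
    · have h8 : z n = algebraMap C Ω g.β * z 0 / (m 0).w := by
        field_simp at h7 ⊢
        linear_combination h7
      rw [h8]; field_simp; ring
  exact hd.const _ (key _ tn_d0) (key _ tn_d1)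

end Pool.Agent.MP_249f74_an.H96
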