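import Pool.Agent.MP_249f74_an.H96.Calc

/-!
Chains of reflections in a field with two commuting derivations.
-/

open Set IntermediateField

namespace Pool.Agent.MP_249f74_an.H96

open H17 (Der Two Kr St mem_Kr mem_St kill_cl stab_cl cl_le cl_mono mem_cl_iff)
open H88 (rk cl subset_cl coe_cl mem_cl)

variable {C Ω : Type} [Field C] [Field Ω] [Algebra C Ω]

section Conj

/-- Conjugate of a derivation. -/
def cj (σ : Ω ≃ₐ[C] Ω) (θ : Der C Ω) : Der C Ω :=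
  Derivation.mk' (σ.toLinearMap ∘ₗ θ.toLinearMap ∘ₗ σ.symm.toLinearMap) fun a b => by simp

@[simp] lemma cj_apply (σ : Ω ≃ₐ[C] Ω) (θ : Der C Ω) (f : Ω) : cj σ θ f = σ (θ (σ.symm f)) := rfl

lemma cj_cj (σ : Ω ≃ₐ[C] Ω) (θ : Der C Ω) : cj σ (cj σ.symm θ) = θ := by ext; simp

lemma cj_cj' (σ : Ω ≃ₐ[C] Ω) (θ : Der C Ω) : cj σ.symm (cj σ θ) = θ := by ext; simp

lemma cj_br (σ : Ω ≃ₐ[C] Ω) (θ φ : Der C Ω) : cj σ ⁅θ, φ⁆ = ⁅cj σ θ, cj σ φ⁆ := by
  ext; simp [br_apply]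

lemma kil_cj {σ : Ω ≃ₐ[C] Ω} {θ : Der C Ω} {S : Set Ω} : Kil (σ '' S) (cj σ θ) ↔ Kil S θ := by
  simp [Kil]

lemma kil_cj' {σ : Ω ≃ₐ[C] Ω} {θ : Der C Ω} {S : Set Ω} : Kil S (cj σ.symm θ) ↔ Kil (σ '' S) θ := by
  simp [Kil]

/-- Transport of a form. -/
def push (σ : Ω ≃ₐ[C] Ω) (ω : Fm C Ω) : Fm C Ω where
  toFun θ := σ (ω (cj σ.symm θ))
  map_add' θ φ := by
    rw [show cj σ.symm (θ + φ) = cj σ.symm θ + cj σ.symm φ by ext; simp, map_add, map_add]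
  map_smul' a θ := by
    rw [show cj σ.symm (a • θ) = σ.symm a • cj σ.symm θ by ext; simp, map_smul]; simp

@[simp] lemma push_apply (σ : Ω ≃ₐ[C] Ω) (ω : Fm C Ω) (θ : Der C Ω) :
    push σ ω θ = σ (ω (cj σ.symm θ)) := rfl

lemma Cls.push {ω : Fm C Ω} (h : Cls ω) (σ : Ω ≃ₐ[C] Ω) : Cls (push σ ω) := fun θ φ => by
  have := congrArg σ (h (cj σ.symm θ) (cj σ.symm φ))
  simpa [dd, ← cj_br] using this

lemma Van.push {ω : Fm C Ω} {S : Set Ω} (h : Van ω S) (σ : Ω ≃ₐ[C] Ω) :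
    Van (push σ ω) (σ '' S) := fun θ hθ => by rw [push_apply, h _ (kil_cj'.2 hθ), map_zero]

/-- A closed form is invariant under the automorphisms over a field of definition. -/
lemma Van.push_eq [CharZero Ω] {ω : Fm C Ω} {S : Set Ω} (h : Van ω S) (hS : S.Finite) (hc : Cls ω)
    {σ : Ω ≃ₐ[C] Ω} (hσ : ∀ f ∈ cl C S, σ f = f) : H96.push σ ω = ω := by
  obtain ⟨n, a, b, h1, h2, h3⟩ := h.coef hS hc
  ext1 θ
  simp [h3, hσ _ (h1 _), hσ _ (subset_cl _ (h2 _))]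

lemma Ind.push {X K K0 : Set Ω} (h : Ind C X K K0) (σ : Ω ≃ₐ[C] Ω) :
    Ind C (σ '' X) (σ '' K) (σ '' K0) := fun θ hθ => by
  obtain ⟨φ, h1, h2⟩ := h _ (kil_cj'.2 hθ)
  refine ⟨cj σ φ, kil_cj.2 h1, ?_⟩
  rintro _ ⟨f, hf, rfl⟩
  simp [h2 f hf]

lemma mem_cl_image {σ : Ω ≃ₐ[C] Ω} {S : Set Ω} {x : Ω} : σ x ∈ cl C (σ '' S) ↔ x ∈ cl C S :=
  ⟨fun h => by simpa [image_image] using H17.map_mem_cl (σ.symm : Ω →ₐ[C] Ω) h,
    H17.map_mem_cl (σ : Ω →ₐ[C] Ω)⟩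

end Conj

/-- The derivations commute and `C` is the field of constants. -/
structure Amb (d : Two C Ω) : Prop where
  comm : ∀ f, d.d0 (d.d1 f) = d.d1 (d.d0 f)
  const : ∀ f, d.d0 f = 0 → d.d1 f = 0 → f ∈ (⊥ : IntermediateField C Ω)

/-- A point of a mirror with tangent `dx = w dy`. -/
structure Pt (d : Two C Ω) where
  /-- first isotropic coordinate -/
  x : Ω
  /-- second isotropic coordinate -/
  y : Ω
  /-- slope -/
  w : Ω
  w0 : w ≠ 0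
  ny : d.d0 y ≠ 0 ∨ d.d1 y ≠ 0
  tan : d.Sl y x w

/-- On `S` the derivation `θ` is a combination of the two given ones. -/
def TanS (d : Two C Ω) (S : Set Ω) (θ : Der C Ω) : Prop := ∃ Z, d.Tn Z ∧ Agr S θ Z

variable {d : Two C Ω}

/-- Transcendental mirror. -/
def Pt.Tr (m : Pt d) : Prop := m.x ∉ cl C {m.y}

open Classical in
/-- The field attached to a mirror. -/
noncomputable def Pt.H (m : Pt d) : IntermediateField C Ω :=
  if m.Tr then Kr (d.br m.y) else cl C {m.y}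

/-- Derivations tangent to a mirror. -/
def Pt.Tan (m : Pt d) (θ : Der C Ω) : Prop := TanS d m.H θ

/-- The segment from `m` to `m'` has direction `(z, 1 / z)` and length `l`. -/
structure Edge (m m' : Pt d) (z l : Ω) : Prop where
  ex : m'.x - m.x = l * z
  ey : (m'.y - m.y) * z = l
  z0 : z ≠ 0
  l0 : l ≠ 0
  g0 : m.w ≠ z ^ 2
  g1 : m'.w ≠ z ^ 2
  nd : d.J m.y z ≠ 0

/-- A chain with vertices `0, …, n`. -/
structure Ch (m : ℕ → Pt d) (z l : ℕ → Ω) (n : ℕ) : Prop where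
  e : ∀ i < n, Edge (m i) (m (i + 1)) (z i) (l i)
  r : ∀ i, i + 1 < n → z i * z (i + 1) = (m (i + 1)).w

/-- The mirrors `0, …, n` can be deformed independently. -/
def Dec (m : ℕ → Pt d) (n : ℕ) : Prop :=
  ∀ t : ℕ → Der C Ω, ∃ θ : Der C Ω, ∀ i ≤ n, (m i).Tan (θ - t i)

/-- The line `i` is `x = lc m z i + z i ^ 2 * y`. -/
def lc (m : ℕ → Pt d) (z : ℕ → Ω) (i : ℕ) : Ω := (m i).x - z i ^ 2 * (m i).y

/-- The first line and the data of the inner mirrors. -/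
def Inn (m : ℕ → Pt d) (z : ℕ → Ω) (S : ℕ → Set Ω) (n : ℕ) : Set Ω :=
  {z 0 ^ 2, lc m z 0} ∪ ⋃ i ∈ Ioo 0 n, S i

/-- The fields of the mirrors as sets. -/
def HS (m : ℕ → Pt d) (i : ℕ) : Set Ω := (m i).H

/-- Complex isometries of the plane. -/
structure Iso (C : Type) [Field C] where
  /-- orientation reversing -/
  e : Bool
  /-- rotation -/
  β : C
  /-- translation -/
  a : C
  /-- translation -/
  b : C
  hβ : β ≠ 0

namespace Iso

variable (g : Iso C)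

/-- action on the first coordinate -/
def px (x y : Ω) : Ω := algebraMap C Ω g.β * (if g.e then y else x) + algebraMap C Ω g.a

/-- action on the second coordinate -/
def py (x y : Ω) : Ω := (algebraMap C Ω g.β)⁻¹ * (if g.e then x else y) + algebraMap C Ω g.b

/-- action on directions -/
def pz (z : Ω) : Ω := algebraMap C Ω g.β * (if g.e then z⁻¹ else z)

/-- action on slopes -/
def pw (w : Ω) : Ω := algebraMap C Ω g.β ^ 2 * (if g.e then w⁻¹ else w)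

lemma β0 : algebraMap C Ω g.β ≠ 0 := (_root_.map_ne_zero _).2 g.hβ

end Iso

/-- A chain whose end is the image of its beginning under an isometry. -/
structure Tw (g : Iso C) (m : ℕ → Pt d) (z l : ℕ → Ω) (n : ℕ) : Prop where
  ch : Ch m z l (n + 1)
  hx : (m (n + 1)).x = g.px (m 0).x (m 0).y
  hy : (m (n + 1)).y = g.py (m 0).x (m 0).y
  hr : z n * g.pz (z 0) = (m (n + 1)).w

/-- A set of positive elements. -/
structure Pos (P : Set Ω) : Prop where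
  add : ∀ a ∈ P, ∀ b ∈ P, a + b ∈ P
  ne : (0 : Ω) ∉ P

/-- A point of a generic line that is transcendental over a differential field. -/
structure Pen (d : Two C Ω) (K : IntermediateField C Ω) (s c y : Ω) (ds dc : Der C Ω) : Prop where
  hs : s ∈ K
  hc : c ∈ K
  t1 : d.Tn ds
  t2 : d.Tn dc
  e11 : ds s = 1
  e12 : ds c = 0
  e21 : dc s = 0
  e22 : dc c = 1
  p1 : Pres K ds
  p2 : Pres K dc
  hy : y ∉ cl C (K : Set Ω)

section Tn

variable {Z Z' θ φ : Der C Ω} {S T : Set Ω}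

lemma tn_zero : d.Tn 0 := ⟨0, 0, fun f => by simp⟩

lemma tn_d0 : d.Tn d.d0 := ⟨1, 0, fun f => by simp⟩

lemma tn_d1 : d.Tn d.d1 := ⟨0, 1, fun f => by simp⟩

lemma tn_br (hd : Amb d) (h : d.Tn Z) (h' : d.Tn Z') : d.Tn ⁅Z, Z'⁆ := by
  obtain ⟨a, b, h1⟩ := h
  obtain ⟨a', b', h2⟩ := h'
  refine ⟨Z a' - Z' a, Z b' - Z' b, fun f => ?_⟩
  simp only [br_apply, h1, h2, map_add, Derivation.leibniz, smul_eq_mul, hd.comm]
  ring

/-- Prescribing a tangent derivation on two coordinates. -/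
lemma exists_tn {f g : Ω} (h : d.J f g ≠ 0) (a b : Ω) : ∃ Z, d.Tn Z ∧ Z f = a ∧ Z g = b :=
  ⟨a • d.nb g f + b • d.nb f g, ((Two.tn_nb _ _).smul _).add ((Two.tn_nb _ _).smul _),
    by simp [Two.nb_self, Two.nb_one (Two.J_ne_symm h)],
    by simp [Two.nb_self, Two.nb_one h]⟩

lemma J_ne_of_dual {f g : Ω} (h : d.Tn Z) (h' : d.Tn Z') (e : Z f * Z' g - Z' f * Z g ≠ 0) :
    d.J f g ≠ 0 := fun h0 => by
  obtain ⟨a, b, h1⟩ := h
  obtain ⟨a', b', h2⟩ := h'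
  refine e ?_
  simp only [h1, h2, Two.J] at h0 ⊢
  linear_combination (a * b' - a' * b) * h0

lemma TanS.mono (h : TanS d T θ) (hS : S ⊆ T) : TanS d S θ :=
  h.imp fun _ h => ⟨h.1, h.2.mono hS⟩

lemma tanS_tn (h : d.Tn Z) : TanS d S Z := ⟨Z, h, fun _ _ => rfl⟩

lemma Kil.tanS (h : Kil S θ) : TanS d S θ := ⟨0, tn_zero, h⟩

lemma TanS.of_agr (h : TanS d S φ) (h' : Agr S θ φ) : TanS d S θ :=
  h.imp fun _ h => ⟨h.1, h'.trans h.2⟩

lemma TanS.add (h : TanS d S θ) (h' : TanS d S φ) : TanS d S (θ + φ) := by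
  obtain ⟨Z, h1, h2⟩ := h
  obtain ⟨Z', h3, h4⟩ := h'
  exact ⟨Z + Z', h1.add h3, fun f hf => by simp [h2 f hf, h4 f hf]⟩

lemma TanS.smul (h : TanS d S θ) (a : Ω) : TanS d S (a • θ) := by
  obtain ⟨Z, h1, h2⟩ := h
  exact ⟨a • Z, h1.smul a, fun f hf => by simp [h2 f hf]⟩

lemma TanS.neg (h : TanS d S θ) : TanS d S (-θ) := by simpa using h.smul (-1)

lemma TanS.sub (h : TanS d S θ) (h' : TanS d S φ) : TanS d S (θ - φ) := by
  simpa [sub_eq_add_neg] using h.add h'.neg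

lemma TanS.sum {ι : Type} (s : Finset ι) {t : ι → Der C Ω} (h : ∀ i ∈ s, TanS d S (t i)) :
    TanS d S (∑ i ∈ s, t i) :=
  Finset.sum_induction _ _ (fun _ _ => TanS.add) (tanS_tn tn_zero) h

end Tn

namespace Pt

variable (m : Pt d) {Z Z' θ φ : Der C Ω}

lemma exists_one : ∃ Z, d.Tn Z ∧ Z m.y = 1 :=
  m.ny.elim (fun h => ⟨(d.d0 m.y)⁻¹ • d.d0, tn_d0.smul _, by simp [h]⟩)
    fun h => ⟨(d.d1 m.y)⁻¹ • d.d1, tn_d1.smul _, by simp [h]⟩

lemma dx (hZ : d.Tn Z) : Z m.x = Z m.y * m.w := hZ.sl m.tan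

lemma Jx (f : Ω) : d.J m.x f = m.w * d.J m.y f := m.tan.J f

/-- On the constants of the pencil all tangent derivations are proportional. -/
lemma prop (hZ : d.Tn Z) (h1 : Z m.y = 1) (hZ' : d.Tn Z') {f : Ω} (hf : d.J m.y f = 0) :
    Z' f = Z' m.y * Z f := by
  obtain ⟨a, b, h⟩ := hZ
  obtain ⟨a', b', h'⟩ := hZ'
  simp only [h, h', Two.J] at *
  linear_combination (-(a' * d.d0 f + b' * d.d1 f)) * h1 + (a * b' - a' * b) * hf

lemma J_eq_zero_iff (hZ : d.Tn Z) (h0 : Z m.y = 0) {t : Ω} (ht : Z t ≠ 0) {f : Ω} :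
    d.J m.y f = 0 ↔ Z f = 0 := by
  refine ⟨fun h => ?_, fun h => hZ.J_eq_zero h0 h ht⟩
  obtain ⟨Z1, h1, h2⟩ := m.exists_one
  rw [m.prop h1 h2 hZ h, h0, zero_mul]

lemma const (hd : Amb d) (hZ : d.Tn Z) (h1 : Z m.y ≠ 0) {f : Ω} (hf : d.J m.y f = 0)
    (h0 : Z f = 0) : f ∈ (⊥ : IntermediateField C Ω) := by
  obtain ⟨Z1, h2, h3⟩ := m.exists_one
  have := m.prop h2 h3 hZ hf
  rw [h0, eq_comm, mul_eq_zero, or_iff_right h1] at this
  exact hd.const f (by rw [m.prop h2 h3 tn_d0 hf, this, mul_zero])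
    (by rw [m.prop h2 h3 tn_d1 hf, this, mul_zero])

/-- The constants of the pencil are stable. -/
lemma pres_Kr (hd : Amb d) (hZ : d.Tn Z) (h1 : d.J m.y (Z m.y) = 0) : Pres (Kr (d.br m.y)) Z :=
  fun f hf => by
    obtain ⟨Z1, h2, h3⟩ := m.exists_one
    have h4 := m.prop h2 h3 (tn_br hd (Two.tn_br m.y) hZ) (f := f) hf
    simpa [br_apply, show d.J m.y f = 0 from hf, h1, Two.J_self] using h4

lemma H_tr (h : m.Tr) : m.H = Kr (d.br m.y) := if_pos h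

lemma H_alg (h : ¬m.Tr) : m.H = cl C {m.y} := if_neg h

lemma Jyx : d.J m.y m.x = 0 := by rw [Two.J_symm, m.Jx, Two.J_self, mul_zero, neg_zero]

lemma Jyw (hd : Amb d) : d.J m.y m.w = 0 := by
  obtain ⟨Z, h1, h2⟩ := m.exists_one
  have := m.pres_Kr hd h1 (by simp [h2, Two.J]) m.x m.Jyx
  rwa [m.dx h1, h2, one_mul] at this

variable [CharZero Ω]

lemma H_le : m.H ≤ Kr (d.br m.y) := by
  by_cases h : m.Tr
  · rw [m.H_tr h]
  · rw [m.H_alg h]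
    exact fun f hf => kill_cl (by simp [Two.J_self]) hf

lemma J_H {f : Ω} (hf : f ∈ m.H) : d.J m.y f = 0 := m.H_le hf

lemma cl_H : cl C (m.H : Set Ω) = m.H := by
  by_cases h : m.Tr
  · rw [m.H_tr h, cl_Kr]
  · rw [m.H_alg h, cl_cl]

omit [CharZero Ω] in
lemma yH : m.y ∈ m.H := by
  by_cases h : m.Tr
  · rw [m.H_tr h]; exact d.J_self _
  · rw [m.H_alg h]; exact subset_cl _ rfl

omit [CharZero Ω] in
lemma xH : m.x ∈ m.H := by
  by_cases h : m.Tr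
  · rw [m.H_tr h]; exact m.Jyx
  · rw [m.H_alg h]; exact not_not.1 h

lemma pres_H (hd : Amb d) (hZ : d.Tn Z) (h1 : Z m.y ∈ m.H) : Pres m.H Z := by
  by_cases h : m.Tr
  · rw [m.H_tr h] at *; exact m.pres_Kr hd hZ h1
  · rw [m.H_alg h] at *; exact pres_cl (by simpa using h1)

lemma wH (hd : Amb d) : m.w ∈ m.H := by
  obtain ⟨Z, h1, h2⟩ := m.exists_one
  have := m.pres_H hd h1 (h2 ▸ one_mem _) m.x m.xH
  rwa [m.dx h1, h2, one_mul] at this

/-- A field containing `H` and `Z y` contains `Z H`. -/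
lemma stab_H (hd : Amb d) (hZ : d.Tn Z) {K : IntermediateField C Ω} (hK : m.H ≤ K)
    (h1 : Z m.y ∈ K) {f : Ω} (hf : f ∈ m.H) : Z f ∈ K := by
  obtain ⟨Z1, h2, h3⟩ := m.exists_one
  rw [m.prop h2 h3 hZ (m.J_H hf)]
  exact mul_mem h1 (hK (m.pres_H hd h2 (h3 ▸ one_mem _) f hf))

lemma tan_alg (h : ¬m.Tr) (θ : Der C Ω) : m.Tan θ := by
  obtain ⟨Z, h1, h2⟩ := m.exists_one
  refine ⟨θ m.y • Z, h1.smul _, ?_⟩
  rw [m.H_alg h]
  exact Agr.cl (by simp [Agr, h2])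

/-- A tangent derivation that kills `y` kills the data of the mirror. -/
lemma kil_of_tanS {S : Set Ω} (hS : S ⊆ m.H) (hy : m.y ∈ S) (h : TanS d S θ) (h0 : θ m.y = 0) :
    Kil S θ := fun f hf => by
  obtain ⟨Z, h1, h2⟩ := h
  obtain ⟨Z1, h3, h4⟩ := m.exists_one
  rw [h2 f hf, m.prop h3 h4 h1 (m.J_H (hS hf)), ← h2 _ hy, h0, zero_mul]

omit [CharZero Ω] in
lemma dx_of_tanS {S : Set Ω} (hx : m.x ∈ S) (hy : m.y ∈ S) (h : TanS d S θ) :
    θ m.x = θ m.y * m.w := by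
  obtain ⟨Z, h1, h2⟩ := h
  rw [h2 _ hx, h2 _ hy, m.dx h1]

lemma Tan.agr {m : Pt d} (h : m.Tan θ) (hZ : d.Tn Z) (h1 : Z m.y = 1) :
    Agr m.H θ (θ m.y • Z) := fun f hf => by
  obtain ⟨Z', h2, h3⟩ := h
  rw [h3 f hf, m.prop hZ h1 h2 (m.J_H hf), h3 _ m.yH]; rfl

lemma Tan.br {m : Pt d} (hd : Amb d) (h : m.Tan θ) (h' : m.Tan φ) : m.Tan ⁅θ, φ⁆ := by
  obtain ⟨Z, h1, h2⟩ := m.exists_one
  have hp := m.pres_H hd h1 (h2 ▸ one_mem _)
  refine ⟨(θ (φ m.y) - φ (θ m.y)) • Z, h1.smul _, fun f hf => ?_⟩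
  rw [br_apply, h.agr h1 h2 f hf, h'.agr h1 h2 f hf]
  simp only [Derivation.smul_apply, smul_eq_mul, Derivation.leibniz,
    h.agr h1 h2 _ (hp f hf), h'.agr h1 h2 _ (hp f hf)]
  ring

omit [CharZero Ω] in
/-- The exterior derivative of a basic form with coefficients in `H`. -/
lemma dd_tan {ι : Type} [Fintype ι] {ω : Fm C Ω} {a b : ι → Ω} (ha : ∀ i, a i ∈ m.H)
    (hb : ∀ i, b i ∈ m.H) (h : ∀ θ, ω θ = ∑ i, a i * θ (b i))
    (h0 : ∀ Z, d.Tn Z → ∀ θ, dd ω Z θ = 0) (hθ : m.Tan θ) (φ : Der C Ω) : dd ω θ φ = 0 := by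
  obtain ⟨Z, h1, h2⟩ := hθ
  rw [← h0 Z h1 φ, dd_rep h, dd_rep h]
  exact Finset.sum_congr rfl fun i _ => by rw [h2 _ (ha i), h2 _ (hb i)]

/-- Two mirrors with different pencils are independent. -/
lemma ind_H (hd : Amb d) (m' : Pt d) (h : d.J m.y m'.y ≠ 0) : Ind C (m.H : Set Ω) m'.H ∅ :=
  (ind_of_der (δ := d.nb m.y m'.y) (F := m'.H)
    (m'.pres_H hd (Two.tn_nb _ _) (by rw [Two.nb_one h]; exact one_mem _))
    fun f hf h0 => (bot_le : ⊥ ≤ cl C (∅ : Set Ω)) (m'.const hd (Two.tn_nb _ _)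
      (by rw [Two.nb_one h]; exact one_ne_zero) (m'.J_H hf) h0)).mono
    (fun f hf => by simp [Two.nb_apply, m.J_H hf]) subset_rfl

omit [CharZero Ω] in
lemma w_eq {m' : Pt d} (hx : m.x = m'.x) (hy : m.y = m'.y) : m.w = m'.w := by
  obtain ⟨Z, h1, h2⟩ := m.exists_one
  have := m.dx h1
  rw [hx, m'.dx h1, ← hy, h2] at this
  simpa using this.symm

omit [CharZero Ω] in
/-- Image of a mirror under an isometry. -/
def act (g : Iso C) : Pt d where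
  x := g.px m.x m.y
  y := g.py m.x m.y
  w := g.pw m.w
  w0 := mul_ne_zero (pow_ne_zero _ g.β0) (by split_ifs <;> simp [m.w0])
  ny := by
    have := g.β0 (Ω := Ω)
    have h1 := m.tan.1
    have h2 := m.tan.2
    have h3 := m.ny
    cases h : g.e <;> simp [Iso.py, h, Derivation.leibniz_inv, this, h1, h2, h3, m.w0]
  tan := by
    have := g.β0 (Ω := Ω)
    have h1 := m.tan.1
    have h2 := m.tan.2
    have h3 := m.w0
    cases h : g.e <;> constructor <;>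
      simp [Iso.px, Iso.py, Iso.pw, h, Derivation.leibniz_inv, h1, h2] <;> field_simp

end Pt

end Pool.Agent.MP_249f74_an.H96
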