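import Pool.Agent.MP_249f74_an.H96.Geo

/-!
Statements of the modules.
-/

open Set IntermediateField

namespace Pool.Agent.MP_249f74_an.H96

open H17 (Der Two Kr St)
open H88 (rk cl)

/-- Automorphisms moving one independent family to another one generating the same field. -/
def StmtAUT : Prop :=
  ∀ (C Ω : Type) [Field C] [Field Ω] [IsAlgClosed Ω] [Algebra C Ω] (M : IntermediateField C Ω)
    (ι : Type) (v v' : ι → Ω), AlgebraicIndependent M v → AlgebraicIndependent M v' →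
    adjoin M (range v) = adjoin M (range v') →
    ∃ σ : Ω ≃ₐ[C] Ω, (∀ a ∈ M, σ a = a) ∧ ∀ i, σ (v i) = v' i

/-- Independent copies. -/
def StmtCOPY : Prop :=
  ∀ (C Ω : Type) [Field C] [Field Ω] [CharZero Ω] [IsAlgClosed Ω] [Algebra C Ω] (S T : Set Ω),
    Big C Ω → S.Finite → T.Finite →
    ∃ σ : Ω ≃ₐ[C] Ω, (∀ a ∈ cl C T, σ a = a) ∧ Ind C (σ '' S) (S ∪ T) T

/-- Fields of definition of a closed form are stable under intersection. -/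
def StmtCH : Prop :=
  ∀ (C Ω : Type) [Field C] [Field Ω] [CharZero Ω] [IsAlgClosed Ω] [Algebra C Ω] (ω : Fm C Ω)
    (S T : Set Ω), Big C Ω → Cls ω → S.Finite → T.Finite → Van ω S → Van ω T →
    Van ω ((cl C S ⊓ cl C T : IntermediateField C Ω) : Set Ω)

/-- A Lie algebra of derivations and closed forms. -/
def StmtLIE : Prop :=
  ∀ (C Ω : Type) [Field C] [IsAlgClosed C] [Field Ω] [CharZero Ω] [Algebra C Ω]
    (M : IntermediateField C Ω) (s c : Ω) (G : Set (Der C Ω)) (ι : Type) [Fintype ι]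
    (ν : ι → Fm C Ω), s ∈ M → c ∈ M → 0 ∈ G → (∀ θ ∈ G, ∀ φ ∈ G, θ + φ ∈ G) →
    (∀ a ∈ M, ∀ θ ∈ G, a • θ ∈ G) → (∀ θ ∈ G, ∀ φ ∈ G, ⁅θ, φ⁆ ∈ G) → (∀ θ ∈ G, Pres M θ) →
    (∀ k, Cls (ν k)) → (∀ k, ∀ θ ∈ G, ν k θ ∈ M) →
    (∀ f ∈ M, f ∉ cl C {s, c} → ∃ θ ∈ G, θ s = 0 ∧ θ c = 0 ∧ (∀ k, ν k θ = 0) ∧ θ f ≠ 0) →
    ((∃ θ ∈ G, θ s = 1 ∧ θ c = 0 ∧ ∀ k, ν k θ = 0) ∧ ∃ θ ∈ G, θ s = 0 ∧ θ c = 1 ∧ ∀ k, ν k θ = 0) ∨
      ∃ κ1 ∈ cl C {s, c}, ∃ κ2 ∈ cl C {s, c}, ∃ lam : ι → C, (κ1 ≠ 0 ∨ κ2 ≠ 0 ∨ lam ≠ 0) ∧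
        ∀ θ ∈ G, κ1 * θ s + κ2 * θ c + ∑ k, algebraMap C Ω (lam k) * ν k θ = 0

/-- Doubling: a constant combination of the middle forms splits. -/
def StmtDBL : Prop :=
  ∀ (C Ω : Type) [Field C] [IsAlgClosed C] [Field Ω] [CharZero Ω] [IsAlgClosed Ω] [Algebra C Ω]
    (T SA SL : Set Ω) (s0 c0 s c t e x y : Ω) (Z : Der C Ω) (ι : Type) [Fintype ι]
    (ν ω γ : ι → Fm C Ω), Big C Ω → T.Finite → SA.Finite → SL.Finite →
    s0 ∈ cl C T → c0 ∈ cl C T → s ∈ cl C T → c ∈ cl C T → t ∈ cl C {s, c} → e ∈ cl C {s, c} →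
    s ∈ cl C {t, e} → c ∈ cl C {t, e} → x ∈ cl C SL → y ∈ cl C SL → x = e + t * y →
    Pres (cl C SL) Z → Z y = 1 → Z x ≠ t →
    (∀ f ∈ cl C SL, Z f = 0 → f ∈ (⊥ : IntermediateField C Ω)) → t ∉ cl C SL → y ∉ cl C T →
    (∀ k, Cls (ν k)) → (∀ k, Cls (γ k)) → (∀ k, ν k + ω k + γ k = 0) →
    (∀ k, Van (ν k) SL) → (∀ k, Van (ω k) SA) → (∀ k, Van (γ k) T) → (∀ k, ν k Z = 0) →
    (∀ θ : Der C Ω, (∀ k, ν k θ = 0) → Agr SL θ (θ y • Z)) →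
    Ind C SA T {s0, c0} → Ind C SL T {s, c} → (∃ k θ, ν k θ ≠ 0) →
    ∃ κ1 ∈ cl C {s, c}, ∃ κ2 ∈ cl C {s, c}, ∃ lam : ι → C, (κ1 ≠ 0 ∨ κ2 ≠ 0 ∨ lam ≠ 0) ∧
      ∀ θ : Der C Ω, θ s0 = 0 → θ c0 = 0 →
        κ1 * θ s + κ2 * θ c = ∑ k, algebraMap C Ω (lam k) * γ k θ

/-- Splitting of a basic form along independent mirrors. -/
def StmtSPL : Prop :=
  ∀ (C Ω : Type) [Field C] [Field Ω] [CharZero Ω] [Algebra C Ω] (d : Two C Ω) (ι : Type)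
    [Fintype ι] (m : ι → Pt d) (S : ι → Set Ω) (ν : Fm C Ω), Amb d → (∀ i, (S i).Finite) →
    (∀ i, S i ⊆ (m i).H) → (∀ t : ι → Der C Ω, ∃ θ : Der C Ω, ∀ i, (m i).Tan (θ - t i)) →
    (∀ θ, (∀ i, TanS d (S i) θ) → ν θ = 0) → (∀ Z, d.Tn Z → ∀ θ, dd ν Z θ = 0) →
    ∃ ω : ι → Fm C Ω, ∑ i, ω i = ν ∧ ∀ i, (∀ θ, TanS d (S i) θ → ω i θ = 0) ∧
      (∀ θ, (m i).Tan θ → ∀ φ, dd (ω i) θ φ = 0) ∧
      ∃ (n : ℕ) (a b : Fin n → Ω), (∀ j, a j ∈ (m i).H) ∧ (∀ j, b j ∈ S i) ∧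
        ∀ θ, ω i θ = ∑ j, a j * θ (b j)

/-- Coordinate derivations on the constants of a pencil. -/
def StmtPEN : Prop :=
  ∀ (C Ω : Type) [Field C] [Field Ω] [CharZero Ω] [Algebra C Ω] (d : Two C Ω)
    (K : IntermediateField C Ω) (s c y : Ω) (ds dc : Der C Ω), Amb d → Pen d K s c y ds dc →
    (ds - y • dc) y = 0 → Pres (K ⊔ C⟮y⟯) (ds - y • dc) ∧ ∃ P Q : Der C Ω, Kil K (Q + s • P) ∧
      Pres (K ⊔ C⟮y⟯) P ∧ Pres (K ⊔ C⟮y⟯) Q ∧ Pres ((K ⊔ C⟮y⟯) ⊓ Kr (ds - y • dc)) P ∧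
      Pres ((K ⊔ C⟮y⟯) ⊓ Kr (ds - y • dc)) Q ∧ (∀ f ∈ K ⊔ C⟮y⟯, P (Q f) = Q (P f)) ∧
      P s = 0 ∧ Q s = 0 ∧ P y = 0 ∧ Q y = 1 ∧ P (c + s * y) = 1 ∧ Q (c + s * y) = 0 ∧
      ∀ f ∈ (K ⊔ C⟮y⟯) ⊓ Kr (ds - y • dc), P f = 0 → Q f = 0 → f ∈ (⊥ : IntermediateField C Ω)

/-- A function which is rational on a generic line is algebraic. -/
def StmtFREE : Prop :=
  ∀ (C Ω : Type) [Field C] [Field Ω] [CharZero Ω] [IsAlgClosed Ω] [Algebra C Ω] (d : Two C Ω)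
    (K : IntermediateField C Ω) (s c y : Ω) (ds dc : Der C Ω), Amb d → Pen d K s c y ds dc →
    (ds - y • dc) y = 0 → ∀ r ∈ K ⊔ C⟮y⟯, (ds - y • dc) r = 0 → r ∈ cl C {c + s * y, y}

/-- A transcendental point can be deformed freely. -/
def StmtSTEP : Prop :=
  ∀ (C Ω : Type) [Field C] [Field Ω] [CharZero Ω] [IsAlgClosed Ω] [Algebra C Ω] (d : Two C Ω)
    (K : IntermediateField C Ω) (s c : Ω) (ds dc : Der C Ω) (m : Pt d), Amb d →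
    Pen d K s c m.y ds dc → m.x = c + s * m.y → m.w ≠ s →
    ∀ θ t : Der C Ω, ∃ φ : Der C Ω, Agr K φ θ ∧ m.Tan (φ - t)

/-- Perfect focusing is an isometry. -/
def StmtFOC : Prop :=
  ∀ (C Ω : Type) [Field C] [Field Ω] [CharZero Ω] [Algebra C Ω] (d : Two C Ω)
    (K : IntermediateField C Ω) (z c y z' c' κ x' y' : Ω) (ds dc : Der C Ω), Amb d →
    Pen d K (z ^ 2) c y ds dc → (ds - y • dc) y = 0 → z ∈ K → z' ∈ K → c' ∈ K → κ ∈ K → x' = c' + z' ^ 2 * y' →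
    d.J (z' ^ 2) c' ≠ 0 → (ds - y • dc) x' = 0 → (ds - y • dc) y' = 0 →
    (ds - y • dc) (κ - z * y + z' * y') = 0 →
    ∃ g : Iso C, x' = g.px (c + z ^ 2 * y) y ∧ y' = g.py (c + z ^ 2 * y) y ∧ z' = g.pz z

/-- First integrals of the flow along lines have no poles at points of tangency. -/
def StmtPOLE : Prop :=
  ∀ (C Ω : Type) [Field C] [Field Ω] [CharZero Ω] [Algebra C Ω] (F : IntermediateField C Ω)
    (P Q X : Der C Ω) (t w N : Ω) (u v : Polynomial Ω), Pres F P → Pres F Q →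
    t ∉ cl C (F : Set Ω) → (∀ f ∈ F, X f = Q f + t * P f) → X t = 0 → w ∈ F → Q w + w * P w ≠ 0 →
    (∀ i, u.coeff i ∈ F) → (∀ i, v.coeff i ∈ F) → X N = 0 → N * u.eval t = v.eval t →
    u.eval w = 0 → v.eval w = 0

/-- The foliation by confocal conics has algebraic leaves. -/
def StmtCONIC : Prop :=
  ∀ (C Ω : Type) [Field C] [Field Ω] [CharZero Ω] [Algebra C Ω] (k : IntermediateField C Ω)
    (P Q : Der C Ω) (x y w A B : Ω), Pres k P → Pres k Q → (∀ f ∈ k, P (Q f) = Q (P f)) →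
    x ∈ k → y ∈ k → w ∈ k → w ≠ 0 → P x = 1 → P y = 0 → Q x = 0 → Q y = 1 →
    (∀ f ∈ k, Q f + w * P f = 0 → P f = 0) → Q w = w * A → P w = w * B → A + w * B ≠ 0 →
    P A = 0 → Q B = 0 → Q A + 2 * w ^ 2 * B ^ 2 + w ^ 2 * P B = 2 * A ^ 2 → False

/-- The data of the equation at a transcendental mirror. -/
structure Pde {C Ω : Type} [Field C] [Field Ω] [Algebra C Ω] {d : Two C Ω} (m : Pt d)
    (t κ1 κ2 : Ω) (ω : Fm C Ω) : Prop where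
  tr : m.Tr
  nd : d.J m.y t ≠ 0
  k1 : κ1 ∈ cl C {t, m.x - t * m.y}
  k2 : κ2 ∈ cl C {t, m.x - t * m.y}
  rep : ∃ (n : ℕ) (a b : Fin n → Ω), (∀ j, a j ∈ m.H) ∧ (∀ j, b j ∈ m.H) ∧
    ∀ θ, ω θ = ∑ j, a j * θ (b j)
  bas : ∀ Z, d.Tn Z → ω Z = 0
  rel : ∀ θ : Der C Ω, θ (m.w ^ 2 / t) = 0 → θ (m.x - m.w ^ 2 / t * m.y) = 0 →
    κ1 * θ t + κ2 * θ (m.x - t * m.y) = ω θ

/-- Mirrors of order at least two. -/
def StmtPDEA : Prop :=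
  ∀ (C Ω : Type) [Field C] [Field Ω] [CharZero Ω] [Algebra C Ω] (d : Two C Ω) (m : Pt d)
    (t κ1 κ2 : Ω) (ω : Fm C Ω), Amb d → Pde m t κ1 κ2 ω → m.w ∉ cl C {m.x, m.y} → κ1 = 0 ∧ κ2 = 0

/-- Leaves of algebraic foliations of the plane. -/
def StmtPDEB : Prop :=
  ∀ (C Ω : Type) [Field C] [Field Ω] [CharZero Ω] [Algebra C Ω] (d : Two C Ω) (m : Pt d)
    (t κ1 κ2 : Ω) (ω : Fm C Ω), Amb d → Pde m t κ1 κ2 ω → m.w ∈ cl C {m.x, m.y} → κ1 = 0 ∧ κ2 = 0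

/-- Adjoining a fundamental solution of a linear system and infinitely many independent elements. -/
def StmtPV : Prop :=
  ∀ (C Ω : Type) [Field C] [Field Ω] [CharZero Ω] [Algebra C Ω] (d : Two C Ω) (y : Ω) (ι : Type)
    [Fintype ι] [DecidableEq ι] (A : ι → ι → Ω), Amb d → (d.d0 y ≠ 0 ∨ d.d1 y ≠ 0) →
    (∀ j k, d.J y (A j k) = 0) →
    ∃ (C' Ω' : Type) (_ : Field C') (_ : IsAlgClosed C') (_ : Field Ω') (_ : CharZero Ω')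
      (_ : IsAlgClosed Ω') (_ : Algebra C' Ω') (_ : Algebra C C') (_ : Algebra C Ω')
      (_ : IsScalarTower C C' Ω') (d' : Two C' Ω') (i : Ω →ₐ[C] Ω') (u : Matrix ι ι Ω'),
      Amb d' ∧ Big C' Ω' ∧ (∀ f, d'.d0 (i f) = i (d.d0 f)) ∧ (∀ f, d'.d1 (i f) = i (d.d1 f)) ∧
        u.det ≠ 0 ∧ ∀ k j, d'.Sl (i y) (u k j) (-∑ r, u k r * i (A r j))

/-- Transfer along an extension of differential fields. -/
def StmtTRF : Prop :=
  ∀ (C Ω C' Ω' : Type) [Field C] [Field Ω] [CharZero Ω] [Algebra C Ω] [Field C'] [Field Ω']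
    [CharZero Ω'] [Algebra C' Ω'] [Algebra C C'] [Algebra C Ω'] [IsScalarTower C C' Ω']
    (d : Two C Ω) (d' : Two C' Ω') (i : Ω →ₐ[C] Ω'), Amb d →
    (∀ f, d'.d0 (i f) = i (d.d0 f)) → (∀ f, d'.d1 (i f) = i (d.d1 f)) →
    (∀ (S : Set Ω) (f : Ω), f ∈ cl C S → i f ∈ cl C' (i '' S)) ∧
    (∀ (y : Ω) (ι : Type) (v : ι → Ω), (d.d0 y ≠ 0 ∨ d.d1 y ≠ 0) → (∀ j, d.J y (v j) = 0) →
      AlgebraicIndependent C v → AlgebraicIndependent C' (i ∘ v)) ∧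
    ∀ (ι : Type) [Fintype ι] (v a : ι → Ω) (f : Ω), f ∈ cl C (range v) →
      (∀ θ : Der C Ω, θ f = ∑ j, a j * θ (v j)) → AlgebraicIndependent C v →
      ∀ θ : Der C' Ω', θ (i f) = ∑ j, i (a j) * θ (i (v j))

/-- Properties of points of algebraic mirrors. -/
def Prp : Type 1 := ∀ (C Ω : Type) [Field C] [Field Ω] [Algebra C Ω], Ω → Ω → Prop

/-- Invariance under isometries and under change of fields. -/
structure Prp.Ok (p : Prp) : Prop where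
  iso : ∀ (C Ω : Type) [Field C] [Field Ω] [Algebra C Ω] (g : Iso C) (x y : Ω),
    p C Ω x y → p C Ω (g.px x y) (g.py x y)
  ext : ∀ (C Ω C' Ω' : Type) [Field C] [IsAlgClosed C] [Field Ω] [CharZero Ω] [Algebra C Ω]
    [Field C'] [Field Ω'] [Algebra C' Ω'] [Algebra C C'] [Algebra C Ω'] [IsScalarTower C C' Ω']
    (i : Ω →ₐ[C] Ω') (x y : Ω), x ∈ cl C {y} → i y ∉ cl C' (∅ : Set Ω') →
    p C Ω x y → p C' Ω' (i x) (i y)
  res : ∀ (C Ω Ω' : Type) [Field C] [Field Ω] [Algebra C Ω] [Field Ω'] [Algebra C Ω']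
    (i : Ω →ₐ[C] Ω') (x y : Ω), p C Ω' (i x) (i y) → p C Ω x y

/-- Positive lengths, and the algebraic mirrors have the property. -/
structure Adm (p : Prp) {C Ω : Type} [Field C] [Field Ω] [Algebra C Ω] {d : Two C Ω} (P : Set Ω)
    (m : ℕ → Pt d) (l : ℕ → Ω) (n : ℕ) : Prop where
  pos : Pos P
  hl : ∀ i < n, l i ∈ P
  hp : ∀ i ≤ n, ¬(m i).Tr → p C Ω (m i).x (m i).y

/-- No twisted periodic family with algebraic mirrors only. -/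
def StmtA (p : Prp) : Prop :=
  ∀ (C Ω : Type) [Field C] [IsAlgClosed C] [Field Ω] [CharZero Ω] [IsAlgClosed Ω] [Algebra C Ω]
    (d : Two C Ω) (g : Iso C) (m : ℕ → Pt d) (z l : ℕ → Ω) (n : ℕ) (P : Set Ω), Amb d →
    Tw g m z l n → Adm p P m l (n + 1) → (∀ i ≤ n + 1, ¬(m i).Tr) → False

/-- No twisted periodic family with `n + 1` reflections. -/
def StmtS (p : Prp) (n : ℕ) : Prop :=
  ∀ (C Ω : Type) [Field C] [IsAlgClosed C] [Field Ω] [CharZero Ω] [IsAlgClosed Ω] [Algebra C Ω]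
    (d : Two C Ω) (g : Iso C) (m : ℕ → Pt d) (z l : ℕ → Ω) (P : Set Ω), Amb d →
    Tw g m z l n → Adm p P m l (n + 1) → False

/-- Chains with `n` segments can be deformed freely. -/
def StmtD (p : Prp) (n : ℕ) : Prop :=
  ∀ (C Ω : Type) [Field C] [IsAlgClosed C] [Field Ω] [CharZero Ω] [IsAlgClosed Ω] [Algebra C Ω]
    (d : Two C Ω) (m : ℕ → Pt d) (z l : ℕ → Ω) (P : Set Ω), Amb d →
    Ch m z l n → Adm p P m l n → Dec m n

/-- A finite basis for the last mirror. -/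
def StmtBAS : Prop :=
  ∀ (C Ω : Type) [Field C] [Field Ω] [CharZero Ω] [Algebra C Ω] (d : Two C Ω) (m : ℕ → Pt d)
    (z l : ℕ → Ω) (n : ℕ), Amb d → Ch m z l (n + 1) → (m (n + 1)).Tr →
    d.J (m 0).y (m (n + 1)).y ≠ 0 → Dec (fun i => m (i + 1)) n →
    (m (n + 1)).y ∈ cl C (Inn m z (HS m) (n + 1) ∪ HS m 0) →
    ∃ (r : ℕ) (b b' : Fin r → Ω),
      AlgebraicIndependent C (fun o : Option (Fin r) => o.elim (m (n + 1)).y b) ∧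
      (m (n + 1)).x ∈ cl C (insert (m (n + 1)).y (range b)) ∧
      ∀ j, d.J (m (n + 1)).y (b j) = 0 ∧ b j ∈ cl C (Inn m z (HS m) (n + 1) ∪ HS m 0) ∧
        b' j ∈ cl C (insert (m (n + 1)).y (range b)) ∧ d.Sl (m (n + 1)).y (b j) (b' j)

/-- The non-focusing case in a large field. -/
def StmtNF2 : Prop :=
  ∀ (C Ω : Type) [Field C] [IsAlgClosed C] [Field Ω] [CharZero Ω] [IsAlgClosed Ω] [Algebra C Ω]
    (d : Two C Ω) (m : ℕ → Pt d) (z l : ℕ → Ω) (n r : ℕ) (b b' A0 : Fin r → Ω)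
    (A u : Matrix (Fin r) (Fin r) Ω), Amb d → Big C Ω → Ch m z l (n + 1) → (m (n + 1)).Tr →
    d.J (m 0).y (m (n + 1)).y ≠ 0 → Dec m n → Dec (fun i => m (i + 1)) n →
    (m (n + 1)).y ∈ cl C (Inn m z (HS m) (n + 1) ∪ HS m 0) →
    AlgebraicIndependent C (fun o : Option (Fin r) => o.elim (m (n + 1)).y b) →
    (m (n + 1)).x ∈ cl C (insert (m (n + 1)).y (range b)) →
    (∀ j, d.J (m (n + 1)).y (b j) = 0 ∧ b j ∈ cl C (Inn m z (HS m) (n + 1) ∪ HS m 0) ∧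
      b' j ∈ cl C (insert (m (n + 1)).y (range b)) ∧ d.Sl (m (n + 1)).y (b j) (b' j)) →
    (∀ j, ∀ θ : Der C Ω, θ (b' j) = A0 j * θ (m (n + 1)).y + ∑ k, A j k * θ (b k)) →
    u.det ≠ 0 → (∀ k j, d.Sl (m (n + 1)).y (u k j) (-∑ i, u k i * A i j)) → False

/-- The non-focusing case. -/
def StmtNF (p : Prp) (n : ℕ) : Prop :=
  ∀ (C Ω : Type) [Field C] [IsAlgClosed C] [Field Ω] [CharZero Ω] [IsAlgClosed Ω] [Algebra C Ω]
    (d : Two C Ω) (m : ℕ → Pt d) (z l : ℕ → Ω) (P : Set Ω), Amb d →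
    Ch m z l (n + 1) → Adm p P m l (n + 1) → (m (n + 1)).Tr → d.J (m 0).y (m (n + 1)).y ≠ 0 →
    (m (n + 1)).y ∉ cl C (Inn m z (HS m) (n + 1) ∪ HS m 0)

/-- The curve does not pass through the point at infinity of the `y` axis. -/
def NC1 (C : Type) {Ω : Type} [Field C] [Field Ω] [Algebra C Ω] (x y : Ω) : Prop :=
  ∃ N : ℕ, y ^ N ∈ Submodule.span C {f : Ω | ∃ i j : ℕ, i + j ≤ N ∧ j < N ∧ f = x ^ i * y ^ j}

/-- The curve passes through neither of the circular points. -/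
def NC : Prp := fun C _ _ _ _ x y => NC1 C x y ∧ NC1 C y x

/-- Closed families in the setting of jets. -/
def StmtQ (p : Prp) (n : ℕ) : Prop :=
  ∀ (C Ω : Type) [Field C] [CharZero C] [IsAlgClosed C] [Field Ω] [CharZero Ω] [IsAlgClosed Ω]
    [Algebra C Ω] (d : Two C Ω) (m : Fin (n + 1) → H17.Mir d) (z l : Fin (n + 1) → Ω) (P : Set Ω),
    (∀ f, d.d0 f = 0 → d.d1 f = 0 → f ∈ (⊥ : IntermediateField C Ω)) →
    (∀ i, H17.Edge (m i) (m (i + 1)) (z i) (l i)) → (∀ i, z i * z (i + 1) = (m (i + 1)).w) →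
    Pos P → (∀ i, l i ∈ P) → (∀ i, (m i).x ∈ cl C {(m i).y} → p C Ω (m i).x (m i).y) → False

/-- Derivative along the level curves of `f`. -/
noncomputable def tg (f g : EuclideanSpace ℝ (Fin 2) → ℝ) : EuclideanSpace ℝ (Fin 2) → ℝ :=
  fun x => fderiv ℝ g x !₂[-gradient f x 1, gradient f x 0]

/-- The polynomial vanishes to infinite order along the level curve of `f` at `q`. -/
def Tang (f : EuclideanSpace ℝ (Fin 2) → ℝ) (q : EuclideanSpace ℝ (Fin 2))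
    (P : MvPolynomial (Fin 2) ℝ) : Prop :=
  ∀ n : ℕ, (tg f)^[n] (fun x => MvPolynomial.eval (fun j => x j) P) q = 0

/-- The top form is divisible by `x ^ 2 + y ^ 2`. -/
def Circ (P : MvPolynomial (Fin 2) ℝ) : Prop :=
  MvPolynomial.X 0 ^ 2 + MvPolynomial.X 1 ^ 2 ∣ MvPolynomial.homogeneousComponent P.totalDegree P

/-- Irreducible factors of a tangent polynomial. -/
def StmtIRR : Prop :=
  ∀ f : EuclideanSpace ℝ (Fin 2) → ℝ, ContDiff ℝ ((⊤ : ℕ∞) : WithTop ℕ∞) f →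
    ∀ q P, P ≠ 0 → Tang f q P → ∃ Q, Irreducible Q ∧ Tang f q Q

/-- Periodic points of period `n` without circular jets. -/
def Final (n : ℕ) : Prop :=
  ∀ f : EuclideanSpace ℝ (Fin 2) → ℝ, ContDiff ℝ ((⊤ : ℕ∞) : WithTop ℕ∞) f →
    dimH {q : EuclideanSpace ℝ (Fin 2) × EuclideanSpace ℝ (Fin 2) |
      ∃ p u : ℕ → EuclideanSpace ℝ (Fin 2),
        p 0 = q.1 ∧ u 0 = q.2 ∧ p n = q.1 ∧ u n = q.2 ∧
        ∀ k < n, f (p k) = 0 ∧ ‖u k‖ = 1 ∧ inner ℝ (u k) (gradient f (p k)) < 0 ∧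
          (∃ t : ℝ, 0 < t ∧ p (k + 1) = p k + t • u k) ∧
          u (k + 1) = u k - (2 * inner ℝ (u k) (gradient f (p (k + 1))) /
              ‖gradient f (p (k + 1))‖ ^ 2) • gradient f (p (k + 1)) ∧
          ∀ P, P ≠ 0 → Tang f (p k) P → ∃ Q, Tang f (p k) Q ∧ ¬Circ Q} ≤ 1

end Pool.Agent.MP_249f74_an.H96
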